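import Pool.Agent.Work.MP_8c67d3_co.Defs

/-!
# Basic lemmas on combinatorial maps (shared by all blocks)
-/

set_option autoImplicit false

namespace Tess

namespace CMap

variable {D : Type} (M : CMap D)

@[simp] theorem inv_inv' (d : D) : M.inv (M.inv d) = d := M.inv_inv d

@[simp] theorem inv_symm_apply (d : D) : M.inv.symm d = M.inv d := by
  rw [Equiv.symm_apply_eq, M.inv_inv]

theorem inv_eq_iff {d e : D} : M.inv d = e ↔ d = M.inv e := by
  constructor
  · rintro rfl; simp
  · rintro rfl; simp

theorem face_apply (d : D) : M.face d = M.inv (M.rot d) := rfl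

theorem face_symm_apply (d : D) : M.face.symm d = M.rot.symm (M.inv d) := by
  rw [Equiv.symm_apply_eq, face_apply]; simp

/-! ### vertices and faces -/

theorem vert_eq_iff {d e : D} : M.vert d = M.vert e ↔ M.rot.SameCycle d e := by
  unfold vert
  constructor
  · intro h
    exact Quotient.exact h
  · intro h
    exact Quotient.sound (s := Equiv.Perm.SameCycle.setoid M.rot) h

theorem fac_eq_iff {d e : D} : M.fac d = M.fac e ↔ M.face.SameCycle d e := by
  unfold fac
  constructor
  · intro h
    exact Quotient.exact h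
  · intro h
    exact Quotient.sound (s := Equiv.Perm.SameCycle.setoid M.face) h

@[simp] theorem vert_rot (d : D) : M.vert (M.rot d) = M.vert d := by
  rw [vert_eq_iff]
  exact (Equiv.Perm.sameCycle_apply_left).2 (Equiv.Perm.SameCycle.refl _ _)

@[simp] theorem vert_rot_symm (d : D) : M.vert (M.rot.symm d) = M.vert d := by
  conv_rhs => rw [← M.rot.apply_symm_apply d]
  rw [vert_rot]

@[simp] theorem fac_face (d : D) : M.fac (M.face d) = M.fac d := by
  rw [fac_eq_iff]
  exact (Equiv.Perm.sameCycle_apply_left).2 (Equiv.Perm.SameCycle.refl _ _)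

theorem fac_inv_rot (d : D) : M.fac (M.inv (M.rot d)) = M.fac d := M.fac_face d

theorem fac_inv (d : D) : M.fac (M.inv d) = M.fac (M.rot.symm d) := by
  rw [← M.fac_inv_rot (M.rot.symm d)]; simp

theorem vert_surj (v : M.V) : ∃ d, M.vert d = v := Quotient.exists_rep v

theorem fac_surj (f : M.F) : ∃ d, M.fac d = f := Quotient.exists_rep f

@[simp] theorem vert_rot_pow (i : ℕ) (d : D) : M.vert ((M.rot ^ i) d) = M.vert d := by
  induction i with
  | zero => simp
  | succ n ih => rw [pow_succ', Equiv.Perm.mul_apply, vert_rot, ih]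

@[simp] theorem fac_face_pow (i : ℕ) (d : D) : M.fac ((M.face ^ i) d) = M.fac d := by
  induction i with
  | zero => simp
  | succ n ih => rw [pow_succ', Equiv.Perm.mul_apply, fac_face, ih]

end CMap

/-! ### orbits of permutations with finite periods -/

section Orbit

variable {D : Type} (π : Equiv.Perm D)

theorem iterate_eq_pow' (i : ℕ) (d : D) : (π : D → D)^[i] d = (π ^ i) d := by
  rw [Equiv.Perm.iterate_eq_pow]

theorem pow_minimalPeriod (d : D) : (π ^ Function.minimalPeriod π d) d = d := by
  rw [← iterate_eq_pow']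
  exact Function.iterate_minimalPeriod

theorem pow_mod_minimalPeriod (i : ℕ) (d : D) :
    (π ^ (i % Function.minimalPeriod π d)) d = (π ^ i) d := by
  rw [← iterate_eq_pow', ← iterate_eq_pow']
  exact Function.iterate_mod_minimalPeriod_eq

/-- In a finite orbit, `SameCycle` is witnessed by a power smaller than the period. -/
theorem sameCycle_iff_exists_lt {d e : D} (h : 0 < Function.minimalPeriod π d) :
    π.SameCycle d e ↔ ∃ i < Function.minimalPeriod π d, (π ^ i) d = e := by
  constructor
  · rintro ⟨i, rfl⟩
    set p := Function.minimalPeriod π d with hp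
    refine ⟨(i % (p : ℤ)).toNat, ?_, ?_⟩
    · have h1 : i % (p : ℤ) < p := Int.emod_lt_of_pos _ (by exact_mod_cast h)
      have h0 : 0 ≤ i % (p : ℤ) := Int.emod_nonneg _ (by omega)
      omega
    · have h0 : 0 ≤ i % (p : ℤ) := Int.emod_nonneg _ (by omega)
      have hz : (π ^ (i % (p : ℤ)).toNat) d = (π ^ (i % (p : ℤ))) d := by
        conv_rhs => rw [← Int.toNat_of_nonneg h0]
        rw [zpow_natCast]
      rw [hz]
      have hper : (π ^ (p : ℤ)) d = d := by
        rw [zpow_natCast]; exact pow_minimalPeriod π d
      have hmul : ∀ q : ℤ, (π ^ ((p : ℤ) * q)) d = d := by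
        intro q
        rw [zpow_mul]
        have hfix : Function.IsFixedPt (π ^ (p : ℤ)) d := hper
        exact (hfix.perm_zpow q)
      conv_rhs => rw [← Int.emod_add_mul_ediv i (p : ℤ)]
      rw [zpow_add, Equiv.Perm.mul_apply, hmul]
  · rintro ⟨i, -, rfl⟩
    exact ⟨i, by rw [zpow_natCast]⟩

theorem pow_injOn_minimalPeriod (d : D) :
    Set.InjOn (fun i : ℕ => (π ^ i) d) {i | i < Function.minimalPeriod π d} := by
  intro i hi j hj hij
  have := Function.iterate_injOn_Iio_minimalPeriod (f := (π : D → D)) (x := d)
  apply this hi hj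
  simpa only [iterate_eq_pow'] using hij

theorem minimalPeriod_pow_apply (i : ℕ) (d : D) :
    Function.minimalPeriod π ((π ^ i) d) = Function.minimalPeriod π d := by
  have hinj : Function.Injective (π : D → D) := π.injective
  by_cases h : 0 < Function.minimalPeriod π d
  · have := Function.minimalPeriod_apply_iterate
      (Function.minimalPeriod_pos_iff_mem_periodicPts.1 h) i
    rw [← this, iterate_eq_pow']
  · have h0 : Function.minimalPeriod π d = 0 := by omega
    rw [h0]
    by_contra h1
    have h2 : 0 < Function.minimalPeriod π ((π ^ i) d) := Nat.pos_of_ne_zero h1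
    apply h
    apply Function.IsPeriodicPt.minimalPeriod_pos h2
    have h3 : Function.IsPeriodicPt π (Function.minimalPeriod π ((π ^ i) d)) ((π ^ i) d) :=
      Function.isPeriodicPt_minimalPeriod _ _
    unfold Function.IsPeriodicPt Function.IsFixedPt at h3 ⊢
    rw [iterate_eq_pow'] at h3 ⊢
    rw [← Equiv.Perm.mul_apply, ← pow_add, add_comm, pow_add, Equiv.Perm.mul_apply] at h3
    exact (π ^ i).injective h3

theorem minimalPeriod_apply_self (d : D) :
    Function.minimalPeriod π (π d) = Function.minimalPeriod π d := by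
  simpa using minimalPeriod_pow_apply π 1 d

theorem sameCycle_setOf_eq_image {d : D} (h : 0 < Function.minimalPeriod π d) :
    {e | π.SameCycle d e} =
      (fun i : ℕ => (π ^ i) d) '' {i | i < Function.minimalPeriod π d} := by
  ext e
  rw [Set.mem_ofPred_eq, sameCycle_iff_exists_lt π h]
  simp only [Set.mem_image, Set.mem_ofPred_eq]

theorem finite_sameCycle {d : D} (h : 0 < Function.minimalPeriod π d) :
    {e | π.SameCycle d e}.Finite := by
  rw [sameCycle_setOf_eq_image π h]
  exact (Set.finite_lt_nat _).image _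

theorem ncard_sameCycle {d : D} (h : 0 < Function.minimalPeriod π d) :
    {e | π.SameCycle d e}.ncard = Function.minimalPeriod π d := by
  rw [sameCycle_setOf_eq_image π h, (pow_injOn_minimalPeriod π d).ncard_image]
  have : {i | i < Function.minimalPeriod π d} = ↑(Finset.range (Function.minimalPeriod π d)) := by
    ext i; simp
  rw [this, Set.ncard_coe_finset, Finset.card_range]

end Orbit

namespace CMap

variable {D : Type} (M : CMap D)

theorem vert_eq_iff_lt {d e : D} (h : 0 < M.val d) :
    M.vert d = M.vert e ↔ ∃ i < M.val d, (M.rot ^ i) d = e := by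
  rw [vert_eq_iff]; exact sameCycle_iff_exists_lt _ h

theorem fac_eq_iff_lt {d e : D} (h : 0 < Function.minimalPeriod M.face d) :
    M.fac d = M.fac e ↔ ∃ i < Function.minimalPeriod M.face d, (M.face ^ i) d = e := by
  rw [fac_eq_iff]; exact sameCycle_iff_exists_lt _ h

theorem setOf_vert_eq (d : D) : {e | M.vert e = M.vert d} = {e | M.rot.SameCycle d e} := by
  ext e
  simp only [Set.mem_ofPred_eq]
  rw [vert_eq_iff]
  exact ⟨fun h => h.symm, fun h => h.symm⟩

theorem setOf_fac_eq (d : D) : {e | M.fac e = M.fac d} = {e | M.face.SameCycle d e} := by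
  ext e
  simp only [Set.mem_ofPred_eq]
  rw [fac_eq_iff]
  exact ⟨fun h => h.symm, fun h => h.symm⟩

theorem finite_vert {d : D} (h : 0 < M.val d) : {e | M.vert e = M.vert d}.Finite := by
  rw [setOf_vert_eq]; exact finite_sameCycle _ h

theorem ncard_vert {d : D} (h : 0 < M.val d) : {e | M.vert e = M.vert d}.ncard = M.val d := by
  rw [setOf_vert_eq]; exact ncard_sameCycle _ h

theorem finite_fac {d : D} (h : 0 < Function.minimalPeriod M.face d) :
    {e | M.fac e = M.fac d}.Finite := by
  rw [setOf_fac_eq]; exact finite_sameCycle _ h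

theorem ncard_fac {d : D} (h : 0 < Function.minimalPeriod M.face d) :
    {e | M.fac e = M.fac d}.ncard = Function.minimalPeriod M.face d := by
  rw [setOf_fac_eq]; exact ncard_sameCycle _ h

theorem val_rot (d : D) : M.val (M.rot d) = M.val d := minimalPeriod_apply_self _ d

theorem val_eq_of_vert_eq {d e : D} (h : M.vert d = M.vert e) : M.val d = M.val e := by
  rw [vert_eq_iff] at h
  obtain ⟨i, rfl⟩ := h
  unfold val
  rcases Int.eq_nat_or_neg i with ⟨n, rfl | rfl⟩
  · rw [zpow_natCast, minimalPeriod_pow_apply]
  · have := minimalPeriod_pow_apply M.rot n ((M.rot ^ (-(n : ℤ))) d)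
    rw [← this]
    congr 1
    rw [zpow_neg, zpow_natCast, ← Equiv.Perm.mul_apply, mul_inv_cancel]; simp

/-- A property which is invariant under `rot` and `inv` and holds for one dart holds for all the
darts of a connected map. -/
theorem induction_dart (hc : ∀ u v, M.Reach ∅ u v) {P : D → Prop}
    (hrot : ∀ d, P d ↔ P (M.rot d)) (hinv : ∀ d, P d → P (M.inv d)) (d₀ : D) (h₀ : P d₀) :
    ∀ d, P d := by
  have hz : ∀ (i : ℤ) (d : D), P d ↔ P ((M.rot ^ i) d) := by
    intro i
    induction i using Int.induction_on with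
    | zero => intro d; simp
    | succ n ih =>
      intro d
      rw [zpow_add, zpow_one, Equiv.Perm.mul_apply, ← ih, ← hrot]
    | pred n ih =>
      intro d
      rw [zpow_sub, zpow_one, Equiv.Perm.mul_apply, ← ih, hrot (M.rot⁻¹ d)]
      simp
  have hv : ∀ d e, M.vert d = M.vert e → P d → P e := by
    intro d e h hd
    rw [vert_eq_iff] at h
    obtain ⟨i, rfl⟩ := h
    exact (hz i d).1 hd
  have key : ∀ v, M.Reach ∅ (M.vert d₀) v → ∀ d, M.vert d = v → P d := by
    intro v hr
    induction hr with
    | refl => intro d hd; exact hv _ _ hd.symm h₀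
    | tail hab hbc ih =>
      intro d hd
      obtain ⟨⟨e, he, he'⟩, -⟩ := hbc
      exact hv _ _ (he'.trans hd.symm) (hinv _ (ih e he))
  intro d
  exact key _ (hc _ _) d rfl

end CMap

end Tess
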