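import Pool.Agent.Work.MP_8c67d3_co.BlockQ

/-!
# Block B: no deep dead ends

Chains of corners modulo 2, coning of the boundary of a ball to the root by thin loops.
-/

set_option autoImplicit false

namespace Tess

namespace BlockB

open Finsupp

variable {D : Type} {M : CMap D}

theorem zmod2_cases (a : ZMod 2) : a = 0 ∨ a = 1 := by
  revert a; decide

theorem zmod2_ne_zero {a : ZMod 2} (h : a ≠ 0) : a = 1 := (zmod2_cases a).resolve_left h

theorem dbl {G : Type} [AddCommGroup G] [Module (ZMod 2) G] (x : G) : x + x = 0 :=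
  ZModModule.add_self x

/-- Boundary of a chain of corners. -/
noncomputable def d1 (M : CMap D) : (D →₀ ZMod 2) →ₗ[ZMod 2] ((M.V ⊕ M.F) →₀ ZMod 2) :=
  Finsupp.lmapDomain (ZMod 2) (ZMod 2) (fun d => Sum.inl (M.vert d)) +
    Finsupp.lmapDomain (ZMod 2) (ZMod 2) (fun d => Sum.inr (M.fac d))

theorem d1_apply (z : D →₀ ZMod 2) :
    d1 M z = Finsupp.mapDomain (fun d => Sum.inl (M.vert d)) z +
      Finsupp.mapDomain (fun d => Sum.inr (M.fac d)) z := rfl

theorem d1_single (c : D) :
    d1 M (single c 1) = single (Sum.inl (M.vert c)) 1 + single (Sum.inr (M.fac c)) 1 := by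
  rw [d1_apply, Finsupp.mapDomain_single, Finsupp.mapDomain_single]

theorem mapDomain_eval {β : Type} [DecidableEq β] (g : D → β) (z : D →₀ ZMod 2) (u : β) :
    Finsupp.mapDomain g z u = ((z.support.filter fun d => g d = u).card : ZMod 2) := by
  unfold Finsupp.mapDomain Finsupp.sum
  rw [Finsupp.finsetSum_apply]
  simp only [Finsupp.single_apply]
  rw [← Finset.sum_filter, Finset.card_eq_sum_ones, Nat.cast_sum]
  apply Finset.sum_congr rfl
  intro d hd
  rw [Finset.mem_filter, Finsupp.mem_support_iff] at hd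
  rw [zmod2_ne_zero hd.1]; simp

theorem even_of_mapDomain {β : Type} (g : D → β) (z : D →₀ ZMod 2) (u : β)
    (h : Finsupp.mapDomain g z u = 0) : Even {d | d ∈ z.support ∧ g d = u}.ncard := by
  classical
  rw [mapDomain_eval] at h
  have h1 : {d | d ∈ z.support ∧ g d = u} = ↑(z.support.filter fun d => g d = u) := by
    ext d; simp
  rw [h1, Set.ncard_coe_finset]
  exact (ZMod.natCast_eq_zero_iff_even).1 h

/-- `z` is the boundary of the `inv`-invariant chain `y`. -/
structure Bdy (M : CMap D) (y z : D →₀ ZMod 2) : Prop where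
  inv : ∀ d, y (M.inv d) = y d
  eq : ∀ c, z c = y c + y (M.rot c)

theorem exists_fill (hF : M.Fill) (z : D →₀ ZMod 2) (hz : d1 M z = 0) :
    ∃ y, Bdy M y z := by
  classical
  have hv : ∀ v : M.V, Even {d | d ∈ z.support ∧ M.vert d = v}.ncard := by
    intro v
    have h1 := congrArg (fun f => f (Sum.inl v)) hz
    have h2 : Finsupp.mapDomain (fun d => (Sum.inr (M.fac d) : M.V ⊕ M.F)) z (Sum.inl v) = 0 := by
      rw [mapDomain_eval]; simp
    simp only [d1_apply, Finsupp.add_apply, Finsupp.coe_zero, Pi.zero_apply, h2, add_zero] at h1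
    have h3 := even_of_mapDomain _ z _ h1
    simpa only [Sum.inl.injEq] using h3
  have hf : ∀ f : M.F, Even {d | d ∈ z.support ∧ M.fac d = f}.ncard := by
    intro v
    have h1 := congrArg (fun f => f (Sum.inr v)) hz
    have h2 : Finsupp.mapDomain (fun d => (Sum.inl (M.vert d) : M.V ⊕ M.F)) z (Sum.inr v) = 0 := by
      rw [mapDomain_eval]; simp
    simp only [d1_apply, Finsupp.add_apply, Finsupp.coe_zero, Pi.zero_apply, h2, zero_add] at h1
    have h3 := even_of_mapDomain _ z _ h1
    simpa only [Sum.inr.injEq] using h3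
  obtain ⟨E, hE, hzE⟩ := hF z.support hv hf
  refine ⟨Finsupp.onFinset E (fun d => if d ∈ E then 1 else 0) (fun d hd => by
    by_contra hcon; simp [hcon] at hd), ?_, ?_⟩
  · intro d
    simp only [Finsupp.onFinset_apply]
    have : M.inv d ∈ E ↔ d ∈ E := ⟨fun h => by simpa using hE _ h, fun h => hE d h⟩
    simp only [this]
  · intro c
    simp only [Finsupp.onFinset_apply]
    have h1 := hzE c
    rw [Finsupp.mem_support_iff] at h1
    have h2 : c ∈ M.bd ↑E ↔ ¬ (c ∈ E ↔ M.rot c ∈ E) := Iff.rfl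
    rw [h2] at h1
    by_cases hc : c ∈ E <;> by_cases hc' : M.rot c ∈ E <;> simp only [hc, hc', if_true, if_false,
      iff_true, iff_false, not_true_eq_false, not_false_eq_true, iff_self] at h1 ⊢
    · rw [not_not] at h1
      rw [h1]; decide
    · rw [zmod2_ne_zero h1]; decide
    · rw [zmod2_ne_zero h1]; decide
    · rw [not_not] at h1
      rw [h1]; decide

theorem iso_chain {C : ℕ} (hI : M.IsoE C) {y z : D →₀ ZMod 2} (h : Bdy M y z) :
    y.support.card ≤ C * z.support.card := by
  classical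
  have h1 := hI y.support (fun d hd => by
    rw [Finsupp.mem_support_iff] at hd ⊢
    rwa [h.inv])
  have h2 : M.bd ↑y.support = ↑z.support := by
    ext c
    have h3 : c ∈ M.bd ↑y.support ↔ ¬ (c ∈ y.support ↔ M.rot c ∈ y.support) := Iff.rfl
    rw [h3, Finset.mem_coe, Finsupp.mem_support_iff, Finsupp.mem_support_iff,
      Finsupp.mem_support_iff, h.eq c]
    rcases zmod2_cases (y c) with e1 | e1 <;> rcases zmod2_cases (y (M.rot c)) with e2 | e2 <;>
      rw [e1, e2] <;> decide
  rw [h2, Set.ncard_coe_finset] at h1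
  exact h1

theorem Bdy.add {y y' z z' : D →₀ ZMod 2} (h : Bdy M y z) (h' : Bdy M y' z') :
    Bdy M (y + y') (z + z') := by
  refine ⟨fun d => ?_, fun c => ?_⟩
  · simp only [Finsupp.add_apply, h.inv, h'.inv]
  · simp only [Finsupp.add_apply, h.eq, h'.eq]
    ring

theorem Bdy.zero : Bdy M 0 0 := ⟨fun d => by simp, fun c => by simp⟩

theorem Bdy.sum {ι : Type} (s : Finset ι) {y z : ι → (D →₀ ZMod 2)}
    (h : ∀ i ∈ s, Bdy M (y i) (z i)) : Bdy M (∑ i ∈ s, y i) (∑ i ∈ s, z i) := by
  classical
  induction s using Finset.induction_on with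
  | empty => simpa using Bdy.zero
  | insert a s ha ih =>
    rw [Finset.sum_insert ha, Finset.sum_insert ha]
    exact (h a (Finset.mem_insert_self _ _)).add
      (ih fun i hi => h i (Finset.mem_insert_of_mem hi))

theorem Bdy.unique {C : ℕ} (hI : M.IsoE C) {y y' z : D →₀ ZMod 2} (h : Bdy M y z)
    (h' : Bdy M y' z) : y = y' := by
  have h1 := h.add h'
  rw [dbl] at h1
  have h2 := iso_chain hI h1
  rw [Finsupp.support_zero, Finset.card_empty, Nat.mul_zero, Nat.le_zero, Finset.card_eq_zero,
    Finsupp.support_eq_empty] at h2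
  have h3 : y = (y + y') + y' := by rw [add_assoc, dbl, add_zero]
  rw [h3, h2, zero_add]

/-- `∂∂ = 0` -/
theorem Bdy.d1_eq_zero {y z : D →₀ ZMod 2} (h : Bdy M y z) : d1 M z = 0 := by
  have hz : z = y + Finsupp.mapDomain M.rot.symm y := by
    ext c
    rw [Finsupp.add_apply, Finsupp.mapDomain_equiv_apply, h.eq]; rfl
  have hz' : z = y + Finsupp.mapDomain M.face.symm y := by
    ext c
    rw [Finsupp.add_apply, Finsupp.mapDomain_equiv_apply, h.eq, Equiv.symm_symm,
      CMap.face_apply, h.inv]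
  have h1 : Finsupp.mapDomain (fun d => (Sum.inl (M.vert d) : M.V ⊕ M.F)) z = 0 := by
    rw [hz, Finsupp.mapDomain_add, ← Finsupp.mapDomain_comp]
    have : (fun d => (Sum.inl (M.vert d) : M.V ⊕ M.F)) ∘ ⇑M.rot.symm =
        fun d => Sum.inl (M.vert d) := by
      funext d; simp
    rw [this, dbl]
  have h2 : Finsupp.mapDomain (fun d => (Sum.inr (M.fac d) : M.V ⊕ M.F)) z = 0 := by
    rw [hz', Finsupp.mapDomain_add, ← Finsupp.mapDomain_comp]
    have : (fun d => (Sum.inr (M.fac d) : M.V ⊕ M.F)) ∘ ⇑M.face.symm =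
        fun d => Sum.inr (M.fac d) := by
      funext d
      show Sum.inr (M.fac (M.face.symm d)) = Sum.inr (M.fac d)
      rw [← M.fac_face (M.face.symm d), Equiv.apply_symm_apply]
    rw [this, dbl]
  rw [d1_apply, h1, h2, add_zero]

/-! ### distances -/

theorem qd_corner {Δ : ℕ} (_hP : M.Pre Δ) (d : D) :
    M.qd (Sum.inl (M.vert d)) (Sum.inr (M.fac d)) = 1 :=
  SimpleGraph.dist_eq_one_iff_adj.2 (M.q_adj_corner d)

theorem qd_inv {Δ : ℕ} (hP : M.Pre Δ) (d : D) :
    M.qd (Sum.inl (M.vert d)) (Sum.inl (M.vert (M.inv d))) ≤ 2 := by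
  have hm := M.q_metric hP
  have h1 := qd_corner hP (M.inv d)
  have h2 := qd_corner hP (M.rot.symm d)
  rw [M.vert_rot_symm, ← M.fac_inv] at h2
  have h3 := hm.tri (Sum.inl (M.vert d)) (Sum.inr (M.fac (M.inv d))) (Sum.inl (M.vert (M.inv d)))
  have h4 := hm.symm (Sum.inr (M.fac (M.inv d))) (Sum.inl (M.vert (M.inv d)))
  omega

/-- Locality of fillings. -/
theorem local_fill {Δ C : ℕ} (hP : M.Pre Δ) (hI : M.IsoE C) {y z : D →₀ ZMod 2} (h : Bdy M y z)
    (p : M.V ⊕ M.F) (r K : ℕ) (hz : ∀ c ∈ z.support, M.qd p (Sum.inl (M.vert c)) ≤ r)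
    (hK : y.support.card ≤ K) {e : D} (he : e ∈ y.support) :
    M.qd p (Sum.inl (M.vert e)) ≤ r + 2 * K + 2 := by
  classical
  have hm := M.q_metric hP
  set H : D → ℕ := fun e => min (M.qd p (Sum.inl (M.vert e))) (M.qd p (Sum.inl (M.vert (M.inv e))))
    with hH
  have hHle : ∀ e, H e ≤ M.qd p (Sum.inl (M.vert e)) := fun e => min_le_left _ _
  have hHge : ∀ e, M.qd p (Sum.inl (M.vert e)) ≤ H e + 2 := by
    intro e
    have h1 := hm.tri p (Sum.inl (M.vert (M.inv e))) (Sum.inl (M.vert e))
    have h2 := qd_inv hP e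
    have h3 := hm.symm (Sum.inl (M.vert e)) (Sum.inl (M.vert (M.inv e)))
    simp only [hH]
    omega
  have hHinv : ∀ e, H (M.inv e) = H e := by
    intro e
    simp only [hH, CMap.inv_inv']
    exact min_comm _ _
  set T : ℕ → Finset D := fun k => y.support.filter fun e => r + 2 * k < H e with hT
  have hmemT : ∀ k e, e ∈ T k ↔ y e ≠ 0 ∧ r + 2 * k < H e := by
    intro k e
    simp only [hT, Finset.mem_filter, Finsupp.mem_support_iff]
  -- the key step
  have hstep : ∀ k, (T (k + 1)).Nonempty → (T (k + 1)).card + 1 ≤ (T k).card := by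
    intro k hne
    have hsub : T (k + 1) ⊆ T k := by
      intro e he
      rw [hmemT] at he ⊢
      exact ⟨he.1, by omega⟩
    suffices hss : ∃ e, e ∈ T k ∧ e ∉ T (k + 1) by
      obtain ⟨e, he1, he2⟩ := hss
      exact Finset.card_lt_card ((Finset.ssubset_iff_of_subset hsub).2 ⟨e, he1, he2⟩)
    have hiso := hI (T (k + 1)) (fun d hd => by
      rw [hmemT] at hd ⊢
      rw [h.inv, hHinv]; exact hd)
    have hpos : 0 < (T (k + 1)).card := Finset.card_pos.2 hne
    have hbdne : (M.bd ↑(T (k + 1))).Nonempty := by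
      by_contra hcon
      rw [Set.not_nonempty_iff_eq_empty] at hcon
      rw [hcon, Set.ncard_empty] at hiso
      omega
    obtain ⟨c, hc⟩ := hbdne
    have hc' : ¬ (c ∈ T (k + 1) ↔ M.rot c ∈ T (k + 1)) := hc
    have hvr : M.vert (M.rot c) = M.vert c := M.vert_rot c
    have hge1 := hHge c
    have hge2 := hHge (M.rot c)
    have hle1 := hHle c
    have hle2 := hHle (M.rot c)
    rw [hvr] at hge2 hle2
    -- the corner `c` is far away, so it is not in `z`
    have hfar : r + 2 * (k + 1) < M.qd p (Sum.inl (M.vert c)) → y c = y (M.rot c) := by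
      intro hlt
      have h0 : z c = 0 := by
        by_contra hcon
        have := hz c (Finsupp.mem_support_iff.2 hcon)
        omega
      have h1 := h.eq c
      rw [h0] at h1
      rcases zmod2_cases (y c) with e1 | e1 <;> rcases zmod2_cases (y (M.rot c)) with e2 | e2 <;>
        rw [e1, e2] at h1 ⊢ <;> revert h1 <;> decide
    by_cases h1 : c ∈ T (k + 1)
    · have h2 : M.rot c ∉ T (k + 1) := fun h2 => hc' ⟨fun _ => h2, fun _ => h1⟩
      refine ⟨M.rot c, ?_, h2⟩
      rw [hmemT] at h1 ⊢
      have h3 := hfar (by omega)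
      exact ⟨by rw [← h3]; exact h1.1, by omega⟩
    · have h2 : M.rot c ∈ T (k + 1) := by
        by_contra h2
        exact hc' ⟨fun h => absurd h h1, fun h => absurd h h2⟩
      refine ⟨c, ?_, h1⟩
      rw [hmemT] at h2 ⊢
      have h3 := hfar (by omega)
      exact ⟨by rw [h3]; exact h2.1, by omega⟩
  have hind : ∀ k, (T k).Nonempty → (T k).card + k ≤ (T 0).card := by
    intro k
    induction k with
    | zero => intro _; omega
    | succ k ih =>
      intro hne
      have hne' : (T k).Nonempty := by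
        obtain ⟨e, he⟩ := hne
        rw [hmemT] at he
        exact ⟨e, by rw [hmemT]; exact ⟨he.1, by omega⟩⟩
      have h1 := hstep k hne
      have h2 := ih hne'
      omega
  by_contra hcon
  have hne : (T K).Nonempty := by
    refine ⟨e, ?_⟩
    rw [hmemT]
    have := hHge e
    exact ⟨Finsupp.mem_support_iff.1 he, by omega⟩
  have h1 := hind K hne
  have h2 : (T 0).card ≤ y.support.card := Finset.card_filter_le _ _
  have h3 : 0 < (T K).card := Finset.card_pos.2 hne
  omega

/-- Chains joining two points. -/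
theorem exists_join {Δ : ℕ} (hP : M.Pre Δ) (a : M.V ⊕ M.F) : ∀ (n : ℕ) (b : M.V ⊕ M.F),
    M.qd a b = n →
    ∃ s : D →₀ ZMod 2, d1 M s = single a 1 + single b 1 ∧ s.support.card ≤ n ∧
      ∀ c ∈ s.support, M.qd a (Sum.inl (M.vert c)) ≤ n := by
  classical
  have hm := M.q_metric hP
  intro n
  induction n with
  | zero =>
    intro b hb
    have := hm.eq_of a b hb
    subst this
    refine ⟨0, ?_, by simp, by simp⟩
    rw [map_zero, dbl]
  | succ n ih =>
    intro b hb
    obtain ⟨z, hz1, hz2⟩ := hm.geod a b n (by omega)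
    obtain ⟨s, hs1, hs2, hs3⟩ := ih z hz1
    have hadj : M.Q.Adj z b := SimpleGraph.dist_eq_one_iff_adj.1 (by change M.qd z b = 1; omega)
    obtain ⟨c, hc⟩ := hadj
    have hc1 : d1 M (single c 1) = single z 1 + single b 1 := by
      rw [d1_single]
      rcases hc with ⟨rfl, rfl⟩ | ⟨rfl, rfl⟩
      · rfl
      · rw [add_comm]
    have hc2 : M.qd a (Sum.inl (M.vert c)) ≤ n + 1 := by
      rcases hc with ⟨rfl, rfl⟩ | ⟨rfl, rfl⟩ <;> omega
    refine ⟨s + single c 1, ?_, ?_, ?_⟩
    · rw [map_add, hs1, hc1]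
      have : (single a 1 + single z 1 + (single z 1 + single b 1) : (M.V ⊕ M.F) →₀ ZMod 2) =
          single a 1 + single b 1 + (single z 1 + single z 1) := by abel
      rw [this, dbl, add_zero]
    · refine (Finset.card_le_card Finsupp.support_add).trans ((Finset.card_union_le _ _).trans ?_)
      have : (single c (1 : ZMod 2)).support.card ≤ 1 := by
        refine (Finset.card_le_card Finsupp.support_single_subset).trans ?_
        simp
      omega
    · intro c' hc'
      have := Finsupp.support_add hc'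
      rw [Finset.mem_union] at this
      rcases this with h | h
      · have := hs3 c' h
        omega
      · have := Finsupp.support_single_subset h
        rw [Finset.mem_singleton] at this
        rw [this]; exact hc2

theorem card_add_le (s t : D →₀ ZMod 2) {m n : ℕ} (h1 : s.support.card ≤ m)
    (h2 : t.support.card ≤ n) : (s + t).support.card ≤ m + n := by
  classical
  refine (Finset.card_le_card Finsupp.support_add).trans ((Finset.card_union_le _ _).trans ?_)
  omega

theorem near_add {P : D → Prop} {s t : D →₀ ZMod 2} (h1 : ∀ c ∈ s.support, P c)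
    (h2 : ∀ c ∈ t.support, P c) : ∀ c ∈ (s + t).support, P c := by
  classical
  intro c hc
  have := Finsupp.support_add hc
  rw [Finset.mem_union] at this
  rcases this with h | h
  · exact h1 c h
  · exact h2 c h

theorem telescope {G : Type} [AddCommGroup G] [Module (ZMod 2) G] (u : ℕ → G) (K : ℕ) :
    ∑ j ∈ Finset.range K, (u j + u (j + 1)) = u 0 + u K := by
  induction K with
  | zero => rw [Finset.range_zero, Finset.sum_empty, dbl]
  | succ K ih =>
    rw [Finset.sum_range_succ, ih]
    have : u 0 + u K + (u K + u (K + 1)) = u 0 + u (K + 1) + (u K + u K) := by abel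
    rw [this, dbl, add_zero]

/-- Fellow travelling of ancestors. -/
theorem fellow {W : Type} {d : W → W → ℕ} (hm : IsGraphMetric d) {δ : ℕ} (h4 : FourPoint d δ)
    {x a b p p' : W} {n j : ℕ} (ha : d x a = n) (hb : d x b = n) (hab : d a b ≤ 2)
    (hp : d x p = n - j) (hp' : d x p' = n - j) (hap : d a p ≤ j) (hbp : d b p' ≤ j) :
    d p p' ≤ 2 * δ + 2 := by
  rcases Nat.lt_or_ge n j with hj | hj
  · have e1 := hm.eq_of x p (by omega)
    have e2 := hm.eq_of x p' (by omega)
    rw [← e1, ← e2, hm.self]; omega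
  · have h1 := h4 x p a b
    have h2 := h4 x p b p'
    have s1 := hm.symm p a
    have s2 := hm.symm p' b
    have s3 := hm.symm p b
    have h1' : d x a + d p b ≤ n + j + 2 + δ := by
      refine h1.trans (Nat.add_le_add_right (max_le ?_ ?_) _) <;> omega
    have h2' : d x b + d p p' ≤ n + (2 + δ) + δ := by
      refine h2.trans (Nat.add_le_add_right (max_le ?_ ?_) _)
      · omega
      · omega
    omega

theorem main {Δ C δ : ℕ} (hP : M.Pre Δ) (hF : M.Fill) (hI : M.IsoE C)
    (h4 : FourPoint M.qd δ) (x v : M.V ⊕ M.F) (t : ℕ) :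
    ∃ w, M.qd x w = M.qd x v + t ∧ M.qd x v + M.qd v w ≤ M.qd x w +
      2 * ((2 * δ + 2 + 1) + 2 * (C * (2 * (2 * δ + 2) + 2)) + 2 + 1) := by
  classical
  have hm := M.q_metric hP
  set m0 := 2 * δ + 2 with hm0
  set K1 := C * (2 * m0 + 2) with hK1
  set D3 := (m0 + 1) + 2 * K1 + 2 with hD3
  set N := M.qd x v + t with hN
  -- joining chains
  choose s hs1 hs2 hs3 using fun a b => exists_join hP a _ b rfl
  have s0 : ∀ a, s a a = 0 := by
    intro a
    have h1 := hs2 a a
    rw [hm.self, Nat.le_zero, Finset.card_eq_zero, Finsupp.support_eq_empty] at h1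
    exact h1
  -- ancestors
  choose anc hanc1 hanc2 using fun q => hm.geod x q (M.qd x q - 1) (Nat.sub_le _ _)
  have anc_step : ∀ q, M.qd q (anc q) ≤ 1 := by
    intro q
    have h1 := hanc2 q
    have h2 := hm.symm q (anc q)
    omega
  have anc_lev : ∀ j q, M.qd x (anc^[j] q) = M.qd x q - j := by
    intro j
    induction j with
    | zero => intro q; rfl
    | succ j ih =>
      intro q
      rw [Function.iterate_succ_apply', hanc1, ih]
      omega
  have anc_d : ∀ j q, M.qd q (anc^[j] q) ≤ j := by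
    intro j
    induction j with
    | zero => intro q; rw [Function.iterate_zero, id, hm.self]
    | succ j ih =>
      intro q
      rw [Function.iterate_succ_apply']
      have h1 := ih q
      have h2 := anc_step (anc^[j] q)
      have h3 := hm.tri q (anc^[j] q) (anc (anc^[j] q))
      omega
  have anc_top : ∀ j q, M.qd x q ≤ j → anc^[j] q = x := by
    intro j q hj
    refine (hm.eq_of x _ ?_).symm
    rw [anc_lev]; omega
  -- lower and upper end of a corner
  have hlohi : ∀ c : D, ∃ a b : M.V ⊕ M.F, M.qd x b = M.qd x a + 1 ∧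
      single a 1 + single b 1 = d1 M (single c 1) ∧ M.qd a b ≤ 1 ∧
      M.qd a (Sum.inl (M.vert c)) ≤ 1 ∧ M.qd x (Sum.inl (M.vert c)) ≤ M.qd x a + 1 ∧
      M.qd x a ≤ M.qd x (Sum.inl (M.vert c)) := by
    intro c
    have h1 := qd_corner hP c
    have h2 := hm.symm (Sum.inl (M.vert c)) (Sum.inr (M.fac c))
    rcases M.q_corner hP x c with h | h
    · refine ⟨Sum.inr (M.fac c), Sum.inl (M.vert c), h, ?_, by omega, by omega, by omega,
        by omega⟩
      rw [d1_single, add_comm]
    · refine ⟨Sum.inl (M.vert c), Sum.inr (M.fac c), h, ?_, by omega, ?_, by omega,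
        by omega⟩
      · rw [d1_single]
      · rw [hm.self]; omega
  choose lo hi hl1 hl2 hl3 hl4 hl5 hl6 using hlohi
  have hfellow : ∀ c j, M.qd (anc^[j] (lo c)) (anc^[j + 1] (hi c)) ≤ m0 := by
    intro c j
    have h1 := anc_lev j (lo c)
    have h2 := anc_lev (j + 1) (hi c)
    have h3 := hl1 c
    have h4' := anc_d j (anc (hi c))
    rw [← Function.iterate_succ_apply] at h4'
    have h5 := anc_step (hi c)
    have h6 := hm.tri (lo c) (hi c) (anc (hi c))
    have h7 := hl3 c
    have h8 := hanc1 (hi c)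
    exact fellow hm h4 (n := M.qd x (lo c)) (j := j) (a := lo c) (b := anc (hi c)) (x := x)
      rfl (by omega) (by omega) h1 (by omega) (anc_d j (lo c)) h4'
  -- filling of small loops
  have hfill : ∀ (p : M.V ⊕ M.F) (z : D →₀ ZMod 2), d1 M z = 0 → z.support.card ≤ 2 * m0 + 2 →
      (∀ c ∈ z.support, M.qd p (Sum.inl (M.vert c)) ≤ m0 + 1) →
      ∃ y, Bdy M y z ∧ ∀ e ∈ y.support, M.qd p (Sum.inl (M.vert e)) ≤ D3 := by
    intro p z hz hcard hnear
    obtain ⟨y, hy⟩ := exists_fill hF z hz
    refine ⟨y, hy, fun e he => ?_⟩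
    refine local_fill hP hI hy p (m0 + 1) K1 hnear ?_ he
    exact (iso_chain hI hy).trans (Nat.mul_le_mul_left _ hcard)
  -- the loops
  set L : D → ℕ → (D →₀ ZMod 2) := fun c j =>
    s (anc^[j] (lo c)) (anc^[j + 1] (lo c)) + s (anc^[j + 1] (hi c)) (anc^[j + 1 + 1] (hi c)) +
    (s (anc^[j] (lo c)) (anc^[j + 1] (hi c)) + s (anc^[j + 1] (lo c)) (anc^[j + 1 + 1] (hi c)))
    with hL
  set Lt : D → (D →₀ ZMod 2) := fun c =>
    single c 1 + s (hi c) (anc (hi c)) + s (lo c) (anc (hi c)) with hLt
  have hLfill : ∀ c j, ∃ y, Bdy M y (L c j) ∧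
      ∀ e ∈ y.support, M.qd (anc^[j] (lo c)) (Sum.inl (M.vert e)) ≤ D3 := by
    intro c j
    have a1 : M.qd (anc^[j] (lo c)) (anc^[j + 1] (lo c)) ≤ 1 := by
      rw [Function.iterate_succ_apply']; exact anc_step _
    have a2 : M.qd (anc^[j + 1] (hi c)) (anc^[j + 1 + 1] (hi c)) ≤ 1 := by
      rw [Function.iterate_succ_apply' _ (j + 1)]; exact anc_step _
    have a3 := hfellow c j
    have a4 := hfellow c (j + 1)
    apply hfill
    · simp only [hL, map_add, hs1]
      generalize (single (anc^[j] (lo c)) 1 : (M.V ⊕ M.F) →₀ ZMod 2) = p1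
      generalize (single (anc^[j + 1] (lo c)) 1 : (M.V ⊕ M.F) →₀ ZMod 2) = p2
      generalize (single (anc^[j + 1] (hi c)) 1 : (M.V ⊕ M.F) →₀ ZMod 2) = p3
      generalize (single (anc^[j + 1 + 1] (hi c)) 1 : (M.V ⊕ M.F) →₀ ZMod 2) = p4
      have : p1 + p2 + (p3 + p4) + (p1 + p3 + (p2 + p4)) =
        (p1 + p1) + (p2 + p2) + (p3 + p3) + (p4 + p4) := by abel
      rw [this, dbl p1, dbl p2, dbl p3, dbl p4]; simp
    · have h1 := card_add_le _ _ (card_add_le _ _
        ((hs2 (anc^[j] (lo c)) (anc^[j + 1] (lo c))).trans a1)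
        ((hs2 (anc^[j + 1] (hi c)) (anc^[j + 1 + 1] (hi c))).trans a2))
        (card_add_le _ _ ((hs2 (anc^[j] (lo c)) (anc^[j + 1] (hi c))).trans a3)
        ((hs2 (anc^[j + 1] (lo c)) (anc^[j + 1 + 1] (hi c))).trans a4))
      refine h1.trans ?_
      omega
    · refine near_add (P := fun c' => M.qd (anc^[j] (lo c)) (Sum.inl (M.vert c')) ≤ m0 + 1)
        (near_add ?_ ?_) (near_add ?_ ?_)
      · intro c' hc'
        have := hs3 _ _ c' hc'
        omega
      · intro c' hc'
        have h1 := hs3 _ _ c' hc'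
        have h2 := hm.tri (anc^[j] (lo c)) (anc^[j + 1] (hi c)) (Sum.inl (M.vert c'))
        omega
      · intro c' hc'
        have := hs3 _ _ c' hc'
        omega
      · intro c' hc'
        have h1 := hs3 _ _ c' hc'
        have h2 := hm.tri (anc^[j] (lo c)) (anc^[j + 1] (lo c)) (Sum.inl (M.vert c'))
        omega
  have hLtfill : ∀ c, ∃ y, Bdy M y (Lt c) ∧
      ∀ e ∈ y.support, M.qd (anc^[0] (lo c)) (Sum.inl (M.vert e)) ≤ D3 := by
    intro c
    have a1 := anc_step (hi c)
    have a2 : M.qd (lo c) (anc (hi c)) ≤ m0 := hfellow c 0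
    have a3 : (single c (1 : ZMod 2)).support.card ≤ 1 := by
      refine (Finset.card_le_card Finsupp.support_single_subset).trans ?_
      simp
    apply hfill
    · simp only [hLt, map_add, hs1]
      rw [← hl2 c]
      generalize (single (lo c) 1 : (M.V ⊕ M.F) →₀ ZMod 2) = p1
      generalize (single (hi c) 1 : (M.V ⊕ M.F) →₀ ZMod 2) = p2
      generalize (single (anc (hi c)) 1 : (M.V ⊕ M.F) →₀ ZMod 2) = p3
      have : p1 + p2 + (p2 + p3) + (p1 + p3) = (p1 + p1) + (p2 + p2) + (p3 + p3) := by abel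
      rw [this, dbl p1, dbl p2, dbl p3]; simp
    · have h1 := card_add_le _ _ (card_add_le _ _ a3 ((hs2 (hi c) (anc (hi c))).trans a1))
        ((hs2 (lo c) (anc (hi c))).trans a2)
      refine h1.trans ?_
      omega
    · refine near_add (P := fun c' => M.qd (anc^[0] (lo c)) (Sum.inl (M.vert c')) ≤ m0 + 1)
        (near_add ?_ ?_) ?_
      · intro c' hc'
        have := Finsupp.support_single_subset hc'
        rw [Finset.mem_singleton] at this
        rw [this]
        have := hl4 c
        show M.qd (lo c) _ ≤ _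
        omega
      · intro c' hc'
        have h1 := hs3 _ _ c' hc'
        have h2 := hm.tri (lo c) (hi c) (Sum.inl (M.vert c'))
        have h3 := hl3 c
        show M.qd (lo c) _ ≤ _
        omega
      · intro c' hc'
        have h1 := hs3 _ _ c' hc'
        show M.qd (lo c) _ ≤ _
        omega
  choose yL hyL1 hyL2 using hLfill
  choose yt hyt1 hyt2 using hLtfill
  -- the ball
  have hEfin : {e : D | M.qd x (Sum.inl (M.vert e)) ≤ N + 1 ∨
      M.qd x (Sum.inl (M.vert (M.inv e))) ≤ N + 1}.Finite := by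
    have h1 : {e : D | M.qd x (Sum.inl (M.vert e)) ≤ N + 3}.Finite := by
      have h2 := M.q_ball_finite hP x (N + 3)
      refine (h2.biUnion (t := fun w => {e : D | (Sum.inl (M.vert e) : M.V ⊕ M.F) = w})
        ?_).subset ?_
      · intro w _
        rcases w with u | f
        · obtain ⟨d, rfl⟩ := M.vert_surj u
          refine (M.finite_vert (hP.val_pos d)).subset ?_
          intro e he
          exact Sum.inl.inj he
        · refine Set.finite_empty.subset ?_
          intro e he
          exact absurd he (by simp)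
      · intro e he
        exact Set.mem_biUnion (x := (Sum.inl (M.vert e) : M.V ⊕ M.F)) he rfl
    refine h1.subset ?_
    intro e he
    have h2 := qd_inv hP e
    have h3 := hm.tri x (Sum.inl (M.vert (M.inv e))) (Sum.inl (M.vert e))
    have h4' := hm.symm (Sum.inl (M.vert e)) (Sum.inl (M.vert (M.inv e)))
    show M.qd x (Sum.inl (M.vert e)) ≤ N + 3
    rcases he with he | he
    · omega
    · omega
  set E := hEfin.toFinset with hE
  have hmemE : ∀ e, e ∈ E ↔ (M.qd x (Sum.inl (M.vert e)) ≤ N + 1 ∨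
      M.qd x (Sum.inl (M.vert (M.inv e))) ≤ N + 1) := by
    intro e
    rw [hE, Set.Finite.mem_toFinset]; rfl
  obtain ⟨y0, hy0⟩ : ∃ y0 : D →₀ ZMod 2, ∀ e, y0 e = if e ∈ E then 1 else 0 :=
    ⟨Finsupp.onFinset E (fun d => if d ∈ E then 1 else 0) (fun d hd => by
      by_contra hcon; simp [hcon] at hd), fun e => by rw [Finsupp.onFinset_apply]⟩
  obtain ⟨Z, hZ⟩ : ∃ Z, Bdy M y0 Z := by
    refine ⟨y0 + Finsupp.mapDomain M.rot.symm y0, ?_, ?_⟩
    · intro d
      rw [hy0, hy0]
      have : M.inv d ∈ E ↔ d ∈ E := by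
        rw [hmemE, hmemE, M.inv_inv]
        exact or_comm
      simp only [this]
    · intro c
      rw [Finsupp.add_apply, Finsupp.mapDomain_equiv_apply]; rfl
  have hZlev : ∀ c ∈ Z.support, N + 2 ≤ M.qd x (Sum.inl (M.vert c)) ∧
      M.qd x (Sum.inl (M.vert c)) ≤ N + 3 := by
    intro c hc
    rw [Finsupp.mem_support_iff, hZ.eq, hy0, hy0] at hc
    have hvr : M.vert (M.rot c) = M.vert c := M.vert_rot c
    have h1 : ¬ M.qd x (Sum.inl (M.vert c)) ≤ N + 1 := by
      intro hcon
      have e1 : c ∈ E := (hmemE c).2 (Or.inl hcon)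
      have e2 : M.rot c ∈ E := (hmemE _).2 (Or.inl (by rw [hvr]; exact hcon))
      rw [if_pos e1, if_pos e2] at hc
      exact hc (by decide)
    refine ⟨by omega, ?_⟩
    have h2 : c ∈ E ∨ M.rot c ∈ E := by
      by_contra hcon
      push Not at hcon
      rw [if_neg hcon.1, if_neg hcon.2] at hc
      exact hc (by decide)
    rcases h2 with h2 | h2
    · have h3 := ((hmemE _).1 h2).resolve_left h1
      have h5 := qd_inv hP c
      have h6 := hm.tri x (Sum.inl (M.vert (M.inv c))) (Sum.inl (M.vert c))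
      have h7 := hm.symm (Sum.inl (M.vert c)) (Sum.inl (M.vert (M.inv c)))
      omega
    · have h3 := ((hmemE _).1 h2).resolve_left (by rw [hvr]; exact h1)
      have h5 := qd_inv hP (M.rot c)
      rw [hvr] at h5
      have h6 := hm.tri x (Sum.inl (M.vert (M.inv (M.rot c)))) (Sum.inl (M.vert c))
      have h7 := hm.symm (Sum.inl (M.vert c)) (Sum.inl (M.vert (M.inv (M.rot c))))
      omega
  -- the identity
  set K := N + 6 with hK
  set P : (M.V ⊕ M.F) → (D →₀ ZMod 2) := fun q =>
    ∑ j ∈ Finset.range K, s (anc^[j] q) (anc^[j + 1] q) with hPdef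
  have hid : ∀ c ∈ Z.support, Lt c + ∑ j ∈ Finset.range K, L c j =
      single c 1 + (P (lo c) + P (hi c)) := by
    intro c hc
    have hlev := hZlev c hc
    have e0 := hl1 c
    have e0' := hl6 c
    have e1 : ∑ j ∈ Finset.range K, L c j =
      ∑ j ∈ Finset.range K, (s (anc^[j] (lo c)) (anc^[j + 1] (lo c)) +
        s (anc^[j + 1] (hi c)) (anc^[j + 1 + 1] (hi c))) +
      ∑ j ∈ Finset.range K, (s (anc^[j] (lo c)) (anc^[j + 1] (hi c)) +
        s (anc^[j + 1] (lo c)) (anc^[j + 1 + 1] (hi c))) := Finset.sum_add_distrib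
    have e2 : ∑ j ∈ Finset.range K, (s (anc^[j] (lo c)) (anc^[j + 1] (lo c)) +
        s (anc^[j + 1] (hi c)) (anc^[j + 1 + 1] (hi c))) = P (lo c) +
        ∑ j ∈ Finset.range K, s (anc^[j + 1] (hi c)) (anc^[j + 1 + 1] (hi c)) :=
      Finset.sum_add_distrib
    have e3 := telescope (fun j => s (anc^[j] (lo c)) (anc^[j + 1] (hi c))) K
    have e4 : s (anc^[K] (lo c)) (anc^[K + 1] (hi c)) = 0 := by
      rw [anc_top K (lo c) (by omega), anc_top (K + 1) (hi c) (by omega), s0]
    have e5 := Finset.sum_range_succ' (fun j => s (anc^[j] (hi c)) (anc^[j + 1] (hi c))) K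
    have e6 := Finset.sum_range_succ (fun j => s (anc^[j] (hi c)) (anc^[j + 1] (hi c))) K
    have e7 : s (anc^[K] (hi c)) (anc^[K + 1] (hi c)) = 0 := by
      rw [anc_top K (hi c) (by omega), anc_top (K + 1) (hi c) (by omega), s0]
    simp only [e4, e7, add_zero] at e3 e6
    rw [e6] at e5
    have e8 : P (hi c) = ∑ j ∈ Finset.range K, s (anc^[j + 1] (hi c)) (anc^[j + 1 + 1] (hi c)) +
      s (hi c) (anc (hi c)) := e5
    have e9 : ∑ j ∈ Finset.range K, (s (anc^[j] (lo c)) (anc^[j + 1] (hi c)) +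
        s (anc^[j + 1] (lo c)) (anc^[j + 1 + 1] (hi c))) = s (lo c) (anc (hi c)) := e3
    rw [e1, e2, e9, e8]
    simp only [hLt]
    generalize ∑ j ∈ Finset.range K, s (anc^[j + 1] (hi c)) (anc^[j + 1 + 1] (hi c)) = q1
    have : single c 1 + s (hi c) (anc (hi c)) + s (lo c) (anc (hi c)) +
      (P (lo c) + q1 + s (lo c) (anc (hi c))) =
      single c 1 + (P (lo c) + (q1 + s (hi c) (anc (hi c)))) +
      (s (lo c) (anc (hi c)) + s (lo c) (anc (hi c))) := by abel
    rw [this, dbl, add_zero]
  have hZsum : ∑ c ∈ Z.support, single c (1 : ZMod 2) = Z := by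
    conv_rhs => rw [← Finsupp.sum_single Z]
    unfold Finsupp.sum
    refine Finset.sum_congr rfl fun c hc => ?_
    rw [zmod2_ne_zero (Finsupp.mem_support_iff.1 hc)]
  have hPsum : ∑ c ∈ Z.support, (P (lo c) + P (hi c)) = 0 := by
    have h1 : ∀ c, P (lo c) + P (hi c) =
        Finsupp.linearCombination (ZMod 2) P (d1 M (single c 1)) := by
      intro c
      rw [← hl2 c, map_add, Finsupp.linearCombination_single, Finsupp.linearCombination_single,
        one_smul, one_smul]
    simp only [h1]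
    rw [← map_sum, ← map_sum, hZsum, hZ.d1_eq_zero, map_zero]
  have hkey : y0 = ∑ c ∈ Z.support, (yt c + ∑ j ∈ Finset.range K, yL c j) := by
    refine hZ.unique hI ?_
    have h1 : Bdy M (∑ c ∈ Z.support, (yt c + ∑ j ∈ Finset.range K, yL c j))
        (∑ c ∈ Z.support, (Lt c + ∑ j ∈ Finset.range K, L c j)) :=
      Bdy.sum _ fun c _ => (hyt1 c).add (Bdy.sum _ fun j _ => hyL1 c j)
    have h2 : ∑ c ∈ Z.support, (Lt c + ∑ j ∈ Finset.range K, L c j) = Z := by
      rw [Finset.sum_congr rfl hid, Finset.sum_add_distrib, hZsum, hPsum, add_zero]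
    rw [h2] at h1
    exact h1
  -- a dart at `v`
  obtain ⟨e, he⟩ : ∃ e : D, M.qd v (Sum.inl (M.vert e)) ≤ 1 := by
    rcases v with u | f
    · obtain ⟨d, rfl⟩ := M.vert_surj u
      exact ⟨d, by rw [hm.self]; omega⟩
    · obtain ⟨d, rfl⟩ := M.fac_surj f
      refine ⟨d, ?_⟩
      rw [hm.symm, qd_corner hP d]
  have heE : e ∈ E := by
    rw [hmemE]
    left
    have := hm.tri x v (Sum.inl (M.vert e))
    omega
  obtain ⟨c, hc, j, hj⟩ : ∃ c ∈ Z.support, ∃ j, M.qd (anc^[j] (lo c)) (Sum.inl (M.vert e)) ≤ D3 := by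
    by_contra hcon
    push Not at hcon
    have h1 : y0 e = 0 := by
      rw [hkey, Finsupp.finsetSum_apply]
      apply Finset.sum_eq_zero
      intro c hc
      rw [Finsupp.add_apply, Finsupp.finsetSum_apply]
      have h2 : yt c e = 0 := by
        by_contra h3
        have := hyt2 c e (Finsupp.mem_support_iff.2 h3)
        have := hcon c hc 0
        omega
      rw [h2, zero_add]
      apply Finset.sum_eq_zero
      intro j _
      by_contra h3
      have := hyL2 c j e (Finsupp.mem_support_iff.2 h3)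
      have := hcon c hc j
      omega
    rw [hy0, if_pos heE] at h1
    exact absurd h1 (by decide)
  -- conclusion
  have hvA : M.qd (anc^[j] (lo c)) v ≤ D3 + 1 := by
    have h1 := hm.tri (anc^[j] (lo c)) (Sum.inl (M.vert e)) v
    have h2 := hm.symm v (Sum.inl (M.vert e))
    omega
  have hlev := hZlev c hc
  have hlc := hl5 c
  set m := M.qd x (lo c) with hmdef
  have hm1 : N + 1 ≤ m := by omega
  refine ⟨anc^[m - N] (lo c), ?_, ?_⟩
  · rw [anc_lev]; omega
  · rw [anc_lev]
    have hAlev := anc_lev j (lo c)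
    rcases Nat.le_total j (m - N) with hjm | hjm
    · have h1 : anc^[m - N] (lo c) = anc^[m - N - j] (anc^[j] (lo c)) := by
        rw [← Function.iterate_add_apply]
        congr 2
        omega
      have h2 := anc_d (m - N - j) (anc^[j] (lo c))
      rw [← h1] at h2
      have h3 := hm.tri v (anc^[j] (lo c)) (anc^[m - N] (lo c))
      have h5 := hm.symm v (anc^[j] (lo c))
      have h6 := hm.tri x v (anc^[j] (lo c))
      omega
    · rcases Nat.le_total j m with hjm' | hjm'
      · have h1 : anc^[j] (lo c) = anc^[j - (m - N)] (anc^[m - N] (lo c)) := by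
          rw [← Function.iterate_add_apply]
          congr 2
          omega
        have h2 := anc_d (j - (m - N)) (anc^[m - N] (lo c))
        rw [← h1] at h2
        have h3 := hm.tri v (anc^[j] (lo c)) (anc^[m - N] (lo c))
        have h5 := hm.symm v (anc^[j] (lo c))
        have h5' := hm.symm (anc^[j] (lo c)) (anc^[m - N] (lo c))
        have h6 := hm.tri x (anc^[j] (lo c)) v
        omega
      · have h1 : anc^[j] (lo c) = x := anc_top j (lo c) hjm'
        rw [h1] at hvA
        have h2 := anc_lev (m - N) (lo c)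
        have h3 := hm.tri v x (anc^[m - N] (lo c))
        have h4' := hm.symm v x
        omega

end BlockB

/-- Block B. -/
theorem deadEnd : DeadEndStatement := by
  intro Δ C δ
  exact ⟨2 * ((2 * δ + 2 + 1) + 2 * (C * (2 * (2 * δ + 2) + 2)) + 2 + 1),
    fun D M hP hF hI h4 x v t => BlockB.main hP hF hI h4 x v t⟩

end Tess
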