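import Pool.Agent.Work.MP_8c67d3_co.BlockQ

/-!
# Block C: coronas are spheres of the incidence graph; growth rates
-/

set_option autoImplicit false

namespace Tess

open Filter Topology

namespace CMap

variable {D : Type} {M : CMap D}

theorem q_adj_cases (M : CMap D) {v : M.V} {f : M.F} :
    M.Q.Adj (Sum.inl v) (Sum.inr f) ↔ M.Inc v f := by
  constructor
  · rintro ⟨d, ⟨h1, h2⟩ | ⟨h1, h2⟩⟩
    · exact ⟨d, (Sum.inl.inj h1).symm, (Sum.inr.inj h2).symm⟩
    · simp at h1
  · rintro ⟨d, rfl, rfl⟩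
    exact M.q_adj_corner d

theorem q_not_adj_inl (M : CMap D) {v w : M.V} : ¬ M.Q.Adj (Sum.inl v) (Sum.inl w) := by
  rintro ⟨d, ⟨h1, h2⟩ | ⟨h1, h2⟩⟩
  · simp at h2
  · simp at h1

theorem q_not_adj_inr (M : CMap D) {v w : M.F} : ¬ M.Q.Adj (Sum.inr v) (Sum.inr w) := by
  rintro ⟨d, ⟨h1, h2⟩ | ⟨h1, h2⟩⟩
  · simp at h1
  · simp at h2

/-- Predecessor on a geodesic. -/
theorem q_pred (M : CMap D) {Δ : ℕ} (hP : M.Pre Δ) {x w : M.V ⊕ M.F} {n : ℕ}
    (h : M.qd x w = n + 1) : ∃ z, M.qd x z = n ∧ M.Q.Adj z w := by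
  obtain ⟨z, hz1, hz2⟩ := (M.q_metric hP).geod x w n (by omega)
  refine ⟨z, hz1, ?_⟩
  exact SimpleGraph.dist_eq_one_iff_adj.1 (by change M.qd z w = 1; omega)

theorem corona_eq (M : CMap D) {Δ : ℕ} (hP : M.Pre Δ) (x : M.V) (n : ℕ) :
    M.corona x n = ({v | M.qd (Sum.inl x) (Sum.inl v) = 2 * n},
      {f | M.qd (Sum.inl x) (Sum.inr f) + 1 = 2 * n}) := by
  have hm := M.q_metric hP
  induction n with
  | zero =>
    simp only [corona, Prod.mk.injEq]
    constructor
    · ext v
      simp only [Set.mem_singleton_iff, Set.mem_ofPred_eq]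
      constructor
      · rintro rfl
        rw [hm.self]
      · intro h
        have := hm.eq_of _ _ h
        exact (Sum.inl.inj this).symm
    · ext f
      simp
  | succ n ih =>
    have hF : {f | f ∉ (M.corona x n).2 ∧ ∃ v ∈ (M.corona x n).1, M.Inc v f} =
        {f | M.qd (Sum.inl x) (Sum.inr f) + 1 = 2 * (n + 1)} := by
      ext f
      rw [ih]
      simp only [Set.mem_ofPred_eq]
      constructor
      · rintro ⟨h1, v, hv, d, rfl, rfl⟩
        have := M.q_corner hP (Sum.inl x) d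
        omega
      · intro h
        refine ⟨by omega, ?_⟩
        obtain ⟨z, hz, hadj⟩ := M.q_pred hP (x := Sum.inl x) (w := Sum.inr f) (n := 2 * n)
          (by omega)
        rcases z with v | g
        · exact ⟨v, hz, M.q_adj_cases.1 hadj⟩
        · exact absurd hadj M.q_not_adj_inr
    have hU : {u | u ∉ (M.corona x n).1 ∧
        ∃ f, (f ∉ (M.corona x n).2 ∧ ∃ v ∈ (M.corona x n).1, M.Inc v f) ∧ M.Inc u f} =
        {v | M.qd (Sum.inl x) (Sum.inl v) = 2 * (n + 1)} := by
      have hF' : ∀ f, (f ∉ (M.corona x n).2 ∧ ∃ v ∈ (M.corona x n).1, M.Inc v f) ↔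
          M.qd (Sum.inl x) (Sum.inr f) + 1 = 2 * (n + 1) := fun f => by
        have := Set.ext_iff.1 hF f
        simpa only [Set.mem_ofPred_eq] using this
      ext u
      simp only [Set.mem_ofPred_eq, hF']
      rw [ih]
      simp only [Set.mem_ofPred_eq]
      constructor
      · rintro ⟨h1, f, hf, d, rfl, rfl⟩
        have := M.q_corner hP (Sum.inl x) d
        omega
      · intro h
        refine ⟨by omega, ?_⟩
        obtain ⟨z, hz, hadj⟩ := M.q_pred hP (x := Sum.inl x) (w := Sum.inl u) (n := 2 * n + 1)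
          (by omega)
        rcases z with v | g
        · exact absurd hadj M.q_not_adj_inl
        · exact ⟨g, by omega, M.q_adj_cases.1 hadj.symm⟩
    simp only [corona]
    rw [hF, hU]

/-- Sphere sizes of the incidence graph. -/
noncomputable def sph (M : CMap D) (x : M.V ⊕ M.F) (n : ℕ) : ℕ := {w | M.qd x w = n}.ncard

theorem sph_finite (M : CMap D) {Δ : ℕ} (hP : M.Pre Δ) (x : M.V ⊕ M.F) (n : ℕ) :
    {w | M.qd x w = n}.Finite :=
  (M.q_ball_finite hP x n).subset fun _ hw => le_of_eq hw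

theorem sph_succ_le (M : CMap D) {Δ : ℕ} (hP : M.Pre Δ) (x : M.V ⊕ M.F) (n : ℕ) :
    M.sph x (n + 1) ≤ M.sph x n * Δ := by
  classical
  choose N hN hNc using M.q_nb hP
  have hfin := M.sph_finite hP x n
  have hsub : {w | M.qd x w = n + 1} ⊆ ↑(hfin.toFinset.biUnion N) := by
    intro w hw
    obtain ⟨z, hz, hadj⟩ := M.q_pred hP hw
    simp only [Finset.coe_biUnion, Set.mem_iUnion, Set.Finite.coe_toFinset]
    exact ⟨z, hz, by simpa [hN] using hadj⟩
  refine (Set.ncard_le_ncard hsub (Finset.finite_toSet _)).trans ?_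
  rw [Set.ncard_coe_finset]
  refine (Finset.card_biUnion_le_card_mul _ _ Δ fun z _ => hNc z).trans ?_
  rw [sph, Set.ncard_eq_toFinset_card _ hfin]

theorem faces_encard (M : CMap D) {Δ : ℕ} (hP : M.Pre Δ) (x : M.V) (n : ℕ) :
    (M.corona x (n + 1)).2.encard = (M.sph (Sum.inl x) (2 * n + 1) : ℕ∞) := by
  rw [M.corona_eq hP]
  have himg : {w | M.qd (Sum.inl x) w = 2 * n + 1} =
      Sum.inr '' {f | M.qd (Sum.inl x) (Sum.inr f) + 1 = 2 * (n + 1)} := by
    ext w
    simp only [Set.mem_ofPred_eq, Set.mem_image]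
    constructor
    · intro h
      rcases w with v | f
      · exfalso
        have := M.q_dist_parity hP (Sum.inl x) (Sum.inl v)
        rw [h] at this
        simp at this
      · exact ⟨f, by omega, rfl⟩
    · rintro ⟨f, hf, rfl⟩
      omega
  rw [sph, (M.sph_finite hP (Sum.inl x) (2 * n + 1)).cast_ncard_eq, himg,
    Sum.inr_injective.encard_image]

theorem sph_pos (M : CMap D) {Δ : ℕ} (hP : M.Pre Δ) (x : M.V ⊕ M.F) (n : ℕ) :
    1 ≤ M.sph x n := by
  rw [sph, Nat.one_le_iff_ne_zero, ← Nat.pos_iff_ne_zero,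
    Set.ncard_pos (M.sph_finite hP x n)]
  exact M.q_exists_dist hP x n

theorem ball_succ_le (M : CMap D) (x : M.V ⊕ M.F) (n : ℕ) :
    {w | M.qd x w ≤ n + 1}.ncard ≤ {w | M.qd x w ≤ n}.ncard + M.sph x (n + 1) := by
  have : {w | M.qd x w ≤ n + 1} = {w | M.qd x w ≤ n} ∪ {w | M.qd x w = n + 1} := by
    ext w
    simp only [Set.mem_ofPred_eq, Set.mem_union]
    omega
  rw [this]
  exact Set.ncard_union_le _ _

end CMap

theorem limsup_le_of_bound (f : ℕ → ℕ) (C q : ℝ) (hq : 0 < q)
    (h : ∀ n, 1 ≤ n → (f n : ℝ) ≤ C * q ^ n) :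
    limsup (fun n : ℕ => (f n : ENNReal) ^ (1 / (n : ℝ))) atTop ≤ ENNReal.ofReal q := by
  set C' : ℝ := max C 1 with hC'
  have hC'pos : 0 < C' := lt_of_lt_of_le one_pos (le_max_right _ _)
  have hg : Tendsto (fun n : ℕ => ENNReal.ofReal (C' ^ (1 / (n : ℝ)) * q)) atTop
      (𝓝 (ENNReal.ofReal q)) := by
    apply ENNReal.tendsto_ofReal
    have h1 : Tendsto (fun n : ℕ => C' ^ (1 / (n : ℝ))) atTop (𝓝 (C' ^ (0 : ℝ))) :=
      tendsto_const_nhds.rpow tendsto_one_div_atTop_nhds_zero_nat (Or.inl hC'pos.ne')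
    rw [Real.rpow_zero] at h1
    simpa using h1.mul_const q
  rw [← hg.limsup_eq]
  refine limsup_le_limsup ?_ (by isBoundedDefault) (by isBoundedDefault)
  · filter_upwards [eventually_ge_atTop 1] with n hn
    have hn0 : (0 : ℝ) < n := by exact_mod_cast hn
    have h1 : (f n : ENNReal) ≤ ENNReal.ofReal (C' * q ^ n) := by
      rw [← ENNReal.ofReal_natCast]
      apply ENNReal.ofReal_le_ofReal
      refine (h n hn).trans ?_
      exact mul_le_mul_of_nonneg_right (le_max_left _ _) (by positivity)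
    refine (ENNReal.rpow_le_rpow h1 (by positivity)).trans ?_
    rw [ENNReal.ofReal_rpow_of_nonneg (by positivity) (by positivity)]
    apply le_of_eq
    congr 1
    rw [Real.mul_rpow hC'pos.le (by positivity)]
    congr 1
    rw [← Real.rpow_natCast, ← Real.rpow_mul hq.le]
    rw [mul_one_div_cancel hn0.ne', Real.rpow_one]

theorem blockC : CoronaStatement := by
  intro D M Δ hP x
  have hshift : ∀ n, 1 ≤ n → ((M.corona x n).2.encard : ENNReal) =
      ((M.sph (Sum.inl x) (2 * n - 1) : ℕ) : ENNReal) := by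
    intro n hn
    obtain ⟨m, rfl⟩ : ∃ m, n = m + 1 := ⟨n - 1, by omega⟩
    rw [M.faces_encard hP, show 2 * (m + 1) - 1 = 2 * m + 1 by omega]
    simp
  have hgrowth : M.growth x =
      limsup (fun n : ℕ => ((M.sph (Sum.inl x) (2 * n - 1) : ℕ) : ENNReal) ^ (1 / (n : ℝ)))
        atTop := by
    unfold CMap.growth
    apply limsup_congr
    filter_upwards [eventually_ge_atTop 1] with n hn
    rw [hshift n hn]
  constructor
  · rintro r hr ⟨C, hC⟩
    have hsub : ∀ n, M.sph (Sum.inl x) n ≤ {w | M.qd (Sum.inl x) w ≤ n}.ncard := by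
      intro n
      exact Set.ncard_le_ncard (fun w hw => le_of_eq hw) (M.q_ball_finite hP _ _)
    have hr0 : 0 < r := by
      rcases hr.lt_or_eq with h | h
      · exact h
      · exfalso
        subst h
        have h1 := hC 1
        have h2 := hsub 1
        have h3 := M.sph_pos hP (Sum.inl x) 1
        have h4 : (1 : ℝ) ≤ ({w | M.qd (Sum.inl x) w ≤ 1}.ncard : ℝ) := by
          exact_mod_cast h3.trans h2
        simp only [pow_one, mul_zero] at h1
        linarith
    rw [hgrowth]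
    refine limsup_le_of_bound _ (C / r) (r ^ 2) (by positivity) ?_
    intro n hn
    have h1 := hC (2 * n - 1)
    have h2 : ((M.sph (Sum.inl x) (2 * n - 1) : ℕ) : ℝ) ≤
        ({w | M.qd (Sum.inl x) w ≤ 2 * n - 1}.ncard : ℝ) := by exact_mod_cast hsub _
    refine h2.trans (h1.trans (le_of_eq ?_))
    obtain ⟨m, rfl⟩ : ∃ m, n = m + 1 := ⟨n - 1, by omega⟩
    rw [show 2 * (m + 1) - 1 = 2 * m + 1 by omega, ← pow_mul]
    field_simp
    ring
  · intro r hr hlt
    rw [hgrowth] at hlt
    have hge : (1 : ENNReal) ≤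
        limsup (fun n : ℕ => ((M.sph (Sum.inl x) (2 * n - 1) : ℕ) : ENNReal) ^ (1 / (n : ℝ)))
          atTop := by
      apply le_limsup_of_frequently_le
      · apply Eventually.frequently
        filter_upwards [eventually_ge_atTop 1] with n hn
        have hn0 : (0 : ℝ) < n := by exact_mod_cast hn
        have h1 : (1 : ENNReal) ≤ ((M.sph (Sum.inl x) (2 * n - 1) : ℕ) : ENNReal) := by
          exact_mod_cast M.sph_pos hP (Sum.inl x) (2 * n - 1)
        exact ENNReal.one_le_rpow h1 (by positivity)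
      · isBoundedDefault
    have hr2 : 1 < r ^ 2 := by
      have := lt_of_le_of_lt hge hlt
      by_contra hcon
      push Not at hcon
      have h2 : ENNReal.ofReal (r ^ 2) ≤ 1 := by
        rw [← ENNReal.ofReal_one]
        exact ENNReal.ofReal_le_ofReal hcon
      exact absurd (lt_of_lt_of_le this h2) (lt_irrefl _)
    have hr1 : 1 < r := by
      by_contra hcon
      push Not at hcon
      nlinarith
    have hev := eventually_lt_of_limsup_lt hlt
    obtain ⟨N, hN⟩ := eventually_atTop.1 hev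
    -- bound on odd spheres
    set f : ℕ → ℕ := fun n => M.sph (Sum.inl x) (2 * n - 1) with hf
    have hfN : ∀ n, max N 1 ≤ n → (f n : ℝ) ≤ r ^ (2 * n) := by
      intro n hn
      have hn1 : 1 ≤ n := (le_max_right _ _).trans hn
      have hn0 : (0 : ℝ) < n := by exact_mod_cast hn1
      have h1 := hN n ((le_max_left _ _).trans hn)
      have h2 : (f n : ENNReal) < ENNReal.ofReal (r ^ 2) ^ (n : ℝ) := by
        have h3 := ENNReal.rpow_lt_rpow h1 hn0
        rw [← ENNReal.rpow_mul, one_div_mul_cancel hn0.ne', ENNReal.rpow_one] at h3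
        exact h3
      rw [ENNReal.rpow_natCast, ← ENNReal.ofReal_pow (by positivity), ← pow_mul,
        ← ENNReal.ofReal_natCast] at h2
      exact ((ENNReal.ofReal_lt_ofReal_iff (by positivity)).1 h2).le
    obtain ⟨C0, hC0, hfC⟩ : ∃ C0 : ℝ, 0 ≤ C0 ∧ ∀ n, (f n : ℝ) ≤ C0 * r ^ (2 * n) := by
      refine ⟨1 + ∑ n ∈ Finset.range (max N 1), (f n : ℝ), by positivity, ?_⟩
      intro n
      have hpow : (1 : ℝ) ≤ r ^ (2 * n) := one_le_pow₀ hr1.le
      have hsum : (0 : ℝ) ≤ ∑ n ∈ Finset.range (max N 1), (f n : ℝ) := by positivity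
      by_cases hn : n < max N 1
      · have h1 : (f n : ℝ) ≤ ∑ n ∈ Finset.range (max N 1), (f n : ℝ) :=
          Finset.single_le_sum (f := fun n => (f n : ℝ)) (fun i _ => by positivity)
            (Finset.mem_range.2 hn)
        nlinarith
      · have h1 := hfN n (by omega)
        nlinarith
    -- bound on all spheres
    obtain ⟨C1, hC1, hsC⟩ : ∃ C1 : ℝ, 0 ≤ C1 ∧
        ∀ k, (M.sph (Sum.inl x) k : ℝ) ≤ C1 * r ^ k := by
      refine ⟨(M.sph (Sum.inl x) 0 : ℝ) + C0 * r + Δ * C0, by positivity, ?_⟩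
      intro k
      have hs0 : (0 : ℝ) ≤ (M.sph (Sum.inl x) 0 : ℝ) := by positivity
      have hΔ : (0 : ℝ) ≤ Δ * C0 := by positivity
      have hCr : 0 ≤ C0 * r := by positivity
      have hpk : (0 : ℝ) ≤ r ^ k := by positivity
      rcases Nat.even_or_odd' k with ⟨m, rfl | rfl⟩
      · rcases Nat.eq_zero_or_pos m with rfl | hm
        · simp only [mul_zero, pow_zero, mul_one]
          linarith
        · have h1 := M.sph_succ_le hP (Sum.inl x) (2 * m - 1)
          rw [show 2 * m - 1 + 1 = 2 * m by omega] at h1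
          have h2 : (M.sph (Sum.inl x) (2 * m) : ℝ) ≤ (f m : ℝ) * Δ := by exact_mod_cast h1
          have h3 := hfC m
          have h4 : (f m : ℝ) * Δ ≤ (C0 * r ^ (2 * m)) * Δ :=
            mul_le_mul_of_nonneg_right h3 (by positivity)
          have h5 : (0 : ℝ) ≤ ((M.sph (Sum.inl x) 0 : ℝ) + C0 * r) * r ^ (2 * m) := by positivity
          nlinarith
      · have h3 := hfC (m + 1)
        simp only [hf] at h3
        rw [show 2 * (m + 1) - 1 = 2 * m + 1 by omega] at h3
        have h5 : (0 : ℝ) ≤ ((M.sph (Sum.inl x) 0 : ℝ) + Δ * C0) * r ^ (2 * m + 1) := by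
          positivity
        have h6 : C0 * r ^ (2 * (m + 1)) = C0 * r * r ^ (2 * m + 1) := by ring
        nlinarith
    -- balls
    refine ⟨(({w | M.qd (Sum.inl x) w ≤ 0}.ncard : ℕ) : ℝ) + C1 * r / (r - 1), ?_⟩
    have hr' : 0 < r - 1 := by linarith
    intro n
    simp only
    induction n with
    | zero =>
      simp only [pow_zero, mul_one]
      have : 0 ≤ C1 * r / (r - 1) := by positivity
      linarith
    | succ n ih =>
      have h1 := M.ball_succ_le (Sum.inl x) n
      have h2 : (({w | M.qd (Sum.inl x) w ≤ n + 1}.ncard : ℕ) : ℝ) ≤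
          ({w | M.qd (Sum.inl x) w ≤ n}.ncard : ℕ) + (M.sph (Sum.inl x) (n + 1) : ℝ) := by
        exact_mod_cast h1
      have h3 := hsC (n + 1)
      have h4 : C1 * r / (r - 1) * r ^ (n + 1) = C1 * r / (r - 1) * r ^ n + C1 * r ^ (n + 1) := by
        field_simp
        ring
      have h5 : (({w | M.qd (Sum.inl x) w ≤ 0}.ncard : ℕ) : ℝ) * r ^ n ≤
          (({w | M.qd (Sum.inl x) w ≤ 0}.ncard : ℕ) : ℝ) * r ^ (n + 1) := by
        apply mul_le_mul_of_nonneg_left _ (by positivity)
        exact pow_le_pow_right₀ hr1.le (Nat.le_succ n)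
      calc _ ≤ _ := h2
        _ ≤ _ := add_le_add ih h3
        _ ≤ _ := by
          rw [add_mul, add_mul, h4]
          linarith

end Tess
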