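import Pool.Agent.Work.MP_8c67d3_co.Interface

/-!
# Block Q: basic facts on the incidence graph
-/

set_option autoImplicit false

namespace Tess

namespace CMap

variable {D : Type} {M : CMap D}

theorem q_adj_corner (M : CMap D) (d : D) :
    M.Q.Adj (Sum.inl (M.vert d)) (Sum.inr (M.fac d)) := ⟨d, Or.inl ⟨rfl, rfl⟩⟩

theorem q_reach_vert (M : CMap D) {u v : M.V} (h : M.Reach ∅ u v) :
    M.Q.Reachable (Sum.inl u) (Sum.inl v) := by
  induction h with
  | refl => exact SimpleGraph.Reachable.refl _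
  | tail _ hbc ih =>
    obtain ⟨⟨e, he, he'⟩, -⟩ := hbc
    refine ih.trans ?_
    have h1 : M.Q.Reachable (Sum.inl (M.vert (M.rot.symm e)))
        (Sum.inr (M.fac (M.rot.symm e))) := (M.q_adj_corner _).reachable
    have h2 : M.Q.Reachable (Sum.inl (M.vert (M.inv e))) (Sum.inr (M.fac (M.inv e))) :=
      (M.q_adj_corner _).reachable
    rw [M.fac_inv, he'] at h2
    rw [M.vert_rot_symm, he] at h1
    exact h1.trans h2.symm

theorem q_connected (M : CMap D) {Δ : ℕ} (hP : M.Pre Δ) : M.Q.Connected := by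
  have key : ∀ a b : M.V ⊕ M.F, M.Q.Reachable a b := by
    have hv : ∀ (u : M.V) (a : M.V ⊕ M.F), M.Q.Reachable (Sum.inl u) a := by
      rintro u (v | f)
      · exact M.q_reach_vert (hP.connected u v)
      · obtain ⟨d, rfl⟩ := M.fac_surj f
        exact (M.q_reach_vert (hP.connected u (M.vert d))).trans (M.q_adj_corner d).reachable
    obtain ⟨d₀⟩ : Nonempty D := by
      have := hP.infinite
      infer_instance
    intro a b
    exact (hv (M.vert d₀) a).symm.trans (hv (M.vert d₀) b)
  have hne : Nonempty (M.V ⊕ M.F) := by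
    have := hP.infinite
    obtain ⟨d₀⟩ : Nonempty D := inferInstance
    exact ⟨Sum.inl (M.vert d₀)⟩
  exact { preconnected := key, nonempty := hne }

theorem isGraphMetric_dist {W : Type} (G : SimpleGraph W) (hG : G.Connected) :
    IsGraphMetric (fun a b => G.dist a b) where
  self x := SimpleGraph.dist_self
  eq_of x y h := (hG.dist_eq_zero_iff).1 h
  symm x y := SimpleGraph.dist_comm
  tri x y z := hG.dist_triangle
  geod x y n hn := by
    obtain ⟨p, hp⟩ := hG.exists_walk_length_eq_dist x y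
    have h1 : G.dist x (p.getVert n) ≤ n := by
      refine (SimpleGraph.dist_le (p.take n)).trans ?_
      rw [SimpleGraph.Walk.take_length]
      exact min_le_left _ _
    have h2 : G.dist (p.getVert n) y ≤ G.dist x y - n := by
      refine (SimpleGraph.dist_le (p.drop n)).trans ?_
      rw [SimpleGraph.Walk.drop_length, hp]
    have h3 := hG.dist_triangle (u := x) (v := p.getVert n) (w := y)
    refine ⟨p.getVert n, ?_, ?_⟩
    · omega
    · omega

theorem q_metric (M : CMap D) {Δ : ℕ} (hP : M.Pre Δ) : IsGraphMetric M.qd :=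
  isGraphMetric_dist M.Q (M.q_connected hP)

/-- The neighbours of a vertex of `Q`, as a finset of at most `Δ` elements. -/
theorem q_nb (M : CMap D) {Δ : ℕ} (hP : M.Pre Δ) (z : M.V ⊕ M.F) :
    ∃ N : Finset (M.V ⊕ M.F), (∀ w, w ∈ N ↔ M.Q.Adj z w) ∧ N.card ≤ Δ := by
  classical
  rcases z with v | f
  · obtain ⟨d, rfl⟩ := M.vert_surj v
    have hf := M.finite_vert (hP.val_pos d)
    refine ⟨hf.toFinset.image fun e => Sum.inr (M.fac e), ?_, ?_⟩
    · intro w
      simp only [Finset.mem_image, Set.Finite.mem_toFinset, Set.mem_ofPred_eq]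
      constructor
      · rintro ⟨e, he, rfl⟩
        exact ⟨e, Or.inl ⟨by rw [he], rfl⟩⟩
      · rintro ⟨e, ⟨h1, h2⟩ | ⟨h1, h2⟩⟩
        · exact ⟨e, (Sum.inl.inj h1).symm, h2.symm⟩
        · simp at h1
    · refine Finset.card_image_le.trans ?_
      rw [← Set.ncard_eq_toFinset_card _ hf, M.ncard_vert (hP.val_pos d)]
      exact hP.val_le d
  · obtain ⟨d, rfl⟩ := M.fac_surj f
    have hf := M.finite_fac (hP.face_pos d)
    refine ⟨hf.toFinset.image fun e => Sum.inl (M.vert e), ?_, ?_⟩
    · intro w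
      simp only [Finset.mem_image, Set.Finite.mem_toFinset, Set.mem_ofPred_eq]
      constructor
      · rintro ⟨e, he, rfl⟩
        exact ⟨e, Or.inr ⟨by rw [he], rfl⟩⟩
      · rintro ⟨e, ⟨h1, h2⟩ | ⟨h1, h2⟩⟩
        · simp at h1
        · exact ⟨e, (Sum.inr.inj h1).symm, h2.symm⟩
    · refine Finset.card_image_le.trans ?_
      rw [← Set.ncard_eq_toFinset_card _ hf, M.ncard_fac (hP.face_pos d)]
      exact hP.face_le d

theorem q_ball (M : CMap D) {Δ : ℕ} (hP : M.Pre Δ) (x : M.V ⊕ M.F) (n : ℕ) :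
    ∃ S : Finset (M.V ⊕ M.F), (∀ w, w ∈ S ↔ M.qd x w ≤ n) ∧ S.card ≤ (Δ + 1) ^ n := by
  classical
  have hm := M.q_metric hP
  induction n with
  | zero =>
    refine ⟨{x}, ?_, by simp⟩
    intro w
    rw [Finset.mem_singleton]
    constructor
    · rintro rfl
      rw [hm.self]
    · intro h
      exact (hm.eq_of x w (Nat.le_zero.1 h)).symm
  | succ n ih =>
    obtain ⟨S, hS, hcard⟩ := ih
    choose N hN hNc using M.q_nb hP
    refine ⟨S.biUnion fun z => insert z (N z), ?_, ?_⟩
    · intro w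
      simp only [Finset.mem_biUnion, Finset.mem_insert, hN, hS]
      constructor
      · rintro ⟨z, hz, rfl | h⟩
        · omega
        · have h1 := hm.tri x z w
          have h2 : M.qd z w = 1 := SimpleGraph.dist_eq_one_iff_adj.2 h
          omega
      · intro h
        by_cases hw : M.qd x w ≤ n
        · exact ⟨w, hw, Or.inl rfl⟩
        · obtain ⟨z, hz1, hz2⟩ := hm.geod x w n (by omega)
          refine ⟨z, by omega, Or.inr ?_⟩
          exact SimpleGraph.dist_eq_one_iff_adj.1 (by change M.qd z w = 1; omega)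
    · refine (Finset.card_biUnion_le_card_mul S _ (Δ + 1) ?_).trans ?_
      · intro z _
        refine (Finset.card_insert_le _ _).trans ?_
        have := hNc z
        omega
      · rw [pow_succ]
        exact Nat.mul_le_mul_right _ hcard

theorem q_ball_finite (M : CMap D) {Δ : ℕ} (hP : M.Pre Δ) (x : M.V ⊕ M.F) (n : ℕ) :
    {w | M.qd x w ≤ n}.Finite := by
  obtain ⟨S, hS, -⟩ := M.q_ball hP x n
  refine S.finite_toSet.subset ?_
  intro w hw
  exact (hS w).2 hw

theorem q_ball_card (M : CMap D) {Δ : ℕ} (hP : M.Pre Δ) (x : M.V ⊕ M.F) (n : ℕ) :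
    {w | M.qd x w ≤ n}.ncard ≤ (Δ + 1) ^ n := by
  obtain ⟨S, hS, hc⟩ := M.q_ball hP x n
  have : {w | M.qd x w ≤ n} = ↑S := by
    ext w
    simp [hS]
  rw [this, Set.ncard_coe_finset]
  exact hc

/-- The length of a walk in `Q` is even iff its ends are of the same kind. -/
theorem q_walk_parity (M : CMap D) {a b : M.V ⊕ M.F} (p : M.Q.Walk a b) :
    Even p.length ↔ (a.isLeft = b.isLeft) := by
  induction p with
  | nil => simp
  | @cons u v w h p ih =>
    rw [SimpleGraph.Walk.length_cons, Nat.even_add_one, ih]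
    obtain ⟨d, ⟨rfl, rfl⟩ | ⟨rfl, rfl⟩⟩ := h
    · rcases w with w | w <;> simp
    · rcases w with w | w <;> simp

theorem q_dist_parity (M : CMap D) {Δ : ℕ} (hP : M.Pre Δ) (a b : M.V ⊕ M.F) :
    Even (M.qd a b) ↔ (a.isLeft = b.isLeft) := by
  obtain ⟨p, hp⟩ := (M.q_connected hP).exists_walk_length_eq_dist a b
  unfold qd
  rw [← hp]
  exact M.q_walk_parity p

theorem q_corner (M : CMap D) {Δ : ℕ} (hP : M.Pre Δ) (x : M.V ⊕ M.F) (d : D) :
    M.qd x (Sum.inl (M.vert d)) = M.qd x (Sum.inr (M.fac d)) + 1 ∨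
      M.qd x (Sum.inr (M.fac d)) = M.qd x (Sum.inl (M.vert d)) + 1 := by
  have hm := M.q_metric hP
  have h1 : M.qd (Sum.inl (M.vert d)) (Sum.inr (M.fac d)) = 1 :=
    SimpleGraph.dist_eq_one_iff_adj.2 (M.q_adj_corner d)
  have h2 := hm.tri x (Sum.inl (M.vert d)) (Sum.inr (M.fac d))
  have h3 := hm.tri x (Sum.inr (M.fac d)) (Sum.inl (M.vert d))
  rw [hm.symm (Sum.inr (M.fac d)) (Sum.inl (M.vert d))] at h3
  have h4 := M.q_dist_parity hP x (Sum.inl (M.vert d))
  have h5 := M.q_dist_parity hP x (Sum.inr (M.fac d))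
  have h6 : M.qd x (Sum.inl (M.vert d)) ≠ M.qd x (Sum.inr (M.fac d)) := by
    intro h
    rw [h, h5] at h4
    rcases x with x | x <;> simp at h4
  omega

theorem q_infinite (M : CMap D) {Δ : ℕ} (hP : M.Pre Δ) : Infinite M.V := by
  by_contra hV
  rw [not_infinite_iff_finite] at hV
  have hD : (Set.univ : Set D).Finite := by
    have : (Set.univ : Set D) = ⋃ v : M.V, {e | M.vert e = v} := by
      ext e; simp
    rw [this]
    refine Set.finite_iUnion fun v => ?_
    obtain ⟨d, rfl⟩ := M.vert_surj v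
    exact M.finite_vert (hP.val_pos d)
  have := hP.infinite
  exact Set.infinite_univ hD

theorem q_exists_dist (M : CMap D) {Δ : ℕ} (hP : M.Pre Δ) (x : M.V ⊕ M.F) (n : ℕ) :
    ∃ w, M.qd x w = n := by
  by_contra hcon
  push Not at hcon
  have hm := M.q_metric hP
  have hall : ∀ w, M.qd x w ≤ n := by
    intro w
    by_contra hw
    obtain ⟨z, hz, -⟩ := hm.geod x w n (by omega)
    exact hcon z hz
  have hfin := M.q_ball_finite hP x n
  have h1 : (Set.univ : Set (M.V ⊕ M.F)).Finite := hfin.subset fun w _ => hall w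
  have h2 : Finite (M.V ⊕ M.F) := Set.finite_univ_iff.1 h1
  have h3 : Finite M.V := Finite.of_injective (Sum.inl : M.V → M.V ⊕ M.F) Sum.inl_injective
  have := M.q_infinite hP
  exact not_finite M.V

end CMap

theorem blockQ : QStatement := fun _ M _ hP =>
  ⟨M.q_metric hP, M.q_ball_finite hP, M.q_ball_card hP, M.q_corner hP, M.q_exists_dist hP⟩

end Tess
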