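import Pool.Agent.Work.MP_8c67d3_co.Transfer
import Pool.Agent.Work.MP_8c67d3_co.BlockQ

/-!
# Block L2: agreement on words gives equal ball sizes
-/

set_option autoImplicit false

namespace Tess

open CMap

/-- The point of the incidence graph given by a word: a vertex (`true`) or a face (`false`). -/
def pt {D : Type} (M : CMap D) (d : D) (b : Bool) (w : List Bool) : M.V ⊕ M.F :=
  if b then Sum.inl (M.vert (M.run w d)) else Sum.inr (M.fac (M.run w d))

section

variable {D D' : Type} {M : CMap D} {M' : CMap D'} {d : D} {d' : D'} {L Δ : ℕ}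

theorem pt_transfer (hP : M.Pre Δ) (h : Agree L M' d' M d) {b b' : Bool} {w w' : List Bool}
    (hw : w.length + 2 * Δ ≤ L) (hw' : w'.length ≤ L) :
    pt M' d' b w = pt M' d' b' w' ↔ pt M d b w = pt M d b' w' := by
  rcases b with _ | _ <;> rcases b' with _ | _ <;> simp only [pt, if_true, if_false,
    Bool.false_eq_true, Sum.inl.injEq, Sum.inr.injEq, reduceCtorEq]
  · exact h.fac_iff (hP.face_pos _) (hP.face_le _) hw hw'
  · exact h.vert_iff (hP.val_pos _) (hP.val_le _) (by omega) hw'

/-- Every point at distance at most `m` from the root is given by a word of length at most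
`2 Δ m`. -/
theorem exists_pt (hP : M.Pre Δ) (b₀ : Bool) (m : ℕ) :
    ∀ q, M.qd (pt M d b₀ []) q ≤ m → ∃ b w, w.length ≤ 2 * Δ * m ∧ pt M d b w = q := by
  have hm := M.q_metric hP
  induction m with
  | zero =>
    intro q hq
    refine ⟨b₀, [], by simp, ?_⟩
    exact hm.eq_of _ _ (by omega)
  | succ m ih =>
    intro q hq
    by_cases hlt : M.qd (pt M d b₀ []) q ≤ m
    · obtain ⟨b, w, hw, h⟩ := ih q hlt
      exact ⟨b, w, hw.trans (Nat.mul_le_mul_left _ (Nat.le_succ m)), h⟩
    · obtain ⟨z, hz1, hz2⟩ := hm.geod (pt M d b₀ []) q m (by omega)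
      have hadj : M.Q.Adj z q := SimpleGraph.dist_eq_one_iff_adj.1 (by change M.qd z q = 1; omega)
      obtain ⟨b, w, hw, rfl⟩ := ih z hz1.le
      obtain ⟨e, ⟨h1, h2⟩ | ⟨h1, h2⟩⟩ := hadj
      · rcases b with _ | _
        · simp [pt] at h1
        · simp only [pt, if_true, Sum.inl.injEq] at h1
          obtain ⟨i, hi, h3⟩ := exists_word_of_vert_eq (hP.val_pos (M.run w d)) h1
          have hi' := hP.val_le (M.run w d)
          refine ⟨false, rw' i ++ w, ?_, ?_⟩
          · rw [List.length_append, length_rw', Nat.mul_succ]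
            omega
          · rw [h2, ← h3]
            simp [pt]
      · rcases b with _ | _
        · simp only [pt, Bool.false_eq_true, if_false, Sum.inr.injEq] at h1
          obtain ⟨i, hi, h3⟩ := exists_word_of_fac_eq (hP.face_pos (M.run w d)) h1
          have hi' := hP.face_le (M.run w d)
          refine ⟨true, fw i ++ w, ?_, ?_⟩
          · rw [List.length_append, length_fw, Nat.mul_succ]
            omega
          · rw [h2, ← h3]
            simp [pt]
        · simp [pt] at h1

theorem dist_transfer (hP : M.Pre Δ) (hP' : M'.Pre Δ) (h : Agree L M' d' M d) (b₀ : Bool)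
    (m : ℕ) (hL : 2 * Δ * m + 4 * Δ ≤ L) :
    ∀ (b : Bool) (w : List Bool), w.length + 4 * Δ ≤ L → M.qd (pt M d b₀ []) (pt M d b w) ≤ m →
      M'.qd (pt M' d' b₀ []) (pt M' d' b w) ≤ m := by
  have hm := M.q_metric hP
  have hm' := M'.q_metric hP'
  induction m with
  | zero =>
    intro b w hw hd
    have h1 := (hm.eq_of _ _ (Nat.le_zero.1 hd)).symm
    have h2 := (pt_transfer hP h (by omega) (by simp)).2 h1
    rw [h2, hm'.self]
  | succ m ih =>
    intro b w hw hd
    have hL2 : 2 * Δ * (m + 1) = 2 * Δ * m + 2 * Δ := Nat.mul_succ _ _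
    have hL' : 2 * Δ * m + 4 * Δ ≤ L := by omega
    by_cases hlt : M.qd (pt M d b₀ []) (pt M d b w) ≤ m
    · exact (ih hL' b w hw hlt).trans (Nat.le_succ m)
    · obtain ⟨z, hz1, hz2⟩ := hm.geod (pt M d b₀ []) (pt M d b w) m (by omega)
      have hadj : M.Q.Adj z (pt M d b w) :=
        SimpleGraph.dist_eq_one_iff_adj.1 (by change M.qd z (pt M d b w) = 1; omega)
      obtain ⟨b', w', hw', rfl⟩ := exists_pt hP b₀ m z hz1.le
      have key : M'.Q.Adj (pt M' d' b' w') (pt M' d' b w) →
          M'.qd (pt M' d' b₀ []) (pt M' d' b w) ≤ m + 1 := by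
        intro hadj'
        have h1 : M'.qd (pt M' d' b' w') (pt M' d' b w) = 1 :=
          SimpleGraph.dist_eq_one_iff_adj.2 hadj'
        have h2 := hm'.tri (pt M' d' b₀ []) (pt M' d' b' w') (pt M' d' b w)
        have h3 : M'.qd (pt M' d' b₀ []) (pt M' d' b' w') ≤ m :=
          ih hL' b' w' (by omega) hz1.le
        omega
      apply key
      obtain ⟨e, ⟨h1, h2⟩ | ⟨h1, h2⟩⟩ := hadj
      · rcases b with _ | _
        · rcases b' with _ | _
          · simp [pt] at h1
          · simp only [pt, if_true, Bool.false_eq_true, if_false, Sum.inl.injEq,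
              Sum.inr.injEq] at h1 h2
            obtain ⟨i, hi, h3⟩ := exists_word_of_fac_eq (hP.face_pos (M.run w d)) h2
            have hi' := hP.face_le (M.run w d)
            have hlen : (fw i ++ w).length = 2 * i + w.length := by
              rw [List.length_append, length_fw]
            refine ⟨M'.run (fw i ++ w) d', Or.inl ⟨?_, ?_⟩⟩
            · simp only [pt, if_true, Sum.inl.injEq]
              symm
              rw [h.vert_iff (hP.val_pos _) (hP.val_le _) (by omega) (by omega), h3, h1]
            · simp [pt, run_fw_append]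
        · simp [pt] at h2
      · rcases b with _ | _
        · simp [pt] at h2
        · rcases b' with _ | _
          · simp only [pt, if_true, Bool.false_eq_true, if_false, Sum.inl.injEq,
              Sum.inr.injEq] at h1 h2
            obtain ⟨i, hi, h3⟩ := exists_word_of_vert_eq (hP.val_pos (M.run w d)) h2
            have hi' := hP.val_le (M.run w d)
            have hlen : (rw' i ++ w).length = i + w.length := by
              rw [List.length_append, length_rw']
            refine ⟨M'.run (rw' i ++ w) d', Or.inr ⟨?_, ?_⟩⟩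
            · simp only [pt, Bool.false_eq_true, if_false, Sum.inr.injEq]
              symm
              rw [h.fac_iff (hP.face_pos _) (hP.face_le _) (by omega) (by omega), h3, h1]
            · simp [pt, run_rw'_append]
          · simp [pt] at h1

theorem ball_le (hP : M.Pre Δ) (hP' : M'.Pre Δ) (h : Agree L M' d' M d) (b₀ : Bool)
    (m : ℕ) (hL : 2 * Δ * m + 4 * Δ ≤ L) :
    {q | M.qd (pt M d b₀ []) q ≤ m}.ncard ≤ {q | M'.qd (pt M' d' b₀ []) q ≤ m}.ncard := by
  classical
  have hex := exists_pt hP (d := d) b₀ m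
  choose! fb fw' hlen hpt using hex
  refine Set.ncard_le_ncard_of_injOn (fun q => pt M' d' (fb q) (fw' q)) ?_ ?_
    (M'.q_ball_finite hP' _ _)
  · intro q hq
    have h1 := hlen q hq
    have h2 := hpt q hq
    refine dist_transfer hP hP' h b₀ m hL _ _ (by omega) ?_
    rw [h2]
    exact hq
  · intro q hq q' hq' heq
    have h1 := hlen q hq
    have h1' := hlen q' hq'
    have h3 := (pt_transfer hP h (by omega) (by omega)).1 heq
    rw [hpt q hq, hpt q' hq'] at h3
    exact h3

end

theorem blockL2 : BallStatement := by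
  intro Δ n
  refine ⟨2 * Δ * n + 4 * Δ, ?_⟩
  intro D D' M M' d d' hP hP' h m hmn
  have hL : 2 * Δ * m + 4 * Δ ≤ 2 * Δ * n + 4 * Δ := by
    have := Nat.mul_le_mul_left (2 * Δ) hmn
    omega
  refine ⟨le_antisymm ?_ ?_, le_antisymm ?_ ?_⟩
  · exact ball_le hP hP' h.symm true m hL
  · exact ball_le hP' hP h true m hL
  · exact ball_le hP hP' h.symm false m hL
  · exact ball_le hP' hP h false m hL

end Tess
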