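import Pool.Agent.Work.MP_8c67d3_co.Interface

/-!
# Block S: the supremum of the growth rates of a compact class is attained
-/

set_option autoImplicit false

namespace Tess

open Filter Topology

section

variable {ι : Type 1} {W : ι → Type} {d : ∀ i, W i → W i → ℕ} {Δ : ℕ}

theorem PClass.bs_pos (h : PClass W d Δ) (y : Σ i, W i) (n : ℕ) : 1 ≤ bs d y n := by
  unfold bs
  rw [Nat.one_le_iff_ne_zero, ← Nat.pos_iff_ne_zero, Set.ncard_pos (h.fin y.1 y.2 n)]
  exact ⟨y.2, by simp [(h.metric y.1).self]⟩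

theorem PClass.bs_add_le (h : PClass W d Δ) (y : Σ i, W i) (m n : ℕ) (c : ℝ)
    (hc : ∀ z, (bs d z n : ℝ) ≤ c) : (bs d y (m + n) : ℝ) ≤ bs d y m * c := by
  classical
  obtain ⟨i, x⟩ := y
  have hm := h.fin i x m
  have hn := fun z => h.fin i z n
  have hsub : {w | d i x w ≤ m + n} ⊆
      ↑(hm.toFinset.biUnion fun z => (hn z).toFinset) := by
    intro w hw
    simp only [Set.mem_ofPred_eq] at hw
    simp only [Finset.coe_biUnion, Set.Finite.coe_toFinset, Set.mem_iUnion, Set.mem_ofPred_eq,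
      exists_prop]
    by_cases hc : d i x w ≤ m
    · exact ⟨w, hc, by rw [(h.metric i).self]; exact Nat.zero_le _⟩
    · obtain ⟨z, hz1, hz2⟩ := (h.metric i).geod x w m (by omega)
      exact ⟨z, hz1.le, by omega⟩
  have h1 := Set.ncard_le_ncard hsub (Finset.finite_toSet _)
  rw [Set.ncard_coe_finset] at h1
  have h2 : (bs d ⟨i, x⟩ (m + n) : ℝ) ≤
      ((hm.toFinset.biUnion fun z => (hn z).toFinset).card : ℝ) := by
    unfold bs
    exact_mod_cast h1
  have h3 : ((hm.toFinset.biUnion fun z => (hn z).toFinset).card : ℝ) ≤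
      ∑ z ∈ hm.toFinset, ((hn z).toFinset.card : ℝ) := by
    exact_mod_cast Finset.card_biUnion_le
  have h4 : ∑ z ∈ hm.toFinset, ((hn z).toFinset.card : ℝ) ≤ ∑ _z ∈ hm.toFinset, c := by
    refine Finset.sum_le_sum fun z _ => ?_
    have := hc ⟨i, z⟩
    unfold bs at this
    rw [Set.ncard_eq_toFinset_card _ (hn z)] at this
    exact this
  rw [Finset.sum_const, nsmul_eq_mul] at h4
  have h5 : (bs d ⟨i, x⟩ m : ℝ) = (hm.toFinset.card : ℝ) := by
    unfold bs
    rw [Set.ncard_eq_toFinset_card _ hm]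
  rw [h5]
  exact h2.trans (h3.trans h4)

/-- If every ball grows at some bounded scale by less than `c^m` the growth is at most `c`. -/
theorem PClass.unif (h : PClass W d Δ) (c : ℝ) (hc : 1 ≤ c) (m₀ : ℕ)
    (hm : ∀ y : Σ i, W i, ∃ m ≤ m₀, (bs d y m : ℝ) < c ^ m) (n : ℕ) :
    ∀ y : Σ i, W i, (bs d y n : ℝ) ≤ (max (Δ : ℝ) 1) ^ m₀ * c ^ n := by
  have hΔ : 1 ≤ max (Δ : ℝ) 1 := le_max_right _ _
  induction n using Nat.strong_induction_on with
  | _ n ih =>
    intro y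
    by_cases hn : n < m₀
    · have h1 : (bs d y n : ℝ) ≤ (Δ : ℝ) ^ n := by exact_mod_cast h.bound y.1 y.2 n
      have h2 : (Δ : ℝ) ^ n ≤ (max (Δ : ℝ) 1) ^ n :=
        pow_le_pow_left₀ (by positivity) (le_max_left _ _) n
      have h3 : (max (Δ : ℝ) 1) ^ n ≤ (max (Δ : ℝ) 1) ^ m₀ := pow_le_pow_right₀ hΔ hn.le
      have h4 : (1 : ℝ) ≤ c ^ n := one_le_pow₀ hc
      have h5 : (0 : ℝ) ≤ (max (Δ : ℝ) 1) ^ m₀ := by positivity
      nlinarith
    · obtain ⟨m, hm0, hlt⟩ := hm y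
      have hmpos : m ≠ 0 := by
        rintro rfl
        have := h.bs_pos y 0
        have h1 : (1 : ℝ) ≤ bs d y 0 := by exact_mod_cast this
        rw [pow_zero] at hlt
        linarith
      have h1 := h.bs_add_le y m (n - m) ((max (Δ : ℝ) 1) ^ m₀ * c ^ (n - m))
        (fun z => ih (n - m) (by omega) z)
      rw [show m + (n - m) = n by omega] at h1
      refine h1.trans ?_
      have h2 : (0 : ℝ) ≤ (max (Δ : ℝ) 1) ^ m₀ * c ^ (n - m) := by positivity
      refine (mul_le_mul_of_nonneg_right hlt.le h2).trans (le_of_eq ?_)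
      calc c ^ m * ((max (Δ : ℝ) 1) ^ m₀ * c ^ (n - m))
          = (max (Δ : ℝ) 1) ^ m₀ * (c ^ m * c ^ (n - m)) := by ring
        _ = _ := by rw [← pow_add, show m + (n - m) = n by omega]

theorem Adm.pos_of {b : ℕ → ℕ} {r : ℝ} (hb : ∀ n, 1 ≤ b n) (h : Adm b r) : 0 < r := by
  obtain ⟨C, hC⟩ := h
  have h0 := hC 0
  have h1 := hC 1
  have hb0 : (1 : ℝ) ≤ b 0 := by exact_mod_cast hb 0
  have hb1 : (1 : ℝ) ≤ b 1 := by exact_mod_cast hb 1
  rw [pow_zero, mul_one] at h0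
  rw [pow_one] at h1
  by_contra hr
  push Not at hr
  nlinarith

/-- A lower bound `μ^m ≤ b m` forces every admissible rate to be at least `μ`. -/
theorem Adm.le_of {b : ℕ → ℕ} {r μ : ℝ} (hb : ∀ n, 1 ≤ b n) (h : Adm b r)
    (hμ : ∀ m, μ ^ m ≤ b m) : μ ≤ r := by
  have hr := h.pos_of hb
  obtain ⟨C, hC⟩ := h
  by_contra hlt
  push Not at hlt
  have h1 : 1 < μ / r := (one_lt_div hr).2 hlt
  obtain ⟨m, hm⟩ := pow_unbounded_of_one_lt C h1
  have h2 := (hμ m).trans (hC m)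
  rw [div_pow, lt_div_iff₀ (by positivity)] at hm
  linarith

end

theorem blockS : SupStatement := by
  intro ι W d Δ h hne
  set U : Set ℝ := {c | 1 ≤ c ∧ ∃ C, ∀ (y : Σ i, W i) (n : ℕ), (bs d y n : ℝ) ≤ C * c ^ n} with hU
  have hUne : U.Nonempty := by
    refine ⟨max (Δ : ℝ) 1, le_max_right _ _, 1, fun y n => ?_⟩
    have h1 : (bs d y n : ℝ) ≤ (Δ : ℝ) ^ n := by exact_mod_cast h.bound y.1 y.2 n
    rw [one_mul]
    exact h1.trans (pow_le_pow_left₀ (by positivity) (le_max_left _ _) n)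
  have hUbdd : BddBelow U := ⟨1, fun c hc => hc.1⟩
  set μ := sInf U with hμ
  have hμ1 : 1 ≤ μ := le_csInf hUne fun c hc => hc.1
  have ha : ∀ c : ℝ, 1 ≤ c → c < μ → ∃ y : Σ i, W i, ∀ m, c ^ m ≤ (bs d y m : ℝ) := by
    intro c hc hcμ
    by_contra hcon
    push Not at hcon
    have hm : ∃ m₀ : ℕ, ∀ y : Σ i, W i, ∃ m ≤ m₀, (bs d y m : ℝ) < c ^ m := by
      by_contra hno
      push Not at hno
      choose s hs using hno
      obtain ⟨y, hy⟩ := h.compact s
      obtain ⟨m, hm⟩ := hcon y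
      obtain ⟨j, hj, hjm⟩ := hy m m
      have h1 := hs j m hj
      rw [← hjm m le_rfl] at h1
      linarith
    obtain ⟨m₀, hm₀⟩ := hm
    have hcU : c ∈ U := ⟨hc, _, fun y n => h.unif c hc m₀ hm₀ n y⟩
    have := csInf_le hUbdd hcU
    linarith
  have hb : ∃ y₂ : Σ i, W i, ∀ m, μ ^ m ≤ (bs d y₂ m : ℝ) := by
    rcases hμ1.lt_or_eq with hlt | heq
    · have hseq : ∀ j : ℕ, ∃ y : Σ i, W i, ∀ m, (max 1 (μ - 1 / ((j : ℝ) + 1))) ^ m ≤
          (bs d y m : ℝ) := by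
        intro j
        apply ha _ (le_max_left _ _)
        apply max_lt hlt
        have : 0 < 1 / ((j : ℝ) + 1) := by positivity
        linarith
      choose s hs using hseq
      obtain ⟨y, hy⟩ := h.compact s
      refine ⟨y, fun m => ?_⟩
      have hlim : Tendsto (fun j : ℕ => (max 1 (μ - 1 / ((j : ℝ) + 1))) ^ m) atTop
          (𝓝 (μ ^ m)) := by
        have h1 : Tendsto (fun j : ℕ => μ - 1 / ((j : ℝ) + 1)) atTop (𝓝 (μ - 0)) :=
          tendsto_const_nhds.sub tendsto_one_div_add_atTop_nhds_zero_nat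
        rw [sub_zero] at h1
        have h2 := (tendsto_const_nhds (x := (1 : ℝ))).max h1
        rw [max_eq_right hμ1] at h2
        exact h2.pow m
      by_contra hcon
      push Not at hcon
      obtain ⟨N, hN⟩ := eventually_atTop.1 (hlim.eventually (lt_mem_nhds hcon))
      obtain ⟨j, hj, hjm⟩ := hy m N
      have h1 := hN j hj
      have h2 := hs j m
      rw [← hjm m le_rfl] at h2
      linarith
    · obtain ⟨y⟩ := hne
      refine ⟨y, fun m => ?_⟩
      rw [← heq, one_pow]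
      exact_mod_cast h.bs_pos y m
  obtain ⟨y₂, hy₂⟩ := hb
  refine ⟨y₂, fun y r hr r' hr' => ?_⟩
  have h1 : μ ≤ r := hr.le_of (h.bs_pos y₂) hy₂
  obtain ⟨c, hcU, hcr⟩ := exists_lt_of_csInf_lt hUne (lt_of_le_of_lt h1 hr')
  obtain ⟨hc1, C, hC⟩ := hcU
  refine ⟨C, fun n => (hC y n).trans ?_⟩
  have hC0 : 0 ≤ C := by
    have h2 := hC y 0
    rw [pow_zero, mul_one] at h2
    have h3 : (1 : ℝ) ≤ bs d y 0 := by exact_mod_cast h.bs_pos y 0
    linarith
  exact mul_le_mul_of_nonneg_left (pow_le_pow_left₀ (by linarith) hcr.le n) hC0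

end Tess
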