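import Mathlib

/-!
# Face-homogeneous tessellations as combinatorial maps

Definitions used by the statement of the hand-in for MP_8c67d3_co.
-/

set_option autoImplicit false

namespace Tess

/-- A combinatorial map (rotation system) without boundary. `D` is the set of darts (half-edges),
`rot` sends a dart to the next one in the (counterclockwise) order around its vertex and `inv` is
the fixed point free involution sending a dart to the other half of its edge. -/
structure CMap (D : Type) where
  rot : Equiv.Perm D
  inv : Equiv.Perm D
  inv_inv : ∀ d, inv (inv d) = d
  inv_ne : ∀ d, inv d ≠ d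

namespace CMap

variable {D : Type} (M : CMap D)

/-- The permutation whose orbits are the faces: the corner of a dart `d` lies between `d` and
`rot d`; the next corner of the same face is the one of `inv (rot d)`. -/
def face : Equiv.Perm D := M.rot.trans M.inv

/-- The vertices are the orbits of `rot`. -/
def V : Type := Quotient (Equiv.Perm.SameCycle.setoid M.rot)

/-- The faces are the orbits of `face`. -/
def F : Type := Quotient (Equiv.Perm.SameCycle.setoid M.face)

/-- The vertex at which the dart `d` starts. -/
def vert (d : D) : M.V := Quotient.mk (Equiv.Perm.SameCycle.setoid M.rot) d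

/-- The face which contains the corner between `d` and `rot d`. -/
def fac (d : D) : M.F := Quotient.mk (Equiv.Perm.SameCycle.setoid M.face) d

/-- The valence of the vertex of `d` (`0` if that vertex is incident with infinitely many
darts). -/
noncomputable def val (d : D) : ℕ := Function.minimalPeriod M.rot d

/-- Two vertices are adjacent when some dart leads from one to the other. -/
def Adj (u v : M.V) : Prop := ∃ d, M.vert d = u ∧ M.vert (M.inv d) = v

/-- `v` can be reached from `u` by a path of the underlying graph all of whose vertices, except
possibly the first one, are outside `S`. -/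
def Reach (S : Set M.V) (u v : M.V) : Prop :=
  Relation.ReflTransGen (fun a b => M.Adj a b ∧ b ∉ S) u v

/-- A vertex and a face are incident when some corner of the face is at the vertex. -/
def Inc (v : M.V) (f : M.F) : Prop := ∃ d, M.vert d = v ∧ M.fac d = f

/-- The surface obtained by glueing polygons to the map along its face orbits has trivial first
homology group with coefficients in `ℤ/2`: every finite set `A` of edges (given as an
`inv`-closed set of darts) which has even degree at each vertex is the boundary of a finite set
`X` of faces, i.e. an edge is in `A` iff exactly one of its two sides is in `X`. For a connected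
surface which is not compact this says exactly that the surface is homeomorphic to the plane. -/
def Plane : Prop :=
  ∀ A : Finset D, (∀ d ∈ A, M.inv d ∈ A) →
    (∀ v : M.V, Even {d | d ∈ A ∧ M.vert d = v}.ncard) →
    ∃ X : Finset M.F, ∀ d, d ∈ A ↔ ¬ (M.fac d ∈ X ↔ M.fac (M.inv d) ∈ X)

/-- After the removal of a finite set of vertices there is exactly one infinite component. -/
def OneEnded : Prop :=
  ∀ S : Set M.V, S.Finite →
    (∃ u, u ∉ S ∧ {w | M.Reach S u w}.Infinite) ∧
    ∀ u v, u ∉ S → v ∉ S → {w | M.Reach S u w}.Infinite → {w | M.Reach S v w}.Infinite →
      M.Reach S u v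

/-- A tessellation: an infinite map in the plane whose underlying graph is simple, connected,
locally finite, 3-connected and one-ended and all of whose faces are finite. -/
structure IsTess : Prop where
  infinite : Infinite D
  connected : ∀ u v, M.Reach ∅ u v
  locally_finite : ∀ d, 0 < M.val d
  finite_faces : ∀ d, 0 < Function.minimalPeriod M.face d
  plane : M.Plane
  one_ended : M.OneEnded
  loopless : ∀ d, M.vert (M.inv d) ≠ M.vert d
  no_multi : ∀ d e, M.vert d = M.vert e → M.vert (M.inv d) = M.vert (M.inv e) → d = e
  three_conn : ∀ u v a b : M.V, a ≠ u → a ≠ v → b ≠ u → b ≠ v → M.Reach {u, v} a b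

/-- The valences of the vertices met at the `k` corners `d, face d, face (face d), …`. -/
noncomputable def word (k : ℕ) (d : D) : List ℕ :=
  List.ofFn fun i : Fin k => M.val ((M.face ^ (i : ℕ)) d)

/-- The map is face-homogeneous with valence sequence `σ`: every face is a polygon with
`σ.length` sides and the valences of its corners, read around the face, are the cyclic sequence
`σ` up to rotation and reversal. -/
def HasSeq (σ : List ℕ) : Prop :=
  ∀ d, Function.minimalPeriod M.face d = σ.length ∧
    (M.word σ.length d ~r σ ∨ M.word σ.length d ~r σ.reverse)

/-- The coronas around the root `x`: the `n`-th pair is `(U_n, F_n)`. -/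
def corona (x : M.V) : ℕ → Set M.V × Set M.F
  | 0 => ({x}, ∅)
  | n + 1 =>
    ({u | u ∉ (corona x n).1 ∧
        ∃ f, (f ∉ (corona x n).2 ∧ ∃ v ∈ (corona x n).1, M.Inc v f) ∧ M.Inc u f},
      {f | f ∉ (corona x n).2 ∧ ∃ v ∈ (corona x n).1, M.Inc v f})

/-- The growth rate `limsup |F_n|^(1/n)` of the number of faces in the `n`-th corona around the
root `x`. -/
noncomputable def growth (x : M.V) : ENNReal :=
  Filter.limsup (fun n : ℕ => (((M.corona x n).2.encard : ENNReal)) ^ (1 / (n : ℝ)))
    Filter.atTop

end CMap

/-- The combinatorial curvature `1 - k/2 + ∑ 1/p_i` of a valence sequence. -/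
def curv (σ : List ℕ) : ℚ := 1 - (σ.length : ℚ) / 2 + (σ.map fun p : ℕ => 1 / (p : ℚ)).sum

/-- The set of growth rates of the tessellations with valence sequence `σ`. -/
def Rates (σ : List ℕ) : Set ENNReal :=
  {g | ∃ (D : Type) (M : CMap D) (x : M.V), M.IsTess ∧ M.HasSeq σ ∧ M.growth x = g}

end Tess
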