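import Pool.Agent.Work.MP_8c67d3_co.InterfaceFL

/-!
# Blocks F5a and F5b: the sequences `[3, 3, 3, 4, 4]` and `[3, 3, 4, 3, 4]` are rigid
-/

set_option autoImplicit false

namespace Tess

namespace CMap

variable {D : Type} (M : CMap D)

/-- The valence of the neighbour to which the dart leads. -/
noncomputable def nb (d : D) : ℕ := M.val (M.inv d)

theorem nb_inv (d : D) : M.nb (M.inv d) = M.val d := by
  unfold nb; rw [M.inv_inv]

theorem val_inv_eq (d : D) : M.val (M.inv d) = M.nb d := rfl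

theorem val_rot_symm (d : D) : M.val (M.rot.symm d) = M.val d :=
  M.val_eq_of_vert_eq (M.vert_rot_symm d)

theorem val_face_symm (d : D) : M.val (M.face.symm d) = M.nb d := by
  rw [face_symm_apply, val_rot_symm]; rfl

theorem val_face (d : D) : M.val (M.face d) = M.nb (M.rot d) := by
  rw [face_apply]; rfl

theorem rot3 {d : D} (h : M.val d = 3) : M.rot (M.rot (M.rot d)) = d := by
  have h1 := pow_minimalPeriod M.rot d
  have h2 : Function.minimalPeriod M.rot d = 3 := h
  rw [h2] at h1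
  simpa [pow_succ, Equiv.Perm.mul_apply] using h1

theorem rot2_eq {d : D} (h : M.val d = 3) : M.rot (M.rot d) = M.rot.symm d := by
  rw [Equiv.eq_symm_apply]; exact M.rot3 h

theorem rot4 {d : D} (h : M.val d = 4) : M.rot (M.rot (M.rot (M.rot d))) = d := by
  have h1 := pow_minimalPeriod M.rot d
  have h2 : Function.minimalPeriod M.rot d = 4 := h
  rw [h2] at h1
  simpa [pow_succ, Equiv.Perm.mul_apply] using h1

theorem face5 {d : D} (h : Function.minimalPeriod M.face d = 5) :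
    M.face (M.face (M.face (M.face (M.face d)))) = d := by
  have h1 := pow_minimalPeriod M.face d
  rw [h] at h1
  simpa [pow_succ, Equiv.Perm.mul_apply] using h1

/-- The valences around a pentagonal face, starting with the corner of `d`. -/
theorem word5 {d : D} (h : Function.minimalPeriod M.face d = 5) :
    M.word 5 d = [M.val d, M.nb (M.rot d), M.nb (M.rot (M.inv (M.rot d))),
      M.nb (M.rot.symm (M.inv d)), M.nb d] := by
  have h5 := M.face5 h
  have h4 : M.face (M.face (M.face (M.face d))) = M.face.symm d := by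
    rw [Equiv.eq_symm_apply]; exact h5
  have h3 : M.face (M.face (M.face d)) = M.face.symm (M.face.symm d) := by
    rw [Equiv.eq_symm_apply]; exact h4
  have e : M.word 5 d = [M.val d, M.val (M.face d), M.val (M.face (M.face d)),
      M.val (M.face (M.face (M.face d))), M.val (M.face (M.face (M.face (M.face d))))] := by
    unfold word
    simp [List.ofFn_succ, pow_succ, Equiv.Perm.mul_apply]
  rw [e, h4, h3, val_face, val_face, val_face_symm, val_face_symm, face_apply, face_symm_apply]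

end CMap

theorem five_cases {x₀ x₁ x₂ x₃ x₄ : ℕ} {W : List ℕ}
    (h : W ~r [x₀, x₁, x₂, x₃, x₄]) :
    W = [x₀, x₁, x₂, x₃, x₄] ∨ W = [x₁, x₂, x₃, x₄, x₀] ∨ W = [x₂, x₃, x₄, x₀, x₁] ∨
      W = [x₃, x₄, x₀, x₁, x₂] ∨ W = [x₄, x₀, x₁, x₂, x₃] := by
  obtain ⟨n, hn, h1⟩ := List.isRotated_iff_mod.1 h.symm
  simp only [List.length_cons, List.length_nil] at hn
  interval_cases n <;> simp [List.rotate] at h1 <;> simp [← h1]

section F5a

variable {D : Type} {M : CMap D}

/-- The five possible readings of a face. -/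
theorem readA (h : M.HasSeq [3, 3, 3, 4, 4]) (d : D) :
    (M.val d = 3 ∧ M.nb (M.rot d) = 3 ∧ M.nb (M.rot (M.inv (M.rot d))) = 3 ∧
      M.nb (M.rot.symm (M.inv d)) = 4 ∧ M.nb d = 4) ∨
    (M.val d = 3 ∧ M.nb (M.rot d) = 3 ∧ M.nb (M.rot (M.inv (M.rot d))) = 4 ∧
      M.nb (M.rot.symm (M.inv d)) = 4 ∧ M.nb d = 3) ∨
    (M.val d = 3 ∧ M.nb (M.rot d) = 4 ∧ M.nb (M.rot (M.inv (M.rot d))) = 4 ∧
      M.nb (M.rot.symm (M.inv d)) = 3 ∧ M.nb d = 3) ∨
    (M.val d = 4 ∧ M.nb (M.rot d) = 4 ∧ M.nb (M.rot (M.inv (M.rot d))) = 3 ∧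
      M.nb (M.rot.symm (M.inv d)) = 3 ∧ M.nb d = 3) ∨
    (M.val d = 4 ∧ M.nb (M.rot d) = 3 ∧ M.nb (M.rot (M.inv (M.rot d))) = 3 ∧
      M.nb (M.rot.symm (M.inv d)) = 3 ∧ M.nb d = 4) := by
  obtain ⟨h1, h2⟩ := h d
  have h1' : Function.minimalPeriod M.face d = 5 := h1
  have hl : ([3, 3, 3, 4, 4] : List ℕ).length = 5 := rfl
  rw [hl, M.word5 h1'] at h2
  have hrev : ([3, 3, 3, 4, 4] : List ℕ).reverse = [4, 4, 3, 3, 3] := rfl
  rw [hrev] at h2
  rcases h2 with h2 | h2 <;>
  · rcases five_cases h2 with h3 | h3 | h3 | h3 | h3 <;>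
    · simp only [List.cons.injEq, and_true] at h3
      obtain ⟨e0, e1, e2, e3, e4⟩ := h3
      rw [e0, e1, e2, e3, e4]
      simp

theorem A_three (h : M.HasSeq [3, 3, 3, 4, 4]) {d : D} (hd : M.val d = 3) :
    ¬ (M.nb d = 4 ∧ M.nb (M.rot d) = 4) := by
  have := readA h d
  omega

theorem A_exists (h : M.HasSeq [3, 3, 3, 4, 4]) {d : D} (hd : M.val d = 3) :
    M.nb d = 4 ∨ M.nb (M.rot d) = 4 ∨ M.nb (M.rot (M.rot d)) = 4 := by
  by_contra hcon
  push Not at hcon
  obtain ⟨h1, h2, h3⟩ := hcon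
  have r1 := readA h d
  have r2 := readA h (M.rot d)
  have e2 : M.val (M.rot d) = 3 := by rw [M.val_rot]; exact hd
  set g := M.inv (M.rot d) with hg
  have hgv : M.val g = 3 := by
    have : M.val g = M.nb (M.rot d) := rfl
    omega
  have r3 := readA h (M.rot g)
  rw [M.val_rot, M.rot2_eq hgv] at r3
  omega

/-- The machine of `[3, 3, 3, 4, 4]`. The states are `0 = A` (from a 3-valent to a 4-valent
vertex), `1 = B = rot A`, `2 = C = rot B`, `3` (from a 4-valent to a 3-valent vertex), `4` (from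
a 4-valent to a 4-valent vertex). -/
def mA : Machine (Fin 5) where
  rot := ![1, 2, 0, 4, 3]
  inv := ![3, 1, 2, 0, 4]
  val := ![3, 3, 3, 4, 4]

open Classical in
noncomputable def stA (M : CMap D) (d : D) : Fin 5 :=
  if M.val d = 3 then
    if M.nb d = 4 then 0 else if M.nb (M.rot.symm d) = 4 then 1 else 2
  else if M.nb d = 3 then 3 else 4

theorem stA_eq0 {d : D} (h : M.val d = 3) (h1 : M.nb d = 4) : stA M d = 0 := by
  unfold stA; rw [if_pos h, if_pos h1]

theorem stA_eq1 {d : D} (h : M.val d = 3) (h1 : M.nb d ≠ 4) (h2 : M.nb (M.rot.symm d) = 4) :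
    stA M d = 1 := by
  unfold stA; rw [if_pos h, if_neg h1, if_pos h2]

theorem stA_eq2 {d : D} (h : M.val d = 3) (h1 : M.nb d ≠ 4) (h2 : M.nb (M.rot.symm d) ≠ 4) :
    stA M d = 2 := by
  unfold stA; rw [if_pos h, if_neg h1, if_neg h2]

theorem stA_eq3 {d : D} (h : M.val d ≠ 3) (h1 : M.nb d = 3) : stA M d = 3 := by
  unfold stA; rw [if_neg h, if_pos h1]

theorem stA_eq4 {d : D} (h : M.val d ≠ 3) (h1 : M.nb d ≠ 3) : stA M d = 4 := by
  unfold stA; rw [if_neg h, if_neg h1]

theorem followsA (h : M.HasSeq [3, 3, 3, 4, 4]) : Follows mA M (stA M) := by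
  intro d
  have r0 := readA h d
  have hvr : M.val (M.rot d) = M.val d := M.val_rot d
  have hvi : M.val (M.inv d) = M.nb d := rfl
  have hni : M.nb (M.inv d) = M.val d := M.nb_inv d
  have hrs : M.rot.symm (M.rot d) = d := M.rot.symm_apply_apply d
  by_cases hv : M.val d = 3
  · by_cases h1 : M.nb d = 4
    · -- state A
      rw [stA_eq0 hv h1]
      refine ⟨?_, ?_, by rw [hv]; rfl⟩
      · have h2 := A_three h hv
        rw [stA_eq1 (by rw [hvr]; exact hv) (by tauto) (by rw [hrs]; exact h1)]; rfl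
      · rw [stA_eq3 (by rw [hvi, h1]; norm_num) (by rw [hni, hv])]; rfl
    · have hn3 : M.nb d = 3 := by omega
      have hiv : M.val (M.inv d) = 3 := by rw [hvi]; exact hn3
      by_cases h2 : M.nb (M.rot.symm d) = 4
      · -- state B
        rw [stA_eq1 hv h1 h2]
        refine ⟨?_, ?_, by rw [hv]; rfl⟩
        · have h3 := A_three h (d := M.rot d) (by rw [hvr]; exact hv)
          rw [M.rot2_eq hv] at h3
          rw [stA_eq2 (by rw [hvr]; exact hv) (by tauto) (by rw [hrs]; exact h1)]; rfl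
        · have r1 := readA h (M.rot.symm d)
          rw [M.val_rot_symm, M.rot.apply_symm_apply] at r1
          have h4 := A_exists h hiv
          rw [hni, M.rot2_eq hiv] at h4
          have h5 : M.nb (M.rot.symm (M.inv d)) = 4 := by omega
          rw [stA_eq1 hiv (by rw [hni]; omega) h5]; rfl
      · -- state C
        rw [stA_eq2 hv h1 h2]
        have h4 := A_exists h hv
        rw [M.rot2_eq hv] at h4
        have h5 : M.nb (M.rot d) = 4 := by tauto
        refine ⟨?_, ?_, by rw [hv]; rfl⟩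
        · rw [stA_eq0 (by rw [hvr]; exact hv) h5]; rfl
        · rw [stA_eq2 hiv (by rw [hni]; omega) (by omega)]; rfl
  · have hv4 : M.val d = 4 := by omega
    by_cases h1 : M.nb d = 3
    · rw [stA_eq3 hv h1]
      refine ⟨?_, ?_, by rw [hv4]; rfl⟩
      · rw [stA_eq4 (by rw [hvr]; exact hv) (by omega)]; rfl
      · rw [stA_eq0 (by rw [hvi]; exact h1) (by rw [hni]; exact hv4)]; rfl
    · rw [stA_eq4 hv h1]
      refine ⟨?_, ?_, by rw [hv4]; rfl⟩
      · rw [stA_eq3 (by rw [hvr]; exact hv) (by omega)]; rfl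
      · rw [stA_eq4 (by rw [hvi]; exact h1) (by rw [hni]; exact hv)]; rfl

theorem f5a_statement : F5aStatement := by
  refine ⟨Fin 5, mA, 4, ?_⟩
  intro D M hT h
  refine ⟨M, Or.inl rfl, stA M, followsA h, ?_⟩
  have := hT.infinite
  obtain ⟨d⟩ : Nonempty D := inferInstance
  have key : ∀ d : D, M.val d = 4 → ∃ e, stA M e = 4 := by
    intro d hd
    have r0 := readA h d
    by_cases h1 : M.nb d = 3
    · refine ⟨M.rot d, ?_⟩
      apply stA_eq4
      · rw [M.val_rot]; omega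
      · omega
    · exact ⟨d, stA_eq4 (by omega) h1⟩
  by_cases hd : M.val d = 4
  · exact key d hd
  · have r0 := readA h d
    have hd3 : M.val d = 3 := by omega
    have h1 := A_exists h hd3
    rcases h1 with h1 | h1 | h1
    · exact key (M.inv d) h1
    · exact key (M.inv (M.rot d)) h1
    · exact key (M.inv (M.rot (M.rot d))) h1

end F5a

section F5b

variable {D : Type} {M : CMap D}

/-- The five possible readings of a face. -/
theorem readB (h : M.HasSeq [3, 3, 4, 3, 4]) (d : D) :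
    (M.val d = 3 ∧ M.nb (M.rot d) = 3 ∧ M.nb (M.rot (M.inv (M.rot d))) = 4 ∧
      M.nb (M.rot.symm (M.inv d)) = 3 ∧ M.nb d = 4) ∨
    (M.val d = 3 ∧ M.nb (M.rot d) = 4 ∧ M.nb (M.rot (M.inv (M.rot d))) = 3 ∧
      M.nb (M.rot.symm (M.inv d)) = 4 ∧ M.nb d = 3) ∨
    (M.val d = 4 ∧ M.nb (M.rot d) = 3 ∧ M.nb (M.rot (M.inv (M.rot d))) = 4 ∧
      M.nb (M.rot.symm (M.inv d)) = 3 ∧ M.nb d = 3) ∨
    (M.val d = 3 ∧ M.nb (M.rot d) = 4 ∧ M.nb (M.rot (M.inv (M.rot d))) = 3 ∧
      M.nb (M.rot.symm (M.inv d)) = 3 ∧ M.nb d = 4) ∨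
    (M.val d = 4 ∧ M.nb (M.rot d) = 3 ∧ M.nb (M.rot (M.inv (M.rot d))) = 3 ∧
      M.nb (M.rot.symm (M.inv d)) = 4 ∧ M.nb d = 3) := by
  obtain ⟨h1, h2⟩ := h d
  have h1' : Function.minimalPeriod M.face d = 5 := h1
  have hl : ([3, 3, 4, 3, 4] : List ℕ).length = 5 := rfl
  rw [hl, M.word5 h1'] at h2
  have hrev : ([3, 3, 4, 3, 4] : List ℕ).reverse = [4, 3, 4, 3, 3] := rfl
  rw [hrev] at h2
  rcases h2 with h2 | h2 <;>
  · rcases five_cases h2 with h3 | h3 | h3 | h3 | h3 <;>
    · simp only [List.cons.injEq, and_true] at h3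
      obtain ⟨e0, e1, e2, e3, e4⟩ := h3
      rw [e0, e1, e2, e3, e4]
      simp

/-- `Q e`: the neighbour over `e` (at a 4-valent vertex) has a 4-valent neighbour next to the
edge on the side of `rot`. -/
theorem B_step (h : M.HasSeq [3, 3, 4, 3, 4]) {e : D} (he : M.val e = 4)
    (hQ : M.nb (M.rot (M.inv (M.rot e))) = 4) : M.nb (M.rot (M.inv e)) = 4 := by
  have r0 := readB h e
  have hv : M.val (M.inv e) = 3 := by
    have : M.val (M.inv e) = M.nb e := rfl
    omega
  have r1 := readB h (M.rot (M.inv e))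
  rw [M.val_rot, M.rot2_eq hv] at r1
  omega

/-- At the neighbour of a 4-valent vertex exactly one of the two other neighbours is
3-valent. -/
theorem B_excl (h : M.HasSeq [3, 3, 4, 3, 4]) {e : D} (he : M.val e = 4)
    (hQ : M.nb (M.rot (M.inv e)) = 4) : M.nb (M.rot.symm (M.inv e)) = 3 := by
  -- go around the vertex: `Q` holds at `rot^3 e`, `rot^2 e`, `rot e`
  have v1 : M.val (M.rot e) = 4 := by rw [M.val_rot]; exact he
  have v2 : M.val (M.rot (M.rot e)) = 4 := by rw [M.val_rot]; exact v1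
  have v3 : M.val (M.rot (M.rot (M.rot e))) = 4 := by rw [M.val_rot]; exact v2
  have q3 : M.nb (M.rot (M.inv (M.rot (M.rot (M.rot e))))) = 4 := by
    apply B_step h v3
    rw [M.rot4 he]
    exact hQ
  have q2 := B_step h v2 q3
  have q1 := B_step h v1 q2
  have r0 := readB h e
  omega

/-- Every 3-valent vertex has exactly one 3-valent neighbour. -/
theorem B_three (h : M.HasSeq [3, 3, 4, 3, 4]) {d : D} (hd : M.val d = 3) :
    (M.nb d = 3 ∧ M.nb (M.rot d) = 4 ∧ M.nb (M.rot.symm d) = 4) ∨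
    (M.nb d = 4 ∧ M.nb (M.rot d) = 3 ∧ M.nb (M.rot.symm d) = 4) ∨
    (M.nb d = 4 ∧ M.nb (M.rot d) = 4 ∧ M.nb (M.rot.symm d) = 3) := by
  have r0 := readB h d
  have r1 := readB h (M.rot d)
  have r2 := readB h (M.rot.symm d)
  rw [M.val_rot, M.rot2_eq hd] at r1
  rw [M.val_rot_symm, M.rot.apply_symm_apply] at r2
  by_cases h1 : M.nb d = 4
  · have h2 : M.val (M.inv d) = 4 := h1
    have h3 := B_excl h h2
    rw [M.inv_inv] at h3
    omega
  · omega

/-- The machine of `[3, 3, 4, 3, 4]`. The states are `0 = A` (between two 3-valent vertices),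
`1 = B = rot A`, `2 = C = rot B`, `3 = inv B`, `4 = inv C`. -/
def mB : Machine (Fin 5) where
  rot := ![1, 2, 0, 3, 4]
  inv := ![0, 3, 4, 1, 2]
  val := ![3, 3, 3, 4, 4]

open Classical in
noncomputable def stB (M : CMap D) (d : D) : Fin 5 :=
  if M.val d = 3 then
    if M.nb d = 3 then 0 else if M.nb (M.rot.symm d) = 3 then 1 else 2
  else if M.nb (M.rot.symm (M.inv d)) = 3 then 3 else 4

theorem stB_eq0 {d : D} (h : M.val d = 3) (h1 : M.nb d = 3) : stB M d = 0 := by
  unfold stB; rw [if_pos h, if_pos h1]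

theorem stB_eq1 {d : D} (h : M.val d = 3) (h1 : M.nb d ≠ 3) (h2 : M.nb (M.rot.symm d) = 3) :
    stB M d = 1 := by
  unfold stB; rw [if_pos h, if_neg h1, if_pos h2]

theorem stB_eq2 {d : D} (h : M.val d = 3) (h1 : M.nb d ≠ 3) (h2 : M.nb (M.rot.symm d) ≠ 3) :
    stB M d = 2 := by
  unfold stB; rw [if_pos h, if_neg h1, if_neg h2]

theorem stB_eq3 {d : D} (h : M.val d ≠ 3) (h1 : M.nb (M.rot.symm (M.inv d)) = 3) :
    stB M d = 3 := by
  unfold stB; rw [if_neg h, if_pos h1]

theorem stB_eq4 {d : D} (h : M.val d ≠ 3) (h1 : M.nb (M.rot.symm (M.inv d)) ≠ 3) :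
    stB M d = 4 := by
  unfold stB; rw [if_neg h, if_neg h1]

theorem followsB (h : M.HasSeq [3, 3, 4, 3, 4]) : Follows mB M (stB M) := by
  intro d
  have r0 := readB h d
  have hvr : M.val (M.rot d) = M.val d := M.val_rot d
  have hvi : M.val (M.inv d) = M.nb d := rfl
  have hni : M.nb (M.inv d) = M.val d := M.nb_inv d
  have hrs : M.rot.symm (M.rot d) = d := M.rot.symm_apply_apply d
  have hii : M.inv (M.inv d) = d := M.inv_inv d
  by_cases hv : M.val d = 3
  · have h3 := B_three h hv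
    by_cases h1 : M.nb d = 3
    · rw [stB_eq0 hv h1]
      refine ⟨?_, ?_, by rw [hv]; rfl⟩
      · rw [stB_eq1 (by rw [hvr]; exact hv) (by omega) (by rw [hrs]; exact h1)]; rfl
      · rw [stB_eq0 (by rw [hvi]; exact h1) (by rw [hni]; exact hv)]; rfl
    · by_cases h2 : M.nb (M.rot.symm d) = 3
      · rw [stB_eq1 hv h1 h2]
        refine ⟨?_, ?_, by rw [hv]; rfl⟩
        · rw [stB_eq2 (by rw [hvr]; exact hv) (by omega) (by rw [hrs]; exact h1)]; rfl
        · rw [stB_eq3 (by rw [hvi]; exact h1) (by rw [hii]; exact h2)]; rfl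
      · rw [stB_eq2 hv h1 h2]
        refine ⟨?_, ?_, by rw [hv]; rfl⟩
        · rw [stB_eq0 (by rw [hvr]; exact hv) (by omega)]; rfl
        · rw [stB_eq4 (by rw [hvi]; exact h1) (by rw [hii]; exact h2)]; rfl
  · have hv4 : M.val d = 4 := by omega
    have hn3 : M.nb d = 3 := by omega
    have hiv : M.val (M.inv d) = 3 := hn3
    have h3 := B_three h hiv
    rw [hni] at h3
    have hvr4 : M.val (M.rot d) = 4 := by rw [hvr]; exact hv4
    have rr := readB h (M.rot d)
    have hiv' : M.val (M.inv (M.rot d)) = 3 := by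
      have : M.val (M.inv (M.rot d)) = M.nb (M.rot d) := rfl
      omega
    have h3' := B_three h hiv'
    rw [M.nb_inv, hvr] at h3'
    by_cases h1 : M.nb (M.rot.symm (M.inv d)) = 3
    · rw [stB_eq3 hv h1]
      refine ⟨?_, ?_, by rw [hv4]; rfl⟩
      · rw [stB_eq3 (by rw [hvr]; exact hv) (by omega)]; rfl
      · rw [stB_eq1 hiv (by rw [hni]; exact hv) h1]; rfl
    · rw [stB_eq4 hv h1]
      refine ⟨?_, ?_, by rw [hv4]; rfl⟩
      · rw [stB_eq4 (by rw [hvr]; exact hv) (by omega)]; rfl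
      · rw [stB_eq2 hiv (by rw [hni]; exact hv) h1]; rfl

theorem f5b_statement : F5bStatement := by
  refine ⟨Fin 5, mB, 0, ?_⟩
  intro D M hT h
  refine ⟨M, Or.inl rfl, stB M, followsB h, ?_⟩
  have := hT.infinite
  obtain ⟨d⟩ : Nonempty D := inferInstance
  have key : ∀ d : D, M.val d = 3 → ∃ e, stB M e = 0 := by
    intro d hd
    rcases B_three h hd with h1 | h1 | h1
    · exact ⟨d, stB_eq0 hd h1.1⟩
    · exact ⟨M.rot d, stB_eq0 (by rw [M.val_rot]; exact hd) h1.2.1⟩
    · exact ⟨M.rot.symm d, stB_eq0 (by rw [M.val_rot_symm]; exact hd) h1.2.2⟩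
  by_cases hd : M.val d = 3
  · exact key d hd
  · have r0 := readB h d
    exact key (M.inv d) (by have : M.val (M.inv d) = M.nb d := rfl; omega)

end F5b

end Tess
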