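import Pool.Agent.Work.MP_8c67d3_co.F5ab
import Pool.Agent.Work.MP_8c67d3_co_helper72.MI

/-!
# Block F5c: the sequence `[3, 3, 3, 3, 6]` is rigid
-/

set_option autoImplicit false

namespace Tess

open CMap

variable {D : Type} {M : CMap D}

/-- The five possible readings of a face. -/
theorem readC (h : M.HasSeq [3, 3, 3, 3, 6]) (d : D) :
    (M.val d = 3 ∧ M.nb (M.rot d) = 3 ∧ M.nb (M.rot (M.inv (M.rot d))) = 3 ∧
      M.nb (M.rot.symm (M.inv d)) = 3 ∧ M.nb d = 6) ∨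
    (M.val d = 3 ∧ M.nb (M.rot d) = 3 ∧ M.nb (M.rot (M.inv (M.rot d))) = 3 ∧
      M.nb (M.rot.symm (M.inv d)) = 6 ∧ M.nb d = 3) ∨
    (M.val d = 3 ∧ M.nb (M.rot d) = 3 ∧ M.nb (M.rot (M.inv (M.rot d))) = 6 ∧
      M.nb (M.rot.symm (M.inv d)) = 3 ∧ M.nb d = 3) ∨
    (M.val d = 3 ∧ M.nb (M.rot d) = 6 ∧ M.nb (M.rot (M.inv (M.rot d))) = 3 ∧
      M.nb (M.rot.symm (M.inv d)) = 3 ∧ M.nb d = 3) ∨
    (M.val d = 6 ∧ M.nb (M.rot d) = 3 ∧ M.nb (M.rot (M.inv (M.rot d))) = 3 ∧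
      M.nb (M.rot.symm (M.inv d)) = 3 ∧ M.nb d = 3) := by
  obtain ⟨h1, h2⟩ := h d
  have h1' : Function.minimalPeriod M.face d = 5 := h1
  have hl : ([3, 3, 3, 3, 6] : List ℕ).length = 5 := rfl
  rw [hl, M.word5 h1'] at h2
  have hrev : ([3, 3, 3, 3, 6] : List ℕ).reverse = [6, 3, 3, 3, 3] := rfl
  rw [hrev] at h2
  rcases h2 with h2 | h2 <;>
  · rcases five_cases h2 with h3 | h3 | h3 | h3 | h3 <;>
    · simp only [List.cons.injEq, and_true] at h3
      obtain ⟨e0, e1, e2, e3, e4⟩ := h3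
      rw [e0, e1, e2, e3, e4]
      simp

theorem rot_symm2 {d : D} (h : M.val d = 3) : M.rot.symm (M.rot.symm d) = M.rot d := by
  rw [Equiv.symm_apply_eq, Equiv.symm_apply_eq]
  exact (M.rot3 h).symm

/-- The sign of a dart leading to a 6-valent vertex is positive. -/
def Pos (M : CMap D) (e : D) : Prop := M.nb (M.rot (M.inv (M.rot.symm e))) = 6

/-- Local structure at a dart leading to a 6-valent vertex. -/
theorem C_local (h : M.HasSeq [3, 3, 3, 3, 6]) {e : D} (he : M.nb e = 6) :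
    M.val e = 3 ∧ M.nb (M.rot e) = 3 ∧ M.nb (M.rot.symm e) = 3 ∧
    M.nb (M.rot (M.inv (M.rot e))) = 3 ∧ M.nb (M.rot.symm (M.inv (M.rot.symm e))) = 3 ∧
    (Pos M e ∧ M.nb (M.rot.symm (M.inv (M.rot e))) = 3 ∨
      ¬ Pos M e ∧ M.nb (M.rot.symm (M.inv (M.rot e))) = 6) := by
  have r0 := readC h e
  have hv : M.val e = 3 := by omega
  have r1 := readC h (M.rot e)
  have r2 := readC h (M.rot.symm e)
  rw [M.val_rot_symm, M.rot.apply_symm_apply] at r2
  rw [M.val_rot, M.rot2_eq hv] at r1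
  unfold Pos
  refine ⟨hv, by omega, by omega, by omega, by omega, by omega⟩

/-- A 3-valent vertex has at most one 6-valent neighbour. -/
theorem C_one (h : M.HasSeq [3, 3, 3, 3, 6]) {d : D} (hd : M.val d = 3) :
    (M.nb d = 6 ∧ M.nb (M.rot d) = 3 ∧ M.nb (M.rot.symm d) = 3) ∨
    (M.nb d = 3 ∧ M.nb (M.rot d) = 6 ∧ M.nb (M.rot.symm d) = 3) ∨
    (M.nb d = 3 ∧ M.nb (M.rot d) = 3 ∧ M.nb (M.rot.symm d) = 6) ∨
    (M.nb d = 3 ∧ M.nb (M.rot d) = 3 ∧ M.nb (M.rot.symm d) = 3) := by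
  have r0 := readC h d
  have r1 := readC h (M.rot d)
  have r2 := readC h (M.rot.symm d)
  rw [M.val_rot, M.rot2_eq hd] at r1
  rw [M.val_rot_symm, M.rot.apply_symm_apply] at r2
  omega

/-- Around a 6-valent vertex the sign is constant. -/
theorem C_six (h : M.HasSeq [3, 3, 3, 3, 6]) {u : D} (hu : M.val u = 6)
    (hp : Pos M (M.inv u)) : Pos M (M.inv (M.rot u)) := by
  set e := M.inv (M.rot u) with he
  set e' := M.inv u with he'
  have hee : M.nb e = 6 := by rw [he, M.nb_inv, M.val_rot]; exact hu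
  have hee' : M.nb e' = 6 := by rw [he', M.nb_inv]; exact hu
  obtain ⟨l1, l2, l3, l4, l5, l6⟩ := C_local h hee
  obtain ⟨m1, m2, m3, m4, m5, m6⟩ := C_local h hee'
  set g := M.inv (M.rot e) with hg
  set k := M.inv (M.rot g) with hk
  have hfive : M.inv (M.rot (M.inv (M.rot k))) = u := by
    have h5 := M.face5 (d := u) (h u).1
    simp only [CMap.face_apply] at h5
    exact h5
  have hgv : M.val g = 3 := l2
  have hrk : M.inv (M.rot k) = M.rot.symm e' := by
    rw [Equiv.eq_symm_apply, he', ← hfive, M.inv_inv]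
  have hrk' : M.rot k = M.inv (M.rot.symm e') := by
    rw [← hrk, M.inv_inv]
  have hkv : M.val k = 3 := l4
  have h6 : M.nb (M.rot.symm k) = 6 := by
    rw [← M.rot2_eq hkv, hrk']
    exact hp
  rcases l6 with l6 | l6
  · exact l6.1
  · exfalso
    have r := readC h (M.rot g)
    rw [M.rot2_eq hgv, ← hk] at r
    have h7 := l6.2
    omega

/-- The sign is positive at the vertex of the dart. -/
def PosAt (M : CMap D) (d : D) : Prop :=
  (M.val d = 6 ∧ Pos M (M.inv d)) ∨ (M.nb d = 6 ∧ Pos M d) ∨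
  (M.val d = 3 ∧ M.nb (M.rot.symm d) = 6 ∧ Pos M (M.rot.symm d)) ∨
  (M.val d = 3 ∧ M.nb (M.rot d) = 6 ∧ Pos M (M.rot d)) ∨
  (M.val d = 3 ∧ M.nb d = 3 ∧ M.nb (M.rot d) = 3 ∧ M.nb (M.rot.symm d) = 3 ∧
    M.nb (M.rot.symm (M.inv d)) = 6)

/-- Around a vertex without 6-valent neighbours. -/
theorem C_Y (h : M.HasSeq [3, 3, 3, 3, 6]) {d : D} (hd : M.val d = 3) (h0 : M.nb d = 3)
    (h1 : M.nb (M.rot d) = 3) (h2 : M.nb (M.rot.symm d) = 3) :
    (M.nb (M.rot.symm (M.inv d)) = 6 ∧ M.nb (M.rot (M.inv d)) = 3 ∧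
      M.nb (M.rot.symm (M.inv (M.rot d))) = 6 ∧ M.nb (M.rot (M.inv (M.rot d))) = 3) ∨
    (M.nb (M.rot.symm (M.inv d)) = 3 ∧ M.nb (M.rot (M.inv d)) = 6 ∧
      M.nb (M.rot.symm (M.inv (M.rot d))) = 3 ∧ M.nb (M.rot (M.inv (M.rot d))) = 6) := by
  have r0 := readC h d
  have r1 := readC h (M.rot d)
  have r2 := readC h (M.rot.symm d)
  rw [M.val_rot, M.rot2_eq hd] at r1
  rw [M.val_rot_symm, M.rot.apply_symm_apply] at r2
  have c0 := C_one h (d := M.inv d) h0
  have c1 := C_one h (d := M.inv (M.rot d)) h1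
  have c2 := C_one h (d := M.inv (M.rot.symm d)) h2
  omega

theorem posAt_rot (h : M.HasSeq [3, 3, 3, 3, 6]) {d : D} (hp : PosAt M d) :
    PosAt M (M.rot d) := by
  rcases hp with ⟨h1, h2⟩ | ⟨h1, h2⟩ | ⟨h1, h2, h3⟩ | ⟨h1, h2, h3⟩ | ⟨h1, h2, h3, h4, h5⟩
  · exact Or.inl ⟨by rw [M.val_rot]; exact h1, C_six h h1 h2⟩
  · refine Or.inr (Or.inr (Or.inl ⟨?_, ?_, ?_⟩))
    · rw [M.val_rot]; exact (C_local h h1).1
    · rw [M.rot.symm_apply_apply]; exact h1
    · rw [M.rot.symm_apply_apply]; exact h2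
  · refine Or.inr (Or.inr (Or.inr (Or.inl ⟨?_, ?_, ?_⟩)))
    · rw [M.val_rot]; exact h1
    · rw [M.rot2_eq h1]; exact h2
    · rw [M.rot2_eq h1]; exact h3
  · exact Or.inr (Or.inl ⟨h2, h3⟩)
  · have hY := C_Y h h1 h2 h3 h4
    refine Or.inr (Or.inr (Or.inr (Or.inr ⟨?_, h3, ?_, ?_, ?_⟩)))
    · rw [M.val_rot]; exact h1
    · rw [M.rot2_eq h1]; exact h4
    · rw [M.rot.symm_apply_apply]; exact h2
    · omega

theorem posAt_inv (h : M.HasSeq [3, 3, 3, 3, 6]) {d : D} (hp : PosAt M d) :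
    PosAt M (M.inv d) := by
  rcases hp with ⟨h1, h2⟩ | ⟨h1, h2⟩ | ⟨h1, h2, h3⟩ | ⟨h1, h2, h3⟩ | ⟨h1, h2, h3, h4, h5⟩
  · exact Or.inr (Or.inl ⟨by rw [M.nb_inv]; exact h1, h2⟩)
  · exact Or.inl ⟨h1, by rw [M.inv_inv]; exact h2⟩
  · -- from an X vertex to a Y vertex
    obtain ⟨l1, l2, l3, l4, l5, l6⟩ := C_local h h2
    rw [M.rot.apply_symm_apply] at l2 l4 l6
    refine Or.inr (Or.inr (Or.inr (Or.inr ⟨l2, ?_, l4, ?_, ?_⟩)))
    · rw [M.nb_inv]; exact h1
    · rcases l6 with l6 | l6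
      · exact l6.2
      · exact absurd h3 l6.1
    · rw [M.inv_inv]; exact h2
  · -- from an X vertex to an X vertex
    obtain ⟨l1, l2, l3, l4, l5, l6⟩ := C_local h h2
    unfold Pos at h3
    rw [M.rot.symm_apply_apply] at h3 l3
    refine Or.inr (Or.inr (Or.inr (Or.inl ⟨l3, h3, ?_⟩)))
    unfold Pos
    rw [M.rot.symm_apply_apply, M.inv_inv]
    exact h2
  · -- from a Y vertex to an X vertex
    refine Or.inr (Or.inr (Or.inl ⟨h2, h5, ?_⟩))
    obtain ⟨l1, l2, l3, l4, l5, l6⟩ := C_local h h5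
    rw [M.rot.apply_symm_apply, M.inv_inv] at l6
    rcases l6 with l6 | l6
    · exact l6.1
    · omega

theorem posAt_all (hT : M.IsTess) (h : M.HasSeq [3, 3, 3, 3, 6]) {d : D} (hp : PosAt M d)
    (e : D) : PosAt M e := by
  have hpow : ∀ (i : ℕ) (d : D), PosAt M d → PosAt M ((M.rot ^ i) d) := by
    intro i
    induction i with
    | zero => exact fun d hd => hd
    | succ i ih =>
      intro d hd
      rw [pow_succ', Equiv.Perm.mul_apply]
      exact posAt_rot h (ih d hd)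
  have hvert : ∀ d e : D, M.vert d = M.vert e → PosAt M d → PosAt M e := by
    intro d e hde hd
    obtain ⟨i, -, rfl⟩ := (M.vert_eq_iff_lt (hT.locally_finite d)).1 hde
    exact hpow i d hd
  have key : ∀ v : M.V, M.Reach ∅ (M.vert d) v → ∀ e, M.vert e = v → PosAt M e := by
    intro v hv
    induction hv with
    | refl => exact fun e he => hvert d e he.symm hp
    | tail _ hadj ih =>
      intro e he
      obtain ⟨⟨f, hf1, hf2⟩, -⟩ := hadj
      exact hvert (M.inv f) e (hf2.trans he.symm) (posAt_inv h (ih f hf1))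
  exact key (M.vert e) (hT.connected _ _) e rfl

/-- The machine of `[3, 3, 3, 3, 6]`. States: `0` from an X-vertex to its 6-valent neighbour,
`1` from an X-vertex to a Y-vertex, `2` between two X-vertices, `3` from a Y-vertex, `4` from a
6-valent vertex. -/
def mC : Machine (Fin 5) where
  rot := ![1, 2, 0, 3, 4]
  inv := ![4, 3, 2, 1, 0]
  val := ![3, 3, 3, 3, 6]

open Classical in
/-- The labelling. -/
noncomputable def stC (M : CMap D) (d : D) : Fin 5 :=
  if M.val d = 6 then 4 else if M.nb d = 6 then 0 else if M.nb (M.rot.symm d) = 6 then 1 else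
    if M.nb (M.rot d) = 6 then 2 else 3

theorem stC_eq4 {d : D} (h : M.val d = 6) : stC M d = 4 := by
  unfold stC; rw [if_pos h]

theorem stC_eq0 {d : D} (h : M.val d = 3) (h1 : M.nb d = 6) : stC M d = 0 := by
  unfold stC; rw [if_neg (by omega), if_pos h1]

theorem stC_eq1 {d : D} (h : M.val d = 3) (h1 : M.nb d = 3) (h2 : M.nb (M.rot.symm d) = 6) :
    stC M d = 1 := by
  unfold stC; rw [if_neg (by omega), if_neg (by omega), if_pos h2]

theorem stC_eq2 {d : D} (h : M.val d = 3) (h1 : M.nb d = 3) (h2 : M.nb (M.rot.symm d) = 3)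
    (h3 : M.nb (M.rot d) = 6) : stC M d = 2 := by
  unfold stC; rw [if_neg (by omega), if_neg (by omega), if_neg (by omega), if_pos h3]

theorem stC_eq3 {d : D} (h : M.val d = 3) (h1 : M.nb d = 3) (h2 : M.nb (M.rot.symm d) = 3)
    (h3 : M.nb (M.rot d) = 3) : stC M d = 3 := by
  unfold stC; rw [if_neg (by omega), if_neg (by omega), if_neg (by omega), if_neg (by omega)]

theorem followsC (h : M.HasSeq [3, 3, 3, 3, 6]) (hpos : ∀ e, M.nb e = 6 → Pos M e) :
    Follows mC M (stC M) := by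
  intro d
  have r0 := readC h d
  have hvr : M.val (M.rot d) = M.val d := M.val_rot d
  have hvi : M.val (M.inv d) = M.nb d := rfl
  have hni : M.nb (M.inv d) = M.val d := M.nb_inv d
  have hrs : M.rot.symm (M.rot d) = d := M.rot.symm_apply_apply d
  by_cases hv6 : M.val d = 6
  · rw [stC_eq4 hv6]
    refine ⟨?_, ?_, hv6⟩
    · rw [stC_eq4 (by rw [hvr]; exact hv6)]; rfl
    · rw [stC_eq0 (by omega) (by omega)]; rfl
  have hv : M.val d = 3 := by omega
  have hr2 := M.rot2_eq hv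
  rcases C_one h hv with ⟨n0, n1, n2⟩ | ⟨n0, n1, n2⟩ | ⟨n0, n1, n2⟩ | ⟨n0, n1, n2⟩
  · -- state 0
    rw [stC_eq0 hv n0]
    refine ⟨?_, ?_, hv⟩
    · rw [stC_eq1 (by rw [hvr]; exact hv) n1 (by rw [hrs]; exact n0)]; rfl
    · rw [stC_eq4 (by rw [hvi]; exact n0)]; rfl
  · -- state 2
    rw [stC_eq2 hv n0 n2 n1]
    obtain ⟨l1, l2, l3, l4, l5, l6⟩ := C_local h n1
    have hp := hpos _ n1
    unfold Pos at hp
    rw [hrs] at l3 l5 hp
    refine ⟨?_, ?_, hv⟩
    · rw [stC_eq0 (by rw [hvr]; exact hv) n1]; rfl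
    · rw [stC_eq2 (by rw [hvi]; exact n0) (by rw [hni]; exact hv) l5 hp]; rfl
  · -- state 1
    rw [stC_eq1 hv n0 n2]
    obtain ⟨l1, l2, l3, l4, l5, l6⟩ := C_local h n2
    have hp := hpos _ n2
    rw [M.rot.apply_symm_apply] at l2 l4 l6
    refine ⟨?_, ?_, hv⟩
    · rw [stC_eq2 (by rw [hvr]; exact hv) n1 (by rw [hrs]; exact n0) (by rw [hr2]; exact n2)]
      rfl
    · have l7 : M.nb (M.rot.symm (M.inv d)) = 3 := by
        rcases l6 with l6 | l6
        · exact l6.2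
        · exact absurd hp l6.1
      rw [stC_eq3 (by rw [hvi]; exact n0) (by rw [hni]; exact hv) l7 l4]; rfl
  · -- state 3
    rw [stC_eq3 hv n0 n2 n1]
    refine ⟨?_, ?_, hv⟩
    · rw [stC_eq3 (by rw [hvr]; exact hv) n1 (by rw [hrs]; exact n0) (by rw [hr2]; exact n2)]
      rfl
    · have hY := C_Y h hv n0 n1 n2
      have hA : M.nb (M.rot (M.inv d)) ≠ 6 := by
        intro hA
        have hp := hpos _ hA
        unfold Pos at hp
        rw [M.rot.symm_apply_apply, M.inv_inv] at hp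
        omega
      rw [stC_eq1 (by rw [hvi]; exact n0) (by rw [hni]; exact hv) (by omega)]; rfl

theorem exists_six (hT : M.IsTess) (h : M.HasSeq [3, 3, 3, 3, 6]) : ∃ d, M.val d = 6 := by
  have := hT.infinite
  obtain ⟨d⟩ : Nonempty D := inferInstance
  have r := readC h d
  rcases r with r | r | r | r | r
  · exact ⟨_, r.2.2.2.2⟩
  · exact ⟨_, r.2.2.2.1⟩
  · exact ⟨_, r.2.2.1⟩
  · exact ⟨_, r.2.1⟩
  · exact ⟨d, r.1⟩

theorem mirror_val' (d : D) : M.mirror.val d = M.val d := by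
  unfold CMap.val
  show Function.minimalPeriod (M.rot.symm) d = _
  apply Nat.dvd_antisymm
  · rw [← Function.isPeriodicPt_iff_minimalPeriod_dvd]
    show (M.rot.symm : D → D)^[_] d = d
    have h1 := pow_minimalPeriod M.rot d
    rw [iterate_eq_pow']
    have h2 : (M.rot.symm ^ Function.minimalPeriod M.rot d) = (M.rot ^ Function.minimalPeriod M.rot d).symm := by
      show (M.rot⁻¹ ^ _) = (M.rot ^ _)⁻¹
      rw [inv_pow]
    rw [h2, Equiv.symm_apply_eq]
    exact h1.symm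
  · rw [← Function.isPeriodicPt_iff_minimalPeriod_dvd]
    show (M.rot : D → D)^[_] d = d
    have h1 := pow_minimalPeriod M.rot.symm d
    rw [iterate_eq_pow']
    have h2 : (M.rot.symm ^ Function.minimalPeriod M.rot.symm d) = (M.rot ^ Function.minimalPeriod M.rot.symm d).symm := by
      show (M.rot⁻¹ ^ _) = (M.rot ^ _)⁻¹
      rw [inv_pow]
    rw [h2, Equiv.symm_apply_eq] at h1
    exact h1.symm

theorem f5c_statement : F5cStatement := by
  refine ⟨Fin 5, mC, 4, ?_⟩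
  intro D M hT h
  obtain ⟨d₀, hd₀⟩ := exists_six hT h
  by_cases hp : ∀ e, M.nb e = 6 → Pos M e
  · exact ⟨M, Or.inl rfl, stC M, followsC h hp, d₀, stC_eq4 hd₀⟩
  · -- no sign is positive
    have hneg : ∀ e, M.nb e = 6 → ¬ Pos M e := by
      intro e he hpe
      apply hp
      intro f hf
      have h1 := posAt_all hT h (d := e) (Or.inr (Or.inl ⟨he, hpe⟩)) f
      obtain ⟨l1, l2, l3, l4, l5, l6⟩ := C_local h hf
      rcases h1 with ⟨h1, h2⟩ | ⟨h1, h2⟩ | ⟨h1, h2, h3⟩ | ⟨h1, h2, h3⟩ | ⟨h1, h2, h3, h4, h5⟩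
      · omega
      · exact h2
      · omega
      · omega
      · omega
    have hval : ∀ d, M.mirror.val d = M.val d := mirror_val'
    have hnb : ∀ d, M.mirror.nb d = M.nb d := fun d => hval _
    have hs' := (mirrorBlock _ D M hT h (by simp)).2.1
    refine ⟨M.mirror, Or.inr rfl, stC M.mirror, followsC hs' ?_, d₀, ?_⟩
    · intro e he
      rw [hnb] at he
      show M.mirror.nb _ = 6
      rw [hnb]
      show M.nb (M.rot.symm (M.inv (M.rot e))) = 6
      obtain ⟨l1, l2, l3, l4, l5, l6⟩ := C_local h he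
      rcases l6 with l6 | l6
      · exact absurd l6.1 (hneg e he)
      · exact l6.2
    · exact stC_eq4 (by rw [hval]; exact hd₀)

end Tess
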