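import Pool.Agent.Work.MP_8c67d3_co.InterfaceFL

/-!
# Block FC: classification of the flat valence sequences
-/

set_option autoImplicit false

namespace Tess

/-- The conclusion of the classification. -/
def FCGoal (σ : List ℕ) : Prop :=
  Det σ ∨ ∃ τ ∈ ([[3, 3, 4, 12], [3, 3, 6, 6], [3, 4, 4, 6], [3, 3, 3, 4, 4], [3, 3, 4, 3, 4],
      [3, 3, 3, 3, 6]] : List (List ℕ)), σ ~r τ ∨ σ ~r τ.reverse

instance (σ : List ℕ) : Decidable (FCGoal σ) := by unfold FCGoal; infer_instance

theorem inv_le_third {p : ℕ} (hp : 3 ≤ p) : 1 / (p : ℚ) ≤ 1 / 3 := by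
  have : (3 : ℚ) ≤ p := by exact_mod_cast hp
  exact one_div_le_one_div_of_le (by norm_num) this

theorem sum_inv_le (σ : List ℕ) (h : ∀ p ∈ σ, 3 ≤ p) :
    (σ.map fun p : ℕ => 1 / (p : ℚ)).sum ≤ (σ.length : ℚ) / 3 := by
  induction σ with
  | nil => simp
  | cons p σ ih =>
    have h1 := ih fun q hq => h q (List.mem_cons_of_mem _ hq)
    have h2 := inv_le_third (h p List.mem_cons_self)
    simp only [List.map_cons, List.sum_cons, List.length_cons, Nat.cast_add, Nat.cast_one]
    linarith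

theorem length_le_six (σ : List ℕ) (h : ∀ p ∈ σ, 3 ≤ p) (hκ : curv σ = 0) : σ.length ≤ 6 := by
  have h1 := sum_inv_le σ h
  unfold curv at hκ
  have h2 : (σ.length : ℚ) ≤ 6 := by linarith
  exact_mod_cast h2

theorem le_of_inv_ge {p k : ℕ} (hp : 3 ≤ p) (hk : 0 < k) (h : 1 / (k : ℚ) ≤ 1 / (p : ℚ)) :
    p ≤ k := by
  have h1 : (0 : ℚ) < p := by exact_mod_cast (by omega : 0 < p)
  have h2 : (0 : ℚ) < k := by exact_mod_cast hk
  rw [one_div_le_one_div h2 h1] at h
  exact_mod_cast h

theorem fc3 (a b c : ℕ) : FCGoal [a, b, c] := by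
  left
  unfold Det triples
  intro t ht t' ht' h1 h2
  simp [List.rotate] at ht ht'
  rcases ht with rfl | rfl | rfl | rfl | rfl | rfl <;>
    rcases ht' with rfl | rfl | rfl | rfl | rfl | rfl <;> simp_all

/-- The finite check for length four. -/
def chk4 : Bool :=
  (List.range 13).all fun a => (List.range 13).all fun b => (List.range 13).all fun c =>
    (List.range 13).all fun d =>
      !(decide (3 ≤ a) && decide (3 ≤ b) && decide (3 ≤ c) && decide (3 ≤ d) &&
        (b * c * d + a * c * d + a * b * d + a * b * c).beq (a * b * c * d)) ||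
        decide (FCGoal [a, b, c, d])

/-- The finite check for length five. -/
def chk5 : Bool :=
  (List.range 7).all fun a => (List.range 7).all fun b => (List.range 7).all fun c =>
    (List.range 7).all fun d => (List.range 7).all fun e =>
      !(decide (3 ≤ a) && decide (3 ≤ b) && decide (3 ≤ c) && decide (3 ≤ d) && decide (3 ≤ e) &&
        (60 / a + 60 / b + 60 / c + 60 / d + 60 / e).beq 90) ||
        decide (FCGoal [a, b, c, d, e])

theorem chk4_eq : chk4 = true := by decide +kernel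

theorem chk5_eq : chk5 = true := by decide +kernel

theorem fc4_check {a b c d : ℕ} (ha : a < 13) (ha' : 3 ≤ a) (hb : b < 13) (hb' : 3 ≤ b)
    (hc : c < 13) (hc' : 3 ≤ c) (hd : d < 13) (hd' : 3 ≤ d)
    (h : b * c * d + a * c * d + a * b * d + a * b * c = a * b * c * d) :
    FCGoal [a, b, c, d] := by
  have h1 := chk4_eq
  unfold chk4 at h1
  rw [List.all_eq_true] at h1
  have h2 := h1 a (List.mem_range.2 ha)
  rw [List.all_eq_true] at h2
  have h3 := h2 b (List.mem_range.2 hb)
  rw [List.all_eq_true] at h3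
  have h4 := h3 c (List.mem_range.2 hc)
  rw [List.all_eq_true] at h4
  have h5 := h4 d (List.mem_range.2 hd)
  simpa [ha', hb', hc', hd', h] using h5

theorem fc5_check {a b c d e : ℕ} (ha : a < 7) (ha' : 3 ≤ a) (hb : b < 7) (hb' : 3 ≤ b)
    (hc : c < 7) (hc' : 3 ≤ c) (hd : d < 7) (hd' : 3 ≤ d) (he : e < 7) (he' : 3 ≤ e)
    (h : 60 / a + 60 / b + 60 / c + 60 / d + 60 / e = 90) :
    FCGoal [a, b, c, d, e] := by
  have h1 := chk5_eq
  unfold chk5 at h1
  rw [List.all_eq_true] at h1
  have h2 := h1 a (List.mem_range.2 ha)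
  rw [List.all_eq_true] at h2
  have h3 := h2 b (List.mem_range.2 hb)
  rw [List.all_eq_true] at h3
  have h4 := h3 c (List.mem_range.2 hc)
  rw [List.all_eq_true] at h4
  have h5 := h4 d (List.mem_range.2 hd)
  rw [List.all_eq_true] at h5
  have h6 := h5 e (List.mem_range.2 he)
  simpa [ha', hb', hc', hd', he', h] using h6

theorem le_twelve {a b c d : ℕ} (ha : 3 ≤ a) (hb : 3 ≤ b) (hc : 3 ≤ c) (hd : 3 ≤ d)
    (h : 1 / (a : ℚ) + 1 / (b : ℚ) + 1 / (c : ℚ) + 1 / (d : ℚ) = 1) : a ≤ 12 := by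
  apply le_of_inv_ge ha (by norm_num)
  have hb' := inv_le_third hb
  have hc' := inv_le_third hc
  have hd' := inv_le_third hd
  have ha' : (0 : ℚ) < 1 / a := by
    have : (0 : ℚ) < a := by exact_mod_cast (by omega : 0 < a)
    positivity
  have hfour : ∀ p : ℕ, 3 ≤ p → p ≠ 3 → 1 / (p : ℚ) ≤ 1 / 4 := by
    intro p hp hp3
    have : (4 : ℚ) ≤ p := by exact_mod_cast (by omega : 4 ≤ p)
    exact one_div_le_one_div_of_le (by norm_num) this
  by_cases h1 : b = 3
  · by_cases h2 : c = 3
    · by_cases h3 : d = 3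
      · exfalso
        subst h1 h2 h3
        push_cast at h
        linarith
      · have := hfour d hd h3
        push_cast
        linarith
    · have := hfour c hc h2
      push_cast
      linarith
  · have := hfour b hb h1
    push_cast
    linarith

theorem fc4 {a b c d : ℕ} (ha : 3 ≤ a) (hb : 3 ≤ b) (hc : 3 ≤ c) (hd : 3 ≤ d)
    (h : 1 / (a : ℚ) + 1 / (b : ℚ) + 1 / (c : ℚ) + 1 / (d : ℚ) = 1) : FCGoal [a, b, c, d] := by
  have h1 := le_twelve ha hb hc hd h
  have h2 := le_twelve hb ha hc hd (by linarith)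
  have h3 := le_twelve hc ha hb hd (by linarith)
  have h4 := le_twelve hd ha hb hc (by linarith)
  apply fc4_check (by omega) ha (by omega) hb (by omega) hc (by omega) hd
  have ha' : (a : ℚ) ≠ 0 := by exact_mod_cast (by omega : a ≠ 0)
  have hb' : (b : ℚ) ≠ 0 := by exact_mod_cast (by omega : b ≠ 0)
  have hc' : (c : ℚ) ≠ 0 := by exact_mod_cast (by omega : c ≠ 0)
  have hd' : (d : ℚ) ≠ 0 := by exact_mod_cast (by omega : d ≠ 0)
  field_simp at h
  have h5 : ((b * c * d + a * c * d + a * b * d + a * b * c : ℕ) : ℚ) =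
      ((a * b * c * d : ℕ) : ℚ) := by
    push_cast
    linarith
  exact_mod_cast h5

theorem le_six {a b c d e : ℕ} (ha : 3 ≤ a) (hb : 3 ≤ b) (hc : 3 ≤ c) (hd : 3 ≤ d) (he : 3 ≤ e)
    (h : 1 / (a : ℚ) + 1 / (b : ℚ) + 1 / (c : ℚ) + 1 / (d : ℚ) + 1 / (e : ℚ) = 3 / 2) :
    a ≤ 6 := by
  apply le_of_inv_ge ha (by norm_num)
  have hb' := inv_le_third hb
  have hc' := inv_le_third hc
  have hd' := inv_le_third hd
  have he' := inv_le_third he
  push_cast
  linarith

theorem sixty {a : ℕ} (ha : 3 ≤ a) (ha' : a ≤ 6) : ((60 / a : ℕ) : ℚ) = 60 * (1 / (a : ℚ)) := by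
  interval_cases a <;> norm_num

theorem fc5 {a b c d e : ℕ} (ha : 3 ≤ a) (hb : 3 ≤ b) (hc : 3 ≤ c) (hd : 3 ≤ d) (he : 3 ≤ e)
    (h : 1 / (a : ℚ) + 1 / (b : ℚ) + 1 / (c : ℚ) + 1 / (d : ℚ) + 1 / (e : ℚ) = 3 / 2) :
    FCGoal [a, b, c, d, e] := by
  have h1 := le_six ha hb hc hd he h
  have h2 := le_six hb ha hc hd he (by linarith)
  have h3 := le_six hc ha hb hd he (by linarith)
  have h4 := le_six hd ha hb hc he (by linarith)
  have h5 := le_six he ha hb hc hd (by linarith)
  apply fc5_check (by omega) ha (by omega) hb (by omega) hc (by omega) hd (by omega) he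
  have h6 : ((60 / a + 60 / b + 60 / c + 60 / d + 60 / e : ℕ) : ℚ) = ((90 : ℕ) : ℚ) := by
    rw [Nat.cast_add, Nat.cast_add, Nat.cast_add, Nat.cast_add, sixty ha h1, sixty hb h2,
      sixty hc h3, sixty hd h4, sixty he h5]
    push_cast
    linarith
  exact_mod_cast h6

theorem eq_three {a b c d e f : ℕ} (ha : 3 ≤ a) (hb : 3 ≤ b) (hc : 3 ≤ c) (hd : 3 ≤ d)
    (he : 3 ≤ e) (hf : 3 ≤ f)
    (h : 1 / (a : ℚ) + 1 / (b : ℚ) + 1 / (c : ℚ) + 1 / (d : ℚ) + 1 / (e : ℚ) + 1 / (f : ℚ) = 2) :
    a = 3 := by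
  apply le_antisymm _ ha
  apply le_of_inv_ge ha (by norm_num)
  have hb' := inv_le_third hb
  have hc' := inv_le_third hc
  have hd' := inv_le_third hd
  have he' := inv_le_third he
  have hf' := inv_le_third hf
  push_cast
  linarith

theorem flatClass : FlatClassStatement := by
  intro σ hlen hσ hκ
  show FCGoal σ
  have h6 := length_le_six σ hσ hκ
  unfold curv at hκ
  rcases σ with _ | ⟨a, _ | ⟨b, _ | ⟨c, _ | ⟨d, _ | ⟨e, _ | ⟨f, _ | ⟨g, σ⟩⟩⟩⟩⟩⟩⟩
  · simp at hlen
  · simp at hlen
  · simp at hlen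
  · exact fc3 a b c
  · simp only [List.mem_cons, List.not_mem_nil, or_false, forall_eq_or_imp, forall_eq] at hσ
    obtain ⟨ha, hb, hc, hd⟩ := hσ
    simp only [List.length_cons, List.length_nil, List.map_cons, List.map_nil, List.sum_cons,
      List.sum_nil] at hκ
    push_cast at hκ
    exact fc4 ha hb hc hd (by linarith)
  · simp only [List.mem_cons, List.not_mem_nil, or_false, forall_eq_or_imp, forall_eq] at hσ
    obtain ⟨ha, hb, hc, hd, he⟩ := hσ
    simp only [List.length_cons, List.length_nil, List.map_cons, List.map_nil, List.sum_cons,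
      List.sum_nil] at hκ
    push_cast at hκ
    exact fc5 ha hb hc hd he (by linarith)
  · simp only [List.mem_cons, List.not_mem_nil, or_false, forall_eq_or_imp, forall_eq] at hσ
    obtain ⟨ha, hb, hc, hd, he, hf⟩ := hσ
    simp only [List.length_cons, List.length_nil, List.map_cons, List.map_nil, List.sum_cons,
      List.sum_nil] at hκ
    push_cast at hκ
    have h1 := eq_three ha hb hc hd he hf (by linarith)
    have h2 := eq_three hb ha hc hd he hf (by linarith)
    have h3 := eq_three hc ha hb hd he hf (by linarith)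
    have h4 := eq_three hd ha hb hc he hf (by linarith)
    have h5 := eq_three he ha hb hc hd hf (by linarith)
    have h7 := eq_three hf ha hb hc hd he (by linarith)
    subst h1 h2 h3 h4 h5 h7
    decide
  · simp only [List.length_cons] at h6
    omega

end Tess
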