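import Pool.Agent.Work.MP_8c67d3_co.F5ab

/-!
# Block FD: sequences in which two consecutive entries determine the next one are rigid
-/

set_option autoImplicit false

namespace Tess

theorem mem_triples {τ : List ℕ} (i : ℕ) (h0 : i < τ.length) (h1 : (i + 1) % τ.length < τ.length)
    (h2 : (i + 2) % τ.length < τ.length) :
    (τ[i], τ[(i + 1) % τ.length], τ[(i + 2) % τ.length]) ∈ triples τ := by
  unfold triples
  rw [List.mem_iff_getElem]
  refine ⟨i, by simp [h0], ?_⟩
  simp [List.getElem_rotate]

open CMap

variable {D : Type} {M : CMap D}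

theorem word_getElem' (n i : ℕ) (_ : i < n) (d : D) (h' : i < (M.word n d).length) :
    (M.word n d)[i] = M.val ((M.face ^ i) d) := by
  simp [CMap.word]

/-- The valences around a face are read off from `σ` or `σ.reverse`. -/
theorem read_face {σ : List ℕ} (hlen : 3 ≤ σ.length) (hs : M.HasSeq σ) (d : D) :
    ∃ τ, (τ = σ ∨ τ = σ.reverse) ∧ ∃ k < σ.length, ∀ i, ∀ h : (i + k) % σ.length < τ.length,
      M.val ((M.face ^ i) d) = τ[(i + k) % σ.length] := by
  obtain ⟨h1, h2⟩ := hs d
  have key : ∀ τ : List ℕ, τ.length = σ.length → M.word σ.length d ~r τ →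
      ∃ k < σ.length, ∀ i, ∀ h : (i + k) % σ.length < τ.length,
      M.val ((M.face ^ i) d) = τ[(i + k) % σ.length] := by
    intro τ hτ h
    obtain ⟨k, hk, h3⟩ := List.isRotated_iff_mod.1 h.symm
    have hk' : k < σ.length ∨ k = σ.length := by omega
    refine ⟨k % σ.length, Nat.mod_lt _ (by omega), fun i hi => ?_⟩
    have h4 : M.val ((M.face ^ i) d) = M.val ((M.face ^ (i % σ.length)) d) := by
      rw [← h1, pow_mod_minimalPeriod]
    have him : i % σ.length < σ.length := Nat.mod_lt _ (by omega)
    rw [h4, ← word_getElem' σ.length (i % σ.length) him d (by simp [CMap.word, him])]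
    have h5 : (M.word σ.length d)[i % σ.length]'(by simp [CMap.word, him]) =
        (τ.rotate k)[i % σ.length]'(by rw [List.length_rotate, hτ]; exact him) := by
      simp only [h3]
    rw [h5, List.getElem_rotate]
    congr 1
    rw [hτ]
    simp [Nat.add_mod]
  rcases h2 with h2 | h2
  · exact ⟨σ, Or.inl rfl, key σ rfl h2⟩
  · exact ⟨σ.reverse, Or.inr rfl, key σ.reverse (List.length_reverse) h2⟩

/-- The three consecutive valences at a corner. -/
theorem corner_mem {σ : List ℕ} (hlen : 3 ≤ σ.length) (hs : M.HasSeq σ) (d : D) :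
    (M.nb d, M.val d, M.nb (M.rot d)) ∈ triples σ ++ triples σ.reverse := by
  obtain ⟨τ, hτ, k, hk, h⟩ := read_face hlen hs d
  have hn : τ.length = σ.length := by
    rcases hτ with rfl | rfl
    · rfl
    · exact List.length_reverse
  have hper := (hs d).1
  have hmod : ∀ i, i % σ.length < τ.length := fun i => by
    rw [hn]; exact Nat.mod_lt _ (by omega)
  have h0 : M.val d = τ[k]'(by omega) := by
    have := h 0 (hmod _)
    simp only [pow_zero, Equiv.Perm.one_apply, zero_add] at this
    rw [this]
    congr 1
    exact Nat.mod_eq_of_lt hk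
  have h1 : M.nb (M.rot d) = τ[(k + 1) % σ.length]'(hmod _) := by
    have := h 1 (hmod _)
    rw [pow_one, M.val_face] at this
    rw [this]
    congr 1
    rw [add_comm]
  have hm : M.nb d = τ[(k + (σ.length - 1)) % σ.length]'(hmod _) := by
    have h2 := h (σ.length - 1) (hmod _)
    have h3 : (M.face ^ (σ.length - 1)) d = M.face.symm d := by
      rw [Equiv.eq_symm_apply, ← Equiv.Perm.mul_apply, ← pow_succ',
        Nat.sub_add_cancel (by omega), ← hper]
      exact pow_minimalPeriod M.face d
    rw [h3, M.val_face_symm] at h2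
    rw [h2]
    congr 1
    rw [add_comm]
  set j := (k + (σ.length - 1)) % σ.length with hj
  have hjlt : j < σ.length := Nat.mod_lt _ (by omega)
  have e1 : (j + 1) % σ.length = k := by
    rw [hj, Nat.mod_add_mod, show k + (σ.length - 1) + 1 = k + σ.length by omega,
      Nat.add_mod_right]
    exact Nat.mod_eq_of_lt hk
  have e2 : (j + 2) % σ.length = (k + 1) % σ.length := by
    rw [hj, Nat.mod_add_mod, show k + (σ.length - 1) + 2 = k + 1 + σ.length by omega,
      Nat.add_mod_right]
  have hmem := mem_triples (τ := τ) j (by omega) (by rw [hn]; exact Nat.mod_lt _ (by omega))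
    (by rw [hn]; exact Nat.mod_lt _ (by omega))
  simp only [hn, e1, e2] at hmem
  rw [h0, h1, hm]
  rcases hτ with rfl | rfl
  · exact List.mem_append_left _ hmem
  · exact List.mem_append_right _ hmem

open Classical in
/-- The next entry. -/
noncomputable def nx (σ : List ℕ) (x y : ℕ) : ℕ :=
  if h : ∃ z, (x, y, z) ∈ triples σ ++ triples σ.reverse then h.choose else 0

theorem nx_eq {σ : List ℕ} (hD : Det σ) {x y z : ℕ}
    (h : (x, y, z) ∈ triples σ ++ triples σ.reverse) : nx σ x y = z := by
  have hex : ∃ z, (x, y, z) ∈ triples σ ++ triples σ.reverse := ⟨z, h⟩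
  unfold nx
  rw [dif_pos hex]
  exact hD _ hex.choose_spec _ h rfl rfl

/-- The machine of a deterministic sequence. -/
noncomputable def mD (σ : List ℕ) : Machine (ℕ × ℕ) where
  rot s := (s.1, nx σ s.2 s.1)
  inv s := (s.2, s.1)
  val s := s.1

theorem det : DetStatement := by
  intro σ hlen hD
  refine ⟨ℕ × ℕ, mD σ, (σ[1], σ[0]), ?_⟩
  intro D M hT hs
  refine ⟨M, Or.inl rfl, fun d => (M.val d, M.nb d), ?_, ?_⟩
  · intro d
    refine ⟨?_, ?_, rfl⟩
    · show (M.val (M.rot d), M.nb (M.rot d)) = (M.val d, nx σ (M.nb d) (M.val d))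
      rw [M.val_rot, nx_eq hD (corner_mem hlen hs d)]
    · show (M.val (M.inv d), M.nb (M.inv d)) = (M.nb d, M.val d)
      rw [M.nb_inv]
      rfl
  · have := hT.infinite
    obtain ⟨d⟩ : Nonempty D := inferInstance
    obtain ⟨τ, hτ, k, hk, h⟩ := read_face hlen hs d
    have hn : τ.length = σ.length := by
      rcases hτ with rfl | rfl
      · rfl
      · exact List.length_reverse
    have hmod : ∀ i, i % σ.length < τ.length := fun i => by
      rw [hn]; exact Nat.mod_lt _ (by omega)
    have hnb : ∀ i, M.nb ((M.face ^ (i + 1)) d) = M.val ((M.face ^ i) d) := by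
      intro i
      rw [← M.val_face_symm, pow_succ', Equiv.Perm.mul_apply, Equiv.symm_apply_apply]
    rcases hτ with rfl | rfl
    · refine ⟨(M.face ^ (τ.length - k + 1)) d, ?_⟩
      have h1 := h (τ.length - k) (hmod _)
      have h2 := h (τ.length - k + 1) (hmod _)
      have e1 : (τ.length - k + k) % τ.length = 0 := by
        rw [Nat.sub_add_cancel hk.le, Nat.mod_self]
      have e2 : (τ.length - k + 1 + k) % τ.length = 1 := by
        rw [show τ.length - k + 1 + k = 1 + τ.length by omega, Nat.add_mod_right]
        exact Nat.mod_eq_of_lt (by omega)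
      simp only [e1] at h1
      simp only [e2] at h2
      show (M.val _, M.nb _) = _
      rw [hnb, h1, h2]
    · refine ⟨M.inv ((M.face ^ (2 * σ.length - 2 - k + 1)) d), ?_⟩
      have h1 := h (2 * σ.length - 2 - k) (hmod _)
      have h2 := h (2 * σ.length - 2 - k + 1) (hmod _)
      have e1 : (2 * σ.length - 2 - k + k) % σ.length = σ.length - 2 := by
        rw [show 2 * σ.length - 2 - k + k = (σ.length - 2) + σ.length by omega,
          Nat.add_mod_right]
        exact Nat.mod_eq_of_lt (by omega)
      have e2 : (2 * σ.length - 2 - k + 1 + k) % σ.length = σ.length - 1 := by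
        rw [show 2 * σ.length - 2 - k + 1 + k = (σ.length - 1) + σ.length by omega,
          Nat.add_mod_right]
        exact Nat.mod_eq_of_lt (by omega)
      simp only [e1] at h1
      simp only [e2] at h2
      show (M.nb _, M.nb _) = _
      rw [M.nb_inv, hnb, h1, h2]
      simp only [List.getElem_reverse, Prod.mk.injEq]
      refine ⟨?_, ?_⟩
      · congr 1; omega
      · congr 1; omega

end Tess
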