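import Pool.Agent.Work.MP_8c67d3_co.InterfaceFL
import Pool.Agent.Work.MP_8c67d3_co_helper72.Z2
import Pool.Agent.Work.MP_8c67d3_co_helper39.L4

/-!
# Block FL1: a plane map is simply connected
-/

set_option autoImplicit false

namespace Tess

open CMap

namespace FL1

variable {D D' : Type} (M : CMap D) (M' : CMap D')

/-- pairs of darts with the same local data along all words -/
def Good (p : D × D') : Prop :=
  ∀ w, M'.val (M'.run w p.2) = M.val (M.run w p.1) ∧
    Function.minimalPeriod M'.face (M'.run w p.2) = Function.minimalPeriod M.face (M.run w p.1)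

/-- one step of the simultaneous walk, `inv` only along the edges in `G` -/
def Step (G : Finset D) (p q : D × D') : Prop :=
  q = (M.rot p.1, M'.rot p.2) ∨ (p.1 ∈ G ∧ q = (M.inv p.1, M'.inv p.2))

/-- simultaneous walks -/
def Reach (G : Finset D) : D × D' → D × D' → Prop := Relation.ReflTransGen (Step M M' G)

variable {M M'}

theorem Good.rot {p : D × D'} (h : Good M M' p) : Good M M' (M.rot p.1, M'.rot p.2) := by
  intro w
  have := h (w ++ [true])
  rwa [M.run_append, M'.run_append] at this

theorem Good.inv {p : D × D'} (h : Good M M' p) : Good M M' (M.inv p.1, M'.inv p.2) := by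
  intro w
  have := h (w ++ [false])
  rwa [M.run_append, M'.run_append] at this

theorem Good.step {G : Finset D} {p q : D × D'} (h : Good M M' p) (hs : Step M M' G p q) :
    Good M M' q := by
  rcases hs with rfl | ⟨-, rfl⟩
  · exact h.rot
  · exact h.inv

theorem Good.val {p : D × D'} (h : Good M M' p) : M'.val p.2 = M.val p.1 := (h []).1

theorem Good.per {p : D × D'} (h : Good M M' p) :
    Function.minimalPeriod M'.face p.2 = Function.minimalPeriod M.face p.1 := (h []).2

theorem Good.reach {G : Finset D} {p q : D × D'} (h : Good M M' p) (hr : Reach M M' G p q) :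
    Good M M' q := by
  induction hr with
  | refl => exact h
  | tail _ hs ih => exact ih.step hs

theorem reach_rot_pow (G : Finset D) (p : D × D') (i : ℕ) :
    Reach M M' G p ((M.rot ^ i) p.1, (M'.rot ^ i) p.2) := by
  induction i with
  | zero => exact Relation.ReflTransGen.refl
  | succ i ih =>
    refine ih.tail (Or.inl ?_)
    rw [pow_succ', pow_succ', Equiv.Perm.mul_apply, Equiv.Perm.mul_apply]

theorem step_symm {Δ : ℕ} (hM : M.Pre Δ) {G : Finset D} (hG : ∀ e ∈ G, M.inv e ∈ G) {p q : D × D'}
    (h : Good M M' p) (hs : Step M M' G p q) : Reach M M' G q p := by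
  rcases hs with rfl | ⟨hp, rfl⟩
  · have h1 := reach_rot_pow (M := M) (M' := M') G (M.rot p.1, M'.rot p.2) (M.val p.1 - 1)
    have hpos := hM.val_pos p.1
    have h2 : (M.rot ^ (M.val p.1 - 1)) (M.rot p.1) = p.1 := by
      have h3 := pow_minimalPeriod M.rot p.1
      change (M.rot ^ M.val p.1) p.1 = p.1 at h3
      conv_rhs => rw [← h3]
      rw [← Equiv.Perm.mul_apply, ← pow_succ]
      congr 2
      omega
    have h4 : (M'.rot ^ (M.val p.1 - 1)) (M'.rot p.2) = p.2 := by
      have h3 := pow_minimalPeriod M'.rot p.2
      change (M'.rot ^ M'.val p.2) p.2 = p.2 at h3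
      rw [h.val] at h3
      conv_rhs => rw [← h3]
      rw [← Equiv.Perm.mul_apply, ← pow_succ]
      congr 2
      omega
    simp only [h2, h4] at h1
    exact h1
  · refine Relation.ReflTransGen.single (Or.inr ⟨hG _ hp, ?_⟩)
    simp

theorem reach_symm {Δ : ℕ} (hM : M.Pre Δ) {G : Finset D} (hG : ∀ e ∈ G, M.inv e ∈ G)
    {p q : D × D'} (h : Good M M' p) (hr : Reach M M' G p q) : Reach M M' G q p := by
  induction hr with
  | refl => exact Relation.ReflTransGen.refl
  | tail hr hs ih => exact (step_symm hM hG (h.reach hr) hs).trans ih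

theorem Reach.mono {G G' : Finset D} (hG : G ⊆ G') {p q : D × D'} (hr : Reach M M' G p q) :
    Reach M M' G' p q := by
  induction hr with
  | refl => exact Relation.ReflTransGen.refl
  | tail _ hs ih =>
    rcases hs with h | ⟨h, h'⟩
    · exact ih.tail (Or.inl h)
    · exact ih.tail (Or.inr ⟨hG h, h'⟩)

/-- The chain of the edges used by a walk. -/
theorem exists_chain {Δ : ℕ} (hM : M.Pre Δ) {G : Finset D} (hG : ∀ e ∈ G, M.inv e ∈ G)
    {p q : D × D'} (hr : Reach M M' G p q) :
    ∃ x : D → ZMod 2, (∀ d, x d ≠ 0 → d ∈ G) ∧ (∀ d, x (M.inv d) = x d) ∧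
      ∀ v, ∑ d ∈ hM.vf v, x d = ind {M.vert p.1} v + ind {M.vert q.1} v := by
  classical
  induction hr with
  | refl => exact ⟨fun _ => 0, by simp, by simp, fun v => by simp [z2_add_self]⟩
  | @tail b c hr hs ih =>
    obtain ⟨x, hx1, hx2, hx3⟩ := ih
    rcases hs with rfl | ⟨hb, rfl⟩
    · exact ⟨x, hx1, hx2, by simpa using hx3⟩
    · refine ⟨fun d => x d + (ind {b.1} d + ind {M.inv b.1} d), ?_, ?_, ?_⟩
      · intro d hd
        by_contra hcon
        apply hd
        have h1 : x d = 0 := by
          by_contra h; exact hcon (hx1 d h)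
        have h2 : d ≠ b.1 := fun h => hcon (h ▸ hb)
        have h3 : d ≠ M.inv b.1 := fun h => hcon (h ▸ hG _ hb)
        simp [ind, h1, h2, h3]
      · intro d
        dsimp only
        rw [hx2]
        congr 1
        unfold ind
        simp only [Finset.mem_singleton]
        rw [add_comm]
        congr 1
        · congr 1
          rw [eq_iff_iff]
          exact ⟨fun h => M.inv.injective h, fun h => by rw [h]⟩
        · congr 1
          rw [eq_iff_iff, M.inv_eq_iff]
      · intro v
        rw [Finset.sum_add_distrib, Finset.sum_add_distrib, hx3]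
        have h1 : ∀ e : D, ∑ d ∈ hM.vf v, ind {e} d = ind {M.vert e} v := by
          intro e
          unfold ind
          simp only [Finset.mem_singleton]
          rw [Finset.sum_ite_eq']
          simp only [hM.mem_vf]
          congr 1
          rw [eq_iff_iff]
          exact ⟨fun h => h.symm, fun h => h.symm⟩
        rw [h1, h1]
        have h2 := z2_add_self (ind {M.vert b.1} v)
        linear_combination h2

/-- Acyclic pairs. -/
structure Acyclic {Δ : ℕ} (hM : M.Pre Δ) (G : Finset D) (X : Finset M.F) : Prop where
  inv_mem : ∀ e ∈ G, M.inv e ∈ G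
  mem : ∀ e, M.fac e ∈ X → e ∈ G
  fill : ∀ x : D → ZMod 2, (∀ d, x d ≠ 0 → d ∈ G) → (∀ d, x (M.inv d) = x d) →
    (∀ v, ∑ d ∈ hM.vf v, x d = 0) → ∃ Y ⊆ X, ∀ d, x d = ind Y (M.fac d) + ind Y (M.fac (M.inv d))

open Classical in
/-- Remove an edge. -/
noncomputable def del (M : CMap D) (G : Finset D) (g : D) : Finset D := (G.erase g).erase (M.inv g)

theorem mem_del {G : Finset D} {g e : D} : e ∈ del M G g ↔ e ≠ M.inv g ∧ e ≠ g ∧ e ∈ G := by
  classical
  unfold del
  rw [Finset.mem_erase, Finset.mem_erase]

theorem del_inv {G : Finset D} (hG : ∀ e ∈ G, M.inv e ∈ G) (g : D) :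
    ∀ e ∈ del M G g, M.inv e ∈ del M G g := by
  intro e he
  rw [mem_del] at he ⊢
  obtain ⟨h1, h2, h3⟩ := he
  refine ⟨fun h => h2 (M.inv.injective h), fun h => h1 ?_, hG e h3⟩
  rw [← h]; simp

theorem card_del_lt {G : Finset D} {g : D} (hg : g ∈ G) : (del M G g).card < G.card := by
  classical
  unfold del
  have h1 := Finset.card_erase_lt_of_mem hg
  have h2 := Finset.card_erase_le (s := G.erase g) (a := M.inv g)
  omega

/-- The face relation. -/
theorem reach_face {Δ : ℕ} (hM : M.Pre Δ) {G : Finset D} {X : Finset M.F}
    (hA : Acyclic hM G X) {g : D} (hg : M.fac g ∈ X) (hg' : M.fac (M.inv g) ∉ X) {g' : D'}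
    (hgood : Good M M' (g, g')) : Reach M M' (del M G g) (g, g') (M.inv g, M'.inv g') := by
  set k := Function.minimalPeriod M.face g with hk
  have hpos : 0 < k := hM.face_pos g
  have hk' : Function.minimalPeriod M'.face g' = k := hgood.per
  have hG' := del_inv hA.inv_mem g
  have hmem : ∀ j, 0 < j → j < k → (M.face ^ j) g ∈ del M G g := by
    intro j hj hjk
    rw [mem_del]
    have hfac : M.fac ((M.face ^ j) g) = M.fac g := M.fac_face_pow j g
    refine ⟨?_, ?_, ?_⟩
    · intro h
      apply hg'
      rw [← h, hfac]; exact hg
    · intro h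
      have h1 : Function.IsPeriodicPt M.face j g := by
        unfold Function.IsPeriodicPt Function.IsFixedPt
        rw [iterate_eq_pow']; exact h
      have := h1.minimalPeriod_le hj
      omega
    · exact hA.mem _ (by rw [hfac]; exact hg)
  have hstep : ∀ (N : CMap D') (i : ℕ) (e : D'), N.rot ((N.face ^ i) e) = N.inv ((N.face ^ (i + 1)) e) := by
    intro N i e
    rw [pow_succ', Equiv.Perm.mul_apply, N.face_apply, N.inv_inv']
  have hstepM : ∀ (i : ℕ) (e : D), M.rot ((M.face ^ i) e) = M.inv ((M.face ^ (i + 1)) e) := by
    intro i e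
    rw [pow_succ', Equiv.Perm.mul_apply, M.face_apply, M.inv_inv']
  have hwalk : ∀ j, j < k →
      Reach M M' (del M G g) (g, g') ((M.face ^ j) g, (M'.face ^ j) g') := by
    intro j
    induction j with
    | zero => intro _; exact Relation.ReflTransGen.refl
    | succ j ih =>
      intro hj
      refine ((ih (by omega)).tail (Or.inl rfl)).tail (Or.inr ⟨?_, ?_⟩)
      · dsimp only
        rw [hstepM]
        exact hG' _ (hmem (j + 1) (by omega) hj)
      · dsimp only
        rw [hstepM, hstep M', M.inv_inv', M'.inv_inv']
  refine (hwalk (k - 1) (by omega)).tail (Or.inl ?_)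
  dsimp only
  rw [hstepM, hstep M', show k - 1 + 1 = k by omega]
  have h1 : (M.face ^ k) g = g := pow_minimalPeriod M.face g
  have h2 : (M'.face ^ k) g' = g' := by
    rw [← hk']; exact pow_minimalPeriod M'.face g'
  rw [h1, h2]

/-- Uniqueness of lifts along acyclic complexes. -/
theorem uniq {Δ : ℕ} (hM : M.Pre Δ) (n : ℕ) : ∀ (G : Finset D) (X : Finset M.F), G.card ≤ n →
    Acyclic hM G X → ∀ p q : D × D', Good M M' p → Reach M M' G p q → p.1 = q.1 → p.2 = q.2 := by
  classical
  induction n with
  | zero =>
    intro G X hn hA p q hp hr hpq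
    have hG : G = ∅ := Finset.card_eq_zero.1 (by omega)
    subst hG
    have h1 : ∃ i : ℕ, q = ((M.rot ^ i) p.1, (M'.rot ^ i) p.2) := by
      clear hpq
      induction hr with
      | refl => exact ⟨0, rfl⟩
      | tail _ hs ih =>
        obtain ⟨i, rfl⟩ := ih
        rcases hs with rfl | ⟨h, -⟩
        · refine ⟨i + 1, ?_⟩
          rw [pow_succ', pow_succ', Equiv.Perm.mul_apply, Equiv.Perm.mul_apply]
        · simp at h
    obtain ⟨i, rfl⟩ := h1
    dsimp only at hpq ⊢
    have h2 : Function.IsPeriodicPt M.rot i p.1 := by
      unfold Function.IsPeriodicPt Function.IsFixedPt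
      rw [iterate_eq_pow']; exact hpq.symm
    have h3 : M.val p.1 ∣ i := h2.minimalPeriod_dvd
    rw [← hp.val] at h3
    have h4 : Function.IsPeriodicPt M'.rot i p.2 :=
      (Function.isPeriodicPt_minimalPeriod M'.rot p.2).trans_dvd h3
    unfold Function.IsPeriodicPt Function.IsFixedPt at h4
    rw [iterate_eq_pow'] at h4
    exact h4.symm
  | succ n ih =>
    intro G X hn hA p q hp hr hpq
    rcases Finset.eq_empty_or_nonempty G with hGe | ⟨g₀, hg₀⟩
    · exact ih G X (by rw [hGe]; simp) hA p q hp hr hpq
    rcases Finset.eq_empty_or_nonempty X with hX | hX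
    · -- a forest
      subst hX
      set g := g₀
      set G' := del M G g with hG'
      have hG'inv := del_inv hA.inv_mem g
      have hsub : ∀ e ∈ G', e ∈ G := fun e he => (mem_del.1 he).2.2
      have hA' : Acyclic hM G' ∅ := by
        refine ⟨hG'inv, by simp, ?_⟩
        intro x hx1 hx2 hx3
        exact hA.fill x (fun d hd => hsub d (hx1 d hd)) hx2 hx3
      have hIH := ih G' ∅ (by have : G'.card < G.card := card_del_lt (M := M) hg₀; omega) hA'
      -- the two sides are disconnected
      have hN : ∀ (a b : D') (q r : D × D'), Reach M M' G' (g, a) q →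
          Reach M M' G' (M.inv g, b) r → q.1 = r.1 → False := by
        intro a b q r hq hr' hqr
        obtain ⟨x, hx1, hx2, hx3⟩ := exists_chain hM hG'inv hq
        obtain ⟨y, hy1, hy2, hy3⟩ := exists_chain hM hG'inv hr'
        obtain ⟨Y, hY, hYx⟩ := hA.fill (fun d => x d + y d + (ind {g} d + ind {M.inv g} d)) (by
          intro d hd
          by_contra hcon
          apply hd
          have h1 : x d = 0 := by
            by_contra h; exact hcon (hsub d (hx1 d h))
          have h1' : y d = 0 := by
            by_contra h; exact hcon (hsub d (hy1 d h))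
          have h2 : d ≠ g := fun h => hcon (h ▸ hg₀)
          have h3 : d ≠ M.inv g := fun h => hcon (h ▸ hA.inv_mem _ hg₀)
          simp [ind, h1, h1', h2, h3]) (by
          intro d
          rw [hx2, hy2]
          congr 1
          unfold ind
          simp only [Finset.mem_singleton]
          rw [add_comm]
          congr 1
          · congr 1
            rw [eq_iff_iff]
            exact ⟨fun h => M.inv.injective h, fun h => by rw [h]⟩
          · congr 1
            rw [eq_iff_iff, M.inv_eq_iff]) (by
          intro v
          rw [Finset.sum_add_distrib, Finset.sum_add_distrib, Finset.sum_add_distrib, hx3, hy3]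
          have h1 : ∀ e : D, ∑ d ∈ hM.vf v, ind {e} d = ind {M.vert e} v := by
            intro e
            unfold ind
            simp only [Finset.mem_singleton]
            rw [Finset.sum_ite_eq']
            simp only [hM.mem_vf]
            congr 1
            rw [eq_iff_iff]
            exact ⟨fun h => h.symm, fun h => h.symm⟩
          rw [h1, h1, hqr]
          have h2 := z2_add_self (ind {M.vert g} v)
          have h3 := z2_add_self (ind {M.vert (M.inv g)} v)
          have h4 := z2_add_self (ind {M.vert r.1} v)
          linear_combination h2 + h3 + h4)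
        have h5 := hYx g
        have h6 : Y = ∅ := Finset.subset_empty.1 hY
        have h7 : x g = 0 := by
          by_contra h
          exact (mem_del.1 (hx1 g h)).2.1 rfl
        have h8 : y g = 0 := by
          by_contra h
          exact (mem_del.1 (hy1 g h)).2.1 rfl
        have h9 : g ≠ M.inv g := (M.inv_ne g).symm
        rw [h6, h7, h8] at h5
        simp [ind, h9] at h5
      -- the class of a lift of `g`
      have hT : ∀ g', Good M M' (g, g') → ∀ q, Reach M M' G (g, g') q →
          Reach M M' G' (g, g') q ∨ Reach M M' G' (M.inv g, M'.inv g') q := by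
        intro g' hg' q hq
        induction hq with
        | refl => exact Or.inl Relation.ReflTransGen.refl
        | @tail b c hb hs ihb =>
          rcases hs with rfl | ⟨hbG, rfl⟩
          · rcases ihb with h | h
            · exact Or.inl (h.tail (Or.inl rfl))
            · exact Or.inr (h.tail (Or.inl rfl))
          · by_cases hbG' : b.1 ∈ G'
            · rcases ihb with h | h
              · exact Or.inl (h.tail (Or.inr ⟨hbG', rfl⟩))
              · exact Or.inr (h.tail (Or.inr ⟨hbG', rfl⟩))
            · have hb2 : b.1 = g ∨ b.1 = M.inv g := by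
                rw [hG', mem_del] at hbG'
                tauto
              rcases ihb with h | h
              · rcases hb2 with h2 | h2
                · right
                  have h3 : g' = b.2 := hIH (g, g') b hg' h h2.symm
                  rw [h2, ← h3]
                  exact Relation.ReflTransGen.refl
                · exact (hN g' (M'.inv g') b (M.inv g, M'.inv g') h
                    Relation.ReflTransGen.refl h2).elim
              · rcases hb2 with h2 | h2
                · exact (hN g' (M'.inv g') (g, g') b Relation.ReflTransGen.refl h h2.symm).elim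
                · left
                  have h3 : M'.inv g' = b.2 :=
                    hIH (M.inv g, M'.inv g') b hg'.inv h h2.symm
                  rw [h2, ← h3, M.inv_inv', M'.inv_inv']
                  exact Relation.ReflTransGen.refl
      by_cases hex : ∃ g', Reach M M' G p (g, g')
      · obtain ⟨g', hg'⟩ := hex
        have hgood := hp.reach hg'
        have hback := reach_symm hM hA.inv_mem hp hg'
        have hTp := hT g' hgood p hback
        have hTq := hT g' hgood q (hback.trans hr)
        rcases hTp with h1 | h1
        · rcases hTq with h2 | h2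
          · exact hIH p q hp ((reach_symm hM hG'inv hgood h1).trans h2) hpq
          · exact (hN _ _ _ _ h1 h2 hpq).elim
        · rcases hTq with h2 | h2
          · exact (hN _ _ _ _ h2 h1 hpq.symm).elim
          · exact hIH p q hp ((reach_symm hM hG'inv hgood.inv h1).trans h2) hpq
      · have hr' : Reach M M' G' p q := by
          clear hpq
          induction hr with
          | refl => exact Relation.ReflTransGen.refl
          | @tail b c hb hs ihb =>
            rcases hs with rfl | ⟨hbG, rfl⟩
            · exact ihb.tail (Or.inl rfl)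
            · by_cases hbG' : b.1 ∈ G'
              · exact ihb.tail (Or.inr ⟨hbG', rfl⟩)
              · exfalso
                have hb2 : b.1 = g ∨ b.1 = M.inv g := by
                  rw [hG', mem_del] at hbG'
                  tauto
                rcases hb2 with h2 | h2
                · exact hex ⟨b.2, by rw [← h2]; exact hb⟩
                · refine hex ⟨M'.inv b.2, hb.tail (Or.inr ⟨hbG, ?_⟩)⟩
                  rw [h2, M.inv_inv']
        exact hIH p q hp hr' hpq
    · -- collapse a face
      have hbex : ∃ g, M.fac g ∈ X ∧ M.fac (M.inv g) ∉ X := by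
        by_contra hcon
        push Not at hcon
        exact hX.ne_empty (faces_empty hM X hcon)
      obtain ⟨g, hg, hg'⟩ := hbex
      have hgG : g ∈ G := hA.mem g hg
      set G' := del M G g with hG'
      have hG'inv := del_inv hA.inv_mem g
      have hsub : ∀ e ∈ G', e ∈ G := fun e he => (mem_del.1 he).2.2
      have hA' : Acyclic hM G' (X.erase (M.fac g)) := by
        refine ⟨hG'inv, ?_, ?_⟩
        · intro e he
          rw [Finset.mem_erase] at he
          rw [hG', mem_del]
          refine ⟨?_, ?_, hA.mem e he.2⟩
          · rintro rfl; exact hg' he.2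
          · rintro rfl; exact he.1 rfl
        · intro x hx1 hx2 hx3
          obtain ⟨Y, hY, hYx⟩ := hA.fill x (fun d hd => hsub d (hx1 d hd)) hx2 hx3
          refine ⟨Y, ?_, hYx⟩
          intro f hf
          rw [Finset.mem_erase]
          refine ⟨?_, hY hf⟩
          rintro rfl
          have h1 := hYx g
          have h2 : x g = 0 := by
            by_contra h
            exact (mem_del.1 (hx1 g h)).2.1 rfl
          have h3 : M.fac (M.inv g) ∉ Y := fun h => hg' (hY h)
          rw [h2] at h1
          simp [ind, hf, h3] at h1
      have hIH := ih G' (X.erase (M.fac g)) (by have : G'.card < G.card := card_del_lt (M := M) hgG; omega) hA'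
      have hr' : Reach M M' G' p q := by
        clear hpq
        induction hr with
        | refl => exact Relation.ReflTransGen.refl
        | @tail b c hb hs ihb =>
          rcases hs with rfl | ⟨hbG, rfl⟩
          · exact ihb.tail (Or.inl rfl)
          · have hbgood := hp.reach hb
            by_cases hbG' : b.1 ∈ G'
            · exact ihb.tail (Or.inr ⟨hbG', rfl⟩)
            · have hb2 : b.1 = g ∨ b.1 = M.inv g := by
                rw [hG', mem_del] at hbG'
                tauto
              refine ihb.trans ?_
              rcases hb2 with h2 | h2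
              · have hb3 : b = (g, b.2) := by rw [← h2]
                rw [hb3] at hbgood ⊢
                exact reach_face hM hA hg hg' hbgood
              · have hb3 : b = (M.inv g, b.2) := by rw [← h2]
                have hgood' : Good M M' (g, M'.inv b.2) := by
                  have := hbgood.inv
                  rwa [h2, M.inv_inv'] at this
                have h4 := reach_symm hM hG'inv hgood' (reach_face hM hA hg hg' hgood')
                rw [M'.inv_inv'] at h4
                rw [hb3]
                dsimp only
                rw [M.inv_inv']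
                exact h4
      exact hIH p q hp hr' hpq

/-- Every finite set of edges is contained in an acyclic pair. -/
theorem exists_acyclic {Δ : ℕ} (hM : M.Pre Δ) (hP : M.Plane) (G₀ : Finset D)
    (hG₀ : ∀ e ∈ G₀, M.inv e ∈ G₀) : ∃ (G : Finset D) (X : Finset M.F), G₀ ⊆ G ∧ Acyclic hM G X := by
  classical
  set R : M.F → M.F → Prop := fun a b => ∃ e, e ∉ G₀ ∧ M.fac e = a ∧ M.fac (M.inv e) = b with hR
  have hRsymm : ∀ a b, R a b → R b a := by
    rintro a b ⟨e, he, rfl, rfl⟩
    refine ⟨M.inv e, fun h => he ?_, rfl, by simp⟩
    have := hG₀ _ h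
    rwa [M.inv_inv'] at this
  set comp : M.F → Set M.F := fun f => {f' | Relation.ReflTransGen R f f'} with hcomp
  have hcsymm : ∀ a b, b ∈ comp a → a ∈ comp b := by
    intro a b h
    induction h with
    | refl => exact Relation.ReflTransGen.refl
    | tail _ hs ih => exact Relation.ReflTransGen.head (hRsymm _ _ hs) ih
  have hctrans : ∀ a b c, b ∈ comp a → c ∈ comp b → c ∈ comp a := fun a b c h h' =>
    Relation.ReflTransGen.trans h h'
  have hXfin : {f | ∃ e ∈ G₀, (comp (M.fac e)).Finite ∧ f ∈ comp (M.fac e)}.Finite := by
    have : {f | ∃ e ∈ G₀, (comp (M.fac e)).Finite ∧ f ∈ comp (M.fac e)} ⊆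
        ⋃ e ∈ (G₀.filter fun e => (comp (M.fac e)).Finite), comp (M.fac e) := by
      rintro f ⟨e, he, hfin, hf⟩
      exact Set.mem_iUnion₂.2 ⟨e, Finset.mem_filter.2 ⟨he, hfin⟩, hf⟩
    refine Set.Finite.subset ?_ this
    refine Set.Finite.biUnion (Finset.finite_toSet _) ?_
    intro e he
    exact (Finset.mem_filter.1 he).2
  set X := hXfin.toFinset with hX
  have hmemX : ∀ f, f ∈ X ↔ ∃ e ∈ G₀, (comp (M.fac e)).Finite ∧ f ∈ comp (M.fac e) := by
    intro f
    rw [hX, Set.Finite.mem_toFinset]
    rfl
  have hedges : {e : D | M.fac e ∈ X ∨ M.fac (M.inv e) ∈ X}.Finite := by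
    have h1 : {e : D | M.fac e ∈ X}.Finite := by
      have : {e : D | M.fac e ∈ X} ⊆ ⋃ f ∈ X, {e | M.fac e = f} := by
        intro e he
        exact Set.mem_iUnion₂.2 ⟨M.fac e, he, rfl⟩
      refine Set.Finite.subset (Set.Finite.biUnion X.finite_toSet fun f _ => ?_) this
      obtain ⟨e, rfl⟩ := M.fac_surj f
      exact M.finite_fac (hM.face_pos e)
    have h2 : {e : D | M.fac (M.inv e) ∈ X}.Finite := by
      refine Set.Finite.subset (h1.image M.inv) ?_
      intro e he
      exact ⟨M.inv e, he, by simp⟩
    exact (h1.union h2)
  refine ⟨G₀ ∪ hedges.toFinset, X, Finset.subset_union_left, ?_, ?_, ?_⟩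
  · intro e he
    rw [Finset.mem_union] at he ⊢
    rcases he with h | h
    · exact Or.inl (hG₀ e h)
    · right
      simp only [Set.Finite.mem_toFinset, Set.mem_ofPred_eq] at h ⊢
      rw [M.inv_inv']
      exact h.symm
  · intro e he
    rw [Finset.mem_union]
    right
    simp only [Set.Finite.mem_toFinset, Set.mem_ofPred_eq]
    exact Or.inl he
  · intro x hx1 hx2 hx3
    obtain ⟨Y, hY⟩ := hM.plane_fun hP x
      (Set.Finite.subset (Finset.finite_toSet _) fun d hd => hx1 d hd) hx2 hx3
    refine ⟨Y, ?_, hY⟩
    intro f hf
    by_contra hfX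
    have hcl : ∀ f' ∈ comp f, f' ∈ Y ∧ f' ∉ X := by
      intro f' hf'
      induction hf' with
      | refl => exact ⟨hf, hfX⟩
      | @tail b c _ hs ihb =>
        obtain ⟨e, he, rfl, rfl⟩ := hs
        have hcX : M.fac (M.inv e) ∉ X := by
          intro hcon
          apply ihb.2
          rw [hmemX] at hcon ⊢
          obtain ⟨e₀, he₀, hfin, hin⟩ := hcon
          exact ⟨e₀, he₀, hfin, hctrans _ _ _ hin (Relation.ReflTransGen.single
            (hRsymm _ _ ⟨e, he, rfl, rfl⟩))⟩
        refine ⟨?_, hcX⟩
        have h1 : x e = 0 := by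
          by_contra h
          have h2 := hx1 e h
          rw [Finset.mem_union] at h2
          rcases h2 with h2 | h2
          · exact he h2
          · simp only [Set.Finite.mem_toFinset, Set.mem_ofPred_eq] at h2
            rcases h2 with h2 | h2
            · exact ihb.2 h2
            · exact hcX h2
        have h2 := hY e
        rw [h1] at h2
        have h3 := z2_eq_of_add h2.symm
        rw [← ind_ne (A := Y), ← h3, ind_ne]
        exact ihb.1
    have hcfin : (comp f).Finite := Set.Finite.subset Y.finite_toSet fun f' hf' => (hcl f' hf').1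
    have hex : ∃ e ∈ G₀, M.fac e ∈ comp f := by
      by_contra hcon
      push Not at hcon
      have h1 : hcfin.toFinset = ∅ := by
        apply faces_empty hM
        intro e he
        rw [Set.Finite.mem_toFinset] at he ⊢
        have he' : e ∉ G₀ := fun h => hcon e h he
        exact hctrans _ _ _ he (Relation.ReflTransGen.single ⟨e, he', rfl, rfl⟩)
      have h2 : f ∈ hcfin.toFinset := by
        rw [Set.Finite.mem_toFinset]
        exact Relation.ReflTransGen.refl
      rw [h1] at h2
      simp at h2
    obtain ⟨e, he, hef⟩ := hex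
    apply hfX
    rw [hmemX]
    refine ⟨e, he, ?_, hcsymm _ _ hef⟩
    refine hcfin.subset ?_
    intro f' hf'
    exact hctrans _ _ _ hef hf'

end FL1

open FL1 in
/-- Block FL1. -/
theorem simply : SimplyStatement := by
  classical
  intro D D' M M' Δ d d' hM hP hval hper w hw
  have hgood : Good M M' (d, d') := fun w => ⟨hval w, hper w⟩
  -- the darts met along the word
  have hex : ∀ w : List Bool, ∃ G₀ : Finset D, (∀ e ∈ G₀, M.inv e ∈ G₀) ∧
      FL1.Reach M M' G₀ (d, d') (M.run w d, M'.run w d') := by
    intro w
    induction w with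
    | nil => exact ⟨∅, by simp, Relation.ReflTransGen.refl⟩
    | cons b w ih =>
      obtain ⟨G₀, hG₀, hr⟩ := ih
      refine ⟨G₀ ∪ {M.run w d, M.inv (M.run w d)}, ?_, ?_⟩
      · intro e he
        simp only [Finset.mem_union, Finset.mem_insert, Finset.mem_singleton] at he ⊢
        rcases he with h | h | h
        · exact Or.inl (hG₀ e h)
        · right; right; rw [h]
        · right; left; rw [h]; simp
      · have hmono : FL1.Reach M M' (G₀ ∪ {M.run w d, M.inv (M.run w d)}) (d, d')
            (M.run w d, M'.run w d') := hr.mono Finset.subset_union_left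
        refine hmono.tail ?_
        cases b with
        | true => exact Or.inl rfl
        | false =>
          refine Or.inr ⟨?_, rfl⟩
          dsimp only
          simp
  obtain ⟨G₀, hG₀, hr⟩ := hex w
  obtain ⟨G, X, hsub, hA⟩ := exists_acyclic hM hP G₀ hG₀
  have hr' : FL1.Reach M M' G (d, d') (M.run w d, M'.run w d') := hr.mono hsub
  have := uniq hM G.card G X le_rfl hA (d, d') (M.run w d, M'.run w d') hgood hr' hw.symm
  exact this.symm

end Tess
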