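import Pool.Agent.Work.MP_8c67d3_co.F5ab

/-!
# Block FP: three flat sequences without tessellations (parity around a 3-valent vertex)
-/

set_option autoImplicit false

namespace Tess

namespace CMap

variable {D : Type} (M : CMap D)

/-- The valences around a quadrangular face, starting with the corner of `d`. -/
theorem word4 {d : D} (h : Function.minimalPeriod M.face d = 4) :
    M.word 4 d = [M.val d, M.nb (M.rot d), M.nb (M.rot.symm (M.inv d)), M.nb d] := by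
  have h1 := pow_minimalPeriod M.face d
  rw [h] at h1
  have h4 : M.face (M.face (M.face (M.face d))) = d := by
    simpa [pow_succ, Equiv.Perm.mul_apply] using h1
  have h3 : M.face (M.face (M.face d)) = M.face.symm d := by
    rw [Equiv.eq_symm_apply]; exact h4
  have h2 : M.face (M.face d) = M.face.symm (M.face.symm d) := by
    rw [Equiv.eq_symm_apply]; exact h3
  have e : M.word 4 d = [M.val d, M.val (M.face d), M.val (M.face (M.face d)),
      M.val (M.face (M.face (M.face d)))] := by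
    unfold word
    simp [List.ofFn_succ, pow_succ, Equiv.Perm.mul_apply]
  rw [e, h3, h2, val_face, val_face_symm, val_face_symm, face_symm_apply]

end CMap

theorem four_cases {x₀ x₁ x₂ x₃ : ℕ} {W : List ℕ}
    (h : W ~r [x₀, x₁, x₂, x₃]) :
    W = [x₀, x₁, x₂, x₃] ∨ W = [x₁, x₂, x₃, x₀] ∨ W = [x₂, x₃, x₀, x₁] ∨
      W = [x₃, x₀, x₁, x₂] := by
  obtain ⟨n, hn, h1⟩ := List.isRotated_iff_mod.1 h.symm
  simp only [List.length_cons, List.length_nil] at hn
  interval_cases n <;> simp [List.rotate] at h1 <;> simp [← h1]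

theorem no_parity {D : Type} {M : CMap D} (p : ℕ)
    (h : ∀ d, M.val d = 3 → ¬ (M.nb d = p ↔ M.nb (M.rot d) = p)) {d : D} (hd : M.val d = 3) :
    False := by
  have h0 := h d hd
  have h1 := h (M.rot d) (by rw [M.val_rot]; exact hd)
  have h2 := h (M.rot (M.rot d)) (by rw [M.val_rot, M.val_rot]; exact hd)
  rw [M.rot3 hd] at h2
  tauto

theorem rigid_of_empty {σ : List ℕ} (h : ∀ (D : Type) (M : CMap D), M.IsTess → M.HasSeq σ → False) :
    Rigid σ :=
  ⟨Unit, ⟨id, id, fun _ => 0⟩, (), fun D M hT hs => (h D M hT hs).elim⟩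

theorem corner4 {x₀ x₁ x₂ x₃ : ℕ} {D : Type} {M : CMap D} (h : M.HasSeq [x₀, x₁, x₂, x₃]) (d : D) :
    (M.val d = x₀ ∧ M.nb (M.rot d) = x₁ ∧ M.nb (M.rot.symm (M.inv d)) = x₂ ∧ M.nb d = x₃) ∨
    (M.val d = x₁ ∧ M.nb (M.rot d) = x₂ ∧ M.nb (M.rot.symm (M.inv d)) = x₃ ∧ M.nb d = x₀) ∨
    (M.val d = x₂ ∧ M.nb (M.rot d) = x₃ ∧ M.nb (M.rot.symm (M.inv d)) = x₀ ∧ M.nb d = x₁) ∨
    (M.val d = x₃ ∧ M.nb (M.rot d) = x₀ ∧ M.nb (M.rot.symm (M.inv d)) = x₁ ∧ M.nb d = x₂) ∨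
    (M.val d = x₃ ∧ M.nb (M.rot d) = x₂ ∧ M.nb (M.rot.symm (M.inv d)) = x₁ ∧ M.nb d = x₀) ∨
    (M.val d = x₂ ∧ M.nb (M.rot d) = x₁ ∧ M.nb (M.rot.symm (M.inv d)) = x₀ ∧ M.nb d = x₃) ∨
    (M.val d = x₁ ∧ M.nb (M.rot d) = x₀ ∧ M.nb (M.rot.symm (M.inv d)) = x₃ ∧ M.nb d = x₂) ∨
    (M.val d = x₀ ∧ M.nb (M.rot d) = x₃ ∧ M.nb (M.rot.symm (M.inv d)) = x₂ ∧ M.nb d = x₁) := by
  obtain ⟨h1, h2⟩ := h d
  have h1' : Function.minimalPeriod M.face d = 4 := h1
  have hl : ([x₀, x₁, x₂, x₃] : List ℕ).length = 4 := rfl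
  rw [hl, M.word4 h1'] at h2
  have hrev : ([x₀, x₁, x₂, x₃] : List ℕ).reverse = [x₃, x₂, x₁, x₀] := rfl
  rw [hrev] at h2
  rcases h2 with h2 | h2
  · rcases four_cases h2 with h3 | h3 | h3 | h3 <;> simp only [List.cons.injEq, and_true] at h3
    · exact Or.inl h3
    · exact Or.inr (Or.inl h3)
    · exact Or.inr (Or.inr (Or.inl h3))
    · exact Or.inr (Or.inr (Or.inr (Or.inl h3)))
  · rcases four_cases h2 with h3 | h3 | h3 | h3 <;> simp only [List.cons.injEq, and_true] at h3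
    · exact Or.inr (Or.inr (Or.inr (Or.inr (Or.inl h3))))
    · exact Or.inr (Or.inr (Or.inr (Or.inr (Or.inr (Or.inl h3)))))
    · exact Or.inr (Or.inr (Or.inr (Or.inr (Or.inr (Or.inr (Or.inl h3))))))
    · exact Or.inr (Or.inr (Or.inr (Or.inr (Or.inr (Or.inr (Or.inr h3))))))

theorem exists_three {x₁ x₂ x₃ : ℕ} {D : Type} {M : CMap D} (hT : M.IsTess)
    (h : M.HasSeq [3, x₁, x₂, x₃]) : ∃ d, M.val d = 3 := by
  have := hT.infinite
  obtain ⟨d⟩ : Nonempty D := inferInstance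
  have r := corner4 h d
  rcases r with r | r | r | r | r | r | r | r
  · exact ⟨d, r.1⟩
  · exact ⟨M.inv d, r.2.2.2⟩
  · exact ⟨_, r.2.2.1⟩
  · exact ⟨_, r.2.1⟩
  · exact ⟨_, r.2.2.2⟩
  · exact ⟨_, r.2.2.1⟩
  · exact ⟨_, r.2.1⟩
  · exact ⟨d, r.1⟩

theorem parity : ParityStatement := by
  refine ⟨rigid_of_empty ?_, rigid_of_empty ?_, rigid_of_empty ?_⟩
  · intro D M hT hs
    obtain ⟨d, hd⟩ := exists_three hT hs
    apply no_parity 3 _ hd
    intro d hd
    have := corner4 hs d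
    omega
  · intro D M hT hs
    obtain ⟨d, hd⟩ := exists_three hT hs
    apply no_parity 3 _ hd
    intro d hd
    have := corner4 hs d
    omega
  · intro D M hT hs
    obtain ⟨d, hd⟩ := exists_three hT hs
    apply no_parity 4 _ hd
    intro d hd
    have := corner4 hs d
    omega

end Tess
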