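import Pool.Agent.Work.MP_8c67d3_co.InterfaceFL

/-!
# Block FR: rotation and reversal of a valence sequence do not change the class
-/

set_option autoImplicit false

namespace Tess

open CMap

theorem hasSeq_congr {σ τ : List ℕ} (h : σ ~r τ ∨ σ ~r τ.reverse) {D : Type} {M : CMap D}
    (hs : M.HasSeq σ) : M.HasSeq τ := by
  have hlen : σ.length = τ.length := by
    rcases h with h | h
    · exact h.perm.length_eq
    · rw [h.perm.length_eq, List.length_reverse]
  intro d
  obtain ⟨h1, h2⟩ := hs d
  rw [← hlen]
  refine ⟨h1, ?_⟩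
  rcases h with h | h
  · rcases h2 with h2 | h2
    · exact Or.inl (h2.trans h)
    · exact Or.inr (h2.trans h.reverse)
  · rcases h2 with h2 | h2
    · exact Or.inr (h2.trans h)
    · refine Or.inl (h2.trans ?_)
      have := h.reverse
      rwa [List.reverse_reverse] at this

theorem rigidCongr : RigidCongrStatement := by
  intro σ τ h hR
  obtain ⟨S, m, s₀, hR⟩ := hR
  exact ⟨S, m, s₀, fun D M hT hs => hR D M hT (hasSeq_congr h hs)⟩

end Tess
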