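import Pool.Agent.Work.MP_8c67d3_co.Interface

/-!
# Block H1: a linear isoperimetric inequality gives the logarithmic lemma
-/

set_option autoImplicit false

namespace Tess

/-! ### geodesics in graph metrics -/

section Geod

variable {W : Type} {d : W → W → ℕ}

theorem IsGraphMetric.exists_geod (hd : IsGraphMetric d) (n : ℕ) : ∀ x y : W, d x y = n →
    ∃ g : ℕ → W, g 0 = x ∧ g n = y ∧ (∀ i ≤ n, d x (g i) = i ∧ d (g i) y + i = n) ∧
      ∀ i < n, d (g i) (g (i + 1)) = 1 := by
  induction n with
  | zero =>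
    intro x y h
    have hxy := hd.eq_of x y h
    subst hxy
    refine ⟨fun _ => x, rfl, rfl, ?_, ?_⟩
    · intro i hi
      have : i = 0 := by omega
      subst this
      simp [hd.self]
    · intro i hi; omega
  | succ n ih =>
    intro x y h
    obtain ⟨z, hz1, hz2⟩ := hd.geod x y 1 (by omega)
    obtain ⟨g, g0, gn, hg, hg1⟩ := ih z y (by omega)
    refine ⟨fun i => if i = 0 then x else g (i - 1), by simp, by simp [gn], ?_, ?_⟩
    · intro i hi
      rcases Nat.eq_zero_or_pos i with rfl | hpos
      · simp [hd.self, h]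
      · obtain ⟨j, rfl⟩ : ∃ j, i = j + 1 := ⟨i - 1, by omega⟩
        simp only [Nat.add_eq_zero_iff, one_ne_zero, and_false, if_false, Nat.add_sub_cancel]
        obtain ⟨h1, h2⟩ := hg j (by omega)
        have h3 := hd.tri x z (g j)
        have h4 := hd.tri x (g j) y
        constructor <;> omega
    · intro i hi
      rcases Nat.eq_zero_or_pos i with rfl | hpos
      · simp [g0, hz1]
      · obtain ⟨j, rfl⟩ : ∃ j, i = j + 1 := ⟨i - 1, by omega⟩
        simp only [Nat.add_eq_zero_iff, one_ne_zero, and_false, if_false, Nat.add_sub_cancel]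
        exact hg1 j (by omega)

theorem IsGraphMetric.exists_geod_through (hd : IsGraphMetric d) (x y w : W)
    (hw : d x w + d w y = d x y) :
    ∃ g : ℕ → W, g 0 = x ∧ g (d x y) = y ∧ g (d x w) = w ∧ (∀ i ≤ d x y, d x (g i) = i) ∧
      ∀ i < d x y, d (g i) (g (i + 1)) = 1 := by
  obtain ⟨g, g0, gn, hg, hg1⟩ := hd.exists_geod (d x w) x w rfl
  obtain ⟨f, f0, fn, hf, hf1⟩ := hd.exists_geod (d w y) w y rfl
  refine ⟨fun i => if i ≤ d x w then g i else f (i - d x w), by simp [g0], ?_, by simp [gn], ?_, ?_⟩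
  · by_cases h : d w y = 0
    · have hwy := hd.eq_of _ _ h
      subst hwy
      simp [gn]
    · have h1 : ¬ d x y ≤ d x w := by omega
      simp only [h1, if_false]
      rw [show d x y - d x w = d w y by omega, fn]
  · intro i hi
    by_cases h : i ≤ d x w
    · simp only [h, if_true]; exact (hg i h).1
    · simp only [h, if_false]
      obtain ⟨h1, h2⟩ := hf (i - d x w) (by omega)
      have h3 := hd.tri x w (f (i - d x w))
      have h4 := hd.tri x (f (i - d x w)) y
      omega
  · intro i hi
    by_cases h : i + 1 ≤ d x w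
    · have h' : i ≤ d x w := by omega
      simp only [h, h', if_true]; exact hg1 i (by omega)
    · by_cases h2 : i ≤ d x w
      · have h3 : i = d x w := by omega
        subst h3
        simp only [le_refl, if_true, h, if_false]
        rw [gn, show d x w + 1 - d x w = 0 + 1 by omega]
        have := hf1 0 (by omega)
        rwa [f0] at this
      · simp only [h, h2, if_false]
        rw [show i + 1 - d x w = (i - d x w) + 1 by omega]
        exact hf1 _ (by omega)

end Geod

namespace CMap

variable {D : Type} (M : CMap D)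

/-- The vertex of a corner, in `Q`. -/
def va (e : D) : M.V ⊕ M.F := Sum.inl (M.vert e)

/-- The face of a corner, in `Q`. -/
def fb (e : D) : M.V ⊕ M.F := Sum.inr (M.fac e)

@[simp] theorem va_rot (e : D) : M.va (M.rot e) = M.va e := by simp [va]

@[simp] theorem va_rot_symm (e : D) : M.va (M.rot.symm e) = M.va e := by simp [va]

@[simp] theorem fb_inv_rot (e : D) : M.fb (M.inv (M.rot e)) = M.fb e := by
  simp [fb, fac_inv_rot]

theorem fb_rot_symm (e : D) : M.fb (M.rot.symm e) = M.fb (M.inv e) := by
  simp [fb, fac_inv]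

theorem qd_va_fb (e : D) : M.qd (M.va e) (M.fb e) = 1 := by
  unfold qd
  rw [SimpleGraph.dist_eq_one_iff_adj]
  exact ⟨e, Or.inl ⟨rfl, rfl⟩⟩

theorem exists_corner {u v : M.V ⊕ M.F} (h : M.qd u v = 1) :
    ∃ e, (u = M.va e ∧ v = M.fb e) ∨ (u = M.fb e ∧ v = M.va e) := by
  unfold qd at h
  rw [SimpleGraph.dist_eq_one_iff_adj] at h
  exact h

open Classical in
/-- The boundary corners of a finite set of edges as a finset. -/
noncomputable def bdF (E : Finset D) : Finset D :=
  (E ∪ E.image M.rot.symm).filter fun e => ¬ (e ∈ E ↔ M.rot e ∈ E)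

theorem mem_bdF (E : Finset D) (e : D) : e ∈ M.bdF E ↔ ¬ (e ∈ E ↔ M.rot e ∈ E) := by
  classical
  unfold bdF
  rw [Finset.mem_filter, Finset.mem_union, Finset.mem_image]
  constructor
  · exact fun h => h.2
  · intro h
    refine ⟨?_, h⟩
    by_cases h1 : e ∈ E
    · exact Or.inl h1
    · right
      have h2 : M.rot e ∈ E := by tauto
      exact ⟨_, h2, by simp⟩

theorem coe_bdF (E : Finset D) : (↑(M.bdF E) : Set D) = M.bd ↑E := by
  ext e
  rw [Finset.mem_coe, mem_bdF]
  rfl

theorem ncard_bd (E : Finset D) : (M.bd (↑E : Set D)).ncard = (M.bdF E).card := by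
  rw [← coe_bdF, Set.ncard_coe_finset]

/-- The boundary of a finite inv-closed set of edges is a cycle of `Q`, tested by a cochain. -/
theorem sum_bdF_eq_zero (E : Finset D) (hE : ∀ e ∈ E, M.inv e ∈ E) (φ : M.V ⊕ M.F → ZMod 2) :
    ∑ e ∈ M.bdF E, (φ (M.va e) + φ (M.fb e)) = 0 := by
  classical
  have h2 : ∀ r : ZMod 2, r + r = 0 := fun r => CharTwo.add_self_eq_zero r
  have hsplit : ∀ ψ : D → ZMod 2, ∑ e ∈ M.bdF E, ψ e =
      ∑ e ∈ E, ψ e + ∑ e ∈ E, ψ (M.rot.symm e) := by
    intro ψ
    have himg : ∑ e ∈ E, ψ (M.rot.symm e) = ∑ e ∈ E.image M.rot.symm, ψ e := by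
      rw [Finset.sum_image]
      intro a _ b _ hab
      exact M.rot.symm.injective hab
    rw [himg]
    set E' := E.image M.rot.symm with hE'
    have hmem : ∀ e, e ∈ E' ↔ M.rot e ∈ E := by
      intro e
      rw [hE', Finset.mem_image]
      constructor
      · rintro ⟨a, ha, rfl⟩; simpa using ha
      · intro h; exact ⟨_, h, by simp⟩
    have hbd : M.bdF E = (E \ E') ∪ (E' \ E) := by
      ext e
      rw [mem_bdF, Finset.mem_union, Finset.mem_sdiff, Finset.mem_sdiff, hmem]
      tauto
    rw [hbd, Finset.sum_union]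
    · have h3 := Finset.sum_inter_add_sum_sdiff E E' ψ
      have h4 := Finset.sum_inter_add_sum_sdiff E' E ψ
      rw [← h3, ← h4, Finset.inter_comm E' E]
      have := h2 (∑ x ∈ E ∩ E', ψ x)
      linear_combination (-1 : ZMod 2) * this
    · rw [Finset.disjoint_left]
      intro a ha hb
      rw [Finset.mem_sdiff] at ha hb
      exact hb.2 ha.1
  rw [hsplit]
  simp only [va_rot_symm, fb_rot_symm, Finset.sum_add_distrib]
  have hinv : ∑ e ∈ E, φ (M.fb (M.inv e)) = ∑ e ∈ E, φ (M.fb e) := by
    refine Finset.sum_nbij' (fun e => M.inv e) (fun e => M.inv e) ?_ ?_ ?_ ?_ ?_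
    · intro a ha; exact hE a ha
    · intro a ha; exact hE a ha
    · intro a _; simp
    · intro a _; simp
    · intro a _; rfl
  rw [hinv]
  exact h2 _

/-! ### chains of corners -/

/-- The pairing of the boundary of a chain with a cochain. -/
noncomputable def pair (f : D →₀ ZMod 2) (φ : M.V ⊕ M.F → ZMod 2) : ZMod 2 :=
  f.sum fun e r => r * (φ (M.va e) + φ (M.fb e))

theorem pair_add (f g : D →₀ ZMod 2) (φ : M.V ⊕ M.F → ZMod 2) :
    M.pair (f + g) φ = M.pair f φ + M.pair g φ := by
  classical
  unfold pair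
  rw [Finsupp.sum_add_index']
  · intro a; simp
  · intro a b c; ring

theorem pair_single (e : D) (r : ZMod 2) (φ : M.V ⊕ M.F → ZMod 2) :
    M.pair (Finsupp.single e r) φ = r * (φ (M.va e) + φ (M.fb e)) := by
  unfold pair
  rw [Finsupp.sum_single_index]
  simp

theorem pair_zero (φ : M.V ⊕ M.F → ZMod 2) : M.pair 0 φ = 0 := by
  unfold pair
  simp

theorem add_self_two (r : ZMod 2) : r + r = 0 := CharTwo.add_self_eq_zero r

/-- The corners of a path form a chain whose boundary consists of the two ends. -/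
theorem path_chain (hd : IsGraphMetric M.qd) (u : ℕ → M.V ⊕ M.F) (n : ℕ)
    (h : ∀ i < n, M.qd (u i) (u (i + 1)) ≤ 1) :
    ∃ f : D →₀ ZMod 2, (∀ e ∈ f.support, ∃ i ≤ n, M.va e = u i) ∧ f.support.card ≤ n ∧
      ∀ φ, M.pair f φ = φ (u 0) + φ (u n) := by
  classical
  induction n with
  | zero =>
    refine ⟨0, by simp, by simp, ?_⟩
    intro φ
    rw [pair_zero, add_self_two]
  | succ n ih =>
    obtain ⟨f, hf, hc, hp⟩ := ih fun i hi => h i (by omega)
    rcases Nat.lt_or_ge (M.qd (u n) (u (n + 1))) 1 with h1 | h1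
    · have h2 := hd.eq_of _ _ (by omega : M.qd (u n) (u (n + 1)) = 0)
      refine ⟨f, ?_, by omega, ?_⟩
      · intro e he
        obtain ⟨i, hi, hi'⟩ := hf e he
        exact ⟨i, by omega, hi'⟩
      · intro φ
        rw [hp, h2]
    · obtain ⟨c, hc'⟩ := M.exists_corner (le_antisymm (h n (by omega)) h1)
      refine ⟨f + Finsupp.single c 1, ?_, ?_, ?_⟩
      · intro e he
        have := Finsupp.support_add he
        rw [Finset.mem_union] at this
        rcases this with h3 | h3
        · obtain ⟨i, hi, hi'⟩ := hf e h3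
          exact ⟨i, by omega, hi'⟩
        · have h4 : e = c := by
            have := Finsupp.support_single_subset h3
            simpa using this
          subst h4
          rcases hc' with ⟨h5, h6⟩ | ⟨h5, h6⟩
          · exact ⟨n, by omega, h5.symm⟩
          · exact ⟨n + 1, le_rfl, h6.symm⟩
      · have h3 := Finset.card_le_card (Finsupp.support_add (g₁ := f) (g₂ := Finsupp.single c 1))
        have h4 := Finset.card_union_le f.support (Finsupp.single c (1 : ZMod 2)).support
        have h5 := Finset.card_le_card (Finsupp.support_single_subset (a := c) (b := (1 : ZMod 2)))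
        rw [Finset.card_singleton] at h5
        omega
      · intro φ
        rw [pair_add, pair_single, hp, one_mul]
        have h6 := add_self_two (φ (u n))
        rcases hc' with ⟨h4, h5⟩ | ⟨h4, h5⟩
        · rw [← h4, ← h5]
          linear_combination h6
        · rw [← h4, ← h5]
          linear_combination h6

/-- A chain without boundary is a boundary of edges when `Fill` holds. -/
theorem Fill.exists_bdF (hF : M.Fill) (z : D →₀ ZMod 2) (hz : ∀ φ, M.pair z φ = 0) :
    ∃ E : Finset D, (∀ d ∈ E, M.inv d ∈ E) ∧ z.support = M.bdF E := by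
  classical
  have hone : ∀ e ∈ z.support, z e = 1 := by
    intro e he
    rw [Finsupp.mem_support_iff] at he
    revert he
    generalize z e = r
    revert r
    decide
  have key : ∀ q : M.V ⊕ M.F,
      Even ((z.support.filter fun e => M.va e = q).card +
        (z.support.filter fun e => M.fb e = q).card) := by
    intro q
    rw [← ZMod.natCast_eq_zero_iff_even]
    have h1 := hz (fun q' => if q' = q then 1 else 0)
    unfold pair Finsupp.sum at h1
    push_cast
    rw [Finset.card_filter, Finset.card_filter]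
    push_cast
    rw [← Finset.sum_add_distrib]
    refine Eq.trans ?_ h1
    apply Finset.sum_congr rfl
    intro e he
    simp only [hone e he, one_mul]
  obtain ⟨E, hE1, hE2⟩ := hF z.support (by
    intro v
    have h1 := key (Sum.inl v)
    have h2 : (z.support.filter fun e => M.fb e = Sum.inl v) = ∅ := by
      apply Finset.filter_false_of_mem
      intro e _
      simp [fb]
    rw [h2, Finset.card_empty, Nat.add_zero] at h1
    have h3 : {d | d ∈ z.support ∧ M.vert d = v} =
        ↑(z.support.filter fun e => M.va e = Sum.inl v) := by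
      ext e
      simp [va]
    rw [h3, Set.ncard_coe_finset]
    exact h1) (by
    intro f
    have h1 := key (Sum.inr f)
    have h2 : (z.support.filter fun e => M.va e = Sum.inr f) = ∅ := by
      apply Finset.filter_false_of_mem
      intro e _
      simp [va]
    rw [h2, Finset.card_empty, Nat.zero_add] at h1
    have h3 : {d | d ∈ z.support ∧ M.fac d = f} =
        ↑(z.support.filter fun e => M.fb e = Sum.inr f) := by
      ext e
      simp [fb]
    rw [h3, Set.ncard_coe_finset]
    exact h1)
  refine ⟨E, hE1, ?_⟩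
  ext e
  rw [hE2, ← coe_bdF, Finset.mem_coe]

/-- The level of a corner with respect to a base point. -/
noncomputable def lev (x : M.V ⊕ M.F) (e : D) : ℕ := min (M.qd x (M.va e)) (M.qd x (M.fb e))

/-- The main estimate: the sets `E_k` of edges at distance at least `k` from the path decay. -/
theorem decay {Δ C : ℕ} (hM : M.Pre Δ) (hd : IsGraphMetric M.qd)
    (hpar : ∀ x e, M.qd x (M.va e) = M.qd x (M.fb e) + 1 ∨ M.qd x (M.fb e) = M.qd x (M.va e) + 1)
    (hF : M.Fill) (hI : M.IsoE C) (x y w : M.V ⊕ M.F) (l : ℕ) (p : ℕ → M.V ⊕ M.F)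
    (hp0 : p 0 = x) (hpl : p l = y) (hp : ∀ i < l, M.qd (p i) (p (i + 1)) ≤ 1)
    (hw : M.qd x w + M.qd w y = M.qd x y) (s : ℕ) (hs : ∀ i ≤ l, s + 3 ≤ M.qd w (p i)) :
    (4 * C + 1) ^ (s + 1) ≤ (4 * C) ^ (s + 1) * (2 * C * l) := by
  classical
  have := hM.infinite
  obtain ⟨d₀⟩ : Nonempty D := inferInstance
  set m := M.qd x y with hm
  obtain ⟨g, g0, gm, gw, hg, hg1⟩ := hd.exists_geod_through x y w hw
  rw [← hm] at gm hg hg1
  -- the path is at least as long as the geodesic
  have hml : m ≤ l := by
    have h1 : ∀ i ≤ l, M.qd x (p i) ≤ i := by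
      intro i
      induction i with
      | zero => intro _; rw [hp0, hd.self]
      | succ i ih =>
        intro hi
        have h2 := hd.tri x (p i) (p (i + 1))
        have h3 := ih (by omega)
        have h4 := hp i (by omega)
        omega
    have h2 := h1 l le_rfl
    rwa [hpl] at h2
  -- the corners of the geodesic
  have hex : ∀ i, ∃ e, i < m → (g i = M.va e ∧ g (i + 1) = M.fb e) ∨
      (g i = M.fb e ∧ g (i + 1) = M.va e) := by
    intro i
    by_cases hi : i < m
    · obtain ⟨e, he⟩ := M.exists_corner (hg1 i hi)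
      exact ⟨e, fun _ => he⟩
    · exact ⟨d₀, fun h => absurd h hi⟩
  choose e he using hex
  have hlev : ∀ i < m, M.lev x (e i) = i := by
    intro i hi
    unfold lev
    have h1 := hg i (by omega)
    have h2 := hg (i + 1) (by omega)
    rcases he i hi with ⟨h3, h4⟩ | ⟨h3, h4⟩
    · rw [← h3, ← h4, h1, h2]; omega
    · rw [← h3, ← h4, h1, h2]; omega
  have hinj : ∀ i < m, ∀ j < m, e i = e j → i = j := by
    intro i hi j hj hij
    rw [← hlev i hi, ← hlev j hj, hij]
  obtain ⟨f, hf, hfc, hfp⟩ := M.path_chain hd p l hp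
  set γ : D →₀ ZMod 2 := ∑ i ∈ Finset.range m, Finsupp.single (e i) 1 with hγ
  have hγp : ∀ φ, M.pair γ φ = φ x + φ y := by
    intro φ
    have h1 : ∀ k ≤ m, M.pair (∑ i ∈ Finset.range k, Finsupp.single (e i) 1) φ =
        φ (g 0) + φ (g k) := by
      intro k
      induction k with
      | zero => intro _; rw [Finset.sum_range_zero, pair_zero, add_self_two]
      | succ k ih =>
        intro hk
        rw [Finset.sum_range_succ, pair_add, pair_single, ih (by omega), one_mul]
        have h6 := add_self_two (φ (g k))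
        rcases he k (by omega) with ⟨h4, h5⟩ | ⟨h4, h5⟩
        · rw [← h4, ← h5]
          linear_combination h6
        · rw [← h4, ← h5]
          linear_combination h6
    have h2 := h1 m le_rfl
    rwa [g0, gm] at h2
  have hγs : ∀ c, γ c ≠ 0 → ∃ i < m, e i = c := by
    intro c hc
    rw [hγ, Finsupp.finsetSum_apply] at hc
    obtain ⟨i, hi, hi'⟩ := Finset.exists_ne_zero_of_sum_ne_zero hc
    rw [Finset.mem_range] at hi
    refine ⟨i, hi, ?_⟩
    by_contra h
    rw [Finsupp.single_apply, if_neg h] at hi'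
    exact hi' rfl
  have hγ1 : ∀ i < m, γ (e i) = 1 := by
    intro i hi
    rw [hγ, Finsupp.finsetSum_apply]
    rw [Finset.sum_eq_single i]
    · simp
    · intro j hj hji
      rw [Finsupp.single_apply, if_neg]
      intro h
      exact hji (hinj j (Finset.mem_range.1 hj) i hi h)
    · intro h
      exact absurd (Finset.mem_range.2 hi) h
  have hγc : γ.support.card ≤ m := by
    have h1 : γ.support ⊆ (Finset.range m).image e := by
      intro c hc
      rw [Finsupp.mem_support_iff] at hc
      obtain ⟨i, hi, hi'⟩ := hγs c hc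
      rw [Finset.mem_image]
      exact ⟨i, Finset.mem_range.2 hi, hi'⟩
    calc γ.support.card ≤ ((Finset.range m).image e).card := Finset.card_le_card h1
      _ ≤ (Finset.range m).card := Finset.card_image_le
      _ = m := Finset.card_range m
  -- the cycle
  have hz : ∀ φ, M.pair (γ + f) φ = 0 := by
    intro φ
    rw [pair_add, hγp, hfp, hp0, hpl, add_self_two]
  obtain ⟨E, hEinv, hE⟩ := Fill.exists_bdF M hF (γ + f) hz
  have hzc : (M.bdF E).card ≤ 2 * l := by
    rw [← hE]
    have h1 := Finset.card_le_card (Finsupp.support_add (g₁ := γ) (g₂ := f))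
    have h2 := Finset.card_union_le γ.support f.support
    omega
  -- the distance to the path
  obtain ⟨ρ, hρle, hρex⟩ : ∃ ρ : M.V ⊕ M.F → ℕ, (∀ q, ∀ i ≤ l, ρ q ≤ M.qd q (p i)) ∧
      ∀ q, ∃ i ≤ l, ρ q = M.qd q (p i) := by
    refine ⟨fun q => (Finset.range (l + 1)).inf' ⟨0, by simp⟩ fun i => M.qd q (p i), ?_, ?_⟩
    · intro q i hi
      exact Finset.inf'_le _ (by rw [Finset.mem_range]; omega)
    · intro q
      obtain ⟨i, hi, h⟩ := Finset.exists_mem_eq_inf' (s := Finset.range (l + 1)) ⟨0, by simp⟩
        fun i => M.qd q (p i)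
      rw [Finset.mem_range] at hi
      exact ⟨i, by omega, h⟩
  have hρlip : ∀ q q', ρ q ≤ ρ q' + M.qd q q' := by
    intro q q'
    obtain ⟨i, hi, h⟩ := hρex q'
    have h1 := hρle q i hi
    have h2 := hd.tri q q' (p i)
    omega
  have hab : ∀ c, M.qd (M.va c) (M.fb c) = 1 := M.qd_va_fb
  have hba : ∀ c, M.qd (M.fb c) (M.va c) = 1 := by
    intro c; rw [hd.symm]; exact M.qd_va_fb c
  have hfe : ∀ c, f c ≠ 0 → ρ (M.va c) = 0 := by
    intro c hc
    obtain ⟨i, hi, h⟩ := hf c (by rwa [Finsupp.mem_support_iff])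
    have := hρle (M.va c) i hi
    rw [h, hd.self] at this
    rw [h]; omega
  -- the sets of deep edges
  set Ek : ℕ → Finset D := fun k => E.filter fun c => k ≤ ρ (M.va c) ∧ k ≤ ρ (M.fb c) ∧
    k ≤ ρ (M.va (M.inv c)) ∧ k ≤ ρ (M.fb (M.inv c)) with hEk
  have hmemEk : ∀ k c, c ∈ Ek k ↔ c ∈ E ∧ k ≤ ρ (M.va c) ∧ k ≤ ρ (M.fb c) ∧
      k ≤ ρ (M.va (M.inv c)) ∧ k ≤ ρ (M.fb (M.inv c)) := by
    intro k c
    rw [hEk]; exact Finset.mem_filter
  have hEkinv : ∀ k, ∀ c ∈ Ek k, M.inv c ∈ Ek k := by
    intro k c hc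
    rw [hmemEk] at hc ⊢
    rw [M.inv_inv' c]
    exact ⟨hEinv c hc.1, hc.2.2.2.1, hc.2.2.2.2, hc.2.1, hc.2.2.1⟩
  have hstep : ∀ k, (Ek (k + 1)).card ≤ 4 * C * (Ek k \ Ek (k + 1)).card := by
    intro k
    set B := M.bdF (Ek (k + 1)) with hB
    have h1 : (Ek (k + 1)).card ≤ C * B.card := by
      have := hI (Ek (k + 1)) (hEkinv (k + 1))
      rwa [ncard_bd] at this
    set A := B.filter fun c => ∃ i < m, e i = c with hA
    set I := B.filter fun c => ¬ ∃ i < m, e i = c with hIdef
    have hAI : A.card + I.card = B.card := Finset.card_filter_add_card_filter_not _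
    -- (ii)
    have h2 : A.card ≤ I.card := by
      have hlevinj : Set.InjOn (M.lev x) ↑A := by
        intro a ha b hb hab'
        rw [Finset.mem_coe, hA, Finset.mem_filter] at ha hb
        obtain ⟨-, i, hi, rfl⟩ := ha
        obtain ⟨-, j, hj, rfl⟩ := hb
        rw [hlev i hi, hlev j hj] at hab'
        rw [hab']
      rw [← Finset.card_image_of_injOn hlevinj]
      refine le_trans (Finset.card_le_card ?_) (Finset.card_image_le (f := M.lev x) (s := I))
      intro j hj
      rw [Finset.mem_image] at hj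
      obtain ⟨a, ha, rfl⟩ := hj
      rw [hA, Finset.mem_filter] at ha
      obtain ⟨haB, i, hi, rfl⟩ := ha
      rw [hlev i hi]
      by_contra hcon
      have h3 := M.sum_bdF_eq_zero (Ek (k + 1)) (hEkinv (k + 1))
        (fun q => if M.qd x q ≤ i then 1 else 0)
      rw [← hB] at h3
      rw [Finset.sum_eq_single (e i)] at h3
      · have h4 := hlev i hi
        unfold lev at h4
        rcases hpar x (e i) with h5 | h5
        · have h6 : ¬ M.qd x (M.va (e i)) ≤ i := by omega
          have h7 : M.qd x (M.fb (e i)) ≤ i := by omega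
          simp [h6, h7] at h3
        · have h6 : M.qd x (M.va (e i)) ≤ i := by omega
          have h7 : ¬ M.qd x (M.fb (e i)) ≤ i := by omega
          simp [h6, h7] at h3
      · intro c hc hce
        by_cases hcl : M.lev x c = i
        · exfalso
          by_cases hcI : ∃ j < m, e j = c
          · obtain ⟨j, hj, rfl⟩ := hcI
            rw [hlev j hj] at hcl
            exact hce (by rw [hcl])
          · apply hcon
            rw [Finset.mem_image]
            exact ⟨c, by rw [hIdef, Finset.mem_filter]; exact ⟨hc, hcI⟩, hcl⟩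
        · unfold lev at hcl
          rcases hpar x c with h5 | h5
          · by_cases h6 : M.qd x (M.fb c) ≤ i
            · have h7 : M.qd x (M.va c) ≤ i := by omega
              simp only [h6, h7, if_true]
              exact add_self_two 1
            · have h7 : ¬ M.qd x (M.va c) ≤ i := by omega
              simp [h6, h7]
          · by_cases h6 : M.qd x (M.va c) ≤ i
            · have h7 : M.qd x (M.fb c) ≤ i := by omega
              simp only [h6, h7, if_true]
              exact add_self_two 1
            · have h7 : ¬ M.qd x (M.fb c) ≤ i := by omega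
              simp [h6, h7]
      · intro h4
        exact absurd haB h4
    -- (i)
    have h3 : I.card ≤ 2 * (Ek k \ Ek (k + 1)).card := by
      set S := Ek k \ Ek (k + 1) with hS
      have h4 : I ⊆ S ∪ S.image M.rot.symm := by
        intro c hc
        rw [hIdef, Finset.mem_filter, hB, mem_bdF] at hc
        obtain ⟨hc1, hc2⟩ := hc
        -- both ends of `c` are deep
        have h5 : k + 1 ≤ ρ (M.va c) ∧ k + 1 ≤ ρ (M.fb c) := by
          by_cases h6 : c ∈ Ek (k + 1)
          · rw [hmemEk] at h6
            exact ⟨h6.2.1, h6.2.2.1⟩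
          · have h7 : M.rot c ∈ Ek (k + 1) := by tauto
            rw [hmemEk] at h7
            rw [va_rot, fb_inv_rot] at h7
            exact ⟨h7.2.1, h7.2.2.2.2⟩
        have h6 : (γ + f) c = 0 := by
          have h7 : f c = 0 := by
            by_contra h8
            have := hfe c h8
            omega
          have h8 : γ c = 0 := by
            by_contra h9
            exact hc2 (hγs c h9)
          rw [Finsupp.add_apply, h7, h8, add_zero]
        have h7 : c ∉ M.bdF E := by
          rw [← hE, Finsupp.mem_support_iff]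
          exact fun h => h h6
        rw [mem_bdF, not_not] at h7
        have hsub : ∀ k c, c ∈ Ek k → c ∈ E := fun k c h => ((hmemEk k c).1 h).1
        have h8 : c ∈ E ∧ M.rot c ∈ E := by
          by_cases h9 : c ∈ Ek (k + 1)
          · have := hsub _ _ h9; tauto
          · have h10 : M.rot c ∈ Ek (k + 1) := by tauto
            have := hsub _ _ h10; tauto
        -- both edges are in `E_k`
        have h9 : c ∈ Ek k := by
          rw [hmemEk]
          refine ⟨h8.1, by omega, by omega, ?_, ?_⟩
          · have h10 := hρlip (M.fb c) (M.va (M.inv c))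
            have h11 := hba (M.rot.symm (M.inv c))
            rw [va_rot_symm, fb_rot_symm, inv_inv'] at h11
            omega
          · have h10 := hρlip (M.va c) (M.fb (M.inv c))
            have h11 := hab (M.rot.symm c)
            rw [va_rot_symm, fb_rot_symm] at h11
            omega
        have h10 : M.rot c ∈ Ek k := by
          rw [hmemEk]
          rw [va_rot, fb_inv_rot]
          refine ⟨h8.2, by omega, ?_, ?_, by omega⟩
          · have h10 := hρlip (M.va c) (M.fb (M.rot c))
            have h11 := hab (M.rot c)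
            rw [va_rot] at h11
            omega
          · have h10 := hρlip (M.fb c) (M.va (M.inv (M.rot c)))
            have h11 := hba (M.inv (M.rot c))
            rw [fb_inv_rot] at h11
            omega
        rw [Finset.mem_union, Finset.mem_image]
        by_cases h11 : c ∈ Ek (k + 1)
        · right
          refine ⟨M.rot c, ?_, by simp⟩
          rw [hS, Finset.mem_sdiff]
          exact ⟨h10, by tauto⟩
        · left
          rw [hS, Finset.mem_sdiff]
          exact ⟨h9, h11⟩
      have h5 := Finset.card_le_card h4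
      have h6 := Finset.card_union_le S (S.image M.rot.symm)
      have h7 := Finset.card_image_le (s := S) (f := M.rot.symm)
      omega
    have h4 : B.card ≤ 4 * (Ek k \ Ek (k + 1)).card := by omega
    calc (Ek (k + 1)).card ≤ C * B.card := h1
      _ ≤ C * (4 * (Ek k \ Ek (k + 1)).card) := Nat.mul_le_mul_left _ h4
      _ = 4 * C * (Ek k \ Ek (k + 1)).card := by ring
  have hEkmono : ∀ k, Ek (k + 1) ⊆ Ek k := by
    intro k c hc
    rw [hmemEk] at hc ⊢
    obtain ⟨h1, h2, h3, h4, h5⟩ := hc
    exact ⟨h1, by omega, by omega, by omega, by omega⟩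
  have hdec : ∀ k, (4 * C + 1) ^ k * (Ek k).card ≤ (4 * C) ^ k * (Ek 0).card := by
    intro k
    induction k with
    | zero => simp
    | succ k ih =>
      have h1 : (4 * C + 1) * (Ek (k + 1)).card ≤ 4 * C * (Ek k).card := by
        have h2 := hstep k
        have h3 := Finset.card_sdiff_add_card_eq_card (hEkmono k)
        calc (4 * C + 1) * (Ek (k + 1)).card
            = 4 * C * (Ek (k + 1)).card + (Ek (k + 1)).card := by ring
          _ ≤ 4 * C * (Ek (k + 1)).card + 4 * C * (Ek k \ Ek (k + 1)).card := by omega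
          _ = 4 * C * ((Ek k \ Ek (k + 1)).card + (Ek (k + 1)).card) := by ring
          _ = 4 * C * (Ek k).card := by rw [h3]
      calc (4 * C + 1) ^ (k + 1) * (Ek (k + 1)).card
          = (4 * C + 1) ^ k * ((4 * C + 1) * (Ek (k + 1)).card) := by ring
        _ ≤ (4 * C + 1) ^ k * (4 * C * (Ek k).card) := Nat.mul_le_mul_left _ h1
        _ = 4 * C * ((4 * C + 1) ^ k * (Ek k).card) := by ring
        _ ≤ 4 * C * ((4 * C) ^ k * (Ek 0).card) := Nat.mul_le_mul_left _ ih
        _ = (4 * C) ^ (k + 1) * (Ek 0).card := by ring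
  have hE0 : (Ek 0).card ≤ 2 * C * l := by
    have h1 : (Ek 0).card ≤ E.card := Finset.card_le_card (Finset.filter_subset _ _)
    have h2 := hI E hEinv
    rw [ncard_bd] at h2
    calc (Ek 0).card ≤ E.card := h1
      _ ≤ C * (M.bdF E).card := h2
      _ ≤ C * (2 * l) := Nat.mul_le_mul_left _ hzc
      _ = 2 * C * l := by ring
  -- a deep edge
  have hρw : s + 3 ≤ ρ w := by
    obtain ⟨i, hi, h⟩ := hρex w
    rw [h]; exact hs i hi
  have hm0 : 0 < m := by
    by_contra h
    have h1 : M.qd x w = 0 := by omega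
    have h2 := hd.eq_of _ _ h1
    have h3 := hs 0 (by omega)
    rw [hp0, h2, hd.self] at h3
    omega
  obtain ⟨i, hi, hwi⟩ : ∃ i < m, w = M.va (e i) ∨ w = M.fb (e i) := by
    by_cases h : M.qd x w < m
    · refine ⟨M.qd x w, h, ?_⟩
      have h1 := he _ h
      rw [gw] at h1
      rcases h1 with ⟨h2, -⟩ | ⟨h2, -⟩
      · exact Or.inl h2
      · exact Or.inr h2
    · have h2 : M.qd x w = m := by omega
      refine ⟨m - 1, by omega, ?_⟩
      have h1 := he (m - 1) (by omega)
      rw [show m - 1 + 1 = m by omega] at h1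
      rw [h2] at gw
      rw [gw] at h1
      rcases h1 with ⟨-, h3⟩ | ⟨-, h3⟩
      · exact Or.inr h3
      · exact Or.inl h3
  have hne : (Ek (s + 1)).Nonempty := by
    set c := e i with hc
    have hends : s + 2 ≤ ρ (M.va c) ∧ s + 2 ≤ ρ (M.fb c) := by
      have h1 := hab c
      have h2 := hba c
      rcases hwi with h3 | h3
      · have h4 := hρlip (M.va c) (M.fb c)
        rw [h3] at hρw
        omega
      · have h4 := hρlip (M.fb c) (M.va c)
        rw [h3] at hρw
        omega
    have h1 : c ∈ M.bdF E := by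
      rw [← hE, Finsupp.mem_support_iff, Finsupp.add_apply, hγ1 i hi]
      have h2 : f c = 0 := by
        by_contra h3
        have := hfe c h3
        omega
      rw [h2]
      decide
    rw [mem_bdF] at h1
    by_cases h2 : c ∈ E
    · refine ⟨c, ?_⟩
      rw [hmemEk]
      refine ⟨h2, by omega, by omega, ?_, ?_⟩
      · have h10 := hρlip (M.fb c) (M.va (M.inv c))
        have h11 := hba (M.rot.symm (M.inv c))
        rw [va_rot_symm, fb_rot_symm, inv_inv'] at h11
        omega
      · have h10 := hρlip (M.va c) (M.fb (M.inv c))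
        have h11 := hab (M.rot.symm c)
        rw [va_rot_symm, fb_rot_symm] at h11
        omega
    · refine ⟨M.rot c, ?_⟩
      rw [hmemEk]
      rw [va_rot, fb_inv_rot]
      refine ⟨by tauto, by omega, ?_, ?_, by omega⟩
      · have h10 := hρlip (M.va c) (M.fb (M.rot c))
        have h11 := hab (M.rot c)
        rw [va_rot] at h11
        omega
      · have h10 := hρlip (M.fb c) (M.va (M.inv (M.rot c)))
        have h11 := hba (M.inv (M.rot c))
        rw [fb_inv_rot] at h11
        omega
  have h1 : 1 ≤ (Ek (s + 1)).card := Finset.card_pos.2 hne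
  calc (4 * C + 1) ^ (s + 1) ≤ (4 * C + 1) ^ (s + 1) * (Ek (s + 1)).card :=
        Nat.le_mul_of_pos_right _ h1
    _ ≤ (4 * C) ^ (s + 1) * (Ek 0).card := hdec (s + 1)
    _ ≤ (4 * C) ^ (s + 1) * (2 * C * l) := Nat.mul_le_mul_left _ hE0

end CMap

/-! ### numerical consequence -/

theorem two_pow_le_of_decay (C s l : ℕ) (hC : 1 ≤ C) (_hl : 1 ≤ l)
    (h : (4 * C + 1) ^ (s + 1) ≤ (4 * C) ^ (s + 1) * (2 * C * l)) :
    s ≤ 4 * C * (Nat.log 2 (2 * C) + 2) + 4 * C * Nat.log 2 (l + 1) := by
  by_contra hcon
  push Not at hcon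
  set j := Nat.log 2 (2 * C) + 2 + Nat.log 2 (l + 1) with hj
  have hs : 4 * C * j < s := by
    rw [hj]
    calc 4 * C * (Nat.log 2 (2 * C) + 2 + Nat.log 2 (l + 1))
        = 4 * C * (Nat.log 2 (2 * C) + 2) + 4 * C * Nat.log 2 (l + 1) := by ring
      _ < s := hcon
  -- Bernoulli
  have hber : 2 * (4 * C) ^ (4 * C) ≤ (4 * C + 1) ^ (4 * C) := by
    have h1 : (4 * C) ^ (4 * C) + (4 * C) * (4 * C) ^ (4 * C - 1) ≤ (4 * C + 1) ^ (4 * C) := by
      obtain ⟨n, hn⟩ : ∃ n, 4 * C = n + 1 := ⟨4 * C - 1, by omega⟩
      rw [hn, Nat.add_sub_cancel]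
      have h2 : ∀ a k : ℕ, a ^ (k + 1) + (k + 1) * a ^ k ≤ (a + 1) ^ (k + 1) := by
        intro a k
        induction k with
        | zero => simp
        | succ k ih =>
          calc a ^ (k + 1 + 1) + (k + 1 + 1) * a ^ (k + 1)
              = a * (a ^ (k + 1) + (k + 1) * a ^ k) + a ^ (k + 1) := by ring
            _ ≤ a * (a + 1) ^ (k + 1) + (a + 1) ^ (k + 1) := by
                apply Nat.add_le_add (Nat.mul_le_mul_left _ ih)
                exact Nat.pow_le_pow_left (by omega) _
            _ = (a + 1) ^ (k + 1 + 1) := by ring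
      exact h2 (n + 1) n
    have h3 : (4 * C) * (4 * C) ^ (4 * C - 1) = (4 * C) ^ (4 * C) := by
      rw [mul_comm, ← pow_succ]
      congr 1
      omega
    rw [h3] at h1
    omega
  have hberj : 2 ^ j * (4 * C) ^ (4 * C * j) ≤ (4 * C + 1) ^ (4 * C * j) := by
    calc 2 ^ j * (4 * C) ^ (4 * C * j) = (2 * (4 * C) ^ (4 * C)) ^ j := by
          rw [mul_pow 2 ((4 * C) ^ (4 * C)) j, ← pow_mul (4 * C) (4 * C) j]
      _ ≤ ((4 * C + 1) ^ (4 * C)) ^ j := Nat.pow_le_pow_left hber _
      _ = (4 * C + 1) ^ (4 * C * j) := by rw [← pow_mul]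
  obtain ⟨r, hr⟩ : ∃ r, s + 1 = 4 * C * j + r := ⟨s + 1 - 4 * C * j, by omega⟩
  have hpos : 0 < (4 * C) ^ (s + 1) := pow_pos (by omega) _
  have h4 : 2 ^ j * (4 * C) ^ (s + 1) ≤ (4 * C) ^ (s + 1) * (2 * C * l) := by
    calc 2 ^ j * (4 * C) ^ (s + 1) = 2 ^ j * (4 * C) ^ (4 * C * j) * (4 * C) ^ r := by
          rw [hr, pow_add]; ring
      _ ≤ (4 * C + 1) ^ (4 * C * j) * (4 * C + 1) ^ r :=
          Nat.mul_le_mul hberj (Nat.pow_le_pow_left (by omega) _)
      _ = (4 * C + 1) ^ (s + 1) := by rw [hr, pow_add]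
      _ ≤ _ := h
  have h5 : 2 ^ j ≤ 2 * C * l := by
    rw [mul_comm] at h4
    exact Nat.le_of_mul_le_mul_left h4 hpos
  have h6 : 2 * C < 2 ^ (Nat.log 2 (2 * C) + 1) := Nat.lt_pow_succ_log_self (by norm_num) _
  have h7 : l + 1 < 2 ^ (Nat.log 2 (l + 1) + 1) := Nat.lt_pow_succ_log_self (by norm_num) _
  have h8 : 2 * C * l < 2 ^ j := by
    calc 2 * C * l < 2 ^ (Nat.log 2 (2 * C) + 1) * 2 ^ (Nat.log 2 (l + 1) + 1) :=
          Nat.mul_lt_mul_of_lt_of_le h6 (by omega) (by positivity)
      _ = 2 ^ j := by rw [← pow_add, hj]; congr 1; omega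
  omega

/-- Block H1. -/
theorem logIn (hQ : QStatement) : LogInStatement := by
  intro Δ C
  refine ⟨4 * (C + 1) * (Nat.log 2 (2 * (C + 1)) + 2) + 3, 4 * (C + 1), ?_⟩
  intro D M hM hF hI x y w l p hp0 hpl hp hw
  obtain ⟨hd, -, -, hpar, -⟩ := hQ D M Δ hM
  rcases Nat.eq_zero_or_pos l with rfl | hl
  · refine ⟨0, le_rfl, ?_⟩
    have hxy : x = y := hp0.symm.trans hpl
    subst hxy
    rw [hd.self] at hw
    have h1 : M.qd w x = 0 := by omega
    rw [hp0, h1]
    exact Nat.zero_le _
  · by_contra hcon
    push Not at hcon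
    have hI' : M.IsoE (C + 1) := by
      intro E hE
      refine le_trans (hI E hE) ?_
      exact Nat.mul_le_mul_right _ (by omega)
    set s := 4 * (C + 1) * (Nat.log 2 (2 * (C + 1)) + 2) + 4 * (C + 1) * Nat.log 2 (l + 1) + 1
      with hs
    have h1 := CMap.decay M hM hd hpar hF hI' x y w l p hp0 hpl hp hw s (by
      intro i hi
      have := hcon i hi
      omega)
    have h2 := two_pow_le_of_decay (C + 1) s l (by omega) hl h1
    omega

end Tess
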