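import Pool.Agent.Work.MP_8c67d3_co.Interface

/-!
# Block H2: the log-lemma implies the four point condition
-/

set_option autoImplicit false

namespace Tess

namespace HTwo

variable {W : Type} {d : W → W → ℕ}

/-- Metric betweenness. -/
def Bet (d : W → W → ℕ) (x w y : W) : Prop := d x w + d w y = d x y

theorem bet_left (h : IsGraphMetric d) (x y : W) : Bet d x x y := by
  unfold Bet; rw [h.self]; omega

theorem bet_right (h : IsGraphMetric d) (x y : W) : Bet d x y y := by
  unfold Bet; rw [h.self]; omega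

theorem Bet.symm (h : IsGraphMetric d) {x w y : W} (hb : Bet d x w y) : Bet d y w x := by
  unfold Bet at *
  have h1 := h.symm y w
  have h2 := h.symm w x
  have h3 := h.symm y x
  omega

/-- `u` between `x` and `w`, and `w` between `x` and `y`, implies `u` between `x` and `y`. -/
theorem Bet.trans_left (h : IsGraphMetric d) {x u w y : W} (h1 : Bet d x u w)
    (h2 : Bet d x w y) : Bet d x u y := by
  unfold Bet at *
  have h3 := h.tri u w y
  have h4 := h.tri x u y
  omega

theorem Bet.trans_right (h : IsGraphMetric d) {x u w y : W} (h1 : Bet d w u y)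
    (h2 : Bet d x w y) : Bet d x u y := by
  unfold Bet at *
  have h3 := h.tri x w u
  have h4 := h.tri x u y
  omega

theorem exists_path (h : IsGraphMetric d) (y : W) : ∀ (n : ℕ) (x : W), d x y = n →
    ∃ p : ℕ → W, p 0 = x ∧ p n = y ∧ ∀ i < n, d (p i) (p (i + 1)) ≤ 1 := by
  intro n
  induction n with
  | zero =>
    intro x hx
    exact ⟨fun _ => x, rfl, h.eq_of x y hx, fun i hi => absurd hi (Nat.not_lt_zero _)⟩
  | succ n ih =>
    intro x hx
    obtain ⟨z, hz1, hz2⟩ := h.geod x y 1 (by omega)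
    obtain ⟨p, hp0, hpn, hp⟩ := ih z (by omega)
    refine ⟨fun i => if i = 0 then x else p (i - 1), by simp, by simpa using hpn, ?_⟩
    intro i hi
    rcases Nat.eq_zero_or_pos i with rfl | hpos
    · simp [hp0, hz1]
    · have h1 : i ≠ 0 := by omega
      have h2 : i - 1 + 1 = i := by omega
      have h3 := hp (i - 1) (by omega)
      rw [h2] at h3
      simp only [h1, if_false, Nat.add_sub_cancel, Nat.succ_ne_zero]
      exact h3

theorem path_dist (h : IsGraphMetric d) {p : ℕ → W} {l : ℕ}
    (hp : ∀ i < l, d (p i) (p (i + 1)) ≤ 1) {i j : ℕ} (hij : i ≤ j) (hj : j ≤ l) :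
    d (p i) (p j) ≤ j - i := by
  induction j with
  | zero =>
    have : i = 0 := by omega
    subst this
    simp [h.self]
  | succ j ih =>
    rcases Nat.lt_or_ge j i with hlt | hge
    · have : i = j + 1 := by omega
      subst this
      simp [h.self]
    · have h1 := ih hge (by omega)
      have h2 := hp j (by omega)
      have h3 := h.tri (p i) (p j) (p (j + 1))
      omega

/-- Points of a geodesic path. -/
theorem geod_point (h : IsGraphMetric d) {p : ℕ → W} {x y : W} (h0 : p 0 = x)
    (hn : p (d x y) = y) (hp : ∀ i < d x y, d (p i) (p (i + 1)) ≤ 1) {i : ℕ} (hi : i ≤ d x y) :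
    d x (p i) = i ∧ d (p i) y = d x y - i := by
  have h1 := path_dist h hp (Nat.zero_le i) hi
  have h2 := path_dist h hp hi le_rfl
  rw [h0] at h1
  rw [hn] at h2
  have h3 := h.tri x (p i) y
  omega

theorem geod_bet (h : IsGraphMetric d) {p : ℕ → W} {x y : W} (h0 : p 0 = x)
    (hn : p (d x y) = y) (hp : ∀ i < d x y, d (p i) (p (i + 1)) ≤ 1) {i : ℕ} (hi : i ≤ d x y) :
    Bet d x (p i) y := by
  have := geod_point h h0 hn hp hi
  unfold Bet
  omega

theorem geod_dist (h : IsGraphMetric d) {p : ℕ → W} {x y : W} (h0 : p 0 = x)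
    (hn : p (d x y) = y) (hp : ∀ i < d x y, d (p i) (p (i + 1)) ≤ 1) {i j : ℕ} (hij : i ≤ j)
    (hj : j ≤ d x y) : d (p i) (p j) = j - i := by
  have h1 := path_dist h hp hij hj
  have h2 := geod_point h h0 hn hp hj
  have h3 := geod_point h h0 hn hp (hij.trans hj)
  have h4 := h.tri x (p i) (p j)
  omega

/-- A path of length `l` all of whose points satisfy `P`. -/
def PPath (d : W → W → ℕ) (P : W → Prop) (l : ℕ) (x y : W) : Prop :=
  ∃ p : ℕ → W, p 0 = x ∧ p l = y ∧ (∀ i < l, d (p i) (p (i + 1)) ≤ 1) ∧ ∀ i ≤ l, P (p i)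

theorem PPath.append {P : W → Prop} {l l' : ℕ} {x y z : W} (h1 : PPath d P l x y)
    (h2 : PPath d P l' y z) : PPath d P (l + l') x z := by
  obtain ⟨p, p0, pl, ps, pP⟩ := h1
  obtain ⟨q, q0, ql, qs, qP⟩ := h2
  refine ⟨fun i => if i ≤ l then p i else q (i - l), ?_, ?_, ?_, ?_⟩
  · simpa using p0
  · rcases Nat.eq_zero_or_pos l' with rfl | hpos
    · simp only [Nat.add_zero, le_refl, if_true]
      rw [pl, ← q0, ql]
    · have : ¬ l + l' ≤ l := by omega
      simp only [this, if_false, Nat.add_sub_cancel_left]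
      exact ql
  · intro i hi
    rcases Nat.lt_or_ge i l with h | h
    · have h1 : i ≤ l := h.le
      have h2 : i + 1 ≤ l := h
      simp only [h1, h2, if_true]
      exact ps i h
    · have h2 : ¬ i + 1 ≤ l := by omega
      rcases Nat.eq_or_lt_of_le h with h' | h'
      · subst h'
        simp only [le_refl, if_true, h2, if_false, Nat.add_sub_cancel_left]
        rw [pl, ← q0]
        exact qs 0 (by omega)
      · have h3 : ¬ i ≤ l := by omega
        simp only [h2, h3, if_false]
        have h4 : i + 1 - l = (i - l) + 1 := by omega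
        rw [h4]
        exact qs (i - l) (by omega)
  · intro i hi
    rcases Nat.lt_or_ge l i with h | h
    · have : ¬ i ≤ l := by omega
      simp only [this, if_false]
      exact qP _ (by omega)
    · simp only [h, if_true]
      exact pP _ h

theorem PPath.symm (h : IsGraphMetric d) {P : W → Prop} {l : ℕ} {x y : W}
    (h1 : PPath d P l x y) : PPath d P l y x := by
  obtain ⟨p, p0, pl, ps, pP⟩ := h1
  refine ⟨fun i => p (l - i), by simpa using pl, by simpa using p0, ?_, ?_⟩
  · intro i hi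
    have h2 := ps (l - (i + 1)) (by omega)
    have h3 : l - (i + 1) + 1 = l - i := by omega
    rw [h3] at h2
    show d (p (l - i)) (p (l - (i + 1))) ≤ 1
    rw [h.symm]
    exact h2
  · intro i hi
    exact pP _ (by omega)

/-- Quasi-geodesic paths (the only ones we need). -/
structure QG (d : W → W → ℕ) (c : ℕ → W) (l : ℕ) : Prop where
  step : ∀ i < l, d (c i) (c (i + 1)) ≤ 1
  qg : ∀ i j, i ≤ j → j ≤ l → j ≤ i + 3 * d (c i) (c j) + 3

theorem QG.ppath {c : ℕ → W} {l : ℕ} (hc : QG d c l) {P : W → Prop}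
    (hP : ∀ i ≤ l, P (c i)) {a b : ℕ} (hab : a ≤ b) (hb : b ≤ l) :
    PPath d P (b - a) (c a) (c b) := by
  refine ⟨fun i => c (a + i), by simp, ?_, ?_, ?_⟩
  · show c (a + (b - a)) = c b
    rw [Nat.add_sub_cancel' hab]
  · intro i hi
    have := hc.step (a + i) (by omega)
    exact this
  · intro i hi
    exact hP _ (by omega)

theorem log_bound (A B : ℕ) : ∃ D0 : ℕ, ∀ D, D ≤ A + B * Nat.log 2 (20 * D + 4) → D ≤ D0 := by
  refine ⟨2 * A + 80 * B * B + 10, ?_⟩
  intro D hD
  set t := Nat.log 2 (20 * D + 4) with ht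
  have h1 : 2 ^ t ≤ 20 * D + 4 := Nat.pow_log_le_self 2 (by omega)
  have h2 : ∀ t : ℕ, t * t ≤ 2 ^ t + 1 := by
    intro t
    rcases Nat.lt_or_ge t 4 with h | h
    · interval_cases t <;> norm_num
    · have : t * t ≤ 2 ^ t := by
        induction t, h using Nat.le_induction with
        | base => norm_num
        | succ n hn ih =>
          rw [pow_succ]
          nlinarith
      omega
  have h3 : 40 * B * t ≤ 2 ^ t + 1 + 1600 * B * B := by
    rcases Nat.le_total t (40 * B) with h | h
    · have e1 : 40 * B * t ≤ 40 * B * (40 * B) := Nat.mul_le_mul_left _ h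
      have e2 : 40 * B * (40 * B) = 1600 * B * B := by ring
      rw [e2] at e1
      exact e1.trans (Nat.le_add_left _ _)
    · have : 40 * B * t ≤ t * t := Nat.mul_le_mul_right _ h
      have := h2 t
      nlinarith
  have h4 : 40 * (B * t) = 40 * B * t := by ring
  have h5 : 1600 * B * B = 20 * (80 * B * B) := by ring
  omega

/-- H2.1 -/
theorem close1 (h : IsGraphMetric d) {A B D0 : ℕ}
    (hD0 : ∀ D, D ≤ A + B * Nat.log 2 (20 * D + 4) → D ≤ D0) (hL : LogIn d A B)
    {c : ℕ → W} {l : ℕ} (hc : QG d c l) {w : W} (hw : Bet d (c 0) w (c l)) :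
    ∃ i ≤ l, d w (c i) ≤ D0 := by
  classical
  set f : W → ℕ := fun w => (Finset.range (l + 1)).inf' ⟨0, by simp⟩ (fun i => d w (c i)) with hf
  have hf1 : ∀ w, ∃ i ≤ l, d w (c i) = f w := by
    intro w
    obtain ⟨i, hi, hi'⟩ := Finset.exists_mem_eq_inf' (s := Finset.range (l + 1))
      ⟨0, by simp⟩ (fun i => d w (c i))
    exact ⟨i, by simpa [Nat.lt_succ_iff] using hi, hi'.symm⟩
  have hf2 : ∀ w, ∀ i ≤ l, f w ≤ d w (c i) := by
    intro w i hi
    exact Finset.inf'_le (fun i => d w (c i)) (by simp; omega)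
  -- a point with maximal distance
  obtain ⟨v, hv, hmax⟩ : ∃ v, Bet d (c 0) v (c l) ∧ ∀ v', Bet d (c 0) v' (c l) → f v' ≤ f v := by
    set S : Set ℕ := f '' {v | Bet d (c 0) v (c l)} with hS
    have hne : S.Nonempty := ⟨f w, w, hw, rfl⟩
    have hbdd : BddAbove S := by
      refine ⟨d (c 0) (c l), ?_⟩
      rintro _ ⟨v, hv, rfl⟩
      have h1 := hf2 v 0 (Nat.zero_le _)
      have h2 := h.symm v (c 0)
      have h3 : d (c 0) v + d v (c l) = d (c 0) (c l) := hv
      omega
    obtain ⟨v, hv, hv'⟩ := Nat.sSup_mem hne hbdd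
    refine ⟨v, hv, fun v' hv1 => ?_⟩
    rw [hv']
    exact le_csSup hbdd ⟨v', hv1, rfl⟩
  suffices hD : f v ≤ D0 by
    obtain ⟨i, hi, hi'⟩ := hf1 w
    exact ⟨i, hi, by rw [hi']; exact (hmax w hw).trans hD⟩
  apply hD0
  set D := f v with hDdef
  have hvb : d (c 0) v + d v (c l) = d (c 0) (c l) := hv
  have hs0 := h.symm v (c 0)
  -- the two points around `v`
  obtain ⟨w1, h1a, h1b⟩ := h.geod v (c 0) (min (2 * D) (d v (c 0))) (min_le_right _ _)
  obtain ⟨w2, h2a, h2b⟩ := h.geod v (c l) (min (2 * D) (d v (c l))) (min_le_right _ _)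
  have b1 : Bet d (c 0) w1 v := by
    have := h.symm w1 (c 0)
    have := h.symm v w1
    unfold Bet; omega
  have b2 : Bet d v w2 (c l) := by unfold Bet; omega
  have bb1 : Bet d (c 0) w1 (c l) := b1.trans_left h hv
  have bb2 : Bet d (c 0) w2 (c l) := b2.trans_right h hv
  have hmid : d w1 v + d v w2 = d w1 w2 := by
    have e1 : d (c 0) w1 + d w1 v = d (c 0) v := b1
    have e2 : d v w2 + d w2 (c l) = d v (c l) := b2
    have e3 := h.tri (c 0) w1 (c l)
    have e4 := h.tri w1 w2 (c l)
    have e5 := h.tri w1 v w2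
    omega
  -- the part from `w1` to the path
  have key : ∀ (u : W) (e : ℕ), e ≤ l → Bet d (c 0) u (c l) →
      (d v u = 2 * D ∨ u = c e) →
      ∃ a ≤ l, d u (c a) ≤ D ∧ PPath d (fun z => D ≤ d v z) (d u (c a)) u (c a) := by
    intro u e he hu hcase
    rcases hcase with hcase | hcase
    · obtain ⟨a, hal, ha⟩ := hf1 u
      have ha' : d u (c a) ≤ D := by rw [ha]; exact hmax u hu
      refine ⟨a, hal, ha', ?_⟩
      obtain ⟨p, p0, pn, ps⟩ := exists_path h (c a) _ u rfl
      refine ⟨p, p0, pn, ps, ?_⟩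
      intro i hi
      have e1 := (geod_point h p0 pn ps hi).1
      have e2 := h.tri v (p i) u
      have e3 := h.symm (p i) u
      show D ≤ d v (p i)
      omega
    · refine ⟨e, he, ?_, ?_⟩
      · rw [hcase, h.self]; omega
      · rw [hcase, h.self]
        refine ⟨fun _ => c e, rfl, rfl, fun i hi => absurd hi (Nat.not_lt_zero _), ?_⟩
        intro i _
        exact hf2 v e he
  obtain ⟨a, hal, ha, hpa⟩ := key w1 0 (Nat.zero_le _) bb1 (by
    rcases Nat.le_total (2 * D) (d v (c 0)) with hh | hh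
    · left; rw [h1a]; exact min_eq_left hh
    · right
      rw [min_eq_right hh] at h1b
      apply h.eq_of; omega)
  obtain ⟨b, hbl, hb, hpb⟩ := key w2 l le_rfl bb2 (by
    rcases Nat.le_total (2 * D) (d v (c l)) with hh | hh
    · left; rw [h2a]; exact min_eq_left hh
    · right
      rw [min_eq_right hh] at h2b
      apply h.eq_of; omega)
  have hdab : d (c a) (c b) ≤ 6 * D := by
    have e1 := h.tri (c a) w1 (c b)
    have e2 := h.tri w1 w2 (c b)
    have e3 := h.symm (c a) w1
    have e4 := h.symm w1 v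
    have e5 : d v w1 ≤ 2 * D := by rw [h1a]; exact min_le_left _ _
    have e6 : d v w2 ≤ 2 * D := by rw [h2a]; exact min_le_left _ _
    omega
  obtain ⟨m, hm, hpm⟩ : ∃ m ≤ 18 * D + 3, PPath d (fun z => D ≤ d v z) m (c a) (c b) := by
    rcases Nat.le_total a b with hh | hh
    · refine ⟨b - a, ?_, hc.ppath (fun i hi => hf2 v i hi) hh hbl⟩
      have := hc.qg a b hh hbl
      omega
    · refine ⟨a - b, ?_, (hc.ppath (fun i hi => hf2 v i hi) hh hal).symm h⟩
      have := hc.qg b a hh hal
      have := h.symm (c a) (c b)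
      omega
  obtain ⟨p, p0, pn, ps, pP⟩ := (hpa.append hpm).append (hpb.symm h)
  obtain ⟨i, hi, hi'⟩ := hL w1 w2 v _ p p0 pn ps hmid
  have hlog : Nat.log 2 (d w1 (c a) + m + d w2 (c b) + 1) ≤ Nat.log 2 (20 * D + 4) :=
    Nat.log_mono_right (by omega)
  have := Nat.mul_le_mul_left B hlog
  have := pP i hi
  omega

/-- H2.2, converse direction. -/
theorem close2 (h : IsGraphMetric d) {A B D0 : ℕ}
    (hD0 : ∀ D, D ≤ A + B * Nat.log 2 (20 * D + 4) → D ≤ D0) (hL : LogIn d A B)
    {c : ℕ → W} {l : ℕ} (hc : QG d c l) {k : ℕ} (hk : k ≤ l) :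
    ∃ q, Bet d (c 0) q (c l) ∧ d (c k) q ≤ 7 * D0 + 6 := by
  classical
  obtain ⟨β, b0, bn, bs⟩ := exists_path h (c l) _ (c 0) rfl
  have hex : ∃ i, i ≤ d (c 0) (c l) ∧ ∃ a, k ≤ a ∧ a ≤ l ∧ d (β i) (c a) ≤ D0 :=
    ⟨_, le_rfl, l, hk, le_rfl, by rw [bn, h.self]; omega⟩
  obtain ⟨hi1, a, ha1, ha2, ha3⟩ := Nat.find_spec hex
  have hmin := fun m => Nat.find_min (H := hex) (m := m)
  set i := Nat.find hex with hidef
  refine ⟨β i, geod_bet h b0 bn bs hi1, ?_⟩
  have hka := path_dist h hc.step ha1 ha2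
  have hs := h.symm (β i) (c a)
  have ht := h.tri (c k) (c a) (β i)
  rcases Nat.eq_zero_or_pos i with hi0 | hpos
  · rw [hi0, b0] at ha3
    have := hc.qg 0 a (Nat.zero_le _) ha2
    rw [hi0, b0] at ht hs ⊢
    omega
  · have hnot := hmin (i - 1) (by omega)
    obtain ⟨a', ha'l, ha'⟩ := close1 h hD0 hL hc (geod_bet h b0 bn bs (i := i - 1) (by omega))
    have hlt : a' < k := by
      by_contra hcon
      exact hnot ⟨by omega, a', by omega, ha'l, ha'⟩
    have hq := hc.qg a' a (by omega) ha2
    have e1 := bs (i - 1) (by omega)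
    have e2 : i - 1 + 1 = i := by omega
    rw [e2] at e1
    have e3 := h.tri (c a') (β (i - 1)) (c a)
    have e4 := h.tri (β (i - 1)) (β i) (c a)
    have e5 := h.symm (c a') (β (i - 1))
    omega

/-- The concatenation of two geodesics at a projection point is a quasi-geodesic. -/
theorem corner_qg (h : IsGraphMetric d) {x z' z : W}
    (hproj : ∀ u, Bet d x u z' → d z z' ≤ d z u) {p g : ℕ → W}
    (p0 : p 0 = x) (pn : p (d x z') = z') (ps : ∀ i < d x z', d (p i) (p (i + 1)) ≤ 1)
    (g0 : g 0 = z') (gn : g (d z' z) = z) (gs : ∀ i < d z' z, d (g i) (g (i + 1)) ≤ 1) :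
    ∃ c : ℕ → W, c 0 = x ∧ c (d x z' + d z' z) = z ∧ QG d c (d x z' + d z' z) ∧
      (∀ i, i ≤ d x z' → c i = p i) ∧ (∀ i, c (d x z' + i) = g i) := by
  refine ⟨fun i => if i ≤ d x z' then p i else g (i - d x z'), ?_, ?_, ⟨?_, ?_⟩, ?_, ?_⟩
  · simpa using p0
  · rcases Nat.eq_zero_or_pos (d z' z) with h0 | hpos
    · simp only [h0, Nat.add_zero, le_refl, if_true]
      rw [pn]; exact h.eq_of _ _ h0
    · have : ¬ d x z' + d z' z ≤ d x z' := by omega
      simp only [this, if_false, Nat.add_sub_cancel_left]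
      exact gn
  · intro i hi
    rcases Nat.lt_or_ge i (d x z') with hh | hh
    · have h1 : i ≤ d x z' := hh.le
      have h2 : i + 1 ≤ d x z' := hh
      simp only [h1, h2, if_true]
      exact ps i hh
    · have h2 : ¬ i + 1 ≤ d x z' := by omega
      rcases Nat.eq_or_lt_of_le hh with h' | h'
      · have h3 : i ≤ d x z' := h'.symm.le
        simp only [h3, if_true, h2, if_false]
        rw [← h', Nat.add_sub_cancel_left, pn, ← g0]
        exact gs 0 (by omega)
      · have h3 : ¬ i ≤ d x z' := by omega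
        simp only [h2, h3, if_false]
        have h4 : i + 1 - d x z' = (i - d x z') + 1 := by omega
        rw [h4]
        exact gs _ (by omega)
  · intro i j hij hj
    show j ≤ i + 3 * d (if i ≤ d x z' then p i else g (i - d x z'))
      (if j ≤ d x z' then p j else g (j - d x z')) + 3
    rcases Nat.lt_or_ge (d x z') i with h1 | h1
    · have h1' : ¬ i ≤ d x z' := by omega
      have h2' : ¬ j ≤ d x z' := by omega
      simp only [h1', h2', if_false]
      have := geod_dist h g0 gn gs (i := i - d x z') (j := j - d x z') (by omega) (by omega)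
      omega
    · rcases Nat.lt_or_ge (d x z') j with h2 | h2
      · have h2' : ¬ j ≤ d x z' := by omega
        simp only [h1, if_true, h2', if_false]
        have e1 := geod_point h p0 pn ps h1
        have e2 := geod_point h g0 gn gs (i := j - d x z') (by omega)
        have e3 := hproj (p i) (geod_bet h p0 pn ps h1)
        have e4 := h.tri z (g (j - d x z')) (p i)
        have e5 := h.symm z z'
        have e6 := h.symm z (g (j - d x z'))
        have e7 := h.symm (g (j - d x z')) (p i)
        have e8 := h.tri (p i) (g (j - d x z')) z'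
        have e9 := h.symm (g (j - d x z')) z'
        omega
      · simp only [h1, h2, if_true]
        have := geod_dist h p0 pn ps hij h2
        omega
  · intro i hi
    simp only [hi, if_true]
  · intro i
    rcases Nat.eq_zero_or_pos i with rfl | hpos
    · simp only [Nat.add_zero, le_refl, if_true]
      rw [pn, g0]
    · have : ¬ d x z' + i ≤ d x z' := by omega
      simp only [this, if_false, Nat.add_sub_cancel_left]

/-- Slim triangles. -/
theorem slim (h : IsGraphMetric d) {A B D0 : ℕ}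
    (hD0 : ∀ D, D ≤ A + B * Nat.log 2 (20 * D + 4) → D ≤ D0) (hL : LogIn d A B)
    (x y z q : W) (hq : Bet d x q z) :
    ∃ r, (Bet d x r y ∨ Bet d y r z) ∧ d q r ≤ 8 * D0 + 6 := by
  classical
  -- nearest point
  obtain ⟨z', hz', hmin⟩ : ∃ z', Bet d x z' y ∧ ∀ u, Bet d x u y → d z z' ≤ d z u := by
    have hex : ∃ n, ∃ u, Bet d x u y ∧ d z u = n := ⟨_, x, bet_left h x y, rfl⟩
    obtain ⟨u, hu, hu'⟩ := Nat.find_spec hex
    refine ⟨u, hu, fun v hv => ?_⟩
    rw [hu']
    exact Nat.find_min' hex ⟨v, hv, rfl⟩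
  obtain ⟨p, p0, pn, ps⟩ := exists_path h z' _ x rfl
  obtain ⟨p', p0', pn', ps'⟩ := exists_path h z' _ y rfl
  obtain ⟨g, g0, gn, gs⟩ := exists_path h z _ z' rfl
  obtain ⟨c, c0, cn, hc, cp, cg⟩ := corner_qg h
    (fun u hu => hmin u (hu.trans_left h hz')) p0 pn ps g0 gn gs
  obtain ⟨c', c0', cn', hc', cp', cg'⟩ := corner_qg h
    (fun u hu => hmin u ((hu.symm h).trans_right h hz')) p0' pn' ps' g0 gn gs
  obtain ⟨i, hi, hi'⟩ := close1 h hD0 hL hc (w := q) (by rw [c0, cn]; exact hq)
  rcases Nat.lt_or_ge (d x z') i with h1 | h1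
  · -- on `g`
    have e1 : c i = g (i - d x z') := by
      have := cg (i - d x z')
      rwa [Nat.add_sub_cancel' h1.le] at this
    have e2 := cg' (i - d x z')
    obtain ⟨r, hr, hr'⟩ := close2 h hD0 hL hc' (k := d y z' + (i - d x z')) (by omega)
    rw [e2] at hr'
    rw [c0', cn'] at hr
    refine ⟨r, Or.inr hr, ?_⟩
    rw [e1] at hi'
    have := h.tri q (g (i - d x z')) r
    omega
  · refine ⟨c i, Or.inl ?_, by omega⟩
    rw [cp i h1]
    exact (geod_bet h p0 pn ps h1).trans_left h hz'

theorem four_point (h : IsGraphMetric d) {A B D0 : ℕ}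
    (hD0 : ∀ D, D ≤ A + B * Nat.log 2 (20 * D + 4) → D ≤ D0) (hL : LogIn d A B) :
    FourPoint d (6 * (8 * D0 + 6) + 2) := by
  classical
  set D2 := 8 * D0 + 6 with hD2
  -- (i)
  have hone : ∀ x u v q, Bet d u q v → d x u + d x v ≤ d u v + 2 * d x q := by
    intro x u v q hq
    have e1 := h.tri x q u
    have e2 := h.tri x q v
    have e3 : d u q + d q v = d u v := hq
    have e4 := h.symm q u
    omega
  -- (ii)
  have htwo : ∀ x u v, ∃ q, Bet d u q v ∧ 2 * d x q + d u v ≤ d x u + d x v + 4 * D2 + 2 := by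
    intro x u v
    obtain ⟨g, g0, gn, gs⟩ := exists_path h v _ u rfl
    have hex : ∃ i, i ≤ d u v ∧ ∃ r, Bet d x r v ∧ d (g i) r ≤ D2 :=
      ⟨_, le_rfl, v, bet_right h x v, by rw [gn, h.self]; omega⟩
    obtain ⟨hi1, r, hr, hr'⟩ := Nat.find_spec hex
    have hmin := fun m => Nat.find_min (H := hex) (m := m)
    set i := Nat.find hex with hidef
    refine ⟨g i, geod_bet h g0 gn gs hi1, ?_⟩
    obtain ⟨r', hr1, hr1'⟩ : ∃ r', Bet d x r' u ∧ d (g i) r' ≤ D2 + 1 := by
      rcases Nat.eq_zero_or_pos i with hi0 | hpos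
      · refine ⟨u, bet_right h x u, ?_⟩
        rw [hi0, g0, h.self]; omega
      · have hnot := hmin (i - 1) (by omega)
        obtain ⟨r', hr1, hr2⟩ := slim h hD0 hL u x v (g (i - 1))
          (geod_bet h g0 gn gs (i := i - 1) (by omega))
        rcases hr1 with hr1 | hr1
        · refine ⟨r', hr1.symm h, ?_⟩
          have e1 := gs (i - 1) (by omega)
          have e2 : i - 1 + 1 = i := by omega
          rw [e2] at e1
          have e3 := h.tri (g i) (g (i - 1)) r'
          have e4 := h.symm (g i) (g (i - 1))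
          omega
        · exact absurd ⟨by omega, r', hr1, hr2⟩ hnot
    have e1 : d x r + d r v = d x v := hr
    have e2 : d x r' + d r' u = d x u := hr1
    have e3 := h.tri x r (g i)
    have e4 := h.tri x r' (g i)
    have e5 := h.tri (g i) r v
    have e6 := h.tri (g i) r' u
    have e7 := h.symm r (g i)
    have e8 := h.symm r' (g i)
    have e9 := h.tri u (g i) v
    have e10 := h.symm u (g i)
    omega
  intro x u v w
  obtain ⟨q, hq, hq'⟩ := htwo x u w
  obtain ⟨r, hr, hr'⟩ := slim h hD0 hL u v w q hq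
  have e1 := h.tri x q r
  rcases hr with hr | hr
  · have := hone x u v r hr
    have : d x v + d u w ≤ (d x w + d u v) + (6 * D2 + 2) := by omega
    exact this.trans (Nat.add_le_add_right (le_max_left _ _) _)
  · have := hone x v w r hr
    have : d x v + d u w ≤ (d x u + d v w) + (6 * D2 + 2) := by omega
    exact this.trans (Nat.add_le_add_right (le_max_right _ _) _)

end HTwo

/-- Block H2. -/
theorem hyp : HypStatement := by
  intro A B
  obtain ⟨D0, hD0⟩ := HTwo.log_bound A B
  exact ⟨_, fun W d h hL => HTwo.four_point h hD0 hL⟩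

end Tess
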