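import Pool.Agent.Work.MP_8c67d3_co.Transfer

/-!
# Block L3: local properties pass to the limit
-/

set_option autoImplicit false

namespace Tess

open CMap

namespace CMap

variable {D : Type} (M : CMap D)

theorem adj_symm {u v : M.V} (h : M.Adj u v) : M.Adj v u := by
  obtain ⟨d, h1, h2⟩ := h
  exact ⟨M.inv d, h2, by rw [M.inv_inv]; exact h1⟩

theorem reach_empty_symm {u v : M.V} (h : M.Reach ∅ u v) : M.Reach ∅ v u := by
  induction h with
  | refl => exact Relation.ReflTransGen.refl
  | tail _ hbc ih =>
    exact Relation.ReflTransGen.head ⟨M.adj_symm hbc.1, by simp⟩ ih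

/-- If all darts are reached from one dart by words, the map is connected. -/
theorem connected_of_words {d : D} (h : ∀ e, ∃ w, M.run w d = e) (u v : M.V) :
    M.Reach ∅ u v := by
  have key : ∀ w : List Bool, M.Reach ∅ (M.vert d) (M.vert (M.run w d)) := by
    intro w
    induction w with
    | nil => exact Relation.ReflTransGen.refl
    | cons b w ih =>
      cases b with
      | true => rw [run_cons_true, vert_rot]; exact ih
      | false =>
        rw [run_cons_false]
        exact Relation.ReflTransGen.tail ih ⟨⟨M.run w d, rfl, rfl⟩, by simp⟩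
  obtain ⟨a, rfl⟩ := M.vert_surj u
  obtain ⟨b, rfl⟩ := M.vert_surj v
  obtain ⟨w₁, rfl⟩ := h a
  obtain ⟨w₂, rfl⟩ := h b
  exact (M.reach_empty_symm (key w₁)).trans (key w₂)

/-- A finite set of darts closed under `rot` and `inv` which contains a dart of a connected map is
everything. -/
theorem finite_of_closed (hc : ∀ u v, M.Reach ∅ u v) {S : Set D} (hS : S.Finite)
    (hrot : ∀ d ∈ S, M.rot d ∈ S) (hinv : ∀ d ∈ S, M.inv d ∈ S) {d₀ : D} (h₀ : d₀ ∈ S) :
    Finite D := by
  have himg : M.rot '' S = S := by
    apply Set.eq_of_subset_of_ncard_le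
    · rintro _ ⟨d, hd, rfl⟩
      exact hrot d hd
    · rw [Set.ncard_image_of_injective _ M.rot.injective]
    · exact hS
  have hrot' : ∀ d, d ∈ S ↔ M.rot d ∈ S := by
    intro d
    constructor
    · exact hrot d
    · intro h
      rw [← himg] at h
      obtain ⟨e, he, h1⟩ := h
      rwa [M.rot.injective h1] at he
  have hall := M.induction_dart hc hrot' hinv d₀ h₀
  have huniv : S = Set.univ := Set.eq_univ_of_forall hall
  rw [huniv] at hS
  exact Set.finite_univ_iff.1 hS

end CMap

theorem words_finite (m : ℕ) : {w : List Bool | w.length ≤ m}.Finite :=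
  List.finite_length_le Bool m

theorem local_statement : LocalStatement := by
  intro σ hσ3 hσ D' M' d' hgen happrox
  set Δ := σ.length + σ.sum with hΔ
  -- face-homogeneity
  have hseq : M'.HasSeq σ := by
    intro e
    obtain ⟨w, rfl⟩ := hgen e
    obtain ⟨D, M, d, hT, hH, hA⟩ := happrox (w.length + 2 * σ.length + 2 * Δ)
    have hpre := hT.pre hH (by omega)
    constructor
    · rw [hA.face_eq (Δ := Δ) (hpre.face_pos _) (hpre.face_le _) (by omega)]
      exact hH.face_len _
    · have hword : M'.word σ.length (M'.run w d') = M.word σ.length (M.run w d) := by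
        unfold CMap.word
        congr 1
        funext i
        rw [← run_fw_append, ← run_fw_append]
        apply hA.val_eq (Δ := Δ) (hpre.val_pos _) (hpre.val_le _)
        rw [List.length_append, length_fw]
        have := i.2
        omega
      rw [hword]
      exact (hH _).2
  have hval : ∀ e, 0 < M'.val e := by
    intro e
    have := hσ3 _ (hseq.val_mem (by omega) e)
    omega
  refine ⟨hseq, ⟨?_, M'.connected_of_words hgen, hval, ?_, ?_, ?_⟩, ?_, ?_⟩
  · -- infinite
    by_contra hfin
    rw [not_infinite_iff_finite] at hfin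
    choose wd hwd using hgen
    obtain ⟨m, hm⟩ : ∃ m, ∀ e, (wd e).length ≤ m := by
      obtain ⟨m, hm⟩ := (Set.finite_range fun e => (wd e).length).bddAbove
      exact ⟨m, fun e => hm ⟨e, rfl⟩⟩
    obtain ⟨D, M, d, hT, hH, hA⟩ := happrox (m + 1)
    have hclosed : ∀ (b : Bool) (w : List Bool), w.length ≤ m →
        ∃ w' : List Bool, w'.length ≤ m ∧ M.run w' d = M.run (b :: w) d := by
      intro b w hw
      refine ⟨wd (M'.run (b :: w) d'), hm _, ?_⟩
      rw [← hA _ _ ((hm _).trans (Nat.le_succ m)) (by rw [List.length_cons]; omega)]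
      exact hwd _
    have hS : ((fun w => M.run w d) '' {w : List Bool | w.length ≤ m}).Finite :=
      (words_finite m).image _
    have hfinD : Finite D := by
      refine M.finite_of_closed hT.connected hS ?_ ?_ (d₀ := d) ⟨[], by simp, rfl⟩
      · rintro _ ⟨w, hw, rfl⟩
        obtain ⟨w', h1, h2⟩ := hclosed true w hw
        exact ⟨w', h1, h2⟩
      · rintro _ ⟨w, hw, rfl⟩
        obtain ⟨w', h1, h2⟩ := hclosed false w hw
        exact ⟨w', h1, h2⟩
    have := hT.infinite
    exact not_finite D
  · intro e
    exact (le_sum_of_mem' (hseq.val_mem (by omega) e)).trans (Nat.le_add_left _ _)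
  · intro e
    rw [hseq.face_len]; omega
  · intro e
    rw [hseq.face_len]; omega
  · -- loopless
    intro e h
    obtain ⟨w, rfl⟩ := hgen e
    obtain ⟨D, M, d, hT, hH, hA⟩ := happrox (w.length + 1 + 2 * Δ)
    have hpre := hT.pre hH (by omega)
    rw [← run_cons_false] at h
    have h1 := (hA.vert_iff (w := false :: w) (w' := w) (Δ := Δ) (hpre.val_pos _) (hpre.val_le _)
      (by rw [List.length_cons]; omega) (by omega)).1 h
    exact hT.loopless _ h1
  · -- no multiple edges
    intro e e' h h'
    obtain ⟨w, rfl⟩ := hgen e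
    obtain ⟨w', rfl⟩ := hgen e'
    obtain ⟨D, M, d, hT, hH, hA⟩ := happrox (w.length + w'.length + 1 + 2 * Δ)
    have hpre := hT.pre hH (by omega)
    rw [← run_cons_false, ← run_cons_false] at h'
    have h1 := (hA.vert_iff (w := w) (w' := w') (Δ := Δ) (hpre.val_pos _) (hpre.val_le _)
      (by omega) (by omega)).1 h
    have h2 := (hA.vert_iff (w := false :: w) (w' := false :: w') (Δ := Δ) (hpre.val_pos _)
      (hpre.val_le _) (by rw [List.length_cons]; omega) (by rw [List.length_cons]; omega)).1 h'
    exact (hA _ _ (by omega) (by omega)).2 (hT.no_multi _ _ h1 h2)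

end Tess
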