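import Pool.Agent.Work.MP_8c67d3_co.Interface

/-!
# Block G1: one-endedness from dual planarity
-/

set_option autoImplicit false

namespace Tess

theorem iff_swap {a b c d : Prop} (h : (a ↔ b) ↔ (c ↔ d)) : (a ↔ c) ↔ (b ↔ d) := by
  by_cases a <;> by_cases b <;> by_cases c <;> by_cases d <;> simp_all

namespace CMap

variable {D : Type} (M : CMap D)

theorem adj_symm' {u v : M.V} (h : M.Adj u v) : M.Adj v u := by
  obtain ⟨d, h1, h2⟩ := h
  exact ⟨M.inv d, h2, by rw [M.inv_inv]; exact h1⟩

theorem Reach.notMem {S : Set M.V} {u v : M.V} (h : M.Reach S u v) (hu : u ∉ S) : v ∉ S := by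
  induction h with
  | refl => exact hu
  | tail _ hbc _ => exact hbc.2

theorem Reach.symm {S : Set M.V} {u v : M.V} (h : M.Reach S u v) (hu : u ∉ S) :
    M.Reach S v u := by
  induction h with
  | refl => exact Relation.ReflTransGen.refl
  | tail hab hbc ih =>
    exact Relation.ReflTransGen.head ⟨M.adj_symm' hbc.1, Reach.notMem M hab hu⟩ ih

theorem finite_vert_fibre (hpos : ∀ d, 0 < M.val d) (v : M.V) : {d | M.vert d = v}.Finite := by
  obtain ⟨d, rfl⟩ := M.vert_surj v
  exact M.finite_vert (hpos d)

theorem finite_fac_fibre (hpos : ∀ d, 0 < Function.minimalPeriod M.face d) (f : M.F) :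
    {d | M.fac d = f}.Finite := by
  obtain ⟨d, rfl⟩ := M.fac_surj f
  exact M.finite_fac (hpos d)

theorem finite_darts_at (hpos : ∀ d, 0 < M.val d) {S : Set M.V} (hS : S.Finite) :
    {d | M.vert d ∈ S}.Finite := by
  have : {d | M.vert d ∈ S} = ⋃ v ∈ S, {d | M.vert d = v} := by
    ext d; simp
  rw [this]
  exact hS.biUnion fun v _ => M.finite_vert_fibre hpos v

theorem finite_darts_to (hpos : ∀ d, 0 < M.val d) {S : Set M.V} (hS : S.Finite) :
    {d | M.vert (M.inv d) ∈ S}.Finite := by
  have h := (M.finite_darts_at hpos hS).image M.inv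
  refine h.subset ?_
  intro d hd
  exact ⟨M.inv d, hd, M.inv_inv d⟩

theorem infinite_V [hD : Infinite D] (hpos : ∀ d, 0 < M.val d) : (Set.univ : Set M.V).Infinite := by
  intro h
  have := M.finite_darts_at hpos h
  simp only [Set.mem_univ, Set.ofPred_true] at this
  exact Set.infinite_univ this

theorem vert_face_symm (d : D) : M.vert (M.face.symm d) = M.vert (M.inv d) := by
  rw [face_symm_apply, vert_rot_symm]

theorem fac_face_symm (d : D) : M.fac (M.face.symm d) = M.fac d := by
  conv_rhs => rw [← M.face.apply_symm_apply d]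
  rw [fac_face]

/-- The edges between a set of vertices and its complement are even on every face. -/
theorem even_cut (hpos : ∀ d, 0 < Function.minimalPeriod M.face d) (C : Set M.V) (f : M.F) :
    Even {d | ¬ (M.vert d ∈ C ↔ M.vert (M.inv d) ∈ C) ∧ M.fac d = f}.ncard := by
  classical
  have hfin := M.finite_fac_fibre hpos f
  set T : Finset D := hfin.toFinset with hT
  have hmemT : ∀ d, d ∈ T ↔ M.fac d = f := by
    intro d; simp [hT]
  have hset : {d | ¬ (M.vert d ∈ C ↔ M.vert (M.inv d) ∈ C) ∧ M.fac d = f} =
      ↑(T.filter fun d => ¬ (M.vert d ∈ C ↔ M.vert (M.inv d) ∈ C)) := by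
    ext d
    simp only [Set.mem_ofPred_eq, Finset.coe_filter, hmemT]
    tauto
  rw [hset, Set.ncard_coe_finset]
  let g : D → ZMod 2 := fun d => if M.vert d ∈ C then 1 else 0
  have hsum : (∑ d ∈ T, (g d + g (M.face.symm d))) = 0 := by
    rw [Finset.sum_add_distrib]
    have h1 : ∑ d ∈ T, g (M.face.symm d) = ∑ d ∈ T, g d := by
      refine Finset.sum_equiv M.face.symm ?_ ?_
      · intro d
        rw [hmemT, hmemT, fac_face_symm]
      · intro d _
        rfl
    rw [h1]
    exact CharTwo.add_self_eq_zero _
  have hterm : ∀ d ∈ T, (g d + g (M.face.symm d)) =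
      if ¬ (M.vert d ∈ C ↔ M.vert (M.inv d) ∈ C) then 1 else 0 := by
    intro d _
    simp only [g]
    rw [vert_face_symm]
    by_cases h1 : M.vert d ∈ C <;> by_cases h2 : M.vert (M.inv d) ∈ C <;> simp [h1, h2]
    decide
  rw [Finset.sum_congr rfl hterm, Finset.sum_boole] at hsum
  rwa [← ZMod.natCast_eq_zero_iff_even]

theorem oneEnded_of_dualPlane {Δ : ℕ} (hP : M.Pre Δ) (hdual : M.DualPlane) : M.OneEnded := by
  classical
  have hDinf := hP.infinite
  have hVinf := M.infinite_V hP.val_pos
  intro S hS
  constructor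
  · -- existence
    by_contra hno
    push Not at hno
    by_cases hSe : S = ∅
    · obtain ⟨d⟩ : Nonempty D := inferInstance
      have h1 := hno (M.vert d) (by rw [hSe]; simp)
      apply hVinf
      refine h1.subset ?_
      intro w _
      rw [hSe]
      exact hP.connected _ _
    · obtain ⟨s, hs⟩ := Set.nonempty_iff_ne_empty.2 hSe
      -- the neighbours of `S`
      set N : Set M.V := (fun d => M.vert (M.inv d)) '' {d | M.vert d ∈ S} with hN
      have hNfin : N.Finite := (M.finite_darts_at hP.val_pos hS).image _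
      have key : ∀ u, u ∉ S → ∀ t, M.Reach ∅ u t →
          M.Reach S u t ∨ ∃ n ∈ N, n ∉ S ∧ M.Reach S u n := by
        intro u hu t ht
        induction ht with
        | refl => exact Or.inl Relation.ReflTransGen.refl
        | @tail b c _ hbc ih =>
          rcases ih with ih | ih
          · by_cases hc : c ∈ S
            · right
              have hb : b ∉ S := Reach.notMem M ih hu
              refine ⟨b, ?_, hb, ih⟩
              obtain ⟨⟨d, h1, h2⟩, -⟩ := hbc
              refine ⟨M.inv d, ?_, ?_⟩
              · simp only [Set.mem_ofPred_eq]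
                rw [h2]; exact hc
              · simp only
                rw [M.inv_inv]; exact h1
            · left
              exact Relation.ReflTransGen.tail ih ⟨hbc.1, hc⟩
          · exact Or.inr ih
      apply hVinf
      have hcover : (Set.univ : Set M.V) ⊆ S ∪ ⋃ n ∈ N \ S, {w | M.Reach S n w} := by
        intro u _
        by_cases hu : u ∈ S
        · exact Or.inl hu
        · right
          rcases key u hu s (hP.connected _ _) with h | ⟨n, hnN, hnS, h⟩
          · exact absurd hs (Reach.notMem M h hu)
          · simp only [Set.mem_iUnion]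
            exact ⟨n, ⟨hnN, hnS⟩, Reach.symm M h hu⟩
      refine Set.Finite.subset ?_ hcover
      refine hS.union ?_
      refine (hNfin.subset Set.sdiff_subset).biUnion ?_
      intro n hn
      exact hno n hn.2
  · -- uniqueness
    intro u v hu hv hinf1 hinf2
    set C : Set M.V := {w | M.Reach S u w} with hC
    set As : Set D := {d | ¬ (M.vert d ∈ C ↔ M.vert (M.inv d) ∈ C)} with hAs
    have hAfin : As.Finite := by
      refine ((M.finite_darts_at hP.val_pos hS).union (M.finite_darts_to hP.val_pos hS)).subset ?_
      intro d hd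
      by_contra hcon
      simp only [Set.mem_union, Set.mem_ofPred_eq, not_or] at hcon
      apply hd
      constructor
      · intro h
        exact Relation.ReflTransGen.tail h ⟨⟨d, rfl, rfl⟩, hcon.2⟩
      · intro h
        exact Relation.ReflTransGen.tail h ⟨⟨M.inv d, rfl, by rw [M.inv_inv]⟩, hcon.1⟩
    have hmemA : ∀ d, d ∈ hAfin.toFinset ↔ ¬ (M.vert d ∈ C ↔ M.vert (M.inv d) ∈ C) := by
      intro d; simp [hAs]
    obtain ⟨X, hX⟩ := hdual hAfin.toFinset
      (by
        intro d hd
        rw [hmemA] at hd ⊢
        rw [M.inv_inv]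
        tauto)
      (by
        intro f
        have := M.even_cut hP.face_pos C f
        simpa only [hmemA] using this)
    have hXC : ∀ d, (M.vert d ∈ C ↔ M.vert (M.inv d) ∈ C) ↔
        (M.vert d ∈ X ↔ M.vert (M.inv d) ∈ X) := by
      intro d
      have := hX d
      rw [hmemA] at this
      tauto
    have hconst : ∀ a b, M.Reach ∅ a b → ((a ∈ C ↔ a ∈ X) ↔ (b ∈ C ↔ b ∈ X)) := by
      intro a b h
      induction h with
      | refl => rfl
      | tail _ hbc ih =>
        obtain ⟨⟨d, rfl, rfl⟩, -⟩ := hbc
        rw [ih]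
        exact iff_swap (hXC d)
    have hCX : ∀ w, w ∈ C ↔ w ∉ X := by
      by_contra hcon
      rw [not_forall] at hcon
      obtain ⟨w, hw⟩ := hcon
      apply hinf1
      refine (X.finite_toSet).subset ?_
      intro y hy
      have h2 : w ∈ C ↔ w ∈ X := by
        by_cases hw1 : w ∈ X
        · by_cases hw2 : w ∈ C
          · exact ⟨fun _ => hw1, fun _ => hw2⟩
          · exact absurd ⟨fun h => absurd h hw2, fun h => absurd hw1 h⟩ hw
        · by_cases hw2 : w ∈ C
          · exact absurd ⟨fun _ => hw1, fun _ => hw2⟩ hw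
          · exact ⟨fun h => absurd h hw2, fun h => absurd h hw1⟩
      exact ((hconst w y (hP.connected _ _)).1 h2).1 hy
    obtain ⟨w, hw1, hw2⟩ : ∃ w, M.Reach S v w ∧ w ∉ X := by
      by_contra hcon
      push Not at hcon
      apply hinf2
      exact (X.finite_toSet).subset fun y hy => hcon y hy
    have hw3 : M.Reach S u w := (hCX w).2 hw2
    exact hw3.trans (Reach.symm M hw1 hv)

end CMap

theorem oneEnded_statement : OneEndedStatement :=
  fun _ M _ hP hdual => M.oneEnded_of_dualPlane hP hdual

end Tess
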