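import Pool.Agent.Work.MP_8c67d3_co.N4
import Pool.Agent.Work.MP_8c67d3_co.BlockQ
import Pool.Agent.Work.MP_8c67d3_co.BlockC
import Pool.Agent.Work.MP_8c67d3_co.BlockS
import Pool.Agent.Work.MP_8c67d3_co.BlockL2
import Pool.Agent.Work.MP_8c67d3_co.H1
import Pool.Agent.Work.MP_8c67d3_co.H2
import Pool.Agent.Work.MP_8c67d3_co.Local
import Pool.Agent.Work.MP_8c67d3_co.OneEnd
import Pool.Agent.Work.MP_8c67d3_co_helper39.L1
import Pool.Agent.Work.MP_8c67d3_co_helper39.L4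
import Pool.Agent.Work.MP_8c67d3_co_helper39.L5
import Pool.Agent.Work.MP_8c67d3_co_helper72.E

/-!
# Assembly of the case of nonzero curvature
-/

set_option autoImplicit false

namespace Tess

open CMap

/-! ### growth and ball sizes -/

/-- Ball sizes of the incidence graph. -/
noncomputable def qb {D : Type} (M : CMap D) (x : M.V ⊕ M.F) (n : ℕ) : ℕ :=
  {w | M.qd x w ≤ n}.ncard

theorem adm_shift {D : Type} {M : CMap D} {Δ : ℕ} (hP : M.Pre Δ) (x y : M.V ⊕ M.F) {r : ℝ}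
    (hr : 0 ≤ r) (h : Adm (qb M x) r) : Adm (qb M y) r := by
  obtain ⟨C, hC⟩ := h
  obtain ⟨hm, hfin, -⟩ := blockQ D M Δ hP
  refine ⟨C * r ^ M.qd x y, fun n => ?_⟩
  have h1 : qb M y n ≤ qb M x (M.qd x y + n) := by
    apply Set.ncard_le_ncard _ (hfin _ _)
    intro w hw
    have h2 : M.qd y w ≤ n := hw
    have h3 := hm.tri x y w
    show M.qd x w ≤ M.qd x y + n
    omega
  calc ((qb M y n : ℕ) : ℝ) ≤ (qb M x (M.qd x y + n) : ℝ) := by exact_mod_cast h1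
    _ ≤ C * r ^ (M.qd x y + n) := hC _
    _ = C * r ^ M.qd x y * r ^ n := by rw [pow_add]; ring

theorem growth_le_of_adm {D D' : Type} {M : CMap D} {M' : CMap D'} {Δ Δ' : ℕ} (hP : M.Pre Δ)
    (hP' : M'.Pre Δ') (x : M.V) (x' : M'.V)
    (h : ∀ r : ℝ, 0 ≤ r → Adm (qb M (Sum.inl x)) r → ∀ r' > r, Adm (qb M' (Sum.inl x')) r') :
    M'.growth x' ≤ M.growth x := by
  by_contra hlt
  rw [not_le] at hlt
  obtain ⟨c, hc1, hc2⟩ := exists_between hlt
  obtain ⟨c', hc3, hc4⟩ := exists_between hc2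
  have hcne : c ≠ ⊤ := (hc3.trans_le le_top).ne
  have hc'ne : c' ≠ ⊤ := (hc4.trans_le le_top).ne
  set r := Real.sqrt c.toReal with hr
  set r' := Real.sqrt c'.toReal with hr'
  have hsq : ENNReal.ofReal (r ^ 2) = c := by
    rw [hr, Real.sq_sqrt ENNReal.toReal_nonneg, ENNReal.ofReal_toReal hcne]
  have hsq' : ENNReal.ofReal (r' ^ 2) = c' := by
    rw [hr', Real.sq_sqrt ENNReal.toReal_nonneg, ENNReal.ofReal_toReal hc'ne]
  have hrr' : r < r' := by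
    rw [hr, hr']
    exact Real.sqrt_lt_sqrt ENNReal.toReal_nonneg ((ENNReal.toReal_lt_toReal hcne hc'ne).2 hc3)
  have h1 : Adm (qb M (Sum.inl x)) r :=
    (blockC D M Δ hP x).2 r (Real.sqrt_nonneg _) (by rw [hsq]; exact hc1)
  have h2 := h r (Real.sqrt_nonneg _) h1 r' hrr'
  have h3 := (blockC D' M' Δ' hP' x').1 r' (Real.sqrt_nonneg _) h2
  rw [hsq'] at h3
  exact absurd (lt_of_le_of_lt h3 hc4) (lt_irrefl _)

theorem adm_mono {b : ℕ → ℕ} {r r' : ℝ} (hr : 0 ≤ r) (h : Adm b r) (hrr : r ≤ r') :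
    Adm b r' := by
  obtain ⟨C, hC⟩ := h
  refine ⟨max C 0, fun n => (hC n).trans ?_⟩
  have h1 : C * r ^ n ≤ max C 0 * r ^ n := by
    gcongr
    exact le_max_left _ _
  refine h1.trans ?_
  gcongr

/-- The growth rate does not depend on the root. -/
theorem growth_root {D : Type} {M : CMap D} {Δ : ℕ} (hP : M.Pre Δ) (x y : M.V) :
    M.growth x = M.growth y := by
  apply le_antisymm
  · exact growth_le_of_adm hP hP y x (fun r hr h r' hr' =>
      adm_mono hr (adm_shift hP _ _ hr h) hr'.le)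
  · exact growth_le_of_adm hP hP x y (fun r hr h r' hr' =>
      adm_mono hr (adm_shift hP _ _ hr h) hr'.le)

/-! ### the class as a compact family -/

/-- The tessellations with valence sequence `σ`. -/
def Cls (σ : List ℕ) : Type 1 := Σ D : Type, {M : CMap D // M.IsTess ∧ M.HasSeq σ}

/-- Points of the incidence graph of a member of the class. -/
def ClsW (σ : List ℕ) (i : Cls σ) : Type := i.2.1.V ⊕ i.2.1.F

/-- Distance in the incidence graph of a member of the class. -/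
noncomputable def clsd (σ : List ℕ) (i : Cls σ) : ClsW σ i → ClsW σ i → ℕ := i.2.1.qd

/-- The class is closed. -/
theorem closed_class {σ : List ℕ} (hlen : 3 ≤ σ.length) (hσ : ∀ p ∈ σ, 3 ≤ p) {C : ℕ}
    (hC : ∀ (D : Type) (M : CMap D) (Δ : ℕ), M.Pre Δ → M.Plane → M.HasSeq σ → M.IsoF C)
    {D' : Type} (M' : CMap D') (d' : D') (hrun : ∀ e, ∃ w, M'.run w d' = e)
    (happ : ∀ L, ∃ (D : Type) (M : CMap D) (d : D), M.IsTess ∧ M.HasSeq σ ∧ Agree L M' d' M d) :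
    M'.IsTess ∧ M'.HasSeq σ := by
  obtain ⟨hseq, hpre, hloop, hmulti⟩ := local_statement σ hσ hlen D' M' d' hrun happ
  have hpos : 0 < σ.length := by omega
  have hplane : M'.Plane := by
    apply planeLimit (σ.length + σ.sum) C D' M' d' hrun hpre
    intro L
    obtain ⟨D, M, d, hT, hs, hA⟩ := happ L
    exact ⟨D, M, d, hT.pre hs hpos, hT.plane, hC D M _ (hT.pre hs hpos) hT.plane hs, hA⟩
  have hone : M'.OneEnded :=
    oneEnded_statement D' M' _ hpre (fillBlock D' M' _ hpre hplane).2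
  refine ⟨⟨hpre.infinite, hpre.connected, hpre.val_pos, hpre.face_pos, hplane, hone, hloop,
    hmulti, ?_⟩, hseq⟩
  apply threeConnLimit (σ.length + σ.sum) D' M' d' hrun hpre hone
  intro L
  obtain ⟨D, M, d, hT, hs, hA⟩ := happ L
  exact ⟨D, M, d, hT.pre hs hpos, hT.three_conn, hA⟩

theorem cls_compact {σ : List ℕ} (hlen : 3 ≤ σ.length) (hσ : ∀ p ∈ σ, 3 ≤ p) {C : ℕ}
    (hC : ∀ (D : Type) (M : CMap D) (Δ : ℕ), M.Pre Δ → M.Plane → M.HasSeq σ → M.IsoF C)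
    (s : ℕ → Σ i, ClsW σ i) :
    ∃ y : Σ i, ClsW σ i, ∀ n N, ∃ j, N ≤ j ∧ ∀ m ≤ n, bs (clsd σ) y m = bs (clsd σ) (s j) m := by
  have hpos : 0 < σ.length := by omega
  have hpre : ∀ i : Cls σ, i.2.1.Pre (σ.length + σ.sum) :=
    fun i => i.2.2.1.pre i.2.2.2 hpos
  by_cases hcase : ∀ N, ∃ j, N ≤ j ∧ ∃ v : (s j).1.2.1.V, (s j).2 = Sum.inl v
  · choose k hk v hv using hcase
    have hd : ∀ j, ∃ d, (s (k j)).1.2.1.vert d = v j := fun j => (s (k j)).1.2.1.vert_surj _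
    choose d hd using hd
    obtain ⟨D', M', d', hrun, hA⟩ := limit (σ.length + σ.sum) (fun j => (s (k j)).1.1)
      (fun j => (s (k j)).1.2.1) d (fun j => hpre _)
    have hcl : M'.IsTess ∧ M'.HasSeq σ := by
      apply closed_class hlen hσ hC M' d' hrun
      intro L
      obtain ⟨j, -, hj⟩ := hA L 0
      exact ⟨_, (s (k j)).1.2.1, d j, (s (k j)).1.2.2.1, (s (k j)).1.2.2.2, hj⟩
    refine ⟨⟨⟨D', M', hcl⟩, Sum.inl (M'.vert d')⟩, fun n N => ?_⟩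
    obtain ⟨L, hL⟩ := blockL2 (σ.length + σ.sum) n
    obtain ⟨j, hj, hag⟩ := hA L N
    refine ⟨k j, hj.trans (hk j), fun m hm => ?_⟩
    have h1 := (hL _ _ M' (s (k j)).1.2.1 d' (d j) (hcl.1.pre hcl.2 hpos) (hpre _) hag m hm).1
    have h2 : (s (k j)) = ⟨(s (k j)).1, Sum.inl ((s (k j)).1.2.1.vert (d j))⟩ := by
      rw [hd j, ← hv j]
    rw [h2]
    exact h1
  · push Not at hcase
    obtain ⟨N₀, hN₀⟩ := hcase
    have hcase2 : ∀ N, ∃ j, N ≤ j ∧ ∃ f : (s j).1.2.1.F, (s j).2 = Sum.inr f := by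
      intro N
      refine ⟨max N N₀, le_max_left _ _, ?_⟩
      have h1 := hN₀ _ (le_max_right N N₀)
      rcases h : (s (max N N₀)).2 with v | f
      · exact absurd h (h1 v)
      · exact ⟨f, rfl⟩
    choose k hk v hv using hcase2
    have hd : ∀ j, ∃ d, (s (k j)).1.2.1.fac d = v j := fun j => (s (k j)).1.2.1.fac_surj _
    choose d hd using hd
    obtain ⟨D', M', d', hrun, hA⟩ := limit (σ.length + σ.sum) (fun j => (s (k j)).1.1)
      (fun j => (s (k j)).1.2.1) d (fun j => hpre _)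
    have hcl : M'.IsTess ∧ M'.HasSeq σ := by
      apply closed_class hlen hσ hC M' d' hrun
      intro L
      obtain ⟨j, -, hj⟩ := hA L 0
      exact ⟨_, (s (k j)).1.2.1, d j, (s (k j)).1.2.2.1, (s (k j)).1.2.2.2, hj⟩
    refine ⟨⟨⟨D', M', hcl⟩, Sum.inr (M'.fac d')⟩, fun n N => ?_⟩
    obtain ⟨L, hL⟩ := blockL2 (σ.length + σ.sum) n
    obtain ⟨j, hj, hag⟩ := hA L N
    refine ⟨k j, hj.trans (hk j), fun m hm => ?_⟩
    have h1 := (hL _ _ M' (s (k j)).1.2.1 d' (d j) (hcl.1.pre hcl.2 hpos) (hpre _) hag m hm).2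
    have h2 : (s (k j)) = ⟨(s (k j)).1, Sum.inr ((s (k j)).1.2.1.fac (d j))⟩ := by
      rw [hd j, ← hv j]
    rw [h2]
    exact h1

theorem cls_pclass {σ : List ℕ} (hlen : 3 ≤ σ.length) (hσ : ∀ p ∈ σ, 3 ≤ p) {C : ℕ}
    (hC : ∀ (D : Type) (M : CMap D) (Δ : ℕ), M.Pre Δ → M.Plane → M.HasSeq σ → M.IsoF C) :
    PClass (ClsW σ) (clsd σ) (σ.length + σ.sum + 1) where
  metric i := (blockQ _ i.2.1 _ (i.2.2.1.pre i.2.2.2 (by omega))).1
  fin i := (blockQ _ i.2.1 _ (i.2.2.1.pre i.2.2.2 (by omega))).2.1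
  bound i := (blockQ _ i.2.1 _ (i.2.2.1.pre i.2.2.2 (by omega))).2.2.1
  compact := cls_compact hlen hσ hC

/-- The main theorem in the case of nonzero curvature, from the remaining blocks. -/
theorem main_of (hP1 : IsoFStatement) (hP2 : IsoEStatement) (hB : DeadEndStatement) :
    MainStatement := by
  intro σ hlen hσ hκ
  have hpos : 0 < σ.length := by omega
  refine ⟨fun D M x y hT hs => growth_root (hT.pre hs hpos) x y, fun hne => ?_⟩
  obtain ⟨C, hC⟩ := hP1 σ hlen hσ hκ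
  set Δ := σ.length + σ.sum with hΔ
  obtain ⟨C', hC'⟩ := hP2 Δ C
  obtain ⟨A, B, hAB⟩ := logIn blockQ Δ C'
  obtain ⟨δ, hδ⟩ := hyp A B
  obtain ⟨R, hR⟩ := hB Δ C' δ
  have hcls := cls_pclass hlen hσ hC
  have hpre : ∀ i : Cls σ, i.2.1.Pre Δ := fun i => i.2.2.1.pre i.2.2.2 hpos
  have hfill : ∀ i : Cls σ, i.2.1.Fill := fun i => (fillBlock _ _ _ (hpre i) i.2.2.1.plane).1
  have hiso : ∀ i : Cls σ, i.2.1.IsoE C' :=
    fun i => hC' _ _ (hpre i) (hC _ _ _ (hpre i) i.2.2.1.plane i.2.2.2)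
  have hF : ∀ i : Cls σ, FourPoint (clsd σ i) δ := fun i =>
    hδ _ _ (hcls.metric i) (hAB _ _ (hpre i) (hfill i) (hiso i))
  have hND : ∀ i : Cls σ, NoDeepDeadEnds (clsd σ i) R := fun i =>
    hR _ _ (hpre i) (hfill i) (hiso i) (hF i)
  obtain ⟨g, D, M, x, hT, hs, hg⟩ := hne
  have hnon : Nonempty (Σ i, ClsW σ i) := ⟨⟨⟨D, M, hT, hs⟩, Sum.inl x⟩⟩
  have hvert : ∀ i : Cls σ, ∃ v : i.2.1.V, True := by
    intro i
    haveI := (hpre i).infinite
    obtain ⟨d⟩ : Nonempty i.1 := inferInstance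
    exact ⟨i.2.1.vert d, trivial⟩
  constructor
  · obtain ⟨y₁, hy₁⟩ := NB.infStatement (Cls σ) (ClsW σ) (clsd σ) (Δ + 1) δ R hcls hF hND hnon
    obtain ⟨x₁, -⟩ := hvert y₁.1
    refine ⟨y₁.1.2.1.growth x₁, ⟨y₁.1.1, y₁.1.2.1, x₁, y₁.1.2.2.1, y₁.1.2.2.2, rfl⟩, ?_⟩
    rintro g' ⟨D', M', x', hT', hs', rfl⟩
    apply growth_le_of_adm (hT'.pre hs' hpos) (hpre y₁.1)
    intro r hr hadm r' hr'
    have h1 := hy₁ ⟨⟨D', M', hT', hs'⟩, Sum.inl x'⟩ r hadm r' hr'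
    exact adm_shift (hpre y₁.1) y₁.2 (Sum.inl x₁) (hr.trans hr'.le) h1
  · obtain ⟨y₂, hy₂⟩ := blockS (Cls σ) (ClsW σ) (clsd σ) (Δ + 1) hcls hnon
    obtain ⟨x₂, -⟩ := hvert y₂.1
    refine ⟨y₂.1.2.1.growth x₂, ⟨y₂.1.1, y₂.1.2.1, x₂, y₂.1.2.2.1, y₂.1.2.2.2, rfl⟩, ?_⟩
    rintro g' ⟨D', M', x', hT', hs', rfl⟩
    apply growth_le_of_adm (hpre y₂.1) (hT'.pre hs' hpos)
    intro r hr hadm r' hr'
    have h0 : Adm (bs (clsd σ) y₂) r :=
      adm_shift (hpre y₂.1) (Sum.inl x₂) y₂.2 hr hadm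
    exact hy₂ ⟨⟨D', M', hT', hs'⟩, Sum.inl x'⟩ r h0 r' hr'

end Tess
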