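import Pool.Agent.Work.MP_8c67d3_co.Transfer

/-!
# Interface of the flat case (curvature zero): all tessellations of the class have the same growth
-/

set_option autoImplicit false

namespace Tess

/-- The mirror image. -/
def CMap.mirror {D : Type} (M : CMap D) : CMap D where
  rot := M.rot.symm
  inv := M.inv
  inv_inv := M.inv_inv
  inv_ne := M.inv_ne

/-- Block FL1 (a plane map is simply connected). -/
def SimplyStatement : Prop :=
  ∀ (D D' : Type) (M : CMap D) (M' : CMap D') (Δ : ℕ) (d : D) (d' : D'), M.Pre Δ → M.Plane →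
    (∀ w, M'.val (M'.run w d') = M.val (M.run w d)) →
    (∀ w, Function.minimalPeriod M'.face (M'.run w d') =
      Function.minimalPeriod M.face (M.run w d)) →
    ∀ w, M.run w d = d → M'.run w d' = d'

/-- Block MI (mirror images). -/
def MirrorStatement : Prop :=
  ∀ (σ : List ℕ) (D : Type) (M : CMap D), M.IsTess → M.HasSeq σ → 0 < σ.length →
    M.mirror.IsTess ∧ M.mirror.HasSeq σ ∧ ∀ x : M.V, ∃ x' : M.mirror.V,
      M.mirror.growth x' = M.growth x

/-- A deterministic description of the local structure of a map. -/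
structure Machine (S : Type) where
  rot : S → S
  inv : S → S
  val : S → ℕ

/-- The labelling `st` of the darts of `M` follows the machine `m`. -/
def Follows {S D : Type} (m : Machine S) (M : CMap D) (st : D → S) : Prop :=
  ∀ d, st (M.rot d) = m.rot (st d) ∧ st (M.inv d) = m.inv (st d) ∧ M.val d = m.val (st d)

/-- Every tessellation with valence sequence `σ` or its mirror image follows one and the same
machine and contains one and the same state. -/
def Rigid (σ : List ℕ) : Prop :=
  ∃ (S : Type) (m : Machine S) (s₀ : S), ∀ (D : Type) (M : CMap D), M.IsTess → M.HasSeq σ →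
    ∃ M' : CMap D, (M' = M ∨ M' = M.mirror) ∧ ∃ st : D → S, Follows m M' st ∧ ∃ d, st d = s₀

/-- The consecutive triples of a cyclic sequence. -/
def triples (σ : List ℕ) : List (ℕ × ℕ × ℕ) := σ.zip ((σ.rotate 1).zip (σ.rotate 2))

/-- Two consecutive entries (in one of the two directions) determine the next one. -/
def Det (σ : List ℕ) : Prop :=
  ∀ t ∈ triples σ ++ triples σ.reverse, ∀ t' ∈ triples σ ++ triples σ.reverse,
    t.1 = t'.1 → t.2.1 = t'.2.1 → t.2.2 = t'.2.2

instance (σ : List ℕ) : Decidable (Det σ) := by unfold Det; infer_instance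

/-- Block FD. -/
def DetStatement : Prop := ∀ σ : List ℕ, 3 ≤ σ.length → Det σ → Rigid σ

/-- Block FP (parity: no tessellation). -/
def ParityStatement : Prop :=
  Rigid [3, 3, 4, 12] ∧ Rigid [3, 3, 6, 6] ∧ Rigid [3, 4, 4, 6]

/-- Block F5a. -/
def F5aStatement : Prop := Rigid [3, 3, 3, 4, 4]

/-- Block F5b. -/
def F5bStatement : Prop := Rigid [3, 3, 4, 3, 4]

/-- Block F5c. -/
def F5cStatement : Prop := Rigid [3, 3, 3, 3, 6]

/-- Block FC (classification of the flat valence sequences). -/
def FlatClassStatement : Prop :=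
  ∀ σ : List ℕ, 3 ≤ σ.length → (∀ p ∈ σ, 3 ≤ p) → curv σ = 0 →
    Det σ ∨ ∃ τ ∈ ([[3, 3, 4, 12], [3, 3, 6, 6], [3, 4, 4, 6], [3, 3, 3, 4, 4], [3, 3, 4, 3, 4],
      [3, 3, 3, 3, 6]] : List (List ℕ)), σ ~r τ ∨ σ ~r τ.reverse

/-- Block FR (rotation and reversal do not change the class). -/
def RigidCongrStatement : Prop :=
  ∀ σ τ : List ℕ, (σ ~r τ ∨ σ ~r τ.reverse) → Rigid τ → Rigid σ

/-- The flat case. -/
def FlatStatement : Prop :=
  ∀ σ : List ℕ, 3 ≤ σ.length → (∀ p ∈ σ, 3 ≤ p) → curv σ = 0 →
    ∀ (D D' : Type) (M : CMap D) (M' : CMap D') (x : M.V) (x' : M'.V), M.IsTess → M.HasSeq σ →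
      M'.IsTess → M'.HasSeq σ → M.growth x = M'.growth x'

end Tess
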