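import Pool.Agent.Work.MP_8c67d3_co.Final
import Pool.Agent.Work.MP_8c67d3_co.InterfaceFL

/-!
# Assembly of the flat case
-/

set_option autoImplicit false

namespace Tess

open CMap

theorem run_rw'_one (w : List Bool) : true :: w = rw' 1 ++ w := rfl

/-- A word which undoes `w`. -/
def undo (N : ℕ) : List Bool → List Bool
  | [] => []
  | b :: w => undo N w ++ (if b then rw' N else [false])

theorem run_undo {D : Type} {M : CMap D} {Δ : ℕ} (hP : M.Pre Δ) (w : List Bool) (d : D) :
    M.run (undo (Δ.factorial - 1) w) (M.run w d) = d := by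
  induction w generalizing d with
  | nil => rfl
  | cons b w ih =>
    unfold undo
    rw [run_append]
    cases b with
    | true =>
      simp only [if_true]
      rw [run_cons_true, run_rw', ← Equiv.Perm.mul_apply, ← pow_succ,
        Nat.sub_add_cancel (Nat.factorial_pos Δ)]
      have h1 : M.val (M.run w d) ∣ Δ.factorial :=
        Nat.dvd_factorial (hP.val_pos _) (hP.val_le _)
      have h2 : (M.rot ^ Δ.factorial) (M.run w d) = M.run w d := by
        rw [← iterate_eq_pow']
        exact (Function.isPeriodicPt_minimalPeriod M.rot (M.run w d)).trans_dvd h1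
      rw [h2]
      exact ih d
    | false =>
      simp only [Bool.false_eq_true, if_false]
      rw [run_cons_false]
      show M.run (undo (Δ.factorial - 1) w) (M.inv (M.inv (M.run w d))) = d
      rw [M.inv_inv]
      exact ih d

theorem follows_run {S D : Type} {m : Machine S} {M : CMap D} {st : D → S}
    (h : Follows m M st) (w : List Bool) (d : D) :
    st (M.run w d) = w.foldr (fun b s => if b then m.rot s else m.inv s) (st d) := by
  induction w with
  | nil => rfl
  | cons b w ih =>
    cases b with
    | true => rw [run_cons_true, (h _).1, ih]; rfl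
    | false => rw [run_cons_false, (h _).2.1, ih]; rfl

theorem agree_of_machine (hS : SimplyStatement) {σ : List ℕ} (hpos : 0 < σ.length)
    {S D D' : Type} {m : Machine S} {M : CMap D} {M' : CMap D'} {st : D → S} {st' : D' → S}
    {d : D} {d' : D'} (hT : M.IsTess) (hs : M.HasSeq σ) (hT' : M'.IsTess) (hs' : M'.HasSeq σ)
    (hf : Follows m M st) (hf' : Follows m M' st') (hd : st d = st' d') (L : ℕ) :
    Agree L M d M' d' := by
  have hP := hT.pre hs hpos
  have hP' := hT'.pre hs' hpos
  have hst : ∀ w, st (M.run w d) = st' (M'.run w d') := by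
    intro w
    rw [follows_run hf, follows_run hf', hd]
  have hval : ∀ w, M'.val (M'.run w d') = M.val (M.run w d) := by
    intro w
    rw [(hf _).2.2, (hf' _).2.2, hst]
  have hface : ∀ w, Function.minimalPeriod M'.face (M'.run w d') =
      Function.minimalPeriod M.face (M.run w d) := by
    intro w
    rw [hs.face_len, hs'.face_len]
  have h1 := hS D D' M M' _ d d' hP hT.plane hval hface
  have h2 := hS D' D M' M _ d' d hP' hT'.plane (fun w => (hval w).symm)
    (fun w => (hface w).symm)
  set N := (σ.length + σ.sum).factorial - 1 with hN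
  have key : ∀ w w' : List Bool, M.run w d = M.run w' d ↔ M.run (undo N w ++ w') d = d := by
    intro w w'
    rw [run_append]
    constructor
    · intro h
      rw [← h]
      exact run_undo hP w d
    · intro h
      have h3 := run_undo hP w d
      rw [← hN] at h3
      have hinj : Function.Injective (M.run (undo N w)) := by
        intro a b hab
        have : ∀ (u : List Bool), Function.Injective (M.run u) := by
          intro u
          induction u with
          | nil => exact fun _ _ h => h
          | cons c u ih =>
            intro x y hxy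
            cases c with
            | true => exact ih (M.rot.injective hxy)
            | false => exact ih (M.inv.injective hxy)
        exact this _ hab
      exact hinj (h3.trans h.symm)
  have key' : ∀ w w' : List Bool, M'.run w d' = M'.run w' d' ↔
      M'.run (undo N w ++ w') d' = d' := by
    intro w w'
    rw [run_append]
    constructor
    · intro h
      rw [← h]
      exact run_undo hP' w d'
    · intro h
      have h3 := run_undo hP' w d'
      rw [← hN] at h3
      have hinj : Function.Injective (M'.run (undo N w)) := by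
        intro a b hab
        have : ∀ (u : List Bool), Function.Injective (M'.run u) := by
          intro u
          induction u with
          | nil => exact fun _ _ h => h
          | cons c u ih =>
            intro x y hxy
            cases c with
            | true => exact ih (M'.rot.injective hxy)
            | false => exact ih (M'.inv.injective hxy)
        exact this _ hab
      exact hinj (h3.trans h.symm)
  intro w w' _ _
  rw [key, key']
  exact ⟨h1 _, h2 _⟩

theorem growth_eq_of_agree {D D' : Type} {M : CMap D} {M' : CMap D'} {Δ : ℕ} {d : D} {d' : D'}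
    (hP : M.Pre Δ) (hP' : M'.Pre Δ) (h : ∀ L, Agree L M d M' d') :
    M.growth (M.vert d) = M'.growth (M'.vert d') := by
  have hb : ∀ n, qb M (Sum.inl (M.vert d)) n = qb M' (Sum.inl (M'.vert d')) n := by
    intro n
    obtain ⟨L, hL⟩ := blockL2 Δ n
    exact (hL D D' M M' d d' hP hP' (h L) n le_rfl).1
  have hb' : qb M (Sum.inl (M.vert d)) = qb M' (Sum.inl (M'.vert d')) := funext hb
  apply le_antisymm
  · apply growth_le_of_adm hP' hP
    intro r hr hadm r' hr'
    rw [hb']
    exact adm_mono hr hadm hr'.le
  · apply growth_le_of_adm hP hP'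
    intro r hr hadm r' hr'
    rw [← hb']
    exact adm_mono hr hadm hr'.le

theorem growth_eq_of_rigid (hS : SimplyStatement) (hMi : MirrorStatement) {σ : List ℕ}
    (hpos : 0 < σ.length) (hR : Rigid σ) (D D' : Type) (M : CMap D) (M' : CMap D') (x : M.V)
    (x' : M'.V) (hT : M.IsTess) (hs : M.HasSeq σ) (hT' : M'.IsTess) (hs' : M'.HasSeq σ) :
    M.growth x = M'.growth x' := by
  obtain ⟨S, m, s₀, h⟩ := hR
  -- replace a map by its mirror image
  have hrep : ∀ (D : Type) (M : CMap D) (x : M.V), M.IsTess → M.HasSeq σ →
      ∃ (N : CMap D) (y : N.V), N.IsTess ∧ N.HasSeq σ ∧ N.growth y = M.growth x ∧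
        ∃ st : D → S, Follows m N st ∧ ∃ d, st d = s₀ := by
    intro D M x hT hs
    obtain ⟨N, hN, hst⟩ := h D M hT hs
    rcases hN with rfl | rfl
    · exact ⟨N, x, hT, hs, rfl, hst⟩
    · obtain ⟨h1, h2, h3⟩ := hMi σ D M hT hs hpos
      obtain ⟨y, hy⟩ := h3 x
      exact ⟨M.mirror, y, h1, h2, hy, hst⟩
  obtain ⟨N, y, hNT, hNs, hNg, st, hf, d, hd⟩ := hrep D M x hT hs
  obtain ⟨N', y', hNT', hNs', hNg', st', hf', d', hd'⟩ := hrep D' M' x' hT' hs'
  have hP := hNT.pre hNs hpos
  have hP' := hNT'.pre hNs' hpos
  have hag := growth_eq_of_agree hP hP'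
    (agree_of_machine hS hpos hNT hNs hNT' hNs' hf hf' (hd.trans hd'.symm))
  rw [← hNg, ← hNg', growth_root hP y (N.vert d), growth_root hP' y' (N'.vert d'), hag]

/-- The flat case, from its blocks. -/
theorem flat_of (hS : SimplyStatement) (hMi : MirrorStatement) (hD : DetStatement)
    (hPa : ParityStatement) (h5a : F5aStatement) (h5b : F5bStatement) (h5c : F5cStatement)
    (hFC : FlatClassStatement) (hFR : RigidCongrStatement) : FlatStatement := by
  intro σ hlen hσ hκ D D' M M' x x' hT hs hT' hs'
  have hR : Rigid σ := by
    rcases hFC σ hlen hσ hκ with h | ⟨τ, hτ, hστ⟩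
    · exact hD σ hlen h
    · apply hFR σ τ hστ
      simp only [List.mem_cons, List.not_mem_nil, or_false] at hτ
      rcases hτ with rfl | rfl | rfl | rfl | rfl | rfl
      · exact hPa.1
      · exact hPa.2.1
      · exact hPa.2.2
      · exact h5a
      · exact h5b
      · exact h5c
  exact growth_eq_of_rigid hS hMi (by omega) hR D D' M M' x x' hT hs hT' hs'

/-- The final theorem: no assumption on the curvature. -/
def FinalStatement : Prop :=
  ∀ σ : List ℕ, 3 ≤ σ.length → (∀ p ∈ σ, 3 ≤ p) →
    (∀ (D : Type) (M : CMap D) (x y : M.V), M.IsTess → M.HasSeq σ → M.growth x = M.growth y) ∧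
    ((Rates σ).Nonempty → (∃ g, IsLeast (Rates σ) g) ∧ (∃ g, IsGreatest (Rates σ) g))

theorem final_of (hmain : MainStatement) (hflat : FlatStatement) : FinalStatement := by
  intro σ hlen hσ
  by_cases hκ : curv σ = 0
  · refine ⟨fun D M x y hT hs => growth_root (hT.pre hs (by omega)) x y, fun hne => ?_⟩
    obtain ⟨g, D, M, x, hT, hs, rfl⟩ := hne
    have hall : ∀ g' ∈ Rates σ, g' = M.growth x := by
      rintro g' ⟨D', M', x', hT', hs', rfl⟩
      exact hflat σ hlen hσ hκ D' D M' M x' x hT' hs' hT hs
    have hmem : M.growth x ∈ Rates σ := ⟨D, M, x, hT, hs, rfl⟩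
    exact ⟨⟨_, hmem, fun g' hg' => (hall g' hg').ge⟩, ⟨_, hmem, fun g' hg' => (hall g' hg').le⟩⟩
  · exact hmain σ hlen hσ hκ

end Tess
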