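import Pool.Agent.Work.MP_8c67d3_co.Main
import Pool.Agent.Work.MP_8c67d3_co.FlatFinal
import Pool.Agent.Work.MP_8c67d3_co.FL1
import Pool.Agent.Work.MP_8c67d3_co.FD
import Pool.Agent.Work.MP_8c67d3_co.FP
import Pool.Agent.Work.MP_8c67d3_co.FC
import Pool.Agent.Work.MP_8c67d3_co.FR
import Pool.Agent.Work.MP_8c67d3_co.F5c

/-!
# The final theorem without assumption on the curvature
-/

set_option autoImplicit false

namespace Tess

theorem flatTheorem : FlatStatement :=
  flat_of simply mirrorBlock det parity f5a_statement f5b_statement f5c_statement flatClass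
    rigidCongr

theorem finalTheorem : FinalStatement := final_of mainTheorem flatTheorem

end Tess
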