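import Pool.Agent.Work.MP_8c67d3_co.Basic

/-!
# Interface of the project MP_8c67d3_co

All notions which are not needed for the final statement but are shared by several blocks, and the
exact statement (`…Statement : Prop`) which every block has to prove.  See BLUEPRINT.md.
-/

set_option autoImplicit false

namespace Tess

/-! ## Abstract metric notions -/

/-- `d` is the graph metric of a connected graph. -/
structure IsGraphMetric {W : Type} (d : W → W → ℕ) : Prop where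
  self : ∀ x, d x x = 0
  eq_of : ∀ x y, d x y = 0 → x = y
  symm : ∀ x y, d x y = d y x
  tri : ∀ x y z, d x z ≤ d x y + d y z
  geod : ∀ x y n, n ≤ d x y → ∃ z, d x z = n ∧ n + d z y = d x y

/-- Gromov's four point condition. -/
def FourPoint {W : Type} (d : W → W → ℕ) (δ : ℕ) : Prop :=
  ∀ x u v w, d x v + d u w ≤ max (d x w + d u v) (d x u + d v w) + δ

/-- Geodesics can be extended up to an additive error `R`. -/
def NoDeepDeadEnds {W : Type} (d : W → W → ℕ) (R : ℕ) : Prop :=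
  ∀ x v t, ∃ w, d x w = d x v + t ∧ d x v + d v w ≤ d x w + R

/-- Every point of a geodesic from `x` to `y` is logarithmically close to any path from `x` to
`y`, in terms of the length `l` of the path. -/
def LogIn {W : Type} (d : W → W → ℕ) (A B : ℕ) : Prop :=
  ∀ (x y w : W) (l : ℕ) (p : ℕ → W), p 0 = x → p l = y → (∀ i < l, d (p i) (p (i + 1)) ≤ 1) →
    d x w + d w y = d x y → ∃ i ≤ l, d w (p i) ≤ A + B * Nat.log 2 (l + 1)

/-- `b n ≤ C r^n`. -/
def Adm (b : ℕ → ℕ) (r : ℝ) : Prop := ∃ C : ℝ, ∀ n, (b n : ℝ) ≤ C * r ^ n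

/-- Ball sizes of a pointed object `y = (i, root)` of a family of metric spaces. -/
noncomputable def bs {ι : Type 1} {W : ι → Type} (d : ∀ i, W i → W i → ℕ) (y : Σ i, W i) (n : ℕ) :
    ℕ := {w | d y.1 y.2 w ≤ n}.ncard

/-- A family of graph metrics with uniformly exponentially bounded balls which is compact with
respect to pointed convergence of the ball sizes. -/
structure PClass {ι : Type 1} (W : ι → Type) (d : ∀ i, W i → W i → ℕ) (Δ : ℕ) : Prop where
  metric : ∀ i, IsGraphMetric (d i)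
  fin : ∀ i x n, {w | d i x w ≤ n}.Finite
  bound : ∀ i x n, {w | d i x w ≤ n}.ncard ≤ Δ ^ n
  compact : ∀ s : ℕ → Σ i, W i, ∃ y : Σ i, W i, ∀ n N, ∃ j, N ≤ j ∧
    ∀ m ≤ n, bs d y m = bs d (s j) m

/-! ## Notions for combinatorial maps -/

namespace CMap

variable {D : Type} (M : CMap D)

/-- Standing assumptions: infinite, connected, all vertex and face orbits of size at most `Δ`. -/
structure Pre (Δ : ℕ) : Prop where
  infinite : Infinite D
  connected : ∀ u v, M.Reach ∅ u v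
  val_pos : ∀ d, 0 < M.val d
  val_le : ∀ d, M.val d ≤ Δ
  face_pos : ∀ d, 0 < Function.minimalPeriod M.face d
  face_le : ∀ d, Function.minimalPeriod M.face d ≤ Δ

/-- The incidence graph of vertices and faces (its edges are the corners, i.e. the darts). -/
def Q : SimpleGraph (M.V ⊕ M.F) where
  Adj a b := ∃ d, (a = Sum.inl (M.vert d) ∧ b = Sum.inr (M.fac d)) ∨
    (a = Sum.inr (M.fac d) ∧ b = Sum.inl (M.vert d))
  symm := ⟨fun _ _ ⟨d, h⟩ => ⟨d, h.symm.imp And.symm And.symm⟩⟩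
  loopless := ⟨fun _ ⟨_, h⟩ => by rcases h with ⟨rfl, h⟩ | ⟨rfl, h⟩ <;> simp at h⟩

/-- The distance in the incidence graph. -/
noncomputable def qd (a b : M.V ⊕ M.F) : ℕ := M.Q.dist a b

/-- The corners on the boundary of a set of edges: edges are 2-cells (quadrilaterals) of the
incidence graph, the corner `d` is on the boundary of the edge of `d` and of that of `rot d`. -/
def bd (E : Set D) : Set D := {d | ¬ (d ∈ E ↔ M.rot d ∈ E)}

/-- Every finite cycle of corners is the boundary of a finite set of edges. -/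
def Fill : Prop :=
  ∀ z : Finset D, (∀ v : M.V, Even {d | d ∈ z ∧ M.vert d = v}.ncard) →
    (∀ f : M.F, Even {d | d ∈ z ∧ M.fac d = f}.ncard) →
    ∃ E : Finset D, (∀ d ∈ E, M.inv d ∈ E) ∧ ∀ d, d ∈ z ↔ d ∈ M.bd ↑E

/-- Every finite set of edges which is even on each face is the coboundary of a finite set of
vertices. -/
def DualPlane : Prop :=
  ∀ A : Finset D, (∀ d ∈ A, M.inv d ∈ A) →
    (∀ f : M.F, Even {d | d ∈ A ∧ M.fac d = f}.ncard) →
    ∃ X : Finset M.V, ∀ d, d ∈ A ↔ ¬ (M.vert d ∈ X ↔ M.vert (M.inv d) ∈ X)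

/-- Linear isoperimetric inequality for sets of faces. -/
def IsoF (C : ℕ) : Prop :=
  ∀ X : Finset M.F, X.card ≤ C * {d | M.fac d ∈ X ∧ M.fac (M.inv d) ∉ X}.ncard

/-- Linear isoperimetric inequality for sets of edges. -/
def IsoE (C : ℕ) : Prop :=
  ∀ E : Finset D, (∀ d ∈ E, M.inv d ∈ E) → E.card ≤ C * (M.bd ↑E).ncard

/-- The dart reached from `d` by a word in `rot` (`true`) and `inv` (`false`), the last letter
acting first. -/
def run (w : List Bool) (d : D) : D := w.foldr (fun b e => if b then M.rot e else M.inv e) d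

end CMap

/-- The two pointed maps agree on words of length at most `L`. -/
def Agree (L : ℕ) {D D' : Type} (M : CMap D) (d : D) (M' : CMap D') (d' : D') : Prop :=
  ∀ w w' : List Bool, w.length ≤ L → w'.length ≤ L →
    (M.run w d = M.run w' d ↔ M'.run w d' = M'.run w' d')

/-! ## Statements of the blocks -/

/-- Block S. -/
def SupStatement : Prop :=
  ∀ (ι : Type 1) (W : ι → Type) (d : ∀ i, W i → W i → ℕ) (Δ : ℕ), PClass W d Δ →
    Nonempty (Σ i, W i) →
    ∃ y₂ : Σ i, W i, ∀ (y : Σ i, W i) (r : ℝ), Adm (bs d y₂) r → ∀ r' > r, Adm (bs d y) r'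

/-- Block N. -/
def InfStatement : Prop :=
  ∀ (ι : Type 1) (W : ι → Type) (d : ∀ i, W i → W i → ℕ) (Δ δ R : ℕ), PClass W d Δ →
    (∀ i, FourPoint (d i) δ) → (∀ i, NoDeepDeadEnds (d i) R) → Nonempty (Σ i, W i) →
    ∃ y₁ : Σ i, W i, ∀ (y : Σ i, W i) (r : ℝ), Adm (bs d y) r → ∀ r' > r, Adm (bs d y₁) r'

/-- Block H2. -/
def HypStatement : Prop :=
  ∀ A B : ℕ, ∃ δ : ℕ, ∀ (W : Type) (d : W → W → ℕ), IsGraphMetric d → LogIn d A B → FourPoint d δ

/-- Block Q (basic facts on the incidence graph). -/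
def QStatement : Prop :=
  ∀ (D : Type) (M : CMap D) (Δ : ℕ), M.Pre Δ →
    IsGraphMetric M.qd ∧ (∀ x n, {w | M.qd x w ≤ n}.Finite) ∧
    (∀ x n, {w | M.qd x w ≤ n}.ncard ≤ (Δ + 1) ^ n) ∧
    (∀ x d, M.qd x (Sum.inl (M.vert d)) = M.qd x (Sum.inr (M.fac d)) + 1 ∨
      M.qd x (Sum.inr (M.fac d)) = M.qd x (Sum.inl (M.vert d)) + 1) ∧
    (∀ x n, ∃ w, M.qd x w = n)

/-- Block E. -/
def FillStatement : Prop :=
  ∀ (D : Type) (M : CMap D) (Δ : ℕ), M.Pre Δ → M.Plane → M.Fill ∧ M.DualPlane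

/-- Block G1. -/
def OneEndedStatement : Prop :=
  ∀ (D : Type) (M : CMap D) (Δ : ℕ), M.Pre Δ → M.DualPlane → M.OneEnded

/-- Block P1. -/
def IsoFStatement : Prop :=
  ∀ σ : List ℕ, 3 ≤ σ.length → (∀ p ∈ σ, 3 ≤ p) → curv σ ≠ 0 →
    ∃ C : ℕ, ∀ (D : Type) (M : CMap D) (Δ : ℕ), M.Pre Δ → M.Plane → M.HasSeq σ → M.IsoF C

/-- Block P2. -/
def IsoEStatement : Prop :=
  ∀ Δ C : ℕ, ∃ C' : ℕ, ∀ (D : Type) (M : CMap D), M.Pre Δ → M.IsoF C → M.IsoE C'

/-- Block H1. -/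
def LogInStatement : Prop :=
  ∀ Δ C : ℕ, ∃ A B : ℕ, ∀ (D : Type) (M : CMap D), M.Pre Δ → M.Fill → M.IsoE C → LogIn M.qd A B

/-- Block B. -/
def DeadEndStatement : Prop :=
  ∀ Δ C δ : ℕ, ∃ R : ℕ, ∀ (D : Type) (M : CMap D), M.Pre Δ → M.Fill → M.IsoE C →
    FourPoint M.qd δ → NoDeepDeadEnds M.qd R

/-- Block L1 (limits exist). -/
def LimitStatement : Prop :=
  ∀ (Δ : ℕ) (D : ℕ → Type) (M : ∀ j, CMap (D j)) (d : ∀ j, D j), (∀ j, (M j).Pre Δ) →
    ∃ (D' : Type) (M' : CMap D') (d' : D'), (∀ e, ∃ w, M'.run w d' = e) ∧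
      ∀ L N, ∃ j, N ≤ j ∧ Agree L M' d' (M j) (d j)

/-- Block L2 (agreement on words gives equal ball sizes). -/
def BallStatement : Prop :=
  ∀ Δ n : ℕ, ∃ L : ℕ, ∀ (D D' : Type) (M : CMap D) (M' : CMap D') (d : D) (d' : D'),
    M.Pre Δ → M'.Pre Δ → Agree L M d M' d' → ∀ m ≤ n,
      {w | M.qd (Sum.inl (M.vert d)) w ≤ m}.ncard = {w | M'.qd (Sum.inl (M'.vert d')) w ≤ m}.ncard ∧
      {w | M.qd (Sum.inr (M.fac d)) w ≤ m}.ncard = {w | M'.qd (Sum.inr (M'.fac d')) w ≤ m}.ncard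

/-- Block L3 (local properties pass to the limit). -/
def LocalStatement : Prop :=
  ∀ (σ : List ℕ), (∀ p ∈ σ, 3 ≤ p) → 3 ≤ σ.length →
    ∀ (D' : Type) (M' : CMap D') (d' : D'), (∀ e, ∃ w, M'.run w d' = e) →
    (∀ L, ∃ (D : Type) (M : CMap D) (d : D), M.IsTess ∧ M.HasSeq σ ∧ Agree L M' d' M d) →
    M'.HasSeq σ ∧ M'.Pre (σ.length + σ.sum) ∧ (∀ e, M'.vert (M'.inv e) ≠ M'.vert e) ∧
    (∀ e e', M'.vert e = M'.vert e' → M'.vert (M'.inv e) = M'.vert (M'.inv e') → e = e')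

/-- Block L4 (planarity passes to the limit). -/
def PlaneLimitStatement : Prop :=
  ∀ (Δ C : ℕ) (D' : Type) (M' : CMap D') (d' : D'), (∀ e, ∃ w, M'.run w d' = e) → M'.Pre Δ →
    (∀ L, ∃ (D : Type) (M : CMap D) (d : D), M.Pre Δ ∧ M.Plane ∧ M.IsoF C ∧ Agree L M' d' M d) →
    M'.Plane

/-- Block L5 (3-connectivity passes to the limit). -/
def ThreeConnLimitStatement : Prop :=
  ∀ (Δ : ℕ) (D' : Type) (M' : CMap D') (d' : D'), (∀ e, ∃ w, M'.run w d' = e) → M'.Pre Δ →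
    M'.OneEnded →
    (∀ L, ∃ (D : Type) (M : CMap D) (d : D), M.Pre Δ ∧
      (∀ u v a b : M.V, a ≠ u → a ≠ v → b ≠ u → b ≠ v → M.Reach {u, v} a b) ∧
      Agree L M' d' M d) →
    ∀ u v a b : M'.V, a ≠ u → a ≠ v → b ≠ u → b ≠ v → M'.Reach {u, v} a b

/-- Block C (coronas and balls of the incidence graph). -/
def CoronaStatement : Prop :=
  ∀ (D : Type) (M : CMap D) (Δ : ℕ), M.Pre Δ → ∀ (x : M.V),
    (∀ r : ℝ, 0 ≤ r → Adm (fun n => {w | M.qd (Sum.inl x) w ≤ n}.ncard) r →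
      M.growth x ≤ ENNReal.ofReal (r ^ 2)) ∧
    (∀ r : ℝ, 0 ≤ r → M.growth x < ENNReal.ofReal (r ^ 2) →
      Adm (fun n => {w | M.qd (Sum.inl x) w ≤ n}.ncard) r)

/-- The final theorem (hyperbolic and elliptic case). -/
def MainStatement : Prop :=
  ∀ σ : List ℕ, 3 ≤ σ.length → (∀ p ∈ σ, 3 ≤ p) → curv σ ≠ 0 →
    (∀ (D : Type) (M : CMap D) (x y : M.V), M.IsTess → M.HasSeq σ → M.growth x = M.growth y) ∧
    ((Rates σ).Nonempty → (∃ g, IsLeast (Rates σ) g) ∧ (∃ g, IsGreatest (Rates σ) g))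

end Tess
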