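import Pool.Agent.Work.MP_8c67d3_co.Interface

/-!
# Block P2: the edge version of the isoperimetric inequality
-/

set_option autoImplicit false

namespace Tess

namespace CMap

variable {D : Type} (M : CMap D)

theorem card_fac_fibre_le {Δ : ℕ} (hP : M.Pre Δ) (f : M.F) (T : Finset D)
    (hT : ∀ d ∈ T, M.fac d = f) : T.card ≤ Δ := by
  obtain ⟨d, rfl⟩ := M.fac_surj f
  have h1 : (↑T : Set D) ⊆ {e | M.fac e = M.fac d} := fun e he => hT e he
  have h2 := Set.ncard_le_ncard h1 (M.finite_fac (hP.face_pos d))
  rw [Set.ncard_coe_finset, M.ncard_fac (hP.face_pos d)] at h2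
  exact h2.trans (hP.face_le d)

theorem isoE_of_isoF {Δ C : ℕ} (hP : M.Pre Δ) (hF : M.IsoF C) : M.IsoE (Δ * (C * Δ + 1)) := by
  classical
  intro E hE
  have hinv : ∀ d, M.inv d ∈ E ↔ d ∈ E := by
    intro d
    constructor
    · intro h
      have := hE _ h
      rwa [M.inv_inv] at this
    · exact hE d
  have hbdfin : (M.bd (↑E : Set D)).Finite := by
    refine ((E.finite_toSet).union ((E.finite_toSet).preimage (M.rot.injective.injOn))).subset ?_
    intro d hd
    by_contra hcon
    simp only [Set.mem_union, Set.mem_preimage, Finset.mem_coe, not_or] at hcon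
    apply hd
    exact ⟨fun h => absurd h hcon.1, fun h => absurd h hcon.2⟩
  set Fs : Finset M.F := E.image M.fac with hFs
  set X : Finset M.F := Fs.filter fun f => ∀ d, M.fac d = f → d ∈ E with hX
  set Y : Finset M.F := Fs.filter fun f => ¬ ∀ d, M.fac d = f → d ∈ E with hY
  have hXY : X.card + Y.card = Fs.card := by
    rw [hX, hY]
    exact Finset.card_filter_add_card_filter_not _
  -- mixed faces are at most the boundary corners
  have hYcard : Y.card ≤ (M.bd (↑E : Set D)).ncard := by
    have hsub : (↑Y : Set M.F) ⊆ M.fac '' (M.bd (↑E : Set D)) := by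
      intro f hf
      have hf' : f ∈ Y := hf
      rw [hY, Finset.mem_filter, hFs, Finset.mem_image] at hf'
      obtain ⟨⟨e, heE, hef⟩, hmix⟩ := hf'
      by_contra hcon
      apply hmix
      have hstep : ∀ d, M.fac d = f → d ∈ E → M.face d ∈ E := by
        intro d hdf hd
        rw [face_apply, hinv]
        by_contra hr
        apply hcon
        refine ⟨d, ?_, hdf⟩
        intro hiff
        exact hr (hiff.1 hd)
      have hpow : ∀ i : ℕ, (M.face ^ i) e ∈ E := by
        intro i
        induction i with
        | zero => simpa using heE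
        | succ n ih =>
          rw [pow_succ', Equiv.Perm.mul_apply]
          exact hstep _ (by rw [fac_face_pow]; exact hef) ih
      intro d hd
      obtain ⟨i, -, hi⟩ := (M.fac_eq_iff_lt (hP.face_pos e)).1 (hef.trans hd.symm)
      rw [← hi]
      exact hpow i
    have h1 := Set.ncard_le_ncard hsub (hbdfin.image _)
    rw [Set.ncard_coe_finset] at h1
    exact h1.trans (Set.ncard_image_le hbdfin)
  -- darts of mixed faces
  have hDY : ∀ T : Finset D, (∀ d ∈ T, M.fac d ∈ Y) → T.card ≤ Δ * Y.card := by
    intro T hT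
    refine Finset.card_le_mul_card_image_of_maps_to (f := M.fac) hT Δ ?_
    intro f _
    exact M.card_fac_fibre_le hP f _ fun d hd => (Finset.mem_filter.1 hd).2
  have hXcard : X.card ≤ C * (Δ * Y.card) := by
    refine (hF X).trans (Nat.mul_le_mul_left C ?_)
    set T : Set D := {d | M.fac d ∈ X ∧ M.fac (M.inv d) ∉ X} with hT
    have hTE : T ⊆ ↑E := by
      intro d hd
      have := (Finset.mem_filter.1 hd.1).2
      exact this d rfl
    have hTfin : T.Finite := (E.finite_toSet).subset hTE
    have himg : T.ncard = (hTfin.toFinset.image M.inv).card := by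
      rw [Finset.card_image_of_injective _ M.inv.injective, Set.ncard_eq_toFinset_card T hTfin]
    rw [himg]
    apply hDY
    intro e he
    rw [Finset.mem_image] at he
    obtain ⟨d, hd, rfl⟩ := he
    rw [Set.Finite.mem_toFinset] at hd
    have hdE : M.inv d ∈ E := hE d (hTE hd)
    have h2 : M.fac (M.inv d) ∈ Fs := Finset.mem_image_of_mem _ hdE
    rw [hY, Finset.mem_filter]
    refine ⟨h2, ?_⟩
    intro hall
    exact hd.2 (Finset.mem_filter.2 ⟨h2, hall⟩)
  have hEcard : E.card ≤ Δ * Fs.card := by
    refine Finset.card_le_mul_card_image_of_maps_to (f := M.fac)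
      (fun d hd => Finset.mem_image_of_mem _ hd) Δ ?_
    intro f _
    exact M.card_fac_fibre_le hP f _ fun d hd => (Finset.mem_filter.1 hd).2
  calc E.card ≤ Δ * Fs.card := hEcard
    _ = Δ * (X.card + Y.card) := by rw [hXY]
    _ ≤ Δ * (C * (Δ * Y.card) + Y.card) := by
        exact Nat.mul_le_mul_left _ (Nat.add_le_add_right hXcard _)
    _ = Δ * (C * Δ + 1) * Y.card := by ring
    _ ≤ Δ * (C * Δ + 1) * (M.bd (↑E : Set D)).ncard := Nat.mul_le_mul_left _ hYcard

end CMap

theorem isoE_statement : IsoEStatement :=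
  fun Δ C => ⟨Δ * (C * Δ + 1), fun _ M hP hF => M.isoE_of_isoF hP hF⟩

end Tess
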