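import Pool.Agent.Work.MP_8c67d3_co.FlatFinal
import Pool.Agent.Work.MP_8c67d3_co.BlockB
import Pool.Agent.Work.MP_8c67d3_co_helper72.P1
import Pool.Agent.Work.MP_8c67d3_co_helper72.P2

/-!
# The theorem for nonzero curvature
-/

set_option autoImplicit false

namespace Tess

theorem mainTheorem : MainStatement := main_of isoFBlock isoEBlock deadEnd

end Tess
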