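import Pool.Agent.Work.MP_8c67d3_co.Interface

/-!
# Block N, part 1: shadows and fans in a hyperbolic graph metric
-/

set_option autoImplicit false

namespace Tess

namespace NB

variable {W : Type} (d : W → W → ℕ)

/-- `w` is in the `ρ`-shadow of `v` seen from `x`. -/
def Sh (x : W) (ρ : ℕ) (v w : W) : Prop := d x v + d v w ≤ d x w + ρ

/-- The points of the `ρ`-shadow of `v` which are `t` levels below `v`. -/
def Fan (x : W) (ρ : ℕ) (v : W) (t : ℕ) : Set W := {w | d x w = d x v + t ∧ Sh d x ρ v w}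

variable {d} {δ : ℕ} {x : W}

theorem Sh.mono {ρ ρ' : ℕ} {v w : W} (h : Sh d x ρ v w) (hρ : ρ ≤ ρ') : Sh d x ρ' v w := by
  unfold Sh at h ⊢; omega

theorem Fan.mono {ρ ρ' : ℕ} {v : W} {t : ℕ} (hρ : ρ ≤ ρ') : Fan d x ρ v t ⊆ Fan d x ρ' v t :=
  fun _ hw => ⟨hw.1, hw.2.mono hρ⟩

theorem sh_trans (hF : FourPoint d δ) {v c w : W} {ρ ρ' t : ℕ} (hc : d x c = d x v + t)
    (h1 : Sh d x ρ v c) (h2 : Sh d x ρ' c w) (ht : ρ' ≤ ρ + 2 * t) : Sh d x (ρ + δ) v w := by
  unfold Sh at h1 h2 ⊢
  have h := hF x v c w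
  rcases le_total (d x w + d v c) (d x v + d c w) with h3 | h3
  · rw [max_eq_right h3] at h; omega
  · rw [max_eq_left h3] at h; omega

theorem sh_geod (hm : IsGraphMetric d) (hF : FourPoint d δ) {c y z : W} {ρ : ℕ}
    (hz : d x z + d z y = d x y) (hcz : d x c ≤ d x z) (h : Sh d x ρ c y) :
    Sh d x (ρ + δ) c z := by
  unfold Sh at h ⊢
  have h1 := hF x c y z
  have h2 := hm.symm y z
  rcases le_total (d x z + d c y) (d x c + d y z) with h3 | h3
  · rw [max_eq_right h3] at h1; omega
  · rw [max_eq_left h3] at h1; omega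

theorem sh_tri (hm : IsGraphMetric d) {c z w : W} {ρ ρ' : ℕ} (h1 : Sh d x ρ c z)
    (h2 : Sh d x ρ' z w) : Sh d x (ρ + ρ') c w := by
  unfold Sh at h1 h2 ⊢
  have := hm.tri c z w
  omega

theorem sh_close (hm : IsGraphMetric d) (hF : FourPoint d δ) {c c' w : W} {R : ℕ}
    (hcc : d x c = d x c') (h1 : Sh d x R c w) (h2 : Sh d x R c' w) : d c c' ≤ R + δ := by
  unfold Sh at h1 h2
  have h := hF x c w c'
  have h3 := hm.symm w c'
  rcases le_total (d x c' + d c w) (d x c + d w c') with h4 | h4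
  · rw [max_eq_right h4] at h; omega
  · rw [max_eq_left h4] at h; omega

theorem fan_subset_ball {ρ t : ℕ} {v : W} : Fan d x ρ v t ⊆ {w | d v w ≤ t + ρ} := by
  rintro w ⟨h1, h2⟩
  unfold Sh at h2
  show d v w ≤ t + ρ
  omega

/-- Fans of points which are nearly on the way are contained in fans of higher points. -/
theorem fan_sub_of_trans (hF : FourPoint d δ) {v c : W} {ρ ρ' t m : ℕ} (hc : d x c = d x v + t)
    (h1 : Sh d x ρ v c) (ht : ρ' ≤ ρ + 2 * t) :
    Fan d x ρ' c m ⊆ Fan d x (ρ + δ) v (t + m) := by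
  rintro w ⟨h2, h3⟩
  exact ⟨by omega, sh_trans hF hc h1 h3 ht⟩

theorem fan_sub_of_geod (hm : IsGraphMetric d) (hF : FourPoint d δ) {c y z : W} {ρ m : ℕ}
    (hz : d x z + d z y = d x y) (hcz : d x c ≤ d x z) (h : Sh d x ρ c y) :
    Fan d x δ z m ⊆ Fan d x (ρ + 2 * δ) c (d x z - d x c + m) := by
  rintro w ⟨h2, h3⟩
  refine ⟨by omega, ?_⟩
  have h4 := sh_tri hm (sh_geod hm hF hz hcz h) h3
  exact h4.mono (by omega)

/-- The killer lemma: the ball around `y` is covered by the `δ`-fans of the points of a geodesic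
from `x` to `y`. -/
theorem ball_cover (hm : IsGraphMetric d) (hF : FourPoint d δ) {y z : W} {n : ℕ}
    (hz : d y z ≤ n) : ∃ i m, i + m ≤ n + 1 ∧ i ≤ d x y ∧
      ∀ q, d x q + i = d x y → d q y = i → z ∈ Fan d x δ q m := by
  have t1 := hm.tri y x z
  have t2 := hm.tri x y z
  have t3 := hm.tri x z y
  have s1 := hm.symm y x
  have s2 := hm.symm z y
  set a := (d x y + d x z - d y z) / 2 with ha
  refine ⟨d x y - a, d x z - a, by omega, by omega, ?_⟩
  intro q hq1 hq2
  refine ⟨by omega, ?_⟩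
  unfold Sh
  have h := hF x q y z
  rcases le_total (d x z + d q y) (d x q + d y z) with h4 | h4
  · rw [max_eq_right h4] at h; omega
  · rw [max_eq_left h4] at h; omega

/-! ### Separated subsets -/

theorem exists_separated [DecidableEq W] (hm : IsGraphMetric d) (s β : ℕ)
    (hfin : ∀ a, {w | d a w ≤ s}.Finite) (hβ : ∀ a, {w | d a w ≤ s}.ncard ≤ β)
    (A : Finset W) :
    ∃ B : Finset W, B ⊆ A ∧ (∀ b ∈ B, ∀ b' ∈ B, b ≠ b' → s < d b b') ∧ A.card ≤ β * B.card := by
  classical
  induction A using Finset.strongInduction with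
  | H A ih =>
    rcases A.eq_empty_or_nonempty with rfl | ⟨a, ha⟩
    · exact ⟨∅, by simp, by simp, by simp⟩
    · set A₁ := A.filter (fun w => s < d a w) with hA₁
      have hsub : A₁ ⊂ A := by
        refine Finset.ssubset_iff_subset_ne.2 ⟨Finset.filter_subset _ _, ?_⟩
        intro h
        have : a ∈ A₁ := h ▸ ha
        rw [hA₁, Finset.mem_filter, hm.self] at this
        omega
      obtain ⟨B₁, hB₁, hsep, hcard⟩ := ih A₁ hsub
      refine ⟨insert a B₁, ?_, ?_, ?_⟩
      · intro b hb
        rcases Finset.mem_insert.1 hb with rfl | hb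
        · exact ha
        · exact hsub.1 (hB₁ hb)
      · intro b hb b' hb' hne
        rcases Finset.mem_insert.1 hb with e1 | e1
        · rcases Finset.mem_insert.1 hb' with e2 | e2
          · exact absurd (e1.trans e2.symm) hne
          · rw [e1]; exact (Finset.mem_filter.1 (hB₁ e2)).2
        · rcases Finset.mem_insert.1 hb' with e2 | e2
          · rw [e2, hm.symm]; exact (Finset.mem_filter.1 (hB₁ e1)).2
          · exact hsep b e1 b' e2 hne
      · have hnot : a ∉ B₁ := by
          intro h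
          have := (Finset.mem_filter.1 (hB₁ h)).2
          rw [hm.self] at this; omega
        rw [Finset.card_insert_of_notMem hnot]
        have hsplit : A ⊆ A₁ ∪ (hfin a).toFinset := by
          intro w hw
          rw [Finset.mem_union, Set.Finite.mem_toFinset]
          by_cases h : s < d a w
          · left; exact Finset.mem_filter.2 ⟨hw, h⟩
          · right; show d a w ≤ s; omega
        have h1 : A.card ≤ A₁.card + (hfin a).toFinset.card :=
          (Finset.card_le_card hsplit).trans (Finset.card_union_le _ _)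
        have h2 : (hfin a).toFinset.card ≤ β := by
          rw [← Set.ncard_eq_toFinset_card _ (hfin a)]; exact hβ a
        calc A.card ≤ A₁.card + β := by omega
          _ ≤ β * B₁.card + β := by omega
          _ = β * (B₁.card + 1) := by ring

/-- Branching: lower bounds for the fans of many points of a fan of `c` give a lower bound for a
fan of `c`. -/
theorem branching (hm : IsGraphMetric d) (hF : FourPoint d δ) {β : ℕ}
    {c : W} {ρ R s M : ℕ} (hfin : ∀ a n, {w | d a w ≤ n}.Finite)
    (hβ : ∀ a, {w | d a w ≤ R + δ}.ncard ≤ β)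
    (hρ : ρ + δ ≤ R) (hs : R ≤ ρ + 2 * s) {K : ℝ} (hK : 0 ≤ K)
    (h : ∀ c' ∈ Fan d x ρ c s, K ≤ ((Fan d x R c' M).ncard : ℝ)) :
    ((Fan d x ρ c s).ncard : ℝ) * K ≤ β * ((Fan d x R c (s + M)).ncard : ℝ) := by
  classical
  have hAfin : (Fan d x ρ c s).Finite := (hfin _ _).subset fan_subset_ball
  obtain ⟨B, hBA, hsep, hcard⟩ := exists_separated (d := d) hm (R + δ) β
    (fun a => hfin a _) hβ hAfin.toFinset
  have hB : ∀ b ∈ B, b ∈ Fan d x ρ c s := fun b hb => by
    have := hBA hb
    rwa [Set.Finite.mem_toFinset] at this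
  -- the disjoint union
  have hFfin : ∀ b, (Fan d x R b M).Finite := fun b => (hfin _ _).subset fan_subset_ball
  have hTfin : (Fan d x R c (s + M)).Finite := (hfin _ _).subset fan_subset_ball
  have hdisj : (B : Set W).PairwiseDisjoint (fun b => (hFfin b).toFinset) := by
    intro b hb b' hb' hne
    rw [Function.onFun, Finset.disjoint_left]
    intro w hw hw'
    rw [Set.Finite.mem_toFinset] at hw hw'
    have h1 := (hB b hb).1
    have h2 := (hB b' hb').1
    have h3 := sh_close hm hF (by omega) hw.2 hw'.2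
    have h4 := hsep b hb b' hb' hne
    omega
  have hsub : B.biUnion (fun b => (hFfin b).toFinset) ⊆ hTfin.toFinset := by
    intro w hw
    rw [Finset.mem_biUnion] at hw
    obtain ⟨b, hb, hw⟩ := hw
    rw [Set.Finite.mem_toFinset] at hw ⊢
    have h1 := fan_sub_of_trans hF (hB b hb).1 (hB b hb).2 hs hw
    exact Fan.mono hρ h1
  have h5 : (B.card : ℝ) * K ≤ ((Fan d x R c (s + M)).ncard : ℝ) := by
    rw [Set.ncard_eq_toFinset_card _ hTfin]
    calc (B.card : ℝ) * K = ∑ _b ∈ B, K := by rw [Finset.sum_const, nsmul_eq_mul]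
      _ ≤ ∑ b ∈ B, (((hFfin b).toFinset.card : ℕ) : ℝ) := by
          apply Finset.sum_le_sum
          intro b hb
          rw [← Set.ncard_eq_toFinset_card _ (hFfin b)]
          exact h b (hB b hb)
      _ = ((B.biUnion (fun b => (hFfin b).toFinset)).card : ℝ) := by
          rw [Finset.card_biUnion hdisj]; push_cast; rfl
      _ ≤ _ := by exact_mod_cast Finset.card_le_card hsub
  have h6 : ((Fan d x ρ c s).ncard : ℝ) ≤ β * B.card := by
    rw [Set.ncard_eq_toFinset_card _ hAfin]; exact_mod_cast hcard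
  calc ((Fan d x ρ c s).ncard : ℝ) * K ≤ (β * B.card) * K := by gcongr
    _ = β * (B.card * K) := by ring
    _ ≤ _ := by gcongr

end NB

end Tess
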