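import Pool.Agent.Work.MP_8c67d3_co.N1

/-!
# Block N, part 2: the invariant and the rerouting induction in one object
-/

set_option autoImplicit false

namespace Tess

namespace NB

variable {W : Type} (d : W → W → ℕ)

/-- The fan `m` levels below `v` has at least `H n` points. -/
def Big (H : ℕ → ℝ) (x : W) (ρ : ℕ) (v : W) (m n : ℕ) : Prop :=
  H n ≤ ((Fan d x ρ v m).ncard : ℝ)

/-- The reach of big fans above `c` is at most `r` levels below `c`. -/
structure Inv (H : ℕ → ℝ) (Nn : Set ℕ) (δ R₀ : ℕ) (x c : W) (r : ℕ) : Prop where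
  a : ∀ y z n m, n ∈ Nn → Sh d x (R₀ + 5 * δ) c y → d x z + d z y = d x y → d x z < d x c →
    Big d H x δ z m n → d x z + n + 1 ≤ d x c + r + m
  b : ∀ n m, n ∈ Nn → Big d H x (R₀ + 7 * δ) c m n → n + 1 ≤ r + m

variable {d} {δ R₀ : ℕ} {x : W} {H : ℕ → ℝ} {Nn : Set ℕ}

theorem Big.of_subset (hfin : ∀ a n, {w | d a w ≤ n}.Finite) {ρ ρ' m m' n : ℕ} {v v' : W}
    (h : Big d H x ρ v m n) (hs : Fan d x ρ v m ⊆ Fan d x ρ' v' m') : Big d H x ρ' v' m' n := by
  unfold Big at h ⊢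
  refine h.trans ?_
  exact_mod_cast Set.ncard_le_ncard hs ((hfin _ _).subset fan_subset_ball)

/-- Rerouting preserves the invariant. -/
theorem inv_step_A (hm : IsGraphMetric d) (hF : FourPoint d δ)
    (hfin : ∀ a n, {w | d a w ≤ n}.Finite) {c c' : W} {r m n t : ℕ}
    (hI : Inv d H Nn δ R₀ x c r) (hc : c' ∈ Fan d x (R₀ + 4 * δ) c m) (hmg : 3 * δ ≤ m)
    (hr : r + m < n + 1 + 2 * t) : Inv d H Nn δ R₀ x c' (n + 1 + 2 * t) where
  a := by
    intro y z n' m' hn' hy hz hzc hbig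
    obtain ⟨hc1, hc2⟩ := hc
    have hy' : Sh d x (R₀ + 5 * δ) c y := (sh_trans hF hc1 hc2 hy (by omega)).mono (by omega)
    rcases lt_or_ge (d x z) (d x c) with h | h
    · have := hI.a y z n' m' hn' hy' hz h hbig
      omega
    · have hy2 : Sh d x (R₀ + 4 * δ + δ) c y := sh_trans hF hc1 hc2 hy (by omega)
      have hsub := fan_sub_of_geod (m := m') hm hF hz h hy2
      have hb := hI.b n' _ hn' (hbig.of_subset hfin (hsub.trans (Fan.mono (by omega))))
      omega
  b := by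
    intro n' m' hn' hbig
    obtain ⟨hc1, hc2⟩ := hc
    have hsub := fan_sub_of_trans (m := m') (ρ' := R₀ + 7 * δ) hF hc1 hc2 (by omega)
    have hb := hI.b n' _ hn' (hbig.of_subset hfin (hsub.trans (Fan.mono (by omega))))
    omega

/-- The baseline step preserves the invariant. -/
theorem inv_step_B (hm : IsGraphMetric d) (hF : FourPoint d δ)
    (hfin : ∀ a n, {w | d a w ≤ n}.Finite) {c c' : W} {r t : ℕ}
    (hI : Inv d H Nn δ R₀ x c r) (hc : c' ∈ Fan d x (R₀ + δ) c t) (htg : 3 * δ ≤ t) (htr : t ≤ r)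
    (hno : ∀ n ∈ Nn, ∀ m, Big d H x (R₀ + 4 * δ) c m n → n + 1 + 2 * t ≤ r + m) :
    Inv d H Nn δ R₀ x c' (r - t) where
  a := by
    intro y z n' m' hn' hy hz hzc hbig
    obtain ⟨hc1, hc2⟩ := hc
    have hy2 : Sh d x (R₀ + δ + δ) c y := sh_trans hF hc1 hc2 hy (by omega)
    rcases lt_or_ge (d x z) (d x c) with h | h
    · have := hI.a y z n' m' hn' (hy2.mono (by omega)) hz h hbig
      omega
    · have hsub := fan_sub_of_geod (m := m') hm hF hz h hy2
      have hb := hno n' hn' _ (hbig.of_subset hfin (hsub.trans (Fan.mono (by omega))))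
      omega
  b := by
    intro n' m' hn' hbig
    obtain ⟨hc1, hc2⟩ := hc
    have hsub := fan_sub_of_trans (m := m') (ρ' := R₀ + 7 * δ) hF hc1 hc2 (by omega)
    have hb := hno n' hn' _ (hbig.of_subset hfin (hsub.trans (Fan.mono (by omega))))
    omega

/-- If the state is smaller than the step then rerouting is possible. -/
theorem avail (hm : IsGraphMetric d) (hF : FourPoint d δ) (hND : NoDeepDeadEnds d R₀)
    (hfin : ∀ a n, {w | d a w ≤ n}.Finite) {c : W} {r t : ℕ}
    (kill : ∀ y, ∃ n ∈ Nn, ∃ z m, d x z + d z y = d x y ∧ d z y + m ≤ n + 1 ∧ Big d H x δ z m n)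
    (hI : Inv d H Nn δ R₀ x c r) (hrt : r < t) :
    ∃ n ∈ Nn, ∃ m, Big d H x (R₀ + 4 * δ) c m n ∧ r + m < n + 1 + 2 * t := by
  obtain ⟨y, hy1, hy2⟩ := hND x c (r + 1)
  obtain ⟨n, hn, z, m, hz, hzm, hbig⟩ := kill y
  have hy3 : Sh d x R₀ c y := hy2
  rcases lt_or_ge (d x z) (d x c) with h | h
  · have := hI.a y z n m hn (hy3.mono (by omega)) hz h hbig
    omega
  · have hsub := fan_sub_of_geod (m := m) hm hF hz h hy3
    refine ⟨n, hn, _, hbig.of_subset hfin (hsub.trans (Fan.mono (by omega))), ?_⟩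
    omega

theorem inv_start (n₀ : ℕ) (hN : ∀ n ∈ Nn, n ≤ n₀) (c : W) :
    Inv d H Nn δ R₀ x c (n₀ + 1) where
  a := by
    intro y z n m hn _ _ hz _
    have := hN n hn
    omega
  b := by
    intro n m hn _
    have := hN n hn
    omega

/-- The rerouting induction. -/
theorem main_induction (hm : IsGraphMetric d) (hF : FourPoint d δ) (hND : NoDeepDeadEnds d R₀)
    (hfin : ∀ a n, {w | d a w ≤ n}.Finite) {β : ℕ} (hβpos : 0 < β)
    (hβ : ∀ a, {w | d a w ≤ R₀ + 5 * δ + δ}.ncard ≤ β)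
    (kill : ∀ y, ∃ n ∈ Nn, ∃ z m, d x z + d z y = d x y ∧ d z y + m ≤ n + 1 ∧ Big d H x δ z m n)
    (g : ℕ) (hg : 3 * δ + 1 ≤ g)
    (hbigm : ∀ n ∈ Nn, ∀ v m, Big d H x (R₀ + 7 * δ) v m n → g ≤ m)
    (Φ : ℕ → ℝ) (hΦ : ∀ v t, Φ t ≤ ((Fan d x (R₀ + δ) v t).ncard : ℝ))
    (t : ℕ → ℕ) (ht : ∀ r, g ≤ t r) (Rmax M₀ : ℕ) (G : ℕ → ℕ → ℝ) (hG0 : ∀ M r, 0 ≤ G M r)
    (h0 : ∀ M < M₀, ∀ r ≤ Rmax, G M r ≤ 1)
    (hA : ∀ n ∈ Nn, ∀ m r, r ≤ Rmax → g ≤ m → r + m < n + 1 + 2 * t r →
      m ≤ M₀ ∧ n + 1 + 2 * t r ≤ Rmax ∧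
      ∀ M, m ≤ M → β * G M r ≤ H n * G (M - m) (n + 1 + 2 * t r))
    (hB : ∀ r ≤ Rmax, t r ≤ r → t r ≤ M₀ ∧
      ∀ M, t r ≤ M → β * G M r ≤ Φ (t r) * G (M - t r) (r - t r)) :
    ∀ M c r, r ≤ Rmax → Inv d H Nn δ R₀ x c r →
      G M r ≤ ((Fan d x (R₀ + 5 * δ) c M).ncard : ℝ) := by
  have hβr : (0 : ℝ) < β := by exact_mod_cast hβpos
  intro M
  induction M using Nat.strong_induction_on with
  | _ M ih =>
    intro c r hr hI
    rcases lt_or_ge M M₀ with hM | hM
    · refine (h0 M hM r hr).trans ?_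
      obtain ⟨w, hw1, hw2⟩ := hND x c M
      have hw : w ∈ Fan d x (R₀ + 5 * δ) c M := ⟨hw1, Sh.mono (ρ := R₀) hw2 (by omega)⟩
      have hf : (Fan d x (R₀ + 5 * δ) c M).Finite := (hfin _ _).subset fan_subset_ball
      have : 0 < (Fan d x (R₀ + 5 * δ) c M).ncard := (Set.ncard_pos hf).2 ⟨w, hw⟩
      exact_mod_cast this
    · by_cases hex : ∃ n ∈ Nn, ∃ m, Big d H x (R₀ + 4 * δ) c m n ∧ r + m < n + 1 + 2 * t r
      · obtain ⟨n, hn, m, hbig, hlt⟩ := hex
        have hmg : g ≤ m := hbigm n hn c m (hbig.of_subset hfin (Fan.mono (by omega)))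
        obtain ⟨hmM, hR, hineq⟩ := hA n hn m r hr hmg hlt
        have hbr := branching (x := x) (β := β) (c := c) (ρ := R₀ + 4 * δ) (R := R₀ + 5 * δ)
          (s := m) (M := M - m) hm hF hfin hβ (by omega) (by omega)
          (K := G (M - m) (n + 1 + 2 * t r)) (hG0 _ _) (by
            intro c' hc'
            apply ih (M - m) (by omega) c' _ hR
            exact inv_step_A hm hF hfin hI hc' (by omega) hlt)
        have h1 := hineq M (by omega)
        have h2 : H n * G (M - m) (n + 1 + 2 * t r) ≤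
            ((Fan d x (R₀ + 4 * δ) c m).ncard : ℝ) * G (M - m) (n + 1 + 2 * t r) :=
          mul_le_mul_of_nonneg_right hbig (hG0 _ _)
        have h3 : m + (M - m) = M := by omega
        rw [h3] at hbr
        exact le_of_mul_le_mul_left ((h1.trans h2).trans hbr) hβr
      · have htr : t r ≤ r := by
          by_contra hlt
          exact hex (avail hm hF hND hfin kill hI (by omega))
        obtain ⟨htM, hineq⟩ := hB r hr htr
        have hno : ∀ n ∈ Nn, ∀ m, Big d H x (R₀ + 4 * δ) c m n → n + 1 + 2 * t r ≤ r + m := by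
          intro n hn m hbig
          by_contra hlt
          exact hex ⟨n, hn, m, hbig, by omega⟩
        have htg := ht r
        have hbr := branching (x := x) (β := β) (c := c) (ρ := R₀ + δ) (R := R₀ + 5 * δ)
          (s := t r) (M := M - t r) hm hF hfin hβ (by omega) (by omega)
          (K := G (M - t r) (r - t r)) (hG0 _ _) (by
            intro c' hc'
            apply ih (M - t r) (by omega) c' _ (by omega)
            exact inv_step_B hm hF hfin hI hc' (by omega) htr hno)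
        have h1 := hineq M (by omega)
        have h2 : Φ (t r) * G (M - t r) (r - t r) ≤
            ((Fan d x (R₀ + δ) c (t r)).ncard : ℝ) * G (M - t r) (r - t r) :=
          mul_le_mul_of_nonneg_right (hΦ _ _) (hG0 _ _)
        have h3 : t r + (M - t r) = M := by omega
        rw [h3] at hbr
        exact le_of_mul_le_mul_left ((h1.trans h2).trans hbr) hβr

/-- Pigeonhole: a big ball around `y` gives a big fan of a point on a geodesic to `y`. -/
theorem exists_killer (hm : IsGraphMetric d) (hF : FourPoint d δ)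
    (hfin : ∀ a n, {w | d a w ≤ n}.Finite) {y : W} {n : ℕ} (hH : 0 ≤ H n)
    (hbig : ((n : ℝ) + 2) ^ 2 * H n < ({w | d y w ≤ n}.ncard : ℝ)) :
    ∃ z m, d x z + d z y = d x y ∧ d z y + m ≤ n + 1 ∧ Big d H x δ z m n := by
  classical
  by_contra hcon
  push Not at hcon
  -- choose a geodesic
  have hq : ∀ i, ∃ q, i ≤ d x y → d x q + i = d x y ∧ d q y = i := by
    intro i
    by_cases hi : i ≤ d x y
    · obtain ⟨q, hq1, hq2⟩ := hm.geod x y (d x y - i) (by omega)
      exact ⟨q, fun _ => ⟨by omega, by omega⟩⟩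
    · exact ⟨x, fun h => absurd h hi⟩
  choose q hq' using hq
  have hq1 : ∀ i, i ≤ d x y → d x (q i) + i = d x y := fun i hi => (hq' i hi).1
  have hq2 : ∀ i, i ≤ d x y → d (q i) y = i := fun i hi => (hq' i hi).2
  set I := (Finset.range (n + 2) ×ˢ Finset.range (n + 2)).filter
    (fun p => p.1 + p.2 ≤ n + 1 ∧ p.1 ≤ d x y) with hI
  have hcover : {w | d y w ≤ n} ⊆ ⋃ p ∈ I, Fan d x δ (q p.1) p.2 := by
    intro z hz
    obtain ⟨i, m, him, hi, hqz⟩ := ball_cover (x := x) hm hF hz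
    simp only [Set.mem_iUnion]
    refine ⟨(i, m), ?_, hqz (q i) (hq1 i hi) (hq2 i hi)⟩
    rw [hI, Finset.mem_filter, Finset.mem_product, Finset.mem_range, Finset.mem_range]
    exact ⟨⟨by omega, by omega⟩, him, hi⟩
  have hFfin : ∀ p : ℕ × ℕ, (Fan d x δ (q p.1) p.2).Finite :=
    fun p => (hfin _ _).subset fan_subset_ball
  have hcard : ({w | d y w ≤ n}.ncard : ℝ) ≤ ∑ p ∈ I, ((Fan d x δ (q p.1) p.2).ncard : ℝ) := by
    have h1 : {w | d y w ≤ n}.ncard ≤ (I.biUnion (fun p => (hFfin p).toFinset)).card := by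
      rw [← Set.ncard_coe_finset]
      apply Set.ncard_le_ncard _ (Finset.finite_toSet _)
      intro w hw
      have := hcover hw
      simp only [Set.mem_iUnion] at this
      obtain ⟨p, hp, hw⟩ := this
      rw [Finset.mem_coe, Finset.mem_biUnion]
      exact ⟨p, hp, (Set.Finite.mem_toFinset _).2 hw⟩
    have h2 : (I.biUnion (fun p => (hFfin p).toFinset)).card ≤
        ∑ p ∈ I, (Fan d x δ (q p.1) p.2).ncard := by
      refine Finset.card_biUnion_le.trans ?_
      apply Finset.sum_le_sum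
      intro p _
      rw [← Set.ncard_eq_toFinset_card _ (hFfin p)]
    exact_mod_cast h1.trans h2
  have hIcard : (I.card : ℝ) ≤ ((n : ℝ) + 2) ^ 2 := by
    have : I.card ≤ (n + 2) * (n + 2) := by
      refine (Finset.card_filter_le _ _).trans ?_
      rw [Finset.card_product, Finset.card_range]
    calc (I.card : ℝ) ≤ (((n + 2) * (n + 2) : ℕ) : ℝ) := by exact_mod_cast this
      _ = _ := by push_cast; ring
  have hsum : ∑ p ∈ I, ((Fan d x δ (q p.1) p.2).ncard : ℝ) ≤ ∑ _p ∈ I, H n := by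
    apply Finset.sum_le_sum
    intro p hp
    rw [hI, Finset.mem_filter] at hp
    have h1 := hcon (q p.1) p.2 (by have := hq1 p.1 hp.2.2; have := hq2 p.1 hp.2.2; omega)
      (by have := hq2 p.1 hp.2.2; omega)
    unfold Big at h1
    exact (not_le.1 h1).le
  rw [Finset.sum_const, nsmul_eq_mul] at hsum
  have : (I.card : ℝ) * H n ≤ ((n : ℝ) + 2) ^ 2 * H n := by gcongr
  linarith

end NB

end Tess
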