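import Pool.Agent.Work.MP_8c67d3_co.N2

/-!
# Block N, part 3: sublinear functions, existence of the step function and of the loss function
-/

set_option autoImplicit false

namespace Tess

namespace NB

/-- `f n ≤ η n` eventually, for every `η > 0`. -/
def SubLin (f : ℕ → ℝ) : Prop := ∀ η > 0, ∃ N : ℕ, ∀ n ≥ N, f n ≤ η * n

theorem SubLin.add {f h : ℕ → ℝ} (hf : SubLin f) (hh : SubLin h) :
    SubLin (fun n => f n + h n) := by
  intro η hη
  obtain ⟨N₁, h₁⟩ := hf (η / 2) (by positivity)
  obtain ⟨N₂, h₂⟩ := hh (η / 2) (by positivity)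
  refine ⟨max N₁ N₂, fun n hn => ?_⟩
  have a := h₁ n ((le_max_left _ _).trans hn)
  have b := h₂ n ((le_max_right _ _).trans hn)
  linarith

theorem subLin_const (c : ℝ) : SubLin (fun _ => c) := by
  intro η hη
  obtain ⟨N, hN⟩ := exists_nat_ge (c / η)
  refine ⟨N, fun n hn => ?_⟩
  have h1 : c / η ≤ n := hN.trans (by exact_mod_cast hn)
  rw [div_le_iff₀ hη] at h1
  linarith

theorem SubLin.const_mul {f : ℕ → ℝ} (hf : SubLin f) {c : ℝ} (hc : 0 ≤ c) :
    SubLin (fun n => c * f n) := by
  intro η hη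
  rcases hc.eq_or_lt with rfl | hc
  · refine ⟨0, fun n _ => ?_⟩
    simp only [zero_mul]; positivity
  · obtain ⟨N, hN⟩ := hf (η / c) (by positivity)
    refine ⟨N, fun n hn => ?_⟩
    calc c * f n ≤ c * (η / c * n) := by gcongr; exact hN n hn
      _ = η * n := by field_simp

theorem SubLin.of_le {f h : ℕ → ℝ} (hf : SubLin f) (hh : ∀ n, h n ≤ f n) : SubLin h := by
  intro η hη
  obtain ⟨N, hN⟩ := hf η hη
  exact ⟨N, fun n hn => (hh n).trans (hN n hn)⟩

theorem SubLin.comp_affine {f : ℕ → ℝ} (hf : SubLin f) (p q : ℕ) (hp : 0 < p) :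
    SubLin (fun n => f (p * n + q)) := by
  intro η hη
  have hp' : (0 : ℝ) < p := by exact_mod_cast hp
  obtain ⟨N, hN⟩ := hf (η / (2 * p)) (by positivity)
  obtain ⟨K, hK⟩ := exists_nat_ge ((q : ℝ) / p)
  refine ⟨max N K, fun n hn => ?_⟩
  have h1 : N ≤ p * n + q := by
    have : N ≤ n := (le_max_left _ _).trans hn
    nlinarith
  have h2 := hN _ h1
  have h3 : (q : ℝ) / p ≤ n := hK.trans (by exact_mod_cast (le_max_right _ _).trans hn)
  rw [div_le_iff₀ hp'] at h3
  refine h2.trans ?_
  push_cast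
  calc η / (2 * p) * (p * n + q) ≤ η / (2 * p) * (p * n + n * p) := by gcongr
    _ = η * n := by field_simp; ring

/-- The step function `t` and the loss function `L`. -/
theorem exists_tL (a : ℕ → ℝ) (ha : SubLin a) (g : ℕ) :
    ∃ (t : ℕ → ℕ) (L : ℕ → ℝ), (∀ r, g ≤ t r) ∧ Monotone t ∧ SubLin (fun r => (t r : ℝ)) ∧
      Monotone L ∧ L 0 = 0 ∧ SubLin L ∧
      ∀ R, ∃ ε > 0, ∀ r ≤ R, t r ≤ r → a (t r) + ε * t r ≤ L r - L (r - t r) := by
  have hT : ∀ j : ℕ, ∃ T₀ : ℕ, ∀ t ≥ T₀, a t ≤ (1 / ((j : ℝ) + 1)) * t :=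
    fun j => ha _ (by positivity)
  choose T₀ hT₀ using hT
  set T : ℕ → ℕ := fun j => g + ∑ i ∈ Finset.range (j + 1), T₀ i with hTdef
  have hTmono : Monotone T := by
    intro i j hij
    simp only [hTdef]
    have : ∑ i ∈ Finset.range (i + 1), T₀ i ≤ ∑ i ∈ Finset.range (j + 1), T₀ i :=
      Finset.sum_le_sum_of_subset (Finset.range_mono (by omega))
    omega
  have hTge : ∀ j, T₀ j ≤ T j := by
    intro j
    simp only [hTdef]
    have : T₀ j ≤ ∑ i ∈ Finset.range (j + 1), T₀ i :=
      Finset.single_le_sum (f := T₀) (fun _ _ => Nat.zero_le _) (by simp)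
    omega
  have hTa : ∀ j, a (T j) ≤ (1 / ((j : ℝ) + 1)) * T j := fun j => hT₀ j _ (hTge j)
  set J : ℕ → ℕ := fun r => Nat.findGreatest (fun j => (j + 1) * T j ≤ r) r with hJ
  have hJmono : Monotone J := by
    intro r s hrs
    simp only [hJ]
    apply Nat.findGreatest_mono _ hrs
    intro j hj
    exact le_trans hj hrs
  have hJlarge : ∀ j r, j ≤ r → (j + 1) * T j ≤ r → j ≤ J r := by
    intro j r h1 h2
    exact Nat.le_findGreatest h1 h2
  have hJspec : ∀ j r, j ≤ r → (j + 1) * T j ≤ r → (J r + 1) * T (J r) ≤ r := by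
    intro j r h1 h2
    exact Nat.findGreatest_spec (P := fun j => (j + 1) * T j ≤ r) h1 h2
  set e : ℕ → ℝ := fun s => 2 / ((J s : ℝ) + 1) with he
  have heanti : Antitone e := by
    intro r s hrs
    simp only [he]
    have : (J r : ℝ) ≤ J s := by exact_mod_cast hJmono hrs
    gcongr
  have hepos : ∀ s, 0 < e s := fun s => by simp only [he]; positivity
  have hele : ∀ s, e s ≤ 2 := by
    intro s
    simp only [he]
    rw [div_le_iff₀ (by positivity)]
    have : (0 : ℝ) ≤ J s := by positivity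
    linarith
  set L : ℕ → ℝ := fun r => ∑ s ∈ Finset.range r, e (s + 1) with hL
  have hLmono : Monotone L := by
    intro r s hrs
    simp only [hL]
    apply Finset.sum_le_sum_of_subset_of_nonneg (Finset.range_mono hrs)
    intro i _ _
    exact (hepos _).le
  refine ⟨fun r => T (J r), L, ?_, ?_, ?_, hLmono, by simp [hL], ?_, ?_⟩
  · intro r
    simp only [hTdef]; omega
  · intro r s hrs
    exact hTmono (hJmono hrs)
  · intro η hη
    obtain ⟨j, hj⟩ := exists_nat_ge (1 / η)
    refine ⟨max j ((j + 1) * T j), fun r hr => ?_⟩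
    have h1 := hJspec j r ((le_max_left _ _).trans hr) ((le_max_right _ _).trans hr)
    have h2 := hJlarge j r ((le_max_left _ _).trans hr) ((le_max_right _ _).trans hr)
    have h3 : ((J r : ℝ) + 1) * T (J r) ≤ r := by exact_mod_cast h1
    have h4 : (1 / η) ≤ (J r : ℝ) + 1 := by
      have : (j : ℝ) ≤ J r := by exact_mod_cast h2
      linarith
    have h5 : (1 / η) * T (J r) ≤ r := le_trans (by gcongr) h3
    have h6 : (T (J r) : ℝ) = η * ((1 / η) * T (J r)) := by field_simp
    show (T (J r) : ℝ) ≤ η * r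
    rw [h6]
    gcongr
  · intro η hη
    obtain ⟨j, hj⟩ := exists_nat_ge (4 / η)
    set r₁ := max j ((j + 1) * T j) with hr₁
    have hsmall : ∀ s ≥ r₁, e s ≤ η / 2 := by
      intro s hs
      have h2 := hJlarge j s ((le_max_left _ _).trans hs) ((le_max_right _ _).trans hs)
      have h3 : (4 / η) ≤ (J s : ℝ) + 1 := by
        have : (j : ℝ) ≤ J s := by exact_mod_cast h2
        linarith
      simp only [he]
      rw [div_le_iff₀ (by positivity)]
      rw [div_le_iff₀ hη] at h3
      linarith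
    obtain ⟨K, hK⟩ := exists_nat_ge (4 * (r₁ : ℝ) / η)
    refine ⟨max r₁ K, fun r hr => ?_⟩
    have hr1 : r₁ ≤ r := (le_max_left _ _).trans hr
    have hsplit : L r ≤ 2 * r₁ + η / 2 * r := by
      simp only [hL]
      rw [← Finset.sum_range_add_sum_Ico _ hr1]
      have h1 : ∑ s ∈ Finset.range r₁, e (s + 1) ≤ 2 * r₁ := by
        calc ∑ s ∈ Finset.range r₁, e (s + 1) ≤ ∑ _s ∈ Finset.range r₁, (2 : ℝ) :=
              Finset.sum_le_sum (fun _ _ => hele _)
          _ = 2 * r₁ := by rw [Finset.sum_const, Finset.card_range, nsmul_eq_mul]; ring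
      have h2 : ∑ s ∈ Finset.Ico r₁ r, e (s + 1) ≤ η / 2 * r := by
        calc ∑ s ∈ Finset.Ico r₁ r, e (s + 1) ≤ ∑ _s ∈ Finset.Ico r₁ r, η / 2 := by
              apply Finset.sum_le_sum
              intro s hs
              rw [Finset.mem_Ico] at hs
              exact hsmall _ (by omega)
          _ = η / 2 * ((r - r₁ : ℕ) : ℝ) := by
              rw [Finset.sum_const, Nat.card_Ico, nsmul_eq_mul]; ring
          _ ≤ η / 2 * r := by
              gcongr
              exact Nat.sub_le _ _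
      linarith
    have h3 : 4 * (r₁ : ℝ) / η ≤ r := hK.trans (by exact_mod_cast (le_max_right _ _).trans hr)
    rw [div_le_iff₀ hη] at h3
    linarith
  · intro R
    refine ⟨1 / ((J R : ℝ) + 1), by positivity, ?_⟩
    intro r hr htr
    simp only at htr ⊢
    have h1 := hTa (J r)
    have h2 : (T (J r) : ℝ) * e r ≤ L r - L (r - T (J r)) := by
      simp only [hL]
      have h3 := Finset.sum_range_add_sum_Ico (fun s => e (s + 1))
        (show r - T (J r) ≤ r from Nat.sub_le _ _)
      rw [← h3, add_sub_cancel_left]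
      calc (T (J r) : ℝ) * e r = ∑ _s ∈ Finset.Ico (r - T (J r)) r, e r := by
            rw [Finset.sum_const, Nat.card_Ico, nsmul_eq_mul]
            congr 2
            omega
        _ ≤ _ := by
            apply Finset.sum_le_sum
            intro s hs
            rw [Finset.mem_Ico] at hs
            exact heanti (by omega)
    have h4 : (1 / ((J R : ℝ) + 1)) * (T (J r) : ℝ) ≤ (1 / ((J r : ℝ) + 1)) * T (J r) := by
      have : (J r : ℝ) ≤ J R := by exact_mod_cast hJmono hr
      gcongr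
    have h5 : (T (J r) : ℝ) * e r = 2 * ((1 / ((J r : ℝ) + 1)) * T (J r)) := by
      simp only [he]; ring
    linarith

end NB

end Tess
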