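import Pool.Agent.Work.MP_8c67d3_co.N3

/-!
# Block N, part 4: the infimum of the growth rates is attained
-/

set_option autoImplicit false

namespace Tess

namespace NB

open Real

theorem adm_of_eventually {b : ℕ → ℕ} {r : ℝ} (hr : 0 < r) {N : ℕ}
    (h : ∀ n ≥ N, (b n : ℝ) ≤ r ^ n) : Adm b r := by
  refine ⟨1 + ∑ n ∈ Finset.range N, (b n : ℝ) / r ^ n, fun n => ?_⟩
  have hs : 0 ≤ ∑ n ∈ Finset.range N, (b n : ℝ) / r ^ n :=
    Finset.sum_nonneg (fun _ _ => by positivity)
  rcases lt_or_ge n N with hn | hn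
  · have h1 : (b n : ℝ) / r ^ n ≤ ∑ n ∈ Finset.range N, (b n : ℝ) / r ^ n :=
      Finset.single_le_sum (f := fun n => (b n : ℝ) / r ^ n) (fun _ _ => by positivity)
        (Finset.mem_range.2 hn)
    have hp : 0 < r ^ n := by positivity
    calc (b n : ℝ) = (b n : ℝ) / r ^ n * r ^ n := by field_simp
      _ ≤ (1 + ∑ n ∈ Finset.range N, (b n : ℝ) / r ^ n) * r ^ n := by
          gcongr
          linarith
  · calc (b n : ℝ) ≤ 1 * r ^ n := by rw [one_mul]; exact h n hn
      _ ≤ _ := by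
          gcongr
          linarith

theorem le_of_forall_pow_le {p q C c : ℝ} (hc : 0 < c) (hp : 0 < p) (hq : 0 < q)
    (h : ∀ n : ℕ, c * p ^ n ≤ C * q ^ n) : p ≤ q := by
  by_contra hlt
  rw [not_le] at hlt
  have h1 : 1 < p / q := by rw [one_lt_div hq]; exact hlt
  obtain ⟨n, hn⟩ := pow_unbounded_of_one_lt (C / c) h1
  rw [div_pow, div_lt_iff₀ hc, div_mul_eq_mul_div, lt_div_iff₀ (by positivity)] at hn
  have := h n
  linarith

theorem subLin_two_log : SubLin (fun n => 2 * Real.log ((n : ℝ) + 2)) := by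
  intro η hη
  have h1 : Filter.Tendsto (fun n : ℕ => Real.log ((n : ℝ) + 2) / ((n : ℝ) + 2)) Filter.atTop
      (nhds 0) := by
    have h2 : Filter.Tendsto (fun x : ℝ => Real.log x / x) Filter.atTop (nhds 0) := by
      have := Real.isLittleO_log_id_atTop
      exact this.tendsto_div_nhds_zero
    have h3 : Filter.Tendsto (fun n : ℕ => (n : ℝ) + 2) Filter.atTop Filter.atTop :=
      Filter.tendsto_atTop_add_const_right _ _ tendsto_natCast_atTop_atTop
    exact h2.comp h3
  have h4 := h1.eventually (gt_mem_nhds (show (0 : ℝ) < η / 6 by positivity))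
  rw [Filter.eventually_atTop] at h4
  obtain ⟨N, hN⟩ := h4
  refine ⟨max N 1, fun n hn => ?_⟩
  have h5 := hN n ((le_max_left _ _).trans hn)
  have h6 : (1 : ℝ) ≤ n := by exact_mod_cast (le_max_right _ _).trans hn
  rw [div_lt_iff₀ (by positivity)] at h5
  simp only
  nlinarith

/-- Block N. -/
theorem infStatement : InfStatement := by
  classical
  intro ι W d Δ δ R₀ hP hF hND hne
  have hm := hP.metric
  have hfin := hP.fin
  obtain ⟨y₀⟩ := hne
  -- sizes of balls
  have hballpos : ∀ i x n, 1 ≤ {w | d i x w ≤ n}.ncard := by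
    intro i x n
    rw [Nat.one_le_iff_ne_zero, Nat.ne_zero_iff_zero_lt, Set.ncard_pos (hfin i x n)]
    exact ⟨x, by show d i x x ≤ n; rw [(hm i).self]; exact Nat.zero_le _⟩
  have hΔ : 1 ≤ Δ := by
    have h1 := (hballpos y₀.1 y₀.2 1).trans (hP.bound y₀.1 y₀.2 1)
    rwa [pow_one] at h1
  have hΔr : (1 : ℝ) ≤ Δ := by exact_mod_cast hΔ
  set R₁ := R₀ + δ with hR₁
  set β : ℕ := Δ ^ (R₀ + 5 * δ + δ) with hβdef
  have hβpos : 0 < β := Nat.pow_pos (by omega)
  have hβr : (0 : ℝ) < β := by exact_mod_cast hβpos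
  have hβ : ∀ i a, {w | d i a w ≤ R₀ + 5 * δ + δ}.ncard ≤ β := fun i a => hP.bound i a _
  -- fans
  have hfanfin : ∀ i x ρ v t, (Fan (d i) x ρ v t).Finite :=
    fun i x ρ v t => (hfin i _ _).subset fan_subset_ball
  have hfanle : ∀ i x ρ v t, ((Fan (d i) x ρ v t).ncard : ℝ) ≤ (Δ : ℝ) ^ (t + ρ) := by
    intro i x ρ v t
    have : (Fan (d i) x ρ v t).ncard ≤ Δ ^ (t + ρ) :=
      (Set.ncard_le_ncard fan_subset_ball (hfin i _ _)).trans (hP.bound i v _)
    exact_mod_cast this
  have hfanpos : ∀ i x ρ v t, R₀ ≤ ρ → 1 ≤ (Fan (d i) x ρ v t).ncard := by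
    intro i x ρ v t hρ
    rw [Nat.one_le_iff_ne_zero, Nat.ne_zero_iff_zero_lt, Set.ncard_pos (hfanfin i x ρ v t)]
    obtain ⟨w, hw1, hw2⟩ := hND i x v t
    exact ⟨w, hw1, Sh.mono (ρ := R₀) hw2 hρ⟩
  -- the guaranteed growth rate
  set S : Set ℝ := {l | 1 ≤ l ∧ ∃ c > 0, ∀ (t : ℕ) (i : ι) (x v : W i),
    c * l ^ t ≤ ((Fan (d i) x R₁ v t).ncard : ℝ)} with hS
  have h1S : (1 : ℝ) ∈ S := by
    refine ⟨le_refl _, 1, one_pos, fun t i x v => ?_⟩
    rw [one_pow, one_mul]
    exact_mod_cast hfanpos i x R₁ v t (by omega)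
  have hSb : ∀ l ∈ S, l ≤ Δ := by
    rintro l ⟨hl, c, hc, h⟩
    apply le_of_forall_pow_le (C := (Δ : ℝ) ^ R₁) hc (by linarith) (by linarith)
    intro n
    refine (h n y₀.1 y₀.2 y₀.2).trans ((hfanle _ _ _ _ _).trans (le_of_eq ?_))
    rw [pow_add, mul_comm]
  have hSbdd : BddAbove S := ⟨Δ, hSb⟩
  set l := sSup S with hl
  have hl1 : 1 ≤ l := le_csSup hSbdd h1S
  set θ := Real.log l with hθ
  have hθ0 : 0 ≤ θ := Real.log_nonneg hl1
  -- the minimal fan sizes
  set Φ : ℕ → ℕ := fun t => sInf {k | ∃ (i : ι) (x v : W i), k = (Fan (d i) x R₁ v t).ncard}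
    with hΦdef
  have hΦne : ∀ t, {k | ∃ (i : ι) (x v : W i), k = (Fan (d i) x R₁ v t).ncard}.Nonempty :=
    fun t => ⟨_, y₀.1, y₀.2, y₀.2, rfl⟩
  have hΦle : ∀ (i : ι) (x v : W i) (t : ℕ), Φ t ≤ (Fan (d i) x R₁ v t).ncard :=
    fun i x v t => Nat.sInf_le ⟨i, x, v, rfl⟩
  have hΦge : ∀ l ∈ S, ∃ c > 0, ∀ t, c * l ^ t ≤ (Φ t : ℝ) := by
    rintro l ⟨_, c, hc, h⟩
    refine ⟨c, hc, fun t => ?_⟩
    obtain ⟨i, x, v, hk⟩ := Nat.sInf_mem (hΦne t)
    have : Φ t = (Fan (d i) x R₁ v t).ncard := hk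
    rw [this]
    exact h t i x v
  have hΦpos : ∀ t, 1 ≤ Φ t := by
    intro t
    obtain ⟨i, x, v, hk⟩ := Nat.sInf_mem (hΦne t)
    have h2 : Φ t = (Fan (d i) x R₁ v t).ncard := hk
    rw [h2]
    exact hfanpos i x R₁ v t (by omega)
  set a : ℕ → ℝ := fun t => t * θ - Real.log (Φ t) + Real.log β with ha
  have haSL : SubLin a := by
    intro η hη
    -- an admissible rate close to `l`
    obtain ⟨m, hmS, hml⟩ := exists_lt_of_lt_csSup ⟨1, h1S⟩
      (show l * Real.exp (-(η / 2)) < l by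
        have : Real.exp (-(η / 2)) < 1 := by
          rw [Real.exp_lt_one_iff]; linarith
        nlinarith)
    have hlogm : θ - η / 2 ≤ Real.log m := by
      have h1 : Real.log (l * Real.exp (-(η / 2))) ≤ Real.log m :=
        Real.log_le_log (by positivity) hml.le
      rw [Real.log_mul (by positivity) (by positivity), Real.log_exp] at h1
      linarith
    obtain ⟨c, hc, hcΦ⟩ := hΦge m hmS
    have hmpos : 0 < m := by linarith [hmS.1]
    obtain ⟨N, hN⟩ := subLin_const (Real.log β - Real.log c) (η / 2) (by positivity)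
    refine ⟨N, fun t ht => ?_⟩
    have h2 := hN t ht
    have h3 : Real.log c + t * Real.log m ≤ Real.log (Φ t) := by
      have := Real.log_le_log (by positivity) (hcΦ t)
      rwa [Real.log_mul (by positivity) (by positivity), Real.log_pow] at this
    have h4 : (t : ℝ) * (θ - η / 2) ≤ t * Real.log m := by gcongr
    simp only [ha] at *
    nlinarith
  -- step and loss functions
  set g : ℕ := 3 * δ + 1 with hg
  obtain ⟨t, L, htg, htmono, htSL, hLmono, hL0, hLSL, hkey⟩ := exists_tL a haSL g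
  have hLnn : ∀ r, 0 ≤ L r := fun r => by rw [← hL0]; exact hLmono (Nat.zero_le r)
  obtain ⟨r₀, hr₀⟩ := htSL (1 / 4) (by norm_num)
  set C₁ := t r₀ with hC₁
  have ht4 : ∀ r, 4 * t r ≤ r + 4 * C₁ := by
    intro r
    rcases le_total r r₀ with h | h
    · have := htmono h
      omega
    · have h1 := hr₀ r h
      simp only at h1
      have h2 : (4 * t r : ℝ) ≤ r := by linarith
      have h3 : 4 * t r ≤ r := by exact_mod_cast h2
      omega
  set C := 2 + 4 * C₁ with hC
  set u : ℕ → ℕ := fun n => t (2 * n + C) with hu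
  set A : ℝ := Real.log β + 2 + ((g : ℝ) + (R₀ + 7 * δ)) * Real.log Δ with hA
  set ψ : ℕ → ℝ := fun n => L (n + 1 + 2 * u n) + 2 * θ * u n + A with hψ
  set H : ℕ → ℝ := fun n => Real.exp (n * θ + ψ n) with hH
  have hHpos : ∀ n, 0 < H n := fun n => Real.exp_pos _
  have hlogβ : 0 ≤ Real.log β := Real.log_nonneg (by exact_mod_cast hβpos)
  have hlogΔ : 0 ≤ Real.log Δ := Real.log_nonneg hΔr
  have hψSL : SubLin ψ := by
    have h1 : SubLin (fun n => L (2 * n + (C + 1 + 2 * C₁))) :=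
      hLSL.comp_affine 2 _ (by norm_num)
    have h2 : SubLin (fun n => 2 * θ * (t (2 * n + C) : ℝ)) :=
      (htSL.comp_affine 2 C (by norm_num)).const_mul (by positivity)
    refine ((h1.add h2).add (subLin_const A)).of_le ?_
    intro n
    simp only [hψ, hu]
    have h3 : n + 1 + 2 * t (2 * n + C) ≤ 2 * n + (C + 1 + 2 * C₁) := by
      have := ht4 (2 * n + C)
      omega
    have h4 := hLmono h3
    linarith
  -- the claim
  have claim : ∃ y₁ : Σ i, W i, ∀ n : ℕ, (bs d y₁ n : ℝ) ≤ ((n : ℝ) + 2) ^ 2 * H n := by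
    by_contra hcon
    push Not at hcon
    -- compactness: a uniform bound on the scales
    have hn₀ : ∃ n₀ : ℕ, ∀ y : Σ i, W i, ∃ n ≤ n₀, ((n : ℝ) + 2) ^ 2 * H n < (bs d y n : ℝ) := by
      by_contra hc2
      push Not at hc2
      choose s hs using hc2
      obtain ⟨y, hy⟩ := hP.compact s
      obtain ⟨n, hn⟩ := hcon y
      obtain ⟨j, hj, hjn⟩ := hy n n
      have h1 := hs j n hj
      rw [← hjn n le_rfl] at h1
      linarith
    obtain ⟨n₀, hn₀⟩ := hn₀
    set Rmax := 2 * (n₀ + 1 + 2 * C₁) with hRmax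
    set M₀ := n₀ + 1 + 2 * t Rmax with hM₀
    have hM₀R : M₀ ≤ Rmax := by
      have := ht4 Rmax
      omega
    obtain ⟨ε₁, hε₁, hkeyR⟩ := hkey Rmax
    have hM₀pos : (0 : ℝ) < M₀ := by
      have : 0 < M₀ := by omega
      exact_mod_cast this
    set ε := min ε₁ (1 / M₀) with hε
    have hεpos : 0 < ε := lt_min hε₁ (by positivity)
    have hεle : ε ≤ ε₁ := min_le_left _ _
    have hεM : ε * M₀ ≤ 1 := by
      have : ε ≤ 1 / M₀ := min_le_right _ _
      calc ε * M₀ ≤ 1 / M₀ * M₀ := by gcongr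
        _ = 1 := by field_simp
    set μ := θ + ε with hμ
    have hμ0 : 0 ≤ μ := by positivity
    set G : ℕ → ℕ → ℝ := fun M r => Real.exp (M * μ - M₀ * μ - L r) with hG
    -- apply the induction in every object
    have hmain : ∀ (i : ι) (x c : W i) (M : ℕ),
        G M (n₀ + 1) ≤ ((Fan (d i) x (R₀ + 5 * δ) c M).ncard : ℝ) := by
      intro i x c M
      have hkill : ∀ y, ∃ n ∈ {n | n ≤ n₀}, ∃ z m, d i x z + d i z y = d i x y ∧
          d i z y + m ≤ n + 1 ∧ Big (d i) H x δ z m n := by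
        intro y
        obtain ⟨n, hn, hbig⟩ := hn₀ ⟨i, y⟩
        exact ⟨n, hn, exists_killer (hm i) (hF i) (hfin i) (hHpos n).le hbig⟩
      have hbigm : ∀ n ∈ {n | n ≤ n₀}, ∀ v m, Big (d i) H x (R₀ + 7 * δ) v m n → g ≤ m := by
        intro n _ v m hbig
        by_contra hlt
        rw [not_le] at hlt
        have h1 : H n ≤ (Δ : ℝ) ^ (m + (R₀ + 7 * δ)) := le_trans hbig (hfanle _ _ _ _ _)
        have h2 : (Δ : ℝ) ^ (m + (R₀ + 7 * δ)) ≤ (Δ : ℝ) ^ (g + (R₀ + 7 * δ)) :=
          pow_le_pow_right₀ hΔr (by omega)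
        have h3 : (Δ : ℝ) ^ (g + (R₀ + 7 * δ)) =
            Real.exp (((g : ℝ) + (R₀ + 7 * δ)) * Real.log Δ) := by
          rw [← Real.log_rpow (by linarith), Real.exp_log (by positivity)]
          have : ((g : ℝ) + (R₀ + 7 * δ)) = ((g + (R₀ + 7 * δ) : ℕ) : ℝ) := by push_cast; ring
          rw [this, Real.rpow_natCast]
        rw [h3] at h2
        have h4 := h1.trans h2
        rw [hH] at h4
        simp only at h4
        rw [Real.exp_le_exp] at h4
        have h5 : 0 ≤ (n : ℝ) * θ := by positivity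
        have h6 : 0 ≤ 2 * θ * (u n : ℝ) := by positivity
        have h7 := hLnn (n + 1 + 2 * u n)
        simp only [hψ, hA] at h4
        linarith
      refine main_induction (hm i) (hF i) (hND i) (hfin i) hβpos (hβ i) hkill g (by omega)
        hbigm (fun t => (Φ t : ℝ)) (fun v t => by exact_mod_cast hΦle i x v t) t htg Rmax M₀ G
        (fun _ _ => (Real.exp_pos _).le) ?_ ?_ ?_ M c (n₀ + 1) (by omega)
        (inv_start n₀ (fun n hn => hn) c)
      · -- small M
        intro M hM r _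
        simp only [hG]
        rw [Real.exp_le_one_iff]
        have h1 : (M : ℝ) * μ ≤ M₀ * μ := by
          have : (M : ℝ) ≤ M₀ := by exact_mod_cast hM.le
          gcongr
        have := hLnn r
        linarith
      · -- rerouting
        intro n hn m r hr hgm hlt
        have hn' : n ≤ n₀ := hn
        have htr : t r ≤ t Rmax := htmono hr
        refine ⟨by omega, by omega, fun M hM => ?_⟩
        have hr2 : r ≤ 2 * n + C := by
          have := ht4 r
          omega
        have htu : t r ≤ u n := htmono hr2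
        simp only [hG, hH]
        rw [← Real.exp_log hβr, ← Real.exp_add, ← Real.exp_add, Real.exp_le_exp]
        rw [Nat.cast_sub hM]
        have h1 : L (n + 1 + 2 * t r) ≤ L (n + 1 + 2 * u n) := hLmono (by omega)
        have h2 : (m : ℝ) ≤ n + 2 * u n := by
          have : m ≤ n + 2 * u n := by omega
          exact_mod_cast this
        have h3 : (m : ℝ) * θ ≤ (n + 2 * u n) * θ := by gcongr
        have h4 : ε * m ≤ 1 := by
          have : (m : ℝ) ≤ M₀ := by
            have : m ≤ M₀ := by omega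
            exact_mod_cast this
          calc ε * m ≤ ε * M₀ := by gcongr
            _ ≤ 1 := hεM
        have h5 := hLnn r
        have h6 : 0 ≤ ((g : ℝ) + (R₀ + 7 * δ)) * Real.log Δ := by positivity
        simp only [hψ, hA, hμ]
        nlinarith
      · -- baseline
        intro r hr htr
        refine ⟨by have := htmono hr; omega, fun M hM => ?_⟩
        have h1 := hkeyR r hr htr
        have hΦp : (0 : ℝ) < Φ (t r) := by exact_mod_cast hΦpos (t r)
        simp only [hG]
        rw [← Real.exp_log hβr, ← Real.exp_log hΦp, ← Real.exp_add, ← Real.exp_add,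
          Real.exp_le_exp, Nat.cast_sub hM]
        simp only [ha] at h1
        have h2 : ε * (t r : ℝ) ≤ ε₁ * t r := by gcongr
        simp only [hμ]
        nlinarith
    -- contradiction with the definition of `l`
    have hexpS : Real.exp μ ∈ S := by
      refine ⟨Real.one_le_exp hμ0, Real.exp (-((5 * δ : ℕ) * μ) - M₀ * μ - L (n₀ + 1)),
        Real.exp_pos _, ?_⟩
      intro T i x v
      rw [← Real.exp_nat_mul, ← Real.exp_add]
      rcases le_total (5 * δ) T with hT | hT
      · obtain ⟨v', hv1, hv2⟩ := hND i x v (5 * δ)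
        have hsub : Fan (d i) x (R₀ + 5 * δ) v' (T - 5 * δ) ⊆ Fan (d i) x R₁ v T := by
          have h1 := fan_sub_of_trans (m := T - 5 * δ) (ρ' := R₀ + 5 * δ) (hF i) hv1
            (show Sh (d i) x R₀ v v' from hv2) (by omega)
          have h2 : 5 * δ + (T - 5 * δ) = T := by omega
          rwa [h2] at h1
        have h3 : ((Fan (d i) x (R₀ + 5 * δ) v' (T - 5 * δ)).ncard : ℝ) ≤
            ((Fan (d i) x R₁ v T).ncard : ℝ) := by
          exact_mod_cast Set.ncard_le_ncard hsub (hfanfin i x _ v _)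
        refine le_trans ?_ ((hmain i x v' (T - 5 * δ)).trans h3)
        simp only [hG]
        rw [Real.exp_le_exp, Nat.cast_sub hT]
        apply le_of_eq
        ring
      · have h1 : (1 : ℝ) ≤ ((Fan (d i) x R₁ v T).ncard : ℝ) := by
          exact_mod_cast hfanpos i x R₁ v T (by omega)
        refine le_trans ?_ h1
        rw [Real.exp_le_one_iff]
        have h2 : (T : ℝ) * μ ≤ ((5 * δ : ℕ) : ℝ) * μ := by
          have : (T : ℝ) ≤ ((5 * δ : ℕ) : ℝ) := by exact_mod_cast hT
          gcongr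
        have h3 := hLnn (n₀ + 1)
        have h4 : 0 ≤ (M₀ : ℝ) * μ := by positivity
        linarith
    have h1 := le_csSup hSbdd hexpS
    rw [← hl] at h1
    have h2 : μ ≤ θ := by
      have := Real.log_le_log (Real.exp_pos μ) h1
      rwa [Real.log_exp] at this
    linarith
  -- conclusion
  obtain ⟨y₁, hy₁⟩ := claim
  refine ⟨y₁, fun y r hadm r' hr' => ?_⟩
  obtain ⟨K, hK⟩ := hadm
  have hb1 : ∀ n, (1 : ℝ) ≤ (bs d y n : ℝ) := fun n => by exact_mod_cast hballpos y.1 y.2 n
  have hK1 : 1 ≤ K := by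
    have h1 := (hb1 0).trans (hK 0)
    rwa [pow_zero, mul_one] at h1
  have hrpos : 0 < r := by
    have := (hb1 1).trans (hK 1)
    rw [pow_one] at this
    by_contra hneg
    rw [not_lt] at hneg
    nlinarith
  have hlr : l ≤ r := by
    apply csSup_le ⟨1, h1S⟩
    rintro m ⟨hm1, c, hc, h⟩
    apply le_of_forall_pow_le (C := K) hc (by linarith) hrpos
    intro n
    refine (h n y.1 y.2 y.2).trans (le_trans ?_ (hK n))
    have hsub : Fan (d y.1) y.2 R₁ y.2 n ⊆ {w | d y.1 y.2 w ≤ n} := by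
      rintro w ⟨hw, _⟩
      rw [(hm y.1).self] at hw
      show d y.1 y.2 w ≤ n
      omega
    exact_mod_cast Set.ncard_le_ncard hsub (hfin _ _ _)
  have hr'pos : 0 < r' := hrpos.trans hr'
  have hηpos : 0 < Real.log r' - θ := by
    have h1 : l < r' := lt_of_le_of_lt hlr hr'
    have h2 := Real.log_lt_log (by linarith) h1
    linarith
  obtain ⟨N, hN⟩ := (subLin_two_log.add hψSL) (Real.log r' - θ) hηpos
  apply adm_of_eventually (N := N) hr'pos
  intro n hn
  refine (hy₁ n).trans ?_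
  have h1 := hN n hn
  have h2 : ((n : ℝ) + 2) ^ 2 = Real.exp (2 * Real.log ((n : ℝ) + 2)) := by
    rw [show (2 : ℝ) * Real.log ((n : ℝ) + 2) = ((2 : ℕ) : ℝ) * Real.log ((n : ℝ) + 2) by
      norm_num, Real.exp_nat_mul, Real.exp_log (by positivity)]
  have h3 : r' ^ n = Real.exp (n * Real.log r') := by
    rw [Real.exp_nat_mul, Real.exp_log hr'pos]
  rw [h2, h3]
  simp only [hH]
  rw [← Real.exp_add, Real.exp_le_exp]
  nlinarith

end NB

end Tess
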