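import Pool.Agent.Work.MP_8c67d3_co.Interface

/-!
# Transfer toolkit (T0)
-/

set_option autoImplicit false

namespace Tess

namespace CMap

variable {D : Type} (M : CMap D)

@[simp] theorem run_nil (d : D) : M.run [] d = d := rfl

@[simp] theorem run_cons_true (w : List Bool) (d : D) :
    M.run (true :: w) d = M.rot (M.run w d) := rfl

@[simp] theorem run_cons_false (w : List Bool) (d : D) :
    M.run (false :: w) d = M.inv (M.run w d) := rfl

theorem run_append (w w' : List Bool) (d : D) : M.run (w ++ w') d = M.run w (M.run w' d) := by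
  unfold run; rw [List.foldr_append]

/-- The word for `rot ^ i`. -/
def rw' (i : ℕ) : List Bool := List.replicate i true

/-- The word for `face ^ i`. -/
def fw : ℕ → List Bool
  | 0 => []
  | n + 1 => false :: true :: fw n

@[simp] theorem length_rw' (i : ℕ) : (rw' i).length = i := by simp [rw']

@[simp] theorem length_fw (i : ℕ) : (fw i).length = 2 * i := by
  induction i with
  | zero => rfl
  | succ n ih => simp only [fw, List.length_cons, ih]; ring

@[simp] theorem run_rw' (i : ℕ) (d : D) : M.run (rw' i) d = (M.rot ^ i) d := by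
  induction i with
  | zero => rfl
  | succ n ih =>
    have : rw' (n + 1) = true :: rw' n := rfl
    rw [this, run_cons_true, ih, pow_succ', Equiv.Perm.mul_apply]

@[simp] theorem run_fw (i : ℕ) (d : D) : M.run (fw i) d = (M.face ^ i) d := by
  induction i with
  | zero => rfl
  | succ n ih =>
    rw [fw, run_cons_false, run_cons_true, ih, pow_succ', Equiv.Perm.mul_apply]
    rfl

theorem run_rw'_append (i : ℕ) (w : List Bool) (d : D) :
    M.run (rw' i ++ w) d = (M.rot ^ i) (M.run w d) := by
  rw [run_append, run_rw']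

theorem run_fw_append (i : ℕ) (w : List Bool) (d : D) :
    M.run (fw i ++ w) d = (M.face ^ i) (M.run w d) := by
  rw [run_append, run_fw]

end CMap

open CMap

theorem Agree.mono {L L' : ℕ} {D D' : Type} {M : CMap D} {d : D} {M' : CMap D'} {d' : D'}
    (h : Agree L M d M' d') (hL : L' ≤ L) : Agree L' M d M' d' :=
  fun w w' hw hw' => h w w' (hw.trans hL) (hw'.trans hL)

theorem Agree.symm {L : ℕ} {D D' : Type} {M : CMap D} {d : D} {M' : CMap D'} {d' : D'}
    (h : Agree L M d M' d') : Agree L M' d' M d :=
  fun w w' hw hw' => (h w w' hw hw').symm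

theorem minimalPeriod_transfer {D D' : Type} {π : Equiv.Perm D} {π' : Equiv.Perm D'} {e : D}
    {e' : D'} {Δ : ℕ} (h : ∀ i ≤ Δ, (π ^ i) e = e ↔ (π' ^ i) e' = e')
    (hpos : 0 < Function.minimalPeriod π e) (hle : Function.minimalPeriod π e ≤ Δ) :
    Function.minimalPeriod π' e' = Function.minimalPeriod π e := by
  have h1 : (π' ^ Function.minimalPeriod π e) e' = e' :=
    (h _ hle).1 (pow_minimalPeriod π e)
  have h2 : Function.IsPeriodicPt π' (Function.minimalPeriod π e) e' := by
    unfold Function.IsPeriodicPt Function.IsFixedPt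
    rw [iterate_eq_pow']; exact h1
  have h3 : 0 < Function.minimalPeriod π' e' := h2.minimalPeriod_pos hpos
  have h4 : Function.minimalPeriod π' e' ≤ Function.minimalPeriod π e := h2.minimalPeriod_le hpos
  have h5 : (π ^ Function.minimalPeriod π' e') e = e :=
    (h _ (h4.trans hle)).2 (pow_minimalPeriod π' e')
  have h6 : Function.IsPeriodicPt π (Function.minimalPeriod π' e') e := by
    unfold Function.IsPeriodicPt Function.IsFixedPt
    rw [iterate_eq_pow']; exact h5
  exact le_antisymm h4 (h6.minimalPeriod_le h3)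

section

variable {D D' : Type} {M : CMap D} {d : D} {M' : CMap D'} {d' : D'} {L Δ : ℕ}

theorem Agree.rot_pow (h : Agree L M' d' M d) {w w' : List Bool} {i : ℕ} (hw : w.length + i ≤ L)
    (hw' : w'.length ≤ L) :
    (M.rot ^ i) (M.run w d) = M.run w' d ↔ (M'.rot ^ i) (M'.run w d') = M'.run w' d' := by
  rw [← run_rw'_append, ← run_rw'_append]
  refine (h _ _ ?_ hw').symm
  rw [List.length_append, length_rw']; omega

theorem Agree.face_pow (h : Agree L M' d' M d) {w w' : List Bool} {i : ℕ}
    (hw : w.length + 2 * i ≤ L) (hw' : w'.length ≤ L) :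
    (M.face ^ i) (M.run w d) = M.run w' d ↔ (M'.face ^ i) (M'.run w d') = M'.run w' d' := by
  rw [← run_fw_append, ← run_fw_append]
  refine (h _ _ ?_ hw').symm
  rw [List.length_append, length_fw]; omega

/-- Transfer of valences. Only `M` needs to be known to be bounded. -/
theorem Agree.val_eq (h : Agree L M' d' M d) {w : List Bool} (hpos : 0 < M.val (M.run w d))
    (hle : M.val (M.run w d) ≤ Δ) (hw : w.length + Δ ≤ L) :
    M'.val (M'.run w d') = M.val (M.run w d) := by
  apply minimalPeriod_transfer (Δ := Δ) _ hpos hle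
  intro i hi
  exact h.rot_pow (by omega) (by omega)

/-- Transfer of the lengths of faces. -/
theorem Agree.face_eq (h : Agree L M' d' M d) {w : List Bool}
    (hpos : 0 < Function.minimalPeriod M.face (M.run w d))
    (hle : Function.minimalPeriod M.face (M.run w d) ≤ Δ) (hw : w.length + 2 * Δ ≤ L) :
    Function.minimalPeriod M'.face (M'.run w d') =
      Function.minimalPeriod M.face (M.run w d) := by
  apply minimalPeriod_transfer (Δ := Δ) _ hpos hle
  intro i hi
  exact h.face_pow (by omega) (by omega)

/-- Transfer of equality of vertices. -/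
theorem Agree.vert_iff (h : Agree L M' d' M d) {w w' : List Bool}
    (hpos : 0 < M.val (M.run w d)) (hle : M.val (M.run w d) ≤ Δ)
    (hw : w.length + Δ ≤ L) (hw' : w'.length ≤ L) :
    M'.vert (M'.run w d') = M'.vert (M'.run w' d') ↔
      M.vert (M.run w d) = M.vert (M.run w' d) := by
  have hv := h.val_eq hpos hle hw
  rw [vert_eq_iff_lt _ hpos, vert_eq_iff_lt _ (by rw [hv]; exact hpos), hv]
  constructor
  · rintro ⟨i, hi, h1⟩
    exact ⟨i, hi, (h.rot_pow (by omega) hw').2 h1⟩
  · rintro ⟨i, hi, h1⟩
    exact ⟨i, hi, (h.rot_pow (by omega) hw').1 h1⟩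

/-- Transfer of equality of faces. -/
theorem Agree.fac_iff (h : Agree L M' d' M d) {w w' : List Bool}
    (hpos : 0 < Function.minimalPeriod M.face (M.run w d))
    (hle : Function.minimalPeriod M.face (M.run w d) ≤ Δ)
    (hw : w.length + 2 * Δ ≤ L) (hw' : w'.length ≤ L) :
    M'.fac (M'.run w d') = M'.fac (M'.run w' d') ↔
      M.fac (M.run w d) = M.fac (M.run w' d) := by
  have hv := h.face_eq hpos hle hw
  rw [fac_eq_iff_lt _ hpos, fac_eq_iff_lt _ (by rw [hv]; exact hpos), hv]
  constructor
  · rintro ⟨i, hi, h1⟩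
    exact ⟨i, hi, (h.face_pow (by omega) hw').2 h1⟩
  · rintro ⟨i, hi, h1⟩
    exact ⟨i, hi, (h.face_pow (by omega) hw').1 h1⟩

/-- The dart `e` of the approximating map lies over a vertex reached by a short word: then `e`
itself is reached by a short word. -/
theorem exists_word_of_vert_eq {w : List Bool} {e : D} (hpos : 0 < M.val (M.run w d))
    (he : M.vert (M.run w d) = M.vert e) :
    ∃ i < M.val (M.run w d), M.run (rw' i ++ w) d = e := by
  obtain ⟨i, hi, h⟩ := (vert_eq_iff_lt M hpos).1 he
  exact ⟨i, hi, by rw [run_rw'_append]; exact h⟩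

theorem exists_word_of_fac_eq {w : List Bool} {e : D}
    (hpos : 0 < Function.minimalPeriod M.face (M.run w d))
    (he : M.fac (M.run w d) = M.fac e) :
    ∃ i < Function.minimalPeriod M.face (M.run w d), M.run (fw i ++ w) d = e := by
  obtain ⟨i, hi, h⟩ := (fac_eq_iff_lt M hpos).1 he
  exact ⟨i, hi, by rw [run_fw_append]; exact h⟩

end

/-! ### valences in a face-homogeneous map -/

section HasSeq

variable {D : Type} {M : CMap D} {σ : List ℕ}

theorem CMap.HasSeq.face_len (h : M.HasSeq σ) (d : D) :
    Function.minimalPeriod M.face d = σ.length := (h d).1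

/-- The valences around a face are the entries of `σ` in some order. -/
theorem CMap.HasSeq.perm (h : M.HasSeq σ) (d : D) : (M.word σ.length d).Perm σ := by
  rcases (h d).2 with h | h
  · exact h.perm
  · exact h.perm.trans (List.reverse_perm σ)

theorem CMap.HasSeq.val_mem (h : M.HasSeq σ) (hσ : 0 < σ.length) (d : D) : M.val d ∈ σ := by
  rw [← (h.perm d).mem_iff]
  unfold CMap.word
  rw [List.mem_ofFn]
  exact ⟨⟨0, hσ⟩, by simp⟩

theorem le_sum_of_mem' {l : List ℕ} {a : ℕ} (h : a ∈ l) : a ≤ l.sum := List.le_sum_of_mem h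

/-- The standing assumptions hold in a face-homogeneous tessellation. -/
theorem CMap.IsTess.pre (hT : M.IsTess) (h : M.HasSeq σ) (hσ : 0 < σ.length) :
    M.Pre (σ.length + σ.sum) where
  infinite := hT.infinite
  connected := hT.connected
  val_pos := hT.locally_finite
  val_le d := (le_sum_of_mem' (h.val_mem hσ d)).trans (Nat.le_add_left _ _)
  face_pos := hT.finite_faces
  face_le d := by rw [h.face_len]; exact Nat.le_add_right _ _

end HasSeq

end Tess
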